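import Mathlib

/-!
Project LE (MP_d7f1f6_an): definitions.
-/

set_option autoImplicit false

open MeasureTheory Set Filter Topology

namespace Pool.Agent.Helper78.LE

/-! ### The problem's notions -/

abbrev EV (n : ℕ) := EuclideanSpace ℝ (Fin n)

/-- logarithmic energy of a finite family, ordered pairs `i ≠ j` -/
noncomputable def logEnergy {n N : ℕ} (x : Fin N → EV n) : ℝ :=
  ∑ i, ∑ j, if i = j then 0 else -Real.log ‖x i - x j‖

/-- minimal logarithmic energy of `N` distinct points on the unit sphere of `ℝ^(d+1)` -/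
noncomputable def minLog (d N : ℕ) : ℝ :=
  sInf {e : ℝ | ∃ x : Fin N → EV (d + 1),
    (∀ i, ‖x i‖ = 1) ∧ Function.Injective x ∧ e = logEnergy x}

/-- surface measure of the unit sphere of `ℝ^(d+1)` -/
noncomputable def sphMeas (d : ℕ) : Measure (Metric.sphere (0 : EV (d + 1)) 1) :=
  (volume : Measure (EV (d + 1))).toSphere

/-- the surface area -/
noncomputable def sphArea (d : ℕ) : ℝ := (sphMeas d Set.univ).toReal

noncomputable def Vlog (d : ℕ) : ℝ :=
  (∫ x, ∫ y, -Real.log ‖(x : EV (d + 1)) - (y : EV (d + 1))‖ ∂(sphMeas d) ∂(sphMeas d)) /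
    sphArea d ^ 2

/-! ### Lattice coordinates -/

variable {d : ℕ} (b : Module.Basis (Fin d) ℝ (EV d))

/-- the linear map `s ↦ ∑ s_i b_i` -/
noncomputable def lin (s : Fin d → ℝ) : EV d := ∑ i, s i • b i

noncomputable def covol : ℝ := (volume (ZSpan.fundamentalDomain b)).toReal

/-- conformal factor of the stereographic projection -/
noncomputable def cfac (y : EV d) : ℝ := 2 / (1 + ‖y‖ ^ 2)

/-- log of the conformal factor in lattice coordinates -/
noncomputable def ell (s : Fin d → ℝ) : ℝ := Real.log (cfac (lin b s))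

/-- the kernel `-log |Ψ(L s) - Ψ(L s')|` in lattice coordinates (for `s ≠ s'`) -/
noncomputable def kern (s s' : Fin d → ℝ) : ℝ :=
  -Real.log ‖lin b (s - s')‖ - ell b s / 2 - ell b s' / 2

/-- the density of the normalised surface measure in lattice coordinates -/
noncomputable def dens (s : Fin d → ℝ) : ℝ :=
  covol b / sphArea d * cfac (lin b s) ^ d

/-- `F = -log |L ·|` (with `F 0 = 0`) -/
noncomputable def FF (s : Fin d → ℝ) : ℝ := -Real.log ‖lin b s‖

/-- lattice vector -/
noncomputable def latVec (n : Fin d → ℤ) : EV d := ∑ i, (n i : ℝ) • b i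

/-- `Z` is the (unique) analytic continuation of the lattice zeta function to `Re s > -1`,
`s ≠ d`. -/
def IsZeta (Z : ℂ → ℂ) : Prop :=
  (∀ s : ℂ, -1 < s.re → s ≠ d → DifferentiableAt ℂ Z s) ∧
  ∀ s : ℂ, (d : ℝ) < s.re →
    Z s = ∑' n : {n : Fin d → ℤ // n ≠ 0}, ((‖latVec b n.1‖ : ℝ) : ℂ) ^ (-s)

/-! ### Splines and windows -/

/-- B-spline of order `k+1`: density of a sum of `k+1` independent uniform variables on `[0,1]` -/
noncomputable def spl : ℕ → ℝ → ℝ
  | 0 => Set.indicator (Set.Ico 0 1) (fun _ => 1)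
  | k + 1 => fun x => ∫ t in (x - 1)..x, spl k t

/-- one dimensional window -/
noncomputable def win (k m : ℕ) (s : ℝ) : ℝ := ∑ i ∈ Finset.range m, spl k (s - i)

/-- tensor product window -/
noncomputable def Win (k m : ℕ) (p : Fin d → ℝ) : ℝ := ∏ i, win k m (p i)

/-- autocorrelation of the spline -/
noncomputable def aut (k : ℕ) (y : ℝ) : ℝ := ∫ p, spl k p * spl k (p + y)

/-- the law with density `aut k` -/
noncomputable def autM (k : ℕ) : Measure ℝ :=
  volume.withDensity (fun y => ENNReal.ofReal (aut k y))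

/-- the law on the integers with weights `aut k v` -/
noncomputable def autD (k : ℕ) : Measure ℝ :=
  ∑ v ∈ Finset.Icc (-(k + 1 : ℤ)) (k + 1), ENNReal.ofReal (aut k v) • Measure.dirac (v : ℝ)

/-- integer vector as a real vector -/
def iv (x : Fin d → ℤ) : Fin d → ℝ := fun i => (x i : ℝ)

/-- `Γ(x)` -/
noncomputable def Gam (k : ℕ) (x : Fin d → ℤ) : ℝ :=
  (∫ y, FF b (iv x + y) ∂(Measure.pi fun _ => autD k)) -
    ∫ y, FF b (iv x + y) ∂(Measure.pi fun _ => autM k)

/-- `B_W = ∑ Γ(i - i')` -/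
noncomputable def BW (k m : ℕ) : ℝ :=
  ∑ i : Fin d → Fin m, ∑ i' : Fin d → Fin m, Gam b k (fun l => ((i l : ℕ) : ℤ) - ((i' l : ℕ) : ℤ))

/-- the half open unit cube -/
def cube (d : ℕ) : Set (Fin d → ℝ) := Set.pi Set.univ fun _ => Set.Ico (0 : ℝ) 1

/-- index set of the lattice points of a window -/
abbrev IW (d k m : ℕ) := Fin d → Fin (m + k + 1)

/-- the point `n + u` -/
def pt {k m : ℕ} (n : IW d k m) (u : Fin d → ℝ) : Fin d → ℝ := fun i => ((n i : ℕ) : ℝ) + u i

end Pool.Agent.Helper78.LE
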