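import Mathlib
import Pool.Agent.Helper78.LE.Defs

/-!
Project LE (MP_d7f1f6_an), module LE0 (written by helper98): the linear map.
-/

set_option autoImplicit false

open MeasureTheory Set Filter Topology

namespace Pool.Agent.Helper78.LE

section LE0
variable {d : ℕ} (b : Module.Basis (Fin d) ℝ (EV d))

theorem covol_pos : 0 < covol b := by
  unfold covol
  apply ENNReal.toReal_pos
  · exact ZSpan.measure_fundamentalDomain_ne_zero b
  · exact (ZSpan.fundamentalDomain_isBounded b).measure_lt_top.ne

/-- `lin b` as a linear equivalence -/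
noncomputable def linEquiv : (Fin d → ℝ) ≃ₗ[ℝ] EV d := b.equivFun.symm

theorem linEquiv_apply (s : Fin d → ℝ) : linEquiv b s = lin b s := by
  unfold linEquiv lin
  rw [Module.Basis.equivFun_symm_apply]

theorem linEquiv_coe : (linEquiv b : (Fin d → ℝ) → EV d) = lin b :=
  funext (linEquiv_apply b)

theorem lin_add (s t : Fin d → ℝ) : lin b (s + t) = lin b s + lin b t := by
  rw [← linEquiv_apply, ← linEquiv_apply, ← linEquiv_apply, map_add]

theorem lin_sub (s t : Fin d → ℝ) : lin b (s - t) = lin b s - lin b t := by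
  rw [← linEquiv_apply, ← linEquiv_apply, ← linEquiv_apply, map_sub]

theorem lin_smul (c : ℝ) (s : Fin d → ℝ) : lin b (c • s) = c • lin b s := by
  rw [← linEquiv_apply, ← linEquiv_apply, map_smul]

theorem lin_eq_zero (s : Fin d → ℝ) : lin b s = 0 ↔ s = 0 := by
  rw [← linEquiv_apply, LinearEquiv.map_eq_zero_iff]

/-- `lin b` as a continuous linear equivalence -/
noncomputable def linCE : (Fin d → ℝ) ≃L[ℝ] EV d := (linEquiv b).toContinuousLinearEquiv

theorem linCE_apply (s : Fin d → ℝ) : linCE b s = lin b s := linEquiv_apply b s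

theorem linCE_coe : (linCE b : (Fin d → ℝ) → EV d) = lin b := funext (linCE_apply b)

theorem lin_continuous : Continuous (lin b) := by
  rw [← linCE_coe]
  exact (linCE b).continuous

theorem latVec_eq (n : Fin d → ℤ) : latVec b n = lin b (iv n) := rfl

/-- two sided bound by the sup norm -/
theorem lin_bounds : ∃ c C : ℝ, 0 < c ∧ 0 < C ∧ ∀ s : Fin d → ℝ,
    c * ‖s‖ ≤ ‖lin b s‖ ∧ ‖lin b s‖ ≤ C * ‖s‖ := by
  set f : (Fin d → ℝ) →L[ℝ] EV d := (linCE b : (Fin d → ℝ) →L[ℝ] EV d) with hf
  set g : EV d →L[ℝ] (Fin d → ℝ) := ((linCE b).symm : EV d →L[ℝ] (Fin d → ℝ)) with hg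
  refine ⟨1 / (‖g‖ + 1), ‖f‖ + 1, by positivity, by positivity, fun s => ⟨?_, ?_⟩⟩
  · have h1 : g (lin b s) = s := by
      rw [← linCE_apply]
      exact (linCE b).symm_apply_apply s
    have h2 := g.le_opNorm (lin b s)
    rw [h1] at h2
    have h3 : 0 < ‖g‖ + 1 := by positivity
    rw [one_div, inv_mul_le_iff₀ h3]
    have := norm_nonneg (lin b s)
    nlinarith
  · have h1 : f s = lin b s := linCE_apply b s
    have h2 := f.le_opNorm s
    rw [h1] at h2
    have := norm_nonneg s
    nlinarith

theorem preimage_fundamentalDomain :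
    lin b ⁻¹' (ZSpan.fundamentalDomain b) = Set.pi Set.univ fun _ => Set.Ico (0 : ℝ) 1 := by
  ext s
  rw [mem_preimage, ZSpan.mem_fundamentalDomain]
  simp only [Set.mem_pi, mem_univ, true_implies]
  have h : ∀ i, b.repr (lin b s) i = s i := by
    intro i
    rw [← linEquiv_apply]
    have h2 := congrFun (b.equivFun.apply_symm_apply s) i
    rw [Module.Basis.equivFun_apply] at h2
    exact h2
  simp only [h]

/-- change of variables `y = L s` -/
theorem map_lin : Measure.map (lin b) (volume : Measure (Fin d → ℝ)) =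
    (ENNReal.ofReal (covol b))⁻¹ • (volume : Measure (EV d)) := by
  have hcv : ENNReal.ofReal (covol b) = volume (ZSpan.fundamentalDomain b) := by
    unfold covol
    rw [ENNReal.ofReal_toReal]
    exact (ZSpan.fundamentalDomain_isBounded b).measure_lt_top.ne
  have hmu : Measure.IsAddHaarMeasure
      (Measure.map (lin b) (volume : Measure (Fin d → ℝ))) := by
    rw [← linCE_coe]
    exact ContinuousLinearEquiv.isAddHaarMeasure_map (linCE b) volume
  have hc := Measure.isAddLeftInvariant_eq_smul
    (Measure.map (lin b) (volume : Measure (Fin d → ℝ))) (volume : Measure (EV d))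
  have h1 : Measure.map (lin b) (volume : Measure (Fin d → ℝ))
      (ZSpan.fundamentalDomain b) = 1 := by
    rw [Measure.map_apply (lin_continuous b).measurable
      (ZSpan.fundamentalDomain_measurableSet b), preimage_fundamentalDomain, volume_pi_pi]
    simp
  rw [hc] at h1 ⊢
  generalize (Measure.map (lin b) (volume : Measure (Fin d → ℝ))).addHaarScalarFactor
    (volume : Measure (EV d)) = c at h1
  rw [Measure.smul_apply, ENNReal.smul_def, smul_eq_mul] at h1
  rw [hcv, ← ENNReal.eq_inv_of_mul_eq_one_left h1]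
  rfl

end LE0

end Pool.Agent.Helper78.LE
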