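import Mathlib
import Pool.Agent.Helper78.LE.Defs
import Pool.Agent.Helper78.LE.LE0

/-!
Project LE (MP_d7f1f6_an), module LE1 (written by helper98): stereographic projection.
-/

set_option autoImplicit false

open MeasureTheory Set Filter Topology

namespace Pool.Agent.Helper78.LE

section LE1
variable {d : ℕ} (b : Module.Basis (Fin d) ℝ (EV d))

theorem cfac_pos (y : EV d) : 0 < cfac y := by
  unfold cfac
  positivity

theorem cfac_mul (y : EV d) : cfac y * (1 + ‖y‖ ^ 2) = 2 := by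
  unfold cfac
  have : (1 + ‖y‖ ^ 2) ≠ 0 := by positivity
  field_simp

theorem cfac_le (y : EV d) : cfac y ≤ 2 := by
  unfold cfac
  rw [div_le_iff₀ (by positivity)]
  nlinarith [sq_nonneg ‖y‖]

theorem cfac_continuous : Continuous (cfac : EV d → ℝ) := by
  unfold cfac
  refine continuous_const.div (by fun_prop) (fun y => ?_)
  positivity

/-- inverse stereographic projection -/
noncomputable def stereo (y : EV d) : EV (d + 1) :=
  WithLp.toLp 2 (Fin.snoc (α := fun _ => ℝ) (fun i => cfac y * y i) (1 - cfac y))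

theorem norm_sq_EV {n : ℕ} (y : EV n) : ‖y‖ ^ 2 = ∑ i, (y i) ^ 2 := by
  rw [EuclideanSpace.norm_sq_eq]
  simp

theorem norm_stereo (y : EV d) : ‖stereo y‖ = 1 := by
  have h : ‖stereo y‖ ^ 2 = 1 := by
    rw [norm_sq_EV, Fin.sum_univ_castSucc]
    unfold stereo
    simp only [Fin.snoc_castSucc, Fin.snoc_last, mul_pow]
    rw [← Finset.mul_sum, ← norm_sq_EV]
    have := cfac_mul y
    have h2 : cfac y ^ 2 * ‖y‖ ^ 2 + (1 - cfac y) ^ 2 =
        cfac y * (cfac y * (1 + ‖y‖ ^ 2)) + 1 - 2 * cfac y := by ring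
    rw [h2, this]
    ring
  have h0 : 0 ≤ ‖stereo y‖ := norm_nonneg _
  nlinarith [sq_nonneg (‖stereo y‖ - 1)]

theorem norm_stereo_sub (y y' : EV d) :
    ‖stereo y - stereo y'‖ = ‖y - y'‖ * √(cfac y * cfac y') := by
  have hc := cfac_pos y
  have hc' := cfac_pos y'
  have h : ‖stereo y - stereo y'‖ ^ 2 = (‖y - y'‖ * √(cfac y * cfac y')) ^ 2 := by
    rw [mul_pow, Real.sq_sqrt (by positivity), norm_sq_EV, norm_sq_EV, Fin.sum_univ_castSucc]
    unfold stereo
    simp only [PiLp.sub_apply, Fin.snoc_castSucc, Fin.snoc_last]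
    have e1 : ∑ i, (cfac y * y i - cfac y' * y' i) ^ 2 =
        cfac y ^ 2 * ‖y‖ ^ 2 + cfac y' ^ 2 * ‖y'‖ ^ 2 -
          2 * cfac y * cfac y' * ∑ i, y i * y' i := by
      rw [norm_sq_EV, norm_sq_EV, Finset.mul_sum, Finset.mul_sum, Finset.mul_sum,
        ← Finset.sum_add_distrib, ← Finset.sum_sub_distrib]
      refine Finset.sum_congr rfl (fun i _ => ?_)
      ring
    have e2 : ∑ i, (y i - y' i) ^ 2 = ‖y‖ ^ 2 + ‖y'‖ ^ 2 - 2 * ∑ i, y i * y' i := by
      rw [norm_sq_EV, norm_sq_EV, Finset.mul_sum, ← Finset.sum_add_distrib,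
        ← Finset.sum_sub_distrib]
      refine Finset.sum_congr rfl (fun i _ => ?_)
      ring
    rw [e1, e2]
    have h1 := cfac_mul y
    have h2 := cfac_mul y'
    linear_combination (cfac y - cfac y') * h1 + (cfac y' - cfac y) * h2
  have h0 : 0 ≤ ‖stereo y - stereo y'‖ := norm_nonneg _
  have h1 : 0 ≤ ‖y - y'‖ * √(cfac y * cfac y') := by positivity
  exact (sq_eq_sq₀ h0 h1).1 h

theorem ell_le (s : Fin d → ℝ) : ell b s ≤ Real.log 2 :=
  Real.log_le_log (cfac_pos _) (cfac_le _)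

theorem kern_eq {s s' : Fin d → ℝ} (h : s ≠ s') :
    kern b s s' = -Real.log ‖stereo (lin b s) - stereo (lin b s')‖ := by
  have hne : ‖lin b (s - s')‖ ≠ 0 := by
    rw [norm_ne_zero_iff, Ne, lin_eq_zero, sub_eq_zero]
    exact h
  have hc := cfac_pos (lin b s)
  have hc' := cfac_pos (lin b s')
  rw [norm_stereo_sub, ← lin_sub, Real.log_mul hne (by positivity),
    Real.log_sqrt (by positivity), Real.log_mul hc.ne' hc'.ne']
  unfold kern ell
  ring

theorem kern_symm (s s' : Fin d → ℝ) : kern b s s' = kern b s' s := by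
  unfold kern
  have : ‖lin b (s - s')‖ = ‖lin b (s' - s)‖ := by
    rw [lin_sub, lin_sub, norm_sub_rev]
  rw [this]
  ring

theorem neg_log_two_le {n : ℕ} (x y : EV n) (hx : ‖x‖ = 1) (hy : ‖y‖ = 1) :
    -Real.log 2 ≤ -Real.log ‖x - y‖ := by
  have h2 : ‖x - y‖ ≤ 2 := by
    have := norm_sub_le x y
    linarith
  rcases (norm_nonneg (x - y)).eq_or_lt with h | h
  · rw [← h, Real.log_zero]
    have := Real.log_nonneg (one_le_two : (1:ℝ) ≤ 2)
    linarith
  · have := Real.log_le_log h h2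
    linarith

theorem kern_ge (s s' : Fin d → ℝ) : -Real.log 2 ≤ kern b s s' := by
  by_cases h : s = s'
  · subst h
    unfold kern
    rw [sub_self]
    have h0 : lin b 0 = 0 := (lin_eq_zero b 0).2 rfl
    rw [h0, norm_zero, Real.log_zero]
    have := ell_le b s
    linarith
  · rw [kern_eq b h]
    exact neg_log_two_le _ _ (norm_stereo _) (norm_stereo _)

theorem minLog_le (N : ℕ) (s : Fin N → Fin d → ℝ) (hs : Function.Injective s) :
    minLog d N ≤ ∑ i, ∑ j, if i = j then 0 else kern b (s i) (s j) := by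
  have hlin : ∀ u v : Fin d → ℝ, u ≠ v → stereo (lin b u) ≠ stereo (lin b v) := by
    intro u v huv he
    have h1 : ‖stereo (lin b u) - stereo (lin b v)‖ = 0 := by rw [he, sub_self, norm_zero]
    rw [norm_stereo_sub, ← lin_sub] at h1
    have hc := cfac_pos (lin b u)
    have hc' := cfac_pos (lin b v)
    have h2 : √(cfac (lin b u) * cfac (lin b v)) ≠ 0 := by positivity
    rcases mul_eq_zero.1 h1 with h3 | h3
    · rw [norm_eq_zero, lin_eq_zero, sub_eq_zero] at h3
      exact huv h3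
    · exact h2 h3
  unfold minLog
  apply csInf_le
  · refine ⟨∑ _i : Fin N, ∑ _j : Fin N, -Real.log 2, ?_⟩
    rintro e ⟨x, hx, -, rfl⟩
    unfold logEnergy
    refine Finset.sum_le_sum (fun i _ => Finset.sum_le_sum (fun j _ => ?_))
    split_ifs with hij
    · have := Real.log_nonneg (one_le_two : (1:ℝ) ≤ 2)
      linarith
    · exact neg_log_two_le _ _ (hx i) (hx j)
  · refine ⟨fun i => stereo (lin b (s i)), fun i => norm_stereo _, ?_, ?_⟩
    · intro i j hij
      by_contra hne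
      exact hlin _ _ (fun h => hne (hs h)) hij
    · unfold logEnergy
      refine Finset.sum_congr rfl (fun i _ => Finset.sum_congr rfl (fun j _ => ?_))
      split_ifs with hij
      · rfl
      · exact kern_eq b (fun h => hij (hs h))

theorem ell_continuous : Continuous (ell b) := by
  unfold ell
  exact (cfac_continuous.comp (lin_continuous b)).log (fun s => (cfac_pos _).ne')

theorem ell_eq (s : Fin d → ℝ) : ell b s = Real.log 2 - Real.log (1 + ‖lin b s‖ ^ 2) := by
  unfold ell cfac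
  rw [Real.log_div (by norm_num) (by positivity)]

theorem log_lip {a r t : ℝ} (ha : 0 ≤ a) (hr : 0 ≤ r) (ht : 0 ≤ t) (h : r ≤ a + t) :
    Real.log (1 + r ^ 2) - Real.log (1 + a ^ 2) ≤ 2 * t := by
  have h1 : 1 + r ^ 2 ≤ (1 + a ^ 2) * (1 + t) ^ 2 := by
    have h2 : r ^ 2 ≤ (a + t) ^ 2 := pow_le_pow_left₀ hr h 2
    have h3 : 0 ≤ t * (1 - a + a ^ 2) := mul_nonneg ht (by nlinarith [sq_nonneg (a - 1 / 2)])
    nlinarith [mul_nonneg (sq_nonneg t) (sq_nonneg a), sq_nonneg t]
  have h4 : Real.log (1 + r ^ 2) ≤ Real.log ((1 + a ^ 2) * (1 + t) ^ 2) :=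
    Real.log_le_log (by positivity) h1
  rw [Real.log_mul (by positivity) (by positivity), Real.log_pow] at h4
  have h5 : Real.log (1 + t) ≤ t := by
    have := Real.log_le_sub_one_of_pos (show (0:ℝ) < 1 + t by positivity)
    linarith
  push_cast at h4
  linarith

theorem ell_lip : ∃ C : ℝ, 0 < C ∧ ∀ s s' : Fin d → ℝ, |ell b s - ell b s'| ≤ C * ‖s - s'‖ := by
  obtain ⟨c, C, hc, hC, hb⟩ := lin_bounds b
  refine ⟨2 * C, by positivity, fun s s' => ?_⟩
  have h1 := (hb (s - s')).2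
  have h2 : ‖lin b s‖ ≤ ‖lin b s'‖ + ‖lin b (s - s')‖ := by
    rw [lin_sub]
    have := norm_sub_norm_le (lin b s) (lin b s')
    linarith
  have h3 : ‖lin b s'‖ ≤ ‖lin b s‖ + ‖lin b (s - s')‖ := by
    rw [lin_sub, norm_sub_rev]
    have := norm_sub_norm_le (lin b s') (lin b s)
    linarith
  have h4 := log_lip (norm_nonneg _) (norm_nonneg _) (norm_nonneg _) h2
  have h5 := log_lip (norm_nonneg _) (norm_nonneg _) (norm_nonneg _) h3
  rw [ell_eq, ell_eq, abs_le]
  constructor <;> linarith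

theorem ell_lower : ∃ C : ℝ, 0 < C ∧ ∀ s : Fin d → ℝ,
    Real.exp (-ell b s) ≤ C * (1 + ‖s‖ ^ 2) := by
  obtain ⟨c, C, hc, hC, hb⟩ := lin_bounds b
  refine ⟨1 + C ^ 2, by positivity, fun s => ?_⟩
  have h1 := (hb s).2
  have h2 : Real.exp (-ell b s) = (1 + ‖lin b s‖ ^ 2) / 2 := by
    unfold ell
    rw [Real.exp_neg, Real.exp_log (cfac_pos _)]
    unfold cfac
    rw [inv_div]
  rw [h2]
  have h3 : ‖lin b s‖ ^ 2 ≤ (C * ‖s‖) ^ 2 := pow_le_pow_left₀ (norm_nonneg _) h1 2
  nlinarith [sq_nonneg C, sq_nonneg ‖s‖, mul_nonneg (sq_nonneg C) (sq_nonneg ‖s‖)]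

end LE1

end Pool.Agent.Helper78.LE
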