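import Pool.Agent.Helper78.LE.Unfold

/-! Values of the series for `Re s > d`. -/

set_option autoImplicit false

open MeasureTheory Set Filter Topology

namespace Pool.Agent.Helper78.LE

variable {d : ℕ} (b : Module.Basis (Fin d) ℝ (EV d)) (k : ℕ)

/-- `|L y|^(-s)` off the origin -/
noncomputable def cF (s : ℂ) (y : Fin d → ℝ) : ℂ :=
  if y = 0 then 0 else ((‖lin b y‖ : ℝ) : ℂ) ^ (-s)

/-- `|L y|^(-s)` outside of the unit ball -/
noncomputable def cG (s : ℂ) (y : Fin d → ℝ) : ℂ :=
  if ‖lin b y‖ < 1 then 0 else ((‖lin b y‖ : ℝ) : ℂ) ^ (-s)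

noncomputable def GamC (s : ℂ) (x : Fin d → ℤ) : ℂ :=
  (∫ y, cF b s (iv x + y) ∂(Measure.pi fun _ => autD k)) -
    ∫ y, cG b s (iv x + y) ∂(Measure.pi fun _ => autM k)

/-- constant `ω_d / |Λ|` -/
noncomputable def om : ℝ := d * (volume (Metric.ball (0 : EV d) 1)).toReal / covol b

theorem summable_latVec (r : ℝ) (hr : (d : ℝ) < r) :
    Summable (fun n : Fin d → ℤ => ‖latVec b n‖ ^ (-r)) := by
  let L := Submodule.span ℤ (Set.range b)
  have hfr : Module.finrank ℤ L = d := by
    rw [Module.finrank_eq_card_basis (b.restrictScalars ℤ), Fintype.card_fin]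
  have h1 : Summable (fun z : L => ‖z‖ ^ (-r)) := by
    apply ZLattice.summable_norm_rpow L (-r)
    rw [hfr]
    linarith
  let e := (b.restrictScalars ℤ).equivFun.symm
  have h2 := h1.comp_injective e.injective
  refine h2.congr ?_
  intro n
  have h3 : ((e n : L) : EV d) = latVec b n := by
    have : e n = ∑ i, n i • (b.restrictScalars ℤ) i := Module.Basis.equivFun_symm_apply _ _
    rw [this]
    unfold latVec
    push_cast
    apply Finset.sum_congr rfl
    intro i _
    rw [Module.Basis.restrictScalars_apply]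
    exact (Int.cast_smul_eq_zsmul ℝ (n i) (b i)).symm
  simp only [Function.comp_apply]
  rw [← h3]
  rfl

/-- transfer of radial integrals -/
theorem integral_lin_norm {E : Type*} [NormedAddCommGroup E] [NormedSpace ℝ E] [CompleteSpace E]
    (hd : 0 < d) (g : ℝ → E) (hg : StronglyMeasurable g) :
    ∫ y, g ‖lin b y‖ = (om b) • ∫ r in Set.Ioi (0 : ℝ), r ^ (d - 1) • g r := by
  have hc := covol_pos b
  have h1 : ∫ y, g ‖lin b y‖ = ∫ z : EV d, g ‖z‖ ∂(Measure.map (lin b) volume) := by
    rw [integral_map (lin_continuous b).aemeasurable]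
    exact (hg.comp_measurable measurable_norm).aestronglyMeasurable
  have : Nontrivial (EV d) := by
    have : Nonempty (Fin d) := ⟨⟨0, hd⟩⟩
    infer_instance
  rw [h1, map_lin, integral_smul_measure, integral_fun_norm_addHaar]
  have h2 : Module.finrank ℝ (EV d) = d := by simp
  rw [h2, ENNReal.toReal_inv, ENNReal.toReal_ofReal hc.le]
  unfold om Measure.real
  rw [← Nat.cast_smul_eq_nsmul ℝ, smul_smul, smul_smul]
  congr 1
  field_simp

theorem integrable_lin_norm {E : Type*} [NormedAddCommGroup E] [NormedSpace ℝ E]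
    (hd : 0 < d) (g : ℝ → E) (hg : StronglyMeasurable g)
    (h : IntegrableOn (fun r : ℝ => r ^ (d - 1) • g r) (Set.Ioi (0 : ℝ))) :
    Integrable (fun y : Fin d → ℝ => g ‖lin b y‖) := by
  have hc := covol_pos b
  have h2 : Module.finrank ℝ (EV d) = d := by simp
  have : Nontrivial (EV d) := by
    have : Nonempty (Fin d) := ⟨⟨0, hd⟩⟩
    infer_instance
  have h3 : Integrable (fun z : EV d => g ‖z‖) := by
    rw [integrable_fun_norm_addHaar, h2]
    exact h
  have h4 : Integrable (fun z : EV d => g ‖z‖) (Measure.map (lin b) volume) := by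
    rw [map_lin]
    apply h3.smul_measure
    rw [ENNReal.inv_ne_top]
    exact (ENNReal.ofReal_pos.mpr hc).ne'
  exact h4.comp_measurable (lin_continuous b).measurable

theorem integral_cG (hd : 0 < d) (s : ℂ) (hs : (d : ℝ) < s.re) :
    Integrable (cG b s) ∧ ∫ y, cG b s y = om b / (s - d) := by
  set g : ℝ → ℂ := fun r => if r < 1 then 0 else ((r : ℝ) : ℂ) ^ (-s) with hg
  have hgm : StronglyMeasurable g := by
    apply Measurable.stronglyMeasurable
    apply Measurable.ite measurableSet_Iio measurable_const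
    exact (Complex.measurable_ofReal).pow_const _
  have hre : ((d : ℂ) - 1 - s).re < -1 := by
    simp
    linarith
  have hcongr : ∀ r ∈ Set.Ioi (0 : ℝ), r ^ (d - 1) • g r =
      (Set.Ici (1 : ℝ)).indicator (fun r : ℝ => (r : ℂ) ^ ((d : ℂ) - 1 - s)) r := by
    intro r hr
    by_cases h : r < 1
    · have h1 : r ∉ Set.Ici (1 : ℝ) := by simpa using h
      rw [Set.indicator_of_notMem h1]
      simp [hg, h]
    · have h1 : r ∈ Set.Ici (1 : ℝ) := not_lt.mp h
      rw [Set.indicator_of_mem h1]
      simp only [hg, h, if_false]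
      have hr0 : (r : ℂ) ≠ 0 := by exact_mod_cast (ne_of_gt hr)
      rw [Complex.real_smul]
      push_cast
      rw [sub_eq_add_neg ((d : ℂ) - 1) s, Complex.cpow_add _ _ hr0]
      congr 1
      rw [← Complex.cpow_natCast]
      congr 1
      rw [Nat.cast_sub hd]
      simp
  have hint1 : IntegrableOn (fun r : ℝ => (r : ℂ) ^ ((d : ℂ) - 1 - s)) (Set.Ioi (1 : ℝ)) :=
    integrableOn_Ioi_cpow_of_lt hre one_pos
  have hint2 : IntegrableOn (fun r : ℝ => (r : ℂ) ^ ((d : ℂ) - 1 - s)) (Set.Ici (1 : ℝ)) := by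
    rwa [integrableOn_Ici_iff_integrableOn_Ioi]
  constructor
  · have := integrable_lin_norm b hd g hgm (by
      rw [integrableOn_congr_fun hcongr measurableSet_Ioi]
      exact (hint2.integrable_indicator measurableSet_Ici).integrableOn)
    exact this
  · have h1 : ∫ y, cG b s y = ∫ y, g ‖lin b y‖ := rfl
    rw [h1, integral_lin_norm b hd g hgm, setIntegral_congr_fun measurableSet_Ioi hcongr,
      setIntegral_indicator measurableSet_Ici]
    have h2 : Set.Ioi (0 : ℝ) ∩ Set.Ici 1 = Set.Ici 1 := by
      ext r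
      simp only [Set.mem_inter_iff, Set.mem_Ioi, Set.mem_Ici]
      constructor
      · exact fun h => h.2
      · exact fun h => ⟨by linarith, h⟩
    rw [h2, integral_Ici_eq_integral_Ioi, integral_Ioi_cpow_of_lt hre one_pos]
    have h3 : s - d ≠ 0 := by
      intro h
      have : s.re = d := by
        have := congrArg Complex.re h
        simp at this
        linarith
      linarith
    have h4 : (d : ℂ) - 1 - s + 1 = -(s - d) := by ring
    rw [h4, Complex.ofReal_one, Complex.one_cpow, Complex.real_smul]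
    field_simp

theorem integral_log_unit (hd : 0 < d) :
    IntervalIntegrable (fun r : ℝ => r ^ (d - 1) * Real.log r) volume 0 1 ∧
      ∫ r in (0 : ℝ)..1, r ^ (d - 1) * Real.log r = -(1 / (d : ℝ) ^ 2) := by
  have hd0 : (d : ℝ) ≠ 0 := by positivity
  have hint : IntervalIntegrable (fun r : ℝ => r ^ (d - 1) * Real.log r) volume 0 1 :=
    (intervalIntegral.intervalIntegrable_log').continuousOn_mul
      ((continuous_pow (d - 1)).continuousOn)
  refine ⟨hint, ?_⟩
  have h1 : ∀ r ∈ Set.Ioo (0 : ℝ) 1, HasDerivAt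
      (fun r : ℝ => r ^ (d - 1) * (r * Real.log r) / d - r ^ d / (d : ℝ) ^ 2)
      (r ^ (d - 1) * Real.log r) r := by
    intro r hr
    have hr0 : r ≠ 0 := hr.1.ne'
    have e1 : HasDerivAt (fun r : ℝ => r ^ d * Real.log r / d - r ^ d / (d : ℝ) ^ 2)
        (((d : ℝ) * r ^ (d - 1) * Real.log r + r ^ d * r⁻¹) / d -
          (d : ℝ) * r ^ (d - 1) / (d : ℝ) ^ 2) r :=
      (((hasDerivAt_pow d r).mul (Real.hasDerivAt_log hr0)).div_const _).sub
        ((hasDerivAt_pow d r).div_const _)
    have e2 : ((d : ℝ) * r ^ (d - 1) * Real.log r + r ^ d * r⁻¹) / d -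
          (d : ℝ) * r ^ (d - 1) / (d : ℝ) ^ 2 = r ^ (d - 1) * Real.log r := by
      have : r ^ d = r ^ (d - 1) * r := by
        rw [← pow_succ, Nat.sub_add_cancel hd]
      rw [this]
      field_simp
      ring
    rw [e2] at e1
    apply e1.congr_of_eventuallyEq
    apply Filter.Eventually.of_forall
    intro r
    dsimp only
    have : r ^ d = r ^ (d - 1) * r := by
      rw [← pow_succ, Nat.sub_add_cancel hd]
    rw [this]
    ring
  have hcont : ContinuousOn
      (fun r : ℝ => r ^ (d - 1) * (r * Real.log r) / d - r ^ d / (d : ℝ) ^ 2) (Set.Icc 0 1) := by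
    apply Continuous.continuousOn
    have := Real.continuous_mul_log
    fun_prop
  rw [intervalIntegral.integral_eq_sub_of_hasDerivAt_of_le zero_le_one hcont h1 hint]
  simp
  omega

theorem integral_log_ball (hd : 0 < d) :
    Integrable (fun y => if ‖lin b y‖ < 1 then FF b y else 0) ∧
      ∫ y, (if ‖lin b y‖ < 1 then FF b y else 0) = om b / d ^ 2 := by
  obtain ⟨hint, hval⟩ := integral_log_unit hd
  set g : ℝ → ℝ := fun r => if r < 1 then -Real.log r else 0 with hg
  have hgm : StronglyMeasurable g := by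
    apply Measurable.stronglyMeasurable
    exact Measurable.ite measurableSet_Iio Real.measurable_log.neg measurable_const
  have hcongr : ∀ r ∈ Set.Ioi (0 : ℝ), r ^ (d - 1) • g r =
      (Set.Iio (1 : ℝ)).indicator (fun r : ℝ => -(r ^ (d - 1) * Real.log r)) r := by
    intro r hr
    by_cases h : r < 1
    · rw [Set.indicator_of_mem (show r ∈ Set.Iio (1 : ℝ) from h)]
      simp [hg, h]
    · rw [Set.indicator_of_notMem (show r ∉ Set.Iio (1 : ℝ) from h)]
      simp [hg, h]
  have h2 : Set.Ioi (0 : ℝ) ∩ Set.Iio 1 = Set.Ioo 0 1 := rfl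
  have hint2 : IntegrableOn (fun r : ℝ => -(r ^ (d - 1) * Real.log r)) (Set.Ioo 0 1) := by
    rw [intervalIntegrable_iff_integrableOn_Ioo_of_le zero_le_one] at hint
    exact hint.neg
  constructor
  · have := integrable_lin_norm b hd g hgm (by
      rw [integrableOn_congr_fun hcongr measurableSet_Ioi]
      rw [IntegrableOn, integrable_indicator_iff measurableSet_Iio, IntegrableOn,
        Measure.restrict_restrict measurableSet_Iio, Set.inter_comm, h2]
      exact hint2)
    exact this
  · have h1 : ∫ y, (if ‖lin b y‖ < 1 then FF b y else 0) = ∫ y, g ‖lin b y‖ := rfl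
    rw [h1, integral_lin_norm b hd g hgm, setIntegral_congr_fun measurableSet_Ioi hcongr,
      setIntegral_indicator measurableSet_Iio, h2, ← integral_Ioc_eq_integral_Ioo,
      ← intervalIntegral.integral_of_le zero_le_one, intervalIntegral.integral_neg, hval]
    rw [smul_eq_mul]
    ring

end Pool.Agent.Helper78.LE
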