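import Pool.Agent.Helper78.LE.LBDefs
import Pool.Agent.Helper78.LE.LE0
import Pool.Agent.Helper78.LE.LE1
import Pool.Agent.Helper78.LE.Values

/-!
Project LB, module LB9: the corridor construction.
-/

set_option autoImplicit false

open MeasureTheory Set Filter Topology

namespace Pool.Agent.Helper78.LE

namespace LB9

variable {d : ℕ}

/-- the standard basis -/
noncomputable def sb (d : ℕ) : Module.Basis (Fin d) ℝ (EV d) :=
  (EuclideanSpace.basisFun (Fin d) ℝ).toBasis

theorem covol_sb (d : ℕ) : covol (sb d) = 1 := by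
  unfold covol sb
  rw [measure_congr (ZSpan.fundamentalDomain_ae_parallelepiped _ _)]
  rw [OrthonormalBasis.coe_toBasis, OrthonormalBasis.volume_parallelepiped]
  simp

/-- diagonal basis -/
noncomputable def db (w : Fin d → ℝ) (hw : ∀ l, w l ≠ 0) : Module.Basis (Fin d) ℝ (EV d) :=
  (sb d).unitsSMul (fun l => Units.mk0 (w l) (hw l))

theorem covol_db (w : Fin d → ℝ) (hw : ∀ l, w l ≠ 0) : covol (db w hw) = |∏ l, w l| := by
  unfold covol
  rw [ZSpan.measure_fundamentalDomain (db w hw) volume (sb d)]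
  unfold db
  rw [Module.Basis.det_unitsSMul_self, ENNReal.toReal_mul]
  have := covol_sb d
  unfold covol at this
  rw [this, mul_one, ENNReal.toReal_ofReal (abs_nonneg _)]
  simp

theorem latVec_db (w : Fin d → ℝ) (hw : ∀ l, w l ≠ 0) (v : Fin d → ℤ) (l : Fin d) :
    latVec (db w hw) v l = w l * v l := by
  unfold latVec db sb
  simp only [Module.Basis.unitsSMul_apply, OrthonormalBasis.coe_toBasis,
    EuclideanSpace.basisFun_apply]
  rw [WithLp.ofLp_sum, Finset.sum_apply, Finset.sum_eq_single l]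
  · simp [Units.smul_def]
    ring
  · intro i _ hi
    simp [Units.smul_def, hi.symm]
  · simp

/-- integer Gaussian weight -/
noncomputable def EE (a : ℝ) (u : Fin d → ℤ) : ℝ := Real.exp (-(a * ∑ l, (u l : ℝ) ^ 2))

theorem EE_pos (a : ℝ) (u : Fin d → ℤ) : 0 < EE a u := Real.exp_pos _

theorem norm_latVec_sb (u : Fin d → ℤ) : ‖latVec (sb d) u‖ ^ 2 = ∑ l, (u l : ℝ) ^ 2 := by
  rw [norm_sq_EV]
  apply Finset.sum_congr rfl
  intro l _
  have h := latVec_db (fun _ : Fin d => (1 : ℝ)) (fun _ => one_ne_zero) u l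
  have h2 : db (fun _ : Fin d => (1 : ℝ)) (fun _ => one_ne_zero) = sb d := by
    unfold db
    apply Module.Basis.eq_of_apply_eq
    intro i
    simp [Module.Basis.unitsSMul_apply]
  rw [h2] at h
  rw [h, one_mul]

theorem EE_summable (a : ℝ) (ha : 0 < a) : Summable (fun u : Fin d → ℤ => EE a u) := by
  have h1 := summable_latVec (sb d) ((d : ℝ) + 1) (by linarith)
  -- exp(-a x^2) <= C x^(-(d+1))
  have h2 : Tendsto (fun x : ℝ => x ^ ((d : ℝ) + 1) * Real.exp (-a * x)) atTop (𝓝 0) := by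
    have := tendsto_rpow_mul_exp_neg_mul_atTop_nhds_zero ((d : ℝ) + 1) a ha
    exact this
  have h3 : ∀ᶠ x : ℝ in atTop, x ^ ((d : ℝ) + 1) * Real.exp (-a * x) ≤ 1 :=
    h2.eventually (ge_mem_nhds (by norm_num))
  obtain ⟨X, hX⟩ := (h3.and (eventually_ge_atTop 1)).exists_forall_of_atTop
  have hfin : ∀ᶠ u : Fin d → ℤ in cofinite, X ≤ ‖latVec (sb d) u‖ := by
    have h4 := h1.tendsto_cofinite_zero
    have h5 : ∀ᶠ u : Fin d → ℤ in cofinite, ‖latVec (sb d) u‖ ^ (-((d : ℝ) + 1)) <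
        (max X 1) ^ (-((d : ℝ) + 1)) := h4.eventually (gt_mem_nhds (by positivity))
    have h6 : ∀ᶠ u : Fin d → ℤ in cofinite, u ≠ 0 := by
      simp
    filter_upwards [h5, h6] with u hu hu0
    by_contra hlt
    push Not at hlt
    have hpos : 0 < ‖latVec (sb d) u‖ := by
      have h7 : 0 < ‖latVec (sb d) u‖ ^ 2 := by
        rw [norm_latVec_sb]
        obtain ⟨l, hl⟩ : ∃ l, u l ≠ 0 := by
          by_contra hc
          push Not at hc
          exact hu0 (funext hc)
        have : 0 < (u l : ℝ) ^ 2 := by positivity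
        exact lt_of_lt_of_le this (Finset.single_le_sum (f := fun l => (u l : ℝ) ^ 2)
          (fun i _ => sq_nonneg _) (Finset.mem_univ l))
      by_contra hc
      push Not at hc
      have : ‖latVec (sb d) u‖ = 0 := le_antisymm hc (norm_nonneg _)
      rw [this] at h7
      simp at h7
    have h8 : (max X 1) ^ (-((d : ℝ) + 1)) ≤ ‖latVec (sb d) u‖ ^ (-((d : ℝ) + 1)) :=
      Real.rpow_le_rpow_of_nonpos hpos (hlt.le.trans (le_max_left _ _)) (by
        have : (0 : ℝ) ≤ d := Nat.cast_nonneg d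
        linarith)
    exact absurd hu (not_lt.mpr h8)
  apply Summable.of_norm_bounded_eventually h1
  filter_upwards [hfin] with u hu
  obtain ⟨h9, h10⟩ := hX _ hu
  rw [Real.norm_of_nonneg (EE_pos a u).le]
  unfold EE
  rw [← norm_latVec_sb]
  have hp : 0 < ‖latVec (sb d) u‖ := by linarith
  calc Real.exp (-(a * ‖latVec (sb d) u‖ ^ 2)) ≤ Real.exp (-a * ‖latVec (sb d) u‖) := by
        apply Real.exp_le_exp.mpr
        nlinarith [mul_nonneg ha.le (mul_nonneg hp.le (sub_nonneg.mpr h10))]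
    _ ≤ ‖latVec (sb d) u‖ ^ (-((d : ℝ) + 1)) := by
        rw [Real.rpow_neg hp.le, ← one_div, le_div_iff₀ (Real.rpow_pos_of_pos hp _), mul_comm]
        exact h9

/-- the tail over the nonzero vectors -/
noncomputable def eta (d : ℕ) (a : ℝ) : ℝ := ∑' u : Fin d → ℤ, if u = 0 then 0 else EE a u

theorem tail_summable (a : ℝ) (ha : 0 < a) :
    Summable (fun u : Fin d → ℤ => if u = 0 then 0 else EE a u) := by
  apply Summable.of_nonneg_of_le _ _ (EE_summable a ha)
  · intro u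
    split_ifs
    · exact le_rfl
    · exact (EE_pos a u).le
  · intro u
    split_ifs
    · exact (EE_pos a u).le
    · exact le_rfl

theorem eta_nonneg (a : ℝ) : 0 ≤ eta d a := by
  unfold eta
  apply tsum_nonneg
  intro u
  split_ifs
  · exact le_rfl
  · exact (EE_pos a u).le

theorem eta_le (t : ℝ) (ht : 0 < t) (x : ℝ) (hx : 1 ≤ x) :
    eta d (t * x) ≤ Real.exp (-(t * (x - 1))) * ∑' u : Fin d → ℤ, EE t u := by
  unfold eta
  rw [← tsum_mul_left]
  apply Summable.tsum_le_tsum _ (tail_summable _ (by positivity)) ((EE_summable t ht).mul_left _)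
  intro u
  split_ifs with hu
  · exact mul_nonneg (Real.exp_pos _).le (EE_pos t u).le
  · unfold EE
    rw [← Real.exp_add]
    apply Real.exp_le_exp.mpr
    obtain ⟨l, hl⟩ : ∃ l, u l ≠ 0 := by
      by_contra hc
      push Not at hc
      exact hu (funext hc)
    have h1 : (1 : ℝ) ≤ (u l : ℝ) ^ 2 := by
      have : (1 : ℤ) ≤ u l ^ 2 := by
        have := sq_pos_of_ne_zero hl
        omega
      exact_mod_cast this
    have h2 : (1 : ℝ) ≤ ∑ l, (u l : ℝ) ^ 2 :=
      h1.trans (Finset.single_le_sum (f := fun l => (u l : ℝ) ^ 2)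
          (fun i _ => sq_nonneg _) (Finset.mem_univ l))
    nlinarith [mul_nonneg ht.le (mul_nonneg (sub_nonneg.mpr hx) (sub_nonneg.mpr h2))]

/-- choice of the parameter -/
theorem exists_m (d : ℕ) (t δ : ℝ) (ht : 0 < t) (hδ : 0 < δ) : ∃ m : ℕ, 0 < m ∧
    eta d (t * (m : ℝ) ^ 2) * ((m : ℝ) ^ 2) ^ d * Real.exp (t * d) ≤ δ ∧
    (1 + 1 / (m : ℝ)) ^ d ≤ 1 + δ := by
  set Θ := ∑' u : Fin d → ℤ, EE t u with hΘ
  have h1 : Tendsto (fun x : ℝ => (x ^ d * Real.exp (-x)) * (Real.exp (t * d) * Real.exp t * Θ / t ^ d))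
      atTop (𝓝 0) := by
    have := (Real.tendsto_pow_mul_exp_neg_atTop_nhds_zero d).mul_const
      (Real.exp (t * d) * Real.exp t * Θ / t ^ d)
    simpa using this
  have h2 : Tendsto (fun m : ℕ => t * (m : ℝ) ^ 2) atTop atTop := by
    apply Tendsto.const_mul_atTop ht
    exact (tendsto_pow_atTop (by norm_num)).comp tendsto_natCast_atTop_atTop
  have h3 := (h1.comp h2).eventually (ge_mem_nhds hδ)
  have h4 : Tendsto (fun m : ℕ => (1 + 1 / (m : ℝ)) ^ d) atTop (𝓝 1) := by
    have : Tendsto (fun m : ℕ => (1 + 1 / (m : ℝ)) ^ d) atTop (𝓝 ((1 + 0) ^ d)) :=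
      (tendsto_const_nhds.add tendsto_one_div_atTop_nhds_zero_nat).pow d
    simpa using this
  have h5 := h4.eventually (ge_mem_nhds (show (1 : ℝ) < 1 + δ by linarith))
  obtain ⟨m, h6, h7, h8⟩ := (h3.and (h5.and (eventually_gt_atTop 0))).exists
  refine ⟨m, h8, ?_, h7⟩
  simp only [Function.comp_apply] at h6
  refine le_trans ?_ h6
  have hm : (1 : ℝ) ≤ (m : ℝ) ^ 2 := by
    have : (1 : ℝ) ≤ m := by exact_mod_cast h8
    nlinarith
  have h9 := eta_le (d := d) t ht ((m : ℝ) ^ 2) hm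
  calc eta d (t * (m : ℝ) ^ 2) * ((m : ℝ) ^ 2) ^ d * Real.exp (t * d)
      ≤ (Real.exp (-(t * ((m : ℝ) ^ 2 - 1))) * Θ) * ((m : ℝ) ^ 2) ^ d * Real.exp (t * d) := by
        gcongr
    _ = _ := by
        have h10 : Real.exp (-(t * ((m : ℝ) ^ 2 - 1))) = Real.exp (-(t * (m : ℝ) ^ 2)) * Real.exp t := by
          rw [← Real.exp_add]
          congr 1
          ring
        rw [h10, mul_pow]
        have : t ^ d ≠ 0 := pow_ne_zero _ ht.ne'
        field_simp

theorem coord_bound (m : ℕ) (q : ℝ) (hq : |q| ≤ (m : ℝ) ^ 2) (u : ℤ) :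
    ((m : ℝ) * u) ^ 2 ≤ (q + ((m : ℝ) ^ 2 + m) * u) ^ 2 := by
  by_cases hu : u = 0
  · subst hu
    simp
    positivity
  · have h1 : (1 : ℝ) ≤ |(u : ℝ)| := by
      have : (1 : ℤ) ≤ |u| := Int.one_le_abs hu
      exact_mod_cast this
    rw [sq_le_sq]
    have h2 : |((m : ℝ) ^ 2 + m) * u| ≤ |q + ((m : ℝ) ^ 2 + m) * u| + |q| := by
      have := abs_sub (q + ((m : ℝ) ^ 2 + m) * u) q
      simpa using this
    rw [abs_mul, abs_of_nonneg (by positivity : (0 : ℝ) ≤ (m : ℝ) ^ 2 + m)] at h2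
    rw [abs_mul, abs_of_nonneg (by positivity : (0 : ℝ) ≤ (m : ℝ))]
    nlinarith [mul_nonneg (sq_nonneg (m : ℝ)) (sub_nonneg.mpr h1)]

theorem norm_bound (m : ℕ) (D : EV d) (q : Fin d → ℝ) (u : Fin d → ℤ)
    (hD : ∀ l, D l = q l + ((m : ℝ) ^ 2 + m) * u l) (hq : ∀ l, |q l| ≤ (m : ℝ) ^ 2) :
    (m : ℝ) ^ 2 * ∑ l, (u l : ℝ) ^ 2 ≤ ‖D‖ ^ 2 := by
  rw [norm_sq_EV, Finset.mul_sum]
  apply Finset.sum_le_sum
  intro l _
  rw [hD, ← mul_pow]
  exact coord_bound m (q l) (hq l) (u l)

/-- counting pairs in the same fibre -/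
theorem pair_count {n : ℕ} {X : Type*} [Fintype X] [DecidableEq X] (F : Fin n → X) :
    ∑ x, (∑ i, if F i = x then (1 : ℝ) else 0) ^ 2 = ∑ i, ∑ j, if F i = F j then (1 : ℝ) else 0 := by
  have h : ∀ x, (∑ i, if F i = x then (1 : ℝ) else 0) ^ 2 =
      ∑ i, ∑ j, (if F i = x then (1 : ℝ) else 0) * (if F j = x then (1 : ℝ) else 0) := by
    intro x
    rw [sq, Finset.sum_mul_sum]
  simp only [h]
  rw [Finset.sum_comm]
  apply Finset.sum_congr rfl
  intro i _
  rw [Finset.sum_comm]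
  apply Finset.sum_congr rfl
  intro j _
  rw [Finset.sum_eq_single (F i)]
  · simp [eq_comm]
  · intro x _ hx
    simp [hx.symm]
  · simp

theorem fib_sum {n K : ℕ} (κ : Fin n → Fin K) (f : Fin K → ℝ) :
    ∑ i, f (κ i) = ∑ k, (∑ i, if κ i = k then (1 : ℝ) else 0) * f k := by
  simp only [Finset.sum_mul]
  rw [Finset.sum_comm]
  apply Finset.sum_congr rfl
  intro i _
  rw [Finset.sum_eq_single (κ i)]
  · simp
  · intro x _ hx
    simp [hx.symm]
  · simp

/-- Schur test for a symmetric kernel on the labels -/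
theorem schur {n K : ℕ} (κ : Fin n → Fin K) (w : Fin K → Fin K → ℝ) (hw : ∀ k k', 0 ≤ w k k')
    (hs : ∀ k k', w k k' = w k' k) (η : ℝ) (hη : ∀ k, ∑ k', w k k' ≤ η) :
    ∑ i, ∑ j, w (κ i) (κ j) ≤ η * ∑ k, (∑ i, if κ i = k then (1 : ℝ) else 0) ^ 2 := by
  set c : Fin K → ℝ := fun k => ∑ i, if κ i = k then (1 : ℝ) else 0 with hc
  have h1 : ∑ i, ∑ j, w (κ i) (κ j) = ∑ k, ∑ k', c k * c k' * w k k' := by
    have h2 : ∀ i, ∑ j, w (κ i) (κ j) = ∑ k', c k' * w (κ i) k' := fun i => fib_sum κ _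
    simp only [h2]
    rw [fib_sum κ (fun k => ∑ k', c k' * w k k')]
    apply Finset.sum_congr rfl
    intro k _
    rw [Finset.mul_sum]
    apply Finset.sum_congr rfl
    intro k' _
    ring
  rw [h1]
  have h3 : ∑ k, ∑ k', c k * c k' * w k k' ≤ ∑ k, ∑ k', (c k ^ 2 / 2 * w k k' + c k' ^ 2 / 2 * w k k') := by
    apply Finset.sum_le_sum
    intro k _
    apply Finset.sum_le_sum
    intro k' _
    nlinarith [mul_nonneg (sq_nonneg (c k - c k')) (hw k k')]
  refine h3.trans ?_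
  simp only [Finset.sum_add_distrib]
  have h4 : ∑ k, ∑ k', c k ^ 2 / 2 * w k k' ≤ η / 2 * ∑ k, c k ^ 2 := by
    rw [Finset.mul_sum]
    apply Finset.sum_le_sum
    intro k _
    rw [← Finset.mul_sum]
    nlinarith [mul_le_mul_of_nonneg_left (hη k) (sq_nonneg (c k))]
  have h5 : ∑ k, ∑ k', c k' ^ 2 / 2 * w k k' ≤ η / 2 * ∑ k, c k ^ 2 := by
    rw [Finset.sum_comm]
    refine le_trans (le_of_eq ?_) h4
    apply Finset.sum_congr rfl
    intro k _
    apply Finset.sum_congr rfl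
    intro k' _
    rw [hs]
  linarith

/-- the combined index -/
def uu (hd : 0 < d) (K : ℕ) (k k' : ℤ) (v : Fin d → ℤ) : Fin d → ℤ :=
  fun l => if l = ⟨0, hd⟩ then k - k' + K * v l else v l

theorem uu_inj (hd : 0 < d) (K : ℕ) (k : ℤ) :
    Function.Injective (fun z : Fin K × (Fin d → ℤ) => uu hd K k ((z.1 : ℕ) : ℤ) z.2) := by
  rintro ⟨k1, v1⟩ ⟨k2, v2⟩ h
  simp only at h
  have h0 := congrFun h ⟨0, hd⟩
  simp only [uu, if_true] at h0
  have hk : k1 = k2 := by
    have h1 : ((k1 : ℕ) : ℤ) - ((k2 : ℕ) : ℤ) = (K : ℤ) * (v1 ⟨0, hd⟩ - v2 ⟨0, hd⟩) := by linarith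
    have h2 := k1.isLt
    have h3 := k2.isLt
    have h4 : (K : ℤ) ∣ ((k1 : ℕ) : ℤ) - ((k2 : ℕ) : ℤ) := ⟨_, h1⟩
    have h5 := Int.eq_zero_of_abs_lt_dvd h4 (by rw [abs_lt]; constructor <;> omega)
    apply Fin.ext
    omega
  subst hk
  have hv : v1 = v2 := by
    funext l
    by_cases hl : l = ⟨0, hd⟩
    · subst hl
      have hK : (K : ℤ) ≠ 0 := by
        have := k1.isLt
        omega
      have h1 : (K : ℤ) * v1 ⟨0, hd⟩ = K * v2 ⟨0, hd⟩ := by linarith
      exact mul_left_cancel₀ hK h1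
    · have := congrFun h l
      simpa [uu, hl] using this
  rw [hv]

theorem uu_zero (hd : 0 < d) (K : ℕ) (k k' : Fin K) (v : Fin d → ℤ)
    (h : uu hd K ((k : ℕ) : ℤ) ((k' : ℕ) : ℤ) v = 0) : k = k' ∧ v = 0 := by
  have h1 : uu hd K ((k : ℕ) : ℤ) ((k : ℕ) : ℤ) 0 = 0 := by
    funext l
    simp [uu]
  have h2 := uu_inj hd K ((k : ℕ) : ℤ) (a₁ := (k', v)) (a₂ := (k, 0)) (h.trans h1.symm)
  simp only [Prod.mk.injEq] at h2
  exact ⟨h2.1.symm, h2.2⟩

theorem uu_neg (hd : 0 < d) (K : ℕ) (k k' : ℤ) (v : Fin d → ℤ) :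
    uu hd K k k' v = -uu hd K k' k (-v) := by
  funext l
  simp only [uu, Pi.neg_apply]
  split_ifs
  · ring
  · ring

theorem EE_neg (a : ℝ) (u : Fin d → ℤ) : EE a (-u) = EE a u := by
  unfold EE
  simp

/-- the cross weights -/
noncomputable def ww (hd : 0 < d) (K : ℕ) (a : ℝ) (k k' : Fin K) : ℝ :=
  ∑' v : Fin d → ℤ, if uu hd K ((k : ℕ) : ℤ) ((k' : ℕ) : ℤ) v = 0 then 0 else
    EE a (uu hd K ((k : ℕ) : ℤ) ((k' : ℕ) : ℤ) v)

theorem ww_summable_all (hd : 0 < d) (K : ℕ) (a : ℝ) (ha : 0 < a) (k : Fin K) :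
    Summable (fun z : Fin K × (Fin d → ℤ) => if uu hd K ((k : ℕ) : ℤ) ((z.1 : ℕ) : ℤ) z.2 = 0 then 0 else
      EE a (uu hd K ((k : ℕ) : ℤ) ((z.1 : ℕ) : ℤ) z.2)) :=
  (tail_summable a ha).comp_injective (uu_inj hd K ((k : ℕ) : ℤ))

theorem ww_summable (hd : 0 < d) (K : ℕ) (a : ℝ) (ha : 0 < a) (k k' : Fin K) :
    Summable (fun v : Fin d → ℤ => if uu hd K ((k : ℕ) : ℤ) ((k' : ℕ) : ℤ) v = 0 then 0 else
      EE a (uu hd K ((k : ℕ) : ℤ) ((k' : ℕ) : ℤ) v)) := by
  have h := (ww_summable_all hd K a ha k).comp_injective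
    (i := fun v : Fin d → ℤ => ((k', v) : Fin K × (Fin d → ℤ))) (fun a b h => (Prod.mk.inj h).2)
  exact h

theorem ww_nonneg (hd : 0 < d) (K : ℕ) (a : ℝ) (k k' : Fin K) : 0 ≤ ww hd K a k k' := by
  apply tsum_nonneg
  intro v
  split_ifs
  · exact le_rfl
  · exact (EE_pos _ _).le

theorem ww_symm (hd : 0 < d) (K : ℕ) (a : ℝ) (k k' : Fin K) : ww hd K a k k' = ww hd K a k' k := by
  unfold ww
  rw [← (Equiv.neg (Fin d → ℤ)).tsum_eq]
  apply tsum_congr
  intro v
  have h : uu hd K ((k : ℕ) : ℤ) ((k' : ℕ) : ℤ) (-v) = -uu hd K ((k' : ℕ) : ℤ) ((k : ℕ) : ℤ) v := by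
    rw [uu_neg, neg_neg]
  simp only [Equiv.neg_apply, h, EE_neg, neg_eq_zero]

theorem ww_row (hd : 0 < d) (K : ℕ) (a : ℝ) (ha : 0 < a) (k : Fin K) :
    ∑ k', ww hd K a k k' ≤ eta d a := by
  have h1 : ∑ k', ww hd K a k k' = ∑' z : Fin K × (Fin d → ℤ),
      if uu hd K ((k : ℕ) : ℤ) ((z.1 : ℕ) : ℤ) z.2 = 0 then 0 else
        EE a (uu hd K ((k : ℕ) : ℤ) ((z.1 : ℕ) : ℤ) z.2) := by
    rw [(ww_summable_all hd K a ha k).tsum_prod' (fun k' => ww_summable hd K a ha k k'),
      tsum_fintype]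
    rfl
  rw [h1]
  unfold eta
  exact Summable.tsum_le_tsum_of_inj (fun z : Fin K × (Fin d → ℤ) =>
      uu hd K ((k : ℕ) : ℤ) ((z.1 : ℕ) : ℤ) z.2) (uu_inj hd K ((k : ℕ) : ℤ))
    (fun c _ => by
      split_ifs
      · exact le_rfl
      · exact (EE_pos _ _).le) (fun z => le_rfl) (ww_summable_all hd K a ha k) (tail_summable a ha)

end LB9

section LB9
variable {d : ℕ}

open LB9 in
theorem corridor_energy (hd : 0 < d) (t δ : ℝ) (ht : 0 < t) (hδ : 0 < δ) :
    ∃ M : ℕ, 0 < M ∧ ∀ (n K : ℕ) (κ : Fin n → Fin K) (p : Fin n → EV d), 0 < n →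
      (∀ i l, 0 ≤ p i l ∧ p i l < M) → (∀ i j, κ i = κ j → p i = p j → i = j) →
      ∃ (b' : Module.Basis (Fin d) ℝ (EV d)) (y : Fin n → EV d),
        (∀ (i j : Fin n) (v : Fin d → ℤ), y i - y j + latVec b' v = 0 → i = j) ∧
        covol b' ≤ (1 + δ) * K * (M : ℝ) ^ d ∧
        perEnergy b' y t ≤ (1 + δ) * labE t κ p + δ * n := by
  obtain ⟨m, hm, hm1, hm2⟩ := exists_m d t δ ht hδ
  have hmR : (0 : ℝ) < m := by exact_mod_cast hm
  refine ⟨m ^ 2, by positivity, ?_⟩
  intro n K κ p hn hp hinj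
  have hK : 0 < K := by
    have := (κ ⟨0, hn⟩).isLt
    omega
  have hKR : (0 : ℝ) < K := by exact_mod_cast hK
  set sc : ℝ := (m : ℝ) ^ 2 + m with hsc
  have hscpos : 0 < sc := by positivity
  set z0 : Fin d := ⟨0, hd⟩ with hz0
  set w : Fin d → ℝ := fun l => if l = z0 then K * sc else sc with hw
  have hwpos : ∀ l, 0 < w l := by
    intro l
    simp only [hw]
    split_ifs
    · positivity
    · exact hscpos
  set b' := db w (fun l => (hwpos l).ne') with hb'
  set y : Fin n → EV d := fun i => p i + EuclideanSpace.single z0 (((κ i : ℕ) : ℝ) * sc) with hy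
  -- coordinates of the differences
  have hD : ∀ (i j : Fin n) (v : Fin d → ℤ) (l : Fin d), (y i - y j + latVec b' v) l =
      (p i l - p j l) + ((m : ℝ) ^ 2 + m) * (uu hd K ((κ i : ℕ) : ℤ) ((κ j : ℕ) : ℤ) v l : ℤ) := by
    intro i j v l
    rw [PiLp.add_apply, PiLp.sub_apply, hb', latVec_db]
    simp only [hy, PiLp.add_apply, hw, uu]
    by_cases hl : l = z0
    · simp [hl, hz0, hsc]
      ring
    · have hl' : ¬ l = (⟨0, hd⟩ : Fin d) := hl
      simp [hl, hl', hsc]
  have hq : ∀ (i j : Fin n) (l : Fin d), |p i l - p j l| ≤ (m : ℝ) ^ 2 := by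
    intro i j l
    have h1 := hp i l
    have h2 := hp j l
    push_cast at h1 h2
    rw [abs_le]
    constructor <;> linarith
  have hnorm : ∀ (i j : Fin n) (v : Fin d → ℤ),
      (m : ℝ) ^ 2 * ∑ l, (uu hd K ((κ i : ℕ) : ℤ) ((κ j : ℕ) : ℤ) v l : ℝ) ^ 2 ≤
        ‖y i - y j + latVec b' v‖ ^ 2 := fun i j v =>
    norm_bound m _ (fun l => p i l - p j l) _ (hD i j v) (hq i j)
  have hzero : ∀ (i j : Fin n) (v : Fin d → ℤ), uu hd K ((κ i : ℕ) : ℤ) ((κ j : ℕ) : ℤ) v = 0 →
      κ i = κ j ∧ v = 0 ∧ y i - y j + latVec b' v = p i - p j := by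
    intro i j v h
    obtain ⟨h1, h2⟩ := uu_zero hd K _ _ v h
    refine ⟨h1, h2, ?_⟩
    ext l
    rw [hD, h]
    simp
  refine ⟨b', y, ?_, ?_, ?_⟩
  · intro i j v h
    have h1 := hnorm i j v
    rw [h, norm_zero] at h1
    have h2 : uu hd K ((κ i : ℕ) : ℤ) ((κ j : ℕ) : ℤ) v = 0 := by
      by_contra hne
      obtain ⟨l, hl⟩ : ∃ l, uu hd K ((κ i : ℕ) : ℤ) ((κ j : ℕ) : ℤ) v l ≠ 0 := by
        by_contra hc
        push Not at hc
        exact hne (funext hc)
      have h3 : (0 : ℝ) < (uu hd K ((κ i : ℕ) : ℤ) ((κ j : ℕ) : ℤ) v l : ℝ) ^ 2 := by positivity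
      have h4 := Finset.single_le_sum (f := fun l => (uu hd K ((κ i : ℕ) : ℤ) ((κ j : ℕ) : ℤ) v l : ℝ) ^ 2)
          (fun i _ => sq_nonneg _) (Finset.mem_univ l)
      have h5 : 0 < (m : ℝ) ^ 2 * ∑ l, (uu hd K ((κ i : ℕ) : ℤ) ((κ j : ℕ) : ℤ) v l : ℝ) ^ 2 :=
        mul_pos (by positivity) (lt_of_lt_of_le h3 h4)
      simp at h1
      linarith
    obtain ⟨h3, -, h4⟩ := hzero i j v h2
    rw [h] at h4
    exact hinj i j h3 (sub_eq_zero.mp h4.symm)
  · rw [hb', covol_db]
    have h1 : ∏ l, w l = K * sc ^ d := by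
      have h2 : ∀ l, w l = (if l = z0 then (K : ℝ) else 1) * sc := by
        intro l
        simp only [hw]
        split_ifs
        · rfl
        · rw [one_mul]
      simp only [h2]
      rw [Finset.prod_mul_distrib]
      simp
    rw [h1, abs_of_nonneg (by positivity)]
    have h2 : sc = (1 + 1 / (m : ℝ)) * (m : ℝ) ^ 2 := by
      rw [hsc]
      field_simp
    rw [h2, mul_pow]
    push_cast
    calc (K : ℝ) * ((1 + 1 / (m : ℝ)) ^ d * ((m : ℝ) ^ 2) ^ d)
        ≤ K * ((1 + δ) * ((m : ℝ) ^ 2) ^ d) := by gcongr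
      _ = _ := by ring
  · -- the energy
    set a : ℝ := t * (m : ℝ) ^ 2 with ha
    have hapos : 0 < a := by positivity
    -- termwise bound
    have hterm : ∀ i j, (∑' v : Fin d → ℤ, if i = j ∧ v = 0 then 0 else gau t ‖y i - y j + latVec b' v‖) ≤
        (if i ≠ j ∧ κ i = κ j then gau t ‖p i - p j‖ else 0) + ww hd K a (κ i) (κ j) := by
      intro i j
      set A : ℝ := if i ≠ j ∧ κ i = κ j then gau t ‖p i - p j‖ else 0 with hA
      have hA0 : 0 ≤ A := by
        rw [hA]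
        split_ifs
        · exact (Real.exp_pos _).le
        · exact le_rfl
      have hs1 : Summable (fun v : Fin d → ℤ => if v = 0 then A else 0) :=
        summable_of_ne_finset_zero (s := {0}) (fun v hv => by
          rw [Finset.mem_singleton] at hv
          simp [hv])
      have hs2 := ww_summable hd K a hapos (κ i) (κ j)
      have hs3 := hs1.add hs2
      have hle : ∀ v : Fin d → ℤ, (if i = j ∧ v = 0 then 0 else gau t ‖y i - y j + latVec b' v‖) ≤
          (if v = 0 then A else 0) + (if uu hd K ((κ i : ℕ) : ℤ) ((κ j : ℕ) : ℤ) v = 0 then 0 else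
            EE a (uu hd K ((κ i : ℕ) : ℤ) ((κ j : ℕ) : ℤ) v)) := by
        intro v
        by_cases hu : uu hd K ((κ i : ℕ) : ℤ) ((κ j : ℕ) : ℤ) v = 0
        · obtain ⟨h1, h2, h3⟩ := hzero i j v hu
          rw [if_pos hu, h3, add_zero, if_pos h2, hA]
          by_cases hij : i = j
          · simp [hij, h2]
          · simp [hij, h1]
        · rw [if_neg hu]
          have h1 : gau t ‖y i - y j + latVec b' v‖ ≤ EE a (uu hd K ((κ i : ℕ) : ℤ) ((κ j : ℕ) : ℤ) v) := by
            unfold gau EE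
            apply Real.exp_le_exp.mpr
            have := mul_le_mul_of_nonneg_left (hnorm i j v) ht.le
            rw [ha]
            linarith
          have h2 : (0 : ℝ) ≤ if v = 0 then A else 0 := by
            split_ifs
            · exact hA0
            · exact le_rfl
          have h3 := EE_pos a (uu hd K ((κ i : ℕ) : ℤ) ((κ j : ℕ) : ℤ) v)
          split_ifs <;> linarith
      have hnn : ∀ v : Fin d → ℤ, 0 ≤ (if i = j ∧ v = 0 then 0 else gau t ‖y i - y j + latVec b' v‖) := by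
        intro v
        split_ifs
        · exact le_rfl
        · exact (Real.exp_pos _).le
      have h1 := Summable.tsum_le_tsum hle (Summable.of_nonneg_of_le hnn hle hs3) hs3
      refine h1.trans (le_of_eq ?_)
      rw [hs1.tsum_add hs2, tsum_ite_eq]
      rfl
    have h1 : perEnergy b' y t ≤ labE t κ p + ∑ i, ∑ j, ww hd K a (κ i) (κ j) := by
      unfold perEnergy labE
      rw [← Finset.sum_add_distrib]
      apply Finset.sum_le_sum
      intro i _
      rw [← Finset.sum_add_distrib]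
      apply Finset.sum_le_sum
      intro j _
      exact hterm i j
    have h2 := schur κ (ww hd K a) (ww_nonneg hd K a) (ww_symm hd K a) (eta d a)
      (ww_row hd K a hapos)
    -- cells
    have hfl : ∀ i l, ⌊p i l⌋₊ < m ^ 2 := by
      intro i l
      rw [Nat.floor_lt (hp i l).1]
      exact (hp i l).2
    set cell : Fin n → Fin d → Fin (m ^ 2) := fun i l => ⟨⌊p i l⌋₊, hfl i l⟩ with hcell
    have h3 : ∑ k, (∑ i, if κ i = k then (1 : ℝ) else 0) ^ 2 ≤ ((m : ℝ) ^ 2) ^ d *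
        ∑ i, ∑ j, if (κ i, cell i) = (κ j, cell j) then (1 : ℝ) else 0 := by
      rw [← pair_count (fun i => (κ i, cell i)), Fintype.sum_prod_type, Finset.mul_sum]
      apply Finset.sum_le_sum
      intro k _
      have h4 : (∑ i, if κ i = k then (1 : ℝ) else 0) =
          ∑ c : Fin d → Fin (m ^ 2), ∑ i, if (κ i, cell i) = (k, c) then (1 : ℝ) else 0 := by
        rw [Finset.sum_comm]
        apply Finset.sum_congr rfl
        intro i _
        rw [Finset.sum_eq_single (cell i)]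
        · simp
        · intro c _ hc
          simp [hc.symm]
        · simp
      rw [h4]
      have h5 := sq_sum_le_card_mul_sum_sq (s := (Finset.univ : Finset (Fin d → Fin (m ^ 2))))
        (f := fun c => ∑ i, if (κ i, cell i) = (k, c) then (1 : ℝ) else 0)
      simpa using h5
    have h4 : ∑ i, ∑ j, (if (κ i, cell i) = (κ j, cell j) then (1 : ℝ) else 0) ≤
        n + Real.exp (t * d) * labE t κ p := by
      have h5 : ∀ i j, (if (κ i, cell i) = (κ j, cell j) then (1 : ℝ) else 0) ≤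
          (if i = j then (1 : ℝ) else 0) +
            Real.exp (t * d) * (if i ≠ j ∧ κ i = κ j then gau t ‖p i - p j‖ else 0) := by
        intro i j
        by_cases hij : i = j
        · subst hij
          simp
        · by_cases hk : κ i = κ j ∧ cell i = cell j
          · rw [if_pos (by rw [Prod.mk.injEq]; exact hk), if_neg hij, if_pos ⟨hij, hk.1⟩, zero_add]
            unfold gau
            rw [← Real.exp_add]
            have h6 : ‖p i - p j‖ ^ 2 ≤ d := by
              rw [norm_sq_EV]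
              have h7 : ∀ l ∈ (Finset.univ : Finset (Fin d)), ((p i - p j) l) ^ 2 ≤ 1 := by
                intro l _
                have h8 := congrArg Fin.val (congrFun hk.2 l)
                simp only [hcell] at h8
                have h9 := Nat.floor_le (hp i l).1
                have h10 := Nat.lt_floor_add_one (p i l)
                have h11 := Nat.floor_le (hp j l).1
                have h12 := Nat.lt_floor_add_one (p j l)
                rw [h8] at h9 h10
                rw [PiLp.sub_apply, sq_le_one_iff_abs_le_one, abs_le]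
                constructor <;> linarith
              have := Finset.sum_le_sum h7
              simpa using this
            rw [Real.one_le_exp_iff]
            nlinarith
          · rw [if_neg (by rw [Prod.mk.injEq]; exact hk), if_neg hij, zero_add]
            apply mul_nonneg (Real.exp_pos _).le
            split_ifs
            · exact (Real.exp_pos _).le
            · exact le_rfl
      calc _ ≤ ∑ i, ∑ j, ((if i = j then (1 : ℝ) else 0) +
            Real.exp (t * d) * (if i ≠ j ∧ κ i = κ j then gau t ‖p i - p j‖ else 0)) :=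
            Finset.sum_le_sum fun i _ => Finset.sum_le_sum fun j _ => h5 i j
        _ = _ := by
            simp only [Finset.sum_add_distrib]
            unfold labE
            simp [Finset.mul_sum]
    have hlab : 0 ≤ labE t κ p := by
      unfold labE
      apply Finset.sum_nonneg
      intro i _
      apply Finset.sum_nonneg
      intro j _
      split_ifs
      · exact (Real.exp_pos _).le
      · exact le_rfl
    have heta := eta_nonneg (d := d) a
    have hex : 1 ≤ Real.exp (t * d) := by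
      rw [Real.one_le_exp_iff]
      positivity
    have hP : 0 ≤ eta d a * ((m : ℝ) ^ 2) ^ d := by positivity
    have h6 : eta d a * ((m : ℝ) ^ 2) ^ d ≤ δ := by
      refine le_trans ?_ hm1
      nlinarith
    have h7 : ∑ i, ∑ j, ww hd K a (κ i) (κ j) ≤ eta d a * (((m : ℝ) ^ 2) ^ d *
        (n + Real.exp (t * d) * labE t κ p)) := by
      refine h2.trans ?_
      apply mul_le_mul_of_nonneg_left _ heta
      refine h3.trans ?_
      apply mul_le_mul_of_nonneg_left h4 (by positivity)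
    have h8 : eta d a * (((m : ℝ) ^ 2) ^ d * (n + Real.exp (t * d) * labE t κ p)) =
        (eta d a * ((m : ℝ) ^ 2) ^ d) * n +
          (eta d a * ((m : ℝ) ^ 2) ^ d * Real.exp (t * d)) * labE t κ p := by ring
    have h9 : (eta d a * ((m : ℝ) ^ 2) ^ d) * n ≤ δ * n := by gcongr
    have h10 : (eta d a * ((m : ℝ) ^ 2) ^ d * Real.exp (t * d)) * labE t κ p ≤ δ * labE t κ p := by
      gcongr
    linarith

end LB9

end Pool.Agent.Helper78.LE
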