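import Pool.Agent.Helper78.LE.LBDefs
import Pool.Agent.Helper78.LE.LE0
import Pool.Agent.Helper78.LE.Values
import Pool.Agent.Helper78.LE.LB9

/-!
Project LB, module LB16: the bound by positive definiteness for periodic configurations.
-/

set_option autoImplicit false

open MeasureTheory Set Filter Topology

namespace Pool.Agent.Helper78.LE

namespace LB16

open scoped ENNReal

variable {d : ℕ} (b : Module.Basis (Fin d) ℝ (EV d))

theorem cube_measurable : MeasurableSet (cube d) :=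
  MeasurableSet.univ_pi fun _ => measurableSet_Ico

theorem volume_cube : volume (cube d) = 1 := by
  unfold cube
  rw [Real.volume_pi_Ico]
  simp

theorem mem_cube_sub (s : Fin d → ℝ) (v : Fin d → ℤ) :
    s - iv v ∈ cube d ↔ v = fun i => ⌊s i⌋ := by
  unfold cube iv
  simp only [Set.mem_pi, mem_univ, true_implies, Pi.sub_apply, mem_Ico]
  constructor
  · intro h
    funext i
    have := h i
    exact (Int.floor_eq_iff.mpr ⟨by linarith [this.1], by linarith [this.2]⟩).symm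
  · rintro rfl i
    have h1 := Int.floor_le (s i)
    have h2 := Int.lt_floor_add_one (s i)
    exact ⟨by linarith, by linarith⟩

theorem lunfold (g : (Fin d → ℝ) → ℝ≥0∞) (hg : Measurable g) :
    ∑' v : Fin d → ℤ, ∫⁻ s in cube d, g (s + iv v) = ∫⁻ s, g s := by
  have h1 : ∀ v : Fin d → ℤ, ∫⁻ s in cube d, g (s + iv v) =
      ∫⁻ s, (cube d).indicator (fun _ => (1 : ℝ≥0∞)) (s - iv v) * g s := by
    intro v
    rw [← lintegral_indicator cube_measurable, ← lintegral_sub_right_eq_self _ (iv v)]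
    apply lintegral_congr
    intro s
    by_cases h : s - iv v ∈ cube d
    · simp [h]
    · simp [h]
  simp_rw [h1]
  rw [← lintegral_tsum]
  · apply lintegral_congr
    intro s
    rw [tsum_eq_single (fun i => ⌊s i⌋)]
    · have h : s - iv (fun i => ⌊s i⌋) ∈ cube d := (mem_cube_sub s _).2 rfl
      simp [h]
    · intro v hv
      have h : s - iv v ∉ cube d := fun h => hv ((mem_cube_sub s v).1 h)
      simp [h]
  · intro v
    apply Measurable.aemeasurable
    apply Measurable.mul _ hg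
    exact (measurable_const.indicator cube_measurable).comp (measurable_id.sub_const _)

/-- integral of the Gaussian -/
theorem gauss_lint (a : ℝ) (ha : 0 < a) (c : EV d) :
    ∫⁻ x : EV d, ENNReal.ofReal (gau a ‖c - x‖) =
      ENNReal.ofReal ((Real.pi / a) ^ ((d : ℝ) / 2)) := by
  have h1 : ∫ x : EV d, gau a ‖x‖ = (Real.pi / a) ^ ((d : ℝ) / 2) := by
    have := GaussianFourier.integral_rexp_neg_mul_sq_norm (V := EV d) ha
    rw [finrank_euclideanSpace_fin] at this
    rw [← this]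
    apply integral_congr_ae
    apply Filter.Eventually.of_forall
    intro x
    unfold gau
    simp
  have h2 : Integrable (fun x : EV d => gau a ‖x‖) := by
    by_contra hcon
    rw [integral_undef hcon] at h1
    have : 0 < (Real.pi / a) ^ ((d : ℝ) / 2) := Real.rpow_pos_of_pos (by positivity) _
    linarith
  rw [← h1, ofReal_integral_eq_lintegral_ofReal h2
    (Filter.Eventually.of_forall fun x => (Real.exp_pos _).le)]
  rw [lintegral_sub_left_eq_self (fun x : EV d => ENNReal.ofReal (gau a ‖x‖)) c]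

theorem lin_lint (h : EV d → ℝ≥0∞) (hh : Measurable h) :
    ∫⁻ s, h (lin b s) = (ENNReal.ofReal (covol b))⁻¹ * ∫⁻ x, h x := by
  rw [← lintegral_map hh (lin_continuous b).measurable, map_lin, lintegral_smul_measure]
  rfl

theorem gau_measurable (a : ℝ) (c : EV d) :
    Measurable (fun x : EV d => ENNReal.ofReal (gau a ‖c - x‖)) := by
  unfold gau
  fun_prop

/-- the translates of the Gaussian in lattice coordinates -/
noncomputable def G (t : ℝ) (c : EV d) (s : Fin d → ℝ) : ℝ≥0∞ :=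
  ENNReal.ofReal (gau (2 * t) ‖c - lin b s‖)

theorem G_measurable (t : ℝ) (c : EV d) : Measurable (G b t c) :=
  (gau_measurable (2 * t) c).comp (lin_continuous b).measurable

theorem G_lint (t : ℝ) (ht : 0 < t) (c : EV d) :
    ∫⁻ s, G b t c s = (ENNReal.ofReal (covol b))⁻¹ *
      ENNReal.ofReal ((Real.pi / (2 * t)) ^ ((d : ℝ) / 2)) := by
  unfold G
  rw [lin_lint b (fun x => ENNReal.ofReal (gau (2 * t) ‖c - x‖)) (gau_measurable _ c),
    gauss_lint (2 * t) (by linarith) c]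

theorem gau_nn (t r : ℝ) : 0 ≤ gau t r := (Real.exp_pos _).le

/-- parallelogram identity -/
theorem gau_mul (t : ℝ) (a c x : EV d) : gau (2 * t) ‖a - x‖ * gau (2 * t) ‖c - x‖ =
    gau t ‖a - c‖ * gau (4 * t) ‖((1 / 2 : ℝ) • (a + c)) - x‖ := by
  unfold gau
  rw [← Real.exp_add, ← Real.exp_add]
  congr 1
  have h1 : ‖a - x‖ ^ 2 + ‖c - x‖ ^ 2 =
      1 / 2 * ‖a - c‖ ^ 2 + 2 * ‖((1 / 2 : ℝ) • (a + c)) - x‖ ^ 2 := by
    have h2 := parallelogram_law_with_norm ℝ (a - x) (c - x)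
    have h3 : a - x + (c - x) = (2 : ℝ) • (((1 / 2 : ℝ) • (a + c)) - x) := by
      rw [smul_sub, smul_smul]
      norm_num
      rw [two_smul]
      abel
    have h4 : a - x - (c - x) = a - c := by abel
    have h5 : ‖(2 : ℝ) • (((1 / 2 : ℝ) • (a + c)) - x)‖ = 2 * ‖((1 / 2 : ℝ) • (a + c)) - x‖ := by
      rw [norm_smul, Real.norm_of_nonneg (by norm_num)]
    rw [h3, h4, h5] at h2
    generalize ‖((1 / 2 : ℝ) • (a + c)) - x‖ = z at h2 ⊢
    nlinarith [h2]
  linear_combination (-2 * t) * h1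

theorem GG_lint (t : ℝ) (ht : 0 < t) (a c : EV d) (u : Fin d → ℤ) :
    ∫⁻ s, G b t a (s + iv u) * G b t c s = (ENNReal.ofReal (covol b))⁻¹ *
      ENNReal.ofReal ((Real.pi / (4 * t)) ^ ((d : ℝ) / 2)) *
        ENNReal.ofReal (gau t ‖a - c - latVec b u‖) := by
  have h1 : ∀ s, G b t a (s + iv u) * G b t c s =
      ENNReal.ofReal (gau t ‖a - c - latVec b u‖) *
      ENNReal.ofReal (gau (4 * t) ‖((1 / 2 : ℝ) • (a - latVec b u + c)) - lin b s‖) := by
    intro s
    unfold G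
    have h2 : a - lin b (s + iv u) = (a - latVec b u) - lin b s := by
      rw [lin_add, latVec_eq]
      abel
    have h3 : a - c - latVec b u = (a - latVec b u) - c := by abel
    rw [h2, h3, ← ENNReal.ofReal_mul (gau_nn _ _), gau_mul, ENNReal.ofReal_mul (gau_nn _ _)]
  have hmm : Measurable (fun s : Fin d → ℝ =>
      ENNReal.ofReal (gau (4 * t) ‖((1 / 2 : ℝ) • (a - latVec b u + c)) - lin b s‖)) :=
    (gau_measurable _ _).comp (lin_continuous b).measurable
  simp_rw [h1]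
  rw [lintegral_const_mul _ hmm,
    lin_lint b (fun x => ENNReal.ofReal (gau (4 * t) ‖((1 / 2 : ℝ) • (a - latVec b u + c)) - x‖))
      (gau_measurable _ _), gauss_lint (4 * t) (by linarith)]
  ring

/-- the periodic function -/
noncomputable def Fper {n : ℕ} (y : Fin n → EV d) (t : ℝ) (s : Fin d → ℝ) : ℝ≥0∞ :=
  ∑ i, ∑' v : Fin d → ℤ, G b t (y i) (s + iv v)

theorem lint_Fper {n : ℕ} (y : Fin n → EV d) (t : ℝ) (ht : 0 < t) :
    ∫⁻ s in cube d, Fper b y t s = n * ((ENNReal.ofReal (covol b))⁻¹ *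
      ENNReal.ofReal ((Real.pi / (2 * t)) ^ ((d : ℝ) / 2))) := by
  unfold Fper
  have hm : ∀ i, ∀ v : Fin d → ℤ, Measurable (fun s => G b t (y i) (s + iv v)) := fun i v =>
    (G_measurable b t (y i)).comp (measurable_id.add_const _)
  rw [lintegral_finsetSum _ (fun i _ => Measurable.tsum (hm i))]
  have h1 : ∀ i, ∫⁻ s in cube d, ∑' v : Fin d → ℤ, G b t (y i) (s + iv v) =
      (ENNReal.ofReal (covol b))⁻¹ * ENNReal.ofReal ((Real.pi / (2 * t)) ^ ((d : ℝ) / 2)) := by
    intro i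
    rw [lintegral_tsum (fun v => (hm i v).aemeasurable), lunfold _ (G_measurable b t (y i)),
      G_lint b t ht]
  simp_rw [h1]
  rw [Finset.sum_const, Finset.card_univ, Fintype.card_fin, nsmul_eq_mul]

theorem lint_Fper_sq {n : ℕ} (y : Fin n → EV d) (t : ℝ) (ht : 0 < t) :
    ∫⁻ s in cube d, Fper b y t s * Fper b y t s =
      (ENNReal.ofReal (covol b))⁻¹ * ENNReal.ofReal ((Real.pi / (4 * t)) ^ ((d : ℝ) / 2)) *
      ∑ i, ∑ j, ∑' u : Fin d → ℤ, ENNReal.ofReal (gau t ‖y i - y j - latVec b u‖) := by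
  have hm : ∀ i, ∀ v : Fin d → ℤ, Measurable (fun s => G b t (y i) (s + iv v)) := fun i v =>
    (G_measurable b t (y i)).comp (measurable_id.add_const _)
  have h1 : ∀ s, Fper b y t s * Fper b y t s = ∑ i, ∑ j, ∑' u : Fin d → ℤ, ∑' w : Fin d → ℤ,
      G b t (y i) ((s + iv w) + iv u) * G b t (y j) (s + iv w) := by
    intro s
    unfold Fper
    rw [Finset.sum_mul_sum]
    apply Finset.sum_congr rfl
    intro i _
    apply Finset.sum_congr rfl
    intro j _
    rw [ENNReal.tsum_comm, ← ENNReal.tsum_mul_left]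
    apply tsum_congr
    intro w
    rw [ENNReal.tsum_mul_right]
    congr 1
    rw [← (Equiv.addLeft w).tsum_eq]
    apply tsum_congr
    intro u
    congr 1
    rw [add_assoc]
    congr 1
    funext l
    simp [iv]
  simp_rw [h1]
  have hm2 : ∀ i j, ∀ u w : Fin d → ℤ, Measurable (fun s =>
      G b t (y i) ((s + iv w) + iv u) * G b t (y j) (s + iv w)) := fun i j u w =>
    ((G_measurable b t (y i)).comp ((measurable_id.add_const _).add_const _)).mul (hm j w)
  rw [lintegral_finsetSum _ (fun i _ => Finset.measurable_sum _ fun j _ =>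
    Measurable.tsum fun u => Measurable.tsum (hm2 i j u)), Finset.mul_sum]
  apply Finset.sum_congr rfl
  intro i _
  rw [lintegral_finsetSum _ (fun j _ =>
    Measurable.tsum fun u => Measurable.tsum (hm2 i j u)), Finset.mul_sum]
  apply Finset.sum_congr rfl
  intro j _
  rw [lintegral_tsum (fun u => (Measurable.tsum (hm2 i j u)).aemeasurable),
    ← ENNReal.tsum_mul_left]
  apply tsum_congr
  intro u
  rw [lintegral_tsum (fun w => (hm2 i j u w).aemeasurable)]
  have h3 := lunfold (fun s => G b t (y i) (s + iv u) * G b t (y j) s)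
    (((G_measurable b t (y i)).comp (measurable_id.add_const _)).mul (G_measurable b t (y j)))
  rw [h3, GG_lint b t ht]

theorem two_mul_le (x c : ℝ≥0∞) : 2 * c * x ≤ x * x + c * c := by
  rcases le_total x c with h | h
  · obtain ⟨e, rfl⟩ := exists_add_of_le h
    calc 2 * (x + e) * x ≤ 2 * (x + e) * x + e * e := le_self_add
      _ = x * x + (x + e) * (x + e) := by ring
  · obtain ⟨e, rfl⟩ := exists_add_of_le h
    calc 2 * c * (c + e) ≤ 2 * c * (c + e) + e * e := le_self_add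
      _ = (c + e) * (c + e) + c * c := by ring

theorem cs (F : (Fin d → ℝ) → ℝ≥0∞) (hF : Measurable F) (hfin : ∫⁻ s in cube d, F s ≠ ⊤) :
    (∫⁻ s in cube d, F s) * (∫⁻ s in cube d, F s) ≤ ∫⁻ s in cube d, F s * F s := by
  set c := ∫⁻ s in cube d, F s with hc
  have h1 : ∫⁻ s in cube d, 2 * c * F s ≤ ∫⁻ s in cube d, (F s * F s + c * c) :=
    lintegral_mono fun s => two_mul_le (F s) c
  rw [lintegral_const_mul _ hF, ← hc, lintegral_add_left (f := fun s => F s * F s) (hF.mul hF), lintegral_const,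
    Measure.restrict_apply MeasurableSet.univ, univ_inter, volume_cube, mul_one] at h1
  have h2 : 2 * c * c = c * c + c * c := by ring
  rw [h2] at h1
  exact (ENNReal.add_le_add_iff_right (ENNReal.mul_ne_top hfin hfin)).1 h1

theorem Fper_measurable {n : ℕ} (y : Fin n → EV d) (t : ℝ) : Measurable (Fper b y t) := by
  unfold Fper
  exact Finset.measurable_sum _ fun i _ => Measurable.tsum fun v =>
    (G_measurable b t (y i)).comp (measurable_id.add_const _)

theorem latVec_zero : latVec b (0 : Fin d → ℤ) = 0 := by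
  unfold latVec
  simp

theorem latVec_neg (v : Fin d → ℤ) : latVec b (-v) = -latVec b v := by
  unfold latVec
  simp [Finset.sum_neg_distrib]

theorem latVec_ne (v : Fin d → ℤ) (hv : v ≠ 0) : latVec b v ≠ 0 := by
  rw [latVec_eq, Ne, lin_eq_zero]
  intro h
  apply hv
  funext i
  have := congrFun h i
  simpa [iv] using this

theorem summ (t : ℝ) (ht : 0 < t) (a : EV d) :
    Summable (fun v : Fin d → ℤ => gau t ‖a + latVec b v‖) := by
  have h1 := (summable_latVec b (2 * ((d : ℝ) + 1)) (by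
    have : (0 : ℝ) ≤ d := by positivity
    linarith)).mul_left (Real.exp (t * ‖a‖ ^ 2) * (((d + 1).factorial : ℝ) * (2 / t) ^ (d + 1)))
  refine h1.of_norm_bounded_eventually ?_
  have h0 : {v : Fin d → ℤ | v ≠ 0} ∈ (cofinite : Filter (Fin d → ℤ)) := by
    have : ({(0 : Fin d → ℤ)} : Set (Fin d → ℤ))ᶜ ∈ (cofinite : Filter (Fin d → ℤ)) :=
      (Set.finite_singleton _).compl_mem_cofinite
    exact this
  filter_upwards [h0] with v hv
  have hx : 0 < ‖latVec b v‖ := norm_pos_iff.mpr (latVec_ne b v hv)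
  set x := latVec b v with hxd
  rw [Real.norm_of_nonneg (gau_nn _ _)]
  have h2 : ‖x‖ ^ 2 ≤ 2 * ‖a + x‖ ^ 2 + 2 * ‖a‖ ^ 2 := by
    have h3 : ‖x‖ ≤ ‖a + x‖ + ‖a‖ := by
      have := norm_sub_le (a + x) a
      rwa [add_sub_cancel_left] at this
    have h4 : ‖x‖ ^ 2 ≤ (‖a + x‖ + ‖a‖) ^ 2 := pow_le_pow_left₀ hx.le h3 2
    nlinarith [sq_nonneg (‖a + x‖ - ‖a‖)]
  have h5 : gau t ‖a + x‖ ≤ Real.exp (t * ‖a‖ ^ 2) * Real.exp (-(t / 2 * ‖x‖ ^ 2)) := by
    unfold gau
    rw [← Real.exp_add]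
    apply Real.exp_le_exp.mpr
    nlinarith
  have h6 : Real.exp (-(t / 2 * ‖x‖ ^ 2)) ≤
      (((d + 1).factorial : ℝ) * (2 / t) ^ (d + 1)) * ‖x‖ ^ (-(2 * ((d : ℝ) + 1))) := by
    have h7 := Real.pow_div_factorial_le_exp (x := t / 2 * ‖x‖ ^ 2) (by positivity) (d + 1)
    have h8 : ‖x‖ ^ (-(2 * ((d : ℝ) + 1))) = ((‖x‖ ^ 2) ^ (d + 1))⁻¹ := by
      rw [Real.rpow_neg hx.le, ← pow_mul]
      congr 1
      rw [← Real.rpow_natCast]
      congr 1
      push_cast
      ring
    rw [h8, Real.exp_neg]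
    have h9 : (0 : ℝ) < (t / 2 * ‖x‖ ^ 2) ^ (d + 1) / ((d + 1).factorial : ℝ) := by positivity
    refine (inv_anti₀ h9 h7).trans_eq ?_
    rw [mul_pow, div_pow, div_pow]
    field_simp
  calc gau t ‖a + x‖ ≤ Real.exp (t * ‖a‖ ^ 2) * Real.exp (-(t / 2 * ‖x‖ ^ 2)) := h5
    _ ≤ Real.exp (t * ‖a‖ ^ 2) * ((((d + 1).factorial : ℝ) * (2 / t) ^ (d + 1)) *
          ‖x‖ ^ (-(2 * ((d : ℝ) + 1)))) := mul_le_mul_of_nonneg_left h6 (Real.exp_pos _).le
    _ = _ := by ring

/-- the full energy -/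
noncomputable def SS {n : ℕ} (y : Fin n → EV d) (t : ℝ) : ℝ :=
  ∑ i, ∑ j, ∑' v : Fin d → ℤ, gau t ‖y i - y j + latVec b v‖

theorem SS_eq {n : ℕ} (y : Fin n → EV d) (t : ℝ) (ht : 0 < t) :
    SS b y t = n + perEnergy b y t := by
  unfold SS perEnergy
  have h1 : ∀ i j : Fin n, ∑' v : Fin d → ℤ, gau t ‖y i - y j + latVec b v‖ =
      (if i = j then 1 else 0) +
        ∑' v : Fin d → ℤ, if i = j ∧ v = 0 then 0 else gau t ‖y i - y j + latVec b v‖ := by
    intro i j
    by_cases h : i = j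
    · subst h
      rw [(summ b t ht (y i - y i)).tsum_eq_add_tsum_ite 0]
      simp only [true_and, if_true]
      congr 1
      unfold gau
      rw [latVec_zero]
      simp
    · simp [h]
  simp_rw [h1, Finset.sum_add_distrib]
  congr 1
  simp

theorem ofReal_SS {n : ℕ} (y : Fin n → EV d) (t : ℝ) (ht : 0 < t) :
    ∑ i, ∑ j, ∑' u : Fin d → ℤ, ENNReal.ofReal (gau t ‖y i - y j - latVec b u‖) =
      ENNReal.ofReal (SS b y t) := by
  unfold SS
  rw [ENNReal.ofReal_sum_of_nonneg (fun i _ => Finset.sum_nonneg fun j _ =>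
    tsum_nonneg fun v => gau_nn _ _)]
  apply Finset.sum_congr rfl
  intro i _
  rw [ENNReal.ofReal_sum_of_nonneg (fun j _ => tsum_nonneg fun v => gau_nn _ _)]
  apply Finset.sum_congr rfl
  intro j _
  rw [ENNReal.ofReal_tsum_of_nonneg (fun v => gau_nn _ _) (summ b t ht _),
    ← (Equiv.neg (Fin d → ℤ)).tsum_eq]
  apply tsum_congr
  intro v
  rw [Equiv.neg_apply, latVec_neg, sub_neg_eq_add]

theorem SS_ge {n : ℕ} (hn : 0 < n) (hb : covol b = n) (y : Fin n → EV d) (t : ℝ) (ht : 0 < t) :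
    (n : ℝ) * (Real.pi / t) ^ ((d : ℝ) / 2) ≤ SS b y t := by
  have hn' : (0 : ℝ) < n := by exact_mod_cast hn
  have h1 := lint_Fper b y t ht
  have h2 := lint_Fper_sq b y t ht
  rw [hb] at h1 h2
  have hnE : (n : ℝ≥0∞) = ENNReal.ofReal (n : ℝ) := (ENNReal.ofReal_natCast n).symm
  have h3 : ∫⁻ s in cube d, Fper b y t s = ENNReal.ofReal ((Real.pi / (2 * t)) ^ ((d : ℝ) / 2)) := by
    rw [h1, hnE, ← mul_assoc, ENNReal.mul_inv_cancel _ ENNReal.ofReal_ne_top, one_mul]
    rw [Ne, ENNReal.ofReal_eq_zero, not_le]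
    exact hn'
  have h4 := cs (Fper b y t) (Fper_measurable b y t) (by rw [h3]; exact ENNReal.ofReal_ne_top)
  rw [h3, h2, ofReal_SS b y t ht] at h4
  have hS0 : 0 ≤ SS b y t := Finset.sum_nonneg fun i _ => Finset.sum_nonneg fun j _ =>
    tsum_nonneg fun v => gau_nn _ _
  have hP0 : 0 ≤ (Real.pi / (2 * t)) ^ ((d : ℝ) / 2) := by positivity
  have hQ0 : 0 < (Real.pi / (4 * t)) ^ ((d : ℝ) / 2) := by
    apply Real.rpow_pos_of_pos
    positivity
  rw [← ENNReal.ofReal_inv_of_pos hn', ← ENNReal.ofReal_mul hP0,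
    ← ENNReal.ofReal_mul (by positivity), ← ENNReal.ofReal_mul (by positivity),
    ENNReal.ofReal_le_ofReal_iff (by positivity)] at h4
  have h5 : (Real.pi / (2 * t)) ^ ((d : ℝ) / 2) * (Real.pi / (2 * t)) ^ ((d : ℝ) / 2) =
      (Real.pi / (4 * t)) ^ ((d : ℝ) / 2) * (Real.pi / t) ^ ((d : ℝ) / 2) := by
    rw [← Real.mul_rpow (by positivity) (by positivity),
      ← Real.mul_rpow (by positivity) (by positivity)]
    congr 1
    field_simp
    norm_num
  rw [h5] at h4
  have h6 : (n : ℝ)⁻¹ * (Real.pi / (4 * t)) ^ ((d : ℝ) / 2) * SS b y t =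
      (Real.pi / (4 * t)) ^ ((d : ℝ) / 2) * ((n : ℝ)⁻¹ * SS b y t) := by ring
  rw [h6] at h4
  have h7 := le_of_mul_le_mul_left h4 hQ0
  rw [inv_mul_eq_div, le_div_iff₀ hn'] at h7
  linarith

theorem perSet_nonempty' (d : ℕ) (t : ℝ) : (perSet d t).Nonempty := by
  refine ⟨_, 1, LB9.sb d, fun _ => 0, one_pos, ?_, ?_, rfl⟩
  · intro i j v _
    exact Subsingleton.elim i j
  · rw [LB9.covol_sb]
    simp

end LB16

theorem eOpt_ge {d : ℕ} (hd : 0 < d) (t : ℝ) (ht : 0 < t) :
    (Real.pi / t) ^ ((d : ℝ) / 2) - 1 ≤ eOpt d t := by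
  apply le_csInf (LB16.perSet_nonempty' d t)
  rintro e ⟨n, b', y, hn, hy, hb, rfl⟩
  have hn' : (0 : ℝ) < n := by exact_mod_cast hn
  have h1 := LB16.SS_ge b' hn hb y t ht
  rw [LB16.SS_eq b' y t ht] at h1
  rw [le_div_iff₀ hn']
  linarith

end Pool.Agent.Helper78.LE
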