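import Pool.Agent.Helper78.LE.LBDefs
import Pool.Agent.Helper78.LE.LB16

/-!
Project LB, module LB17: an explicit lower bound.
-/

set_option autoImplicit false

open MeasureTheory Set Filter Topology

namespace Pool.Agent.Helper78.LE

namespace LB17

theorem logexp_int : IntegrableOn (fun t : ℝ => Real.log t * Real.exp (-t)) (Ioi 0) := by
  have hm : Measurable (fun t : ℝ => Real.log t * Real.exp (-t)) := by fun_prop
  rw [← Ioc_union_Ioi_eq_Ioi (zero_le_one (α := ℝ))]
  apply IntegrableOn.union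
  · have h1 : IntegrableOn Real.log (Ioc 0 1) := by
      have := intervalIntegral.intervalIntegrable_log' (a := 0) (b := 1)
      rwa [intervalIntegrable_iff_integrableOn_Ioc_of_le zero_le_one] at this
    refine Integrable.mono' h1.norm hm.aestronglyMeasurable ?_
    rw [ae_restrict_iff' measurableSet_Ioc]
    apply Filter.Eventually.of_forall
    intro t ht
    rw [norm_mul]
    have h2 : ‖Real.exp (-t)‖ ≤ 1 := by
      rw [Real.norm_of_nonneg (Real.exp_pos _).le]
      exact Real.exp_le_one_iff.mpr (by linarith [ht.1])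
    calc ‖Real.log t‖ * ‖Real.exp (-t)‖ ≤ ‖Real.log t‖ * 1 :=
          mul_le_mul_of_nonneg_left h2 (norm_nonneg _)
      _ = ‖Real.log t‖ := mul_one _
  · have h1 := (Real.GammaIntegral_convergent (s := 2) (by norm_num)).mono_set
      (Ioi_subset_Ioi (zero_le_one (α := ℝ)))
    refine Integrable.mono' h1 hm.aestronglyMeasurable ?_
    rw [ae_restrict_iff' measurableSet_Ioi]
    apply Filter.Eventually.of_forall
    intro t ht
    have ht1 : (1 : ℝ) < t := ht
    have h2 : Real.log t ≤ t := Real.log_le_self (by linarith)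
    have h3 : 0 ≤ Real.log t := Real.log_nonneg ht1.le
    rw [Real.norm_of_nonneg (mul_nonneg h3 (Real.exp_pos _).le)]
    norm_num
    rw [mul_comm (Real.exp (-t))]
    exact mul_le_mul_of_nonneg_right h2 (Real.exp_pos _).le

theorem logexp_integral : ∫ t in Ioi (0 : ℝ), Real.log t * Real.exp (-t) =
    -Real.eulerMascheroniConstant := by
  have h1 := Complex.hasDerivAt_GammaIntegral (s := 1) (by simp)
  have h2 : HasDerivAt Complex.GammaIntegral (-(Real.eulerMascheroniConstant : ℂ)) 1 := by
    refine Complex.hasDerivAt_Gamma_one.congr_of_eventuallyEq ?_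
    have : {s : ℂ | 0 < s.re} ∈ 𝓝 (1 : ℂ) :=
      (Complex.continuous_re.isOpen_preimage _ isOpen_Ioi).mem_nhds (by simp)
    filter_upwards [this] with s hs
    exact (Complex.Gamma_eq_integral hs).symm
  have h3 := h1.unique h2
  have h4 : ∫ t in Ioi (0 : ℝ), ((t : ℂ) ^ ((1 : ℂ) - 1) * ((Real.log t : ℂ) * (Real.exp (-t) : ℂ))) =
      ((∫ t in Ioi (0 : ℝ), Real.log t * Real.exp (-t) : ℝ) : ℂ) := by
    rw [← integral_complex_ofReal]
    apply integral_congr_ae
    apply Filter.Eventually.of_forall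
    intro t
    simp
  rw [h4] at h3
  exact_mod_cast h3

theorem exp_div_int {a : ℝ} (ha : 0 < a) : IntegrableOn (fun t : ℝ => Real.exp (-t) / t) (Ioi a) := by
  have h1 : IntegrableOn (fun t : ℝ => Real.exp (-t)) (Ioi a) := by
    have := integrableOn_exp_mul_Ioi (a := -1) (by norm_num) a
    simpa using this
  have hm : Measurable (fun t : ℝ => Real.exp (-t) / t) := by fun_prop
  refine Integrable.mono' (h1.const_mul (1 / a)) hm.aestronglyMeasurable ?_
  rw [ae_restrict_iff' measurableSet_Ioi]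
  apply Filter.Eventually.of_forall
  intro t ht
  have ht1 : a < t := ht
  have ht0 : 0 < t := ha.trans ht1
  rw [Real.norm_of_nonneg (by positivity), div_eq_mul_one_div, mul_comm]
  apply mul_le_mul_of_nonneg_right _ (Real.exp_pos _).le
  exact one_div_le_one_div_of_le ha ht1.le

theorem abs_exp_sub_one_le {t : ℝ} (ht : 0 < t) : |Real.exp (-t) - 1| ≤ t := by
  rw [abs_sub_comm, abs_of_nonneg]
  · linarith [Real.add_one_le_exp (-t)]
  · have : Real.exp (-t) ≤ 1 := Real.exp_le_one_iff.mpr (by linarith)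
    linarith

theorem exp_sub_div_int (a : ℝ) (ha : 0 < a) :
    IntervalIntegrable (fun t : ℝ => (Real.exp (-t) - 1) / t) volume 0 a := by
  rw [intervalIntegrable_iff_integrableOn_Ioc_of_le ha.le]
  have h1 : IntegrableOn (fun _ : ℝ => (1 : ℝ)) (Ioc 0 a) := by
    simp [IntegrableOn]
  have hm : Measurable (fun t : ℝ => (Real.exp (-t) - 1) / t) := by fun_prop
  refine Integrable.mono' h1 hm.aestronglyMeasurable ?_
  rw [ae_restrict_iff' measurableSet_Ioc]
  apply Filter.Eventually.of_forall
  intro t ht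
  rw [Real.norm_eq_abs, abs_div, abs_of_pos ht.1, div_le_one ht.1]
  exact abs_exp_sub_one_le ht.1

theorem part_one (a : ℝ) (ha : 0 < a) :
    ∫ t in (0 : ℝ)..a, ((Real.exp (-t) - 1) / t - Real.log t * Real.exp (-t)) =
      (Real.exp (-a) - 1) * Real.log a := by
  have hint : IntervalIntegrable (fun t : ℝ => (Real.exp (-t) - 1) / t -
      Real.log t * Real.exp (-t)) volume 0 a := by
    apply (exp_sub_div_int a ha).sub
    rw [intervalIntegrable_iff_integrableOn_Ioc_of_le ha.le]
    exact logexp_int.mono_set Ioc_subset_Ioi_self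
  have hd : ∀ t : ℝ, 0 < t → HasDerivAt (fun t : ℝ => (Real.exp (-t) - 1) * Real.log t)
      ((Real.exp (-t) - 1) / t - Real.log t * Real.exp (-t)) t := by
    intro t ht
    have h1 : HasDerivAt (fun t : ℝ => Real.exp (-t) - 1) (-Real.exp (-t)) t := by
      have := ((hasDerivAt_neg t).exp).sub_const 1
      simpa using this
    have h2 := h1.mul (Real.hasDerivAt_log ht.ne')
    refine HasDerivAt.congr_deriv h2 ?_
    rw [div_eq_mul_inv]
    ring
  have h := intervalIntegral.integral_eq_sub_of_hasDerivAt_of_tendsto ha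
    (f := fun t : ℝ => (Real.exp (-t) - 1) * Real.log t)
    (f' := fun t : ℝ => (Real.exp (-t) - 1) / t - Real.log t * Real.exp (-t))
    (fa := 0) (fb := (Real.exp (-a) - 1) * Real.log a) (fun t ht => hd t ht.1) hint ?_ ?_
  · rw [h, sub_zero]
  · have h1 : Tendsto (fun t : ℝ => |t * Real.log t|) (𝓝[>] 0) (𝓝 0) := by
      have := (Real.continuous_mul_log.abs.tendsto 0).mono_left (nhdsWithin_le_nhds (s := Ioi 0))
      simpa using this
    refine squeeze_zero_norm' ?_ h1
    filter_upwards [self_mem_nhdsWithin] with t ht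
    have ht0 : (0 : ℝ) < t := ht
    rw [norm_mul, Real.norm_eq_abs, Real.norm_eq_abs, abs_mul, abs_of_pos ht0]
    exact mul_le_mul_of_nonneg_right (abs_exp_sub_one_le ht0) (abs_nonneg _)
  · exact (hd a ha).continuousAt.tendsto.mono_left nhdsWithin_le_nhds

theorem part_two (a : ℝ) (ha : 0 < a) :
    ∫ t in Ioi a, (Real.exp (-t) / t - Real.log t * Real.exp (-t)) =
      -(Real.exp (-a) * Real.log a) := by
  have hint : IntegrableOn (fun t : ℝ => Real.exp (-t) / t - Real.log t * Real.exp (-t)) (Ioi a) :=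
    (exp_div_int ha).sub (logexp_int.mono_set (Ioi_subset_Ioi ha.le))
  have hd : ∀ t : ℝ, 0 < t → HasDerivAt (fun t : ℝ => Real.exp (-t) * Real.log t)
      (Real.exp (-t) / t - Real.log t * Real.exp (-t)) t := by
    intro t ht
    have h1 : HasDerivAt (fun t : ℝ => Real.exp (-t)) (-Real.exp (-t)) t := by
      have := ((hasDerivAt_neg t).exp)
      simpa using this
    have h2 := h1.mul (Real.hasDerivAt_log ht.ne')
    refine HasDerivAt.congr_deriv h2 ?_
    rw [div_eq_mul_inv]
    ring
  have h := integral_Ioi_of_hasDerivAt_of_tendsto' (a := a) (m := 0)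
    (f := fun t : ℝ => Real.exp (-t) * Real.log t)
    (f' := fun t : ℝ => Real.exp (-t) / t - Real.log t * Real.exp (-t))
    (fun t ht => hd t (ha.trans_le ht)) hint ?_
  · rw [h, zero_sub]
  · have h1 : Tendsto (fun t : ℝ => t ^ 1 * Real.exp (-t)) atTop (𝓝 0) :=
      Real.tendsto_pow_mul_exp_neg_atTop_nhds_zero 1
    refine squeeze_zero_norm' ?_ h1
    filter_upwards [eventually_ge_atTop (1 : ℝ)] with t ht
    have h3 : 0 ≤ Real.log t := Real.log_nonneg ht
    rw [Real.norm_of_nonneg (mul_nonneg (Real.exp_pos _).le h3), pow_one, mul_comm]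
    exact mul_le_mul_of_nonneg_right (Real.log_le_self (by linarith)) (Real.exp_pos _).le

end LB17

theorem exp_int (a : ℝ) (ha : 0 < a) :
    (∫ t in (0 : ℝ)..a, (Real.exp (-t) - 1) / t) + ∫ t in Ioi a, Real.exp (-t) / t =
      -Real.log a - Real.eulerMascheroniConstant := by
  have h1 := LB17.part_one a ha
  have h2 := LB17.part_two a ha
  have i1 : IntervalIntegrable (fun t : ℝ => Real.log t * Real.exp (-t)) volume 0 a := by
    rw [intervalIntegrable_iff_integrableOn_Ioc_of_le ha.le]
    exact LB17.logexp_int.mono_set Ioc_subset_Ioi_self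
  have i2 : IntegrableOn (fun t : ℝ => Real.log t * Real.exp (-t)) (Ioi a) :=
    LB17.logexp_int.mono_set (Ioi_subset_Ioi ha.le)
  rw [intervalIntegral.integral_sub (LB17.exp_sub_div_int a ha) i1] at h1
  rw [integral_sub (LB17.exp_div_int ha) i2] at h2
  have h3 : (∫ t in (0 : ℝ)..a, Real.log t * Real.exp (-t)) +
      ∫ t in Ioi a, Real.log t * Real.exp (-t) = -Real.eulerMascheroniConstant := by
    rw [← LB17.logexp_integral]
    exact intervalIntegral.integral_interval_add_Ioi LB17.logexp_int i2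
  linarith

theorem LB17.rpow_int (d : ℕ) (hd : 0 < d) :
    IntegrableOn (fun t : ℝ => (Real.pi / t) ^ ((d : ℝ) / 2) / t) (Ioi Real.pi) ∧
    ∫ t in Ioi Real.pi, (Real.pi / t) ^ ((d : ℝ) / 2) / t = 2 / d := by
  have hpi := Real.pi_pos
  have hd' : (0 : ℝ) < d := by exact_mod_cast hd
  have h1 : ∀ t ∈ Ioi Real.pi, (Real.pi / t) ^ ((d : ℝ) / 2) / t =
      Real.pi ^ ((d : ℝ) / 2) * t ^ (-((d : ℝ) / 2) - 1) := by
    intro t ht
    have ht0 : 0 < t := hpi.trans ht
    rw [Real.div_rpow hpi.le ht0.le, Real.rpow_sub ht0, Real.rpow_one, Real.rpow_neg ht0.le]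
    field_simp
  have hlt : -((d : ℝ) / 2) - 1 < -1 := by linarith
  constructor
  · rw [integrableOn_congr_fun h1 measurableSet_Ioi]
    exact (integrableOn_Ioi_rpow_of_lt hlt hpi).const_mul _
  · rw [setIntegral_congr_fun measurableSet_Ioi h1, integral_const_mul,
      integral_Ioi_rpow_of_lt hlt hpi]
    have h2 : -((d : ℝ) / 2) - 1 + 1 = -((d : ℝ) / 2) := by ring
    rw [h2, Real.rpow_neg hpi.le]
    have h3 : 0 < Real.pi ^ ((d : ℝ) / 2) := Real.rpow_pos_of_pos hpi _
    field_simp

/-- the lower bound from the two bounds for `eOpt` -/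
theorem LB17.lower_of {d : ℕ} (hd : 0 < d) (h0 : ∀ t : ℝ, 0 ≤ eOpt d t)
    (h1 : ∀ t : ℝ, 0 < t → (Real.pi / t) ^ ((d : ℝ) / 2) - 1 ≤ eOpt d t) :
    -(Real.log Real.pi + Real.eulerMascheroniConstant) / 2 - 1 / d ≤
      1 / 2 * ∫ t in Ioi (0 : ℝ), II d t := by
  have hpi := Real.pi_pos
  have hd' : (0 : ℝ) < d := by exact_mod_cast hd
  by_cases hI : IntegrableOn (II d) (Ioi 0)
  · have h2 : ∫ t in Ioi (0 : ℝ), II d t = (∫ t in (0 : ℝ)..Real.pi, II d t) +
        ∫ t in Ioi Real.pi, II d t :=
      (intervalIntegral.integral_interval_add_Ioi hI (hI.mono_set (Ioi_subset_Ioi hpi.le))).symm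
    have h3 : ∫ t in (0 : ℝ)..Real.pi, (Real.exp (-t) - 1) / t ≤ ∫ t in (0 : ℝ)..Real.pi, II d t := by
      apply intervalIntegral.integral_mono_on_of_le_Ioo hpi.le (LB17.exp_sub_div_int _ hpi)
      · rw [intervalIntegrable_iff_integrableOn_Ioc_of_le hpi.le]
        exact hI.mono_set Ioc_subset_Ioi_self
      · intro t ht
        unfold II
        apply div_le_div_of_nonneg_right _ ht.1.le
        have := h1 t ht.1
        linarith
    have h4 : ∫ t in Ioi Real.pi, (Real.exp (-t) / t - (Real.pi / t) ^ ((d : ℝ) / 2) / t) ≤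
        ∫ t in Ioi Real.pi, II d t := by
      apply setIntegral_mono_on
      · exact (LB17.exp_div_int hpi).sub (LB17.rpow_int d hd).1
      · exact hI.mono_set (Ioi_subset_Ioi hpi.le)
      · exact measurableSet_Ioi
      · intro t ht
        have ht0 : 0 < t := hpi.trans ht
        unfold II
        rw [← sub_div]
        apply div_le_div_of_nonneg_right _ ht0.le
        have := h0 t
        linarith
    rw [integral_sub (LB17.exp_div_int hpi) (LB17.rpow_int d hd).1, (LB17.rpow_int d hd).2] at h4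
    have h5 := exp_int Real.pi hpi
    have h6 : 2 / (d : ℝ) = 2 * (1 / d) := by ring
    rw [h2]
    linarith
  · rw [integral_undef hI, mul_zero]
    have h2 : 0 < Real.log Real.pi := Real.log_pos (by linarith [Real.pi_gt_three])
    have h3 : 0 < Real.eulerMascheroniConstant := by
      linarith [Real.one_half_lt_eulerMascheroniConstant]
    have h4 : 0 < 1 / (d : ℝ) := by positivity
    linarith

theorem LB17.eOpt_nn (d : ℕ) (t : ℝ) : 0 ≤ eOpt d t := by
  apply Real.sInf_nonneg
  rintro e ⟨n, b', y, hn, hy, hb, rfl⟩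
  apply div_nonneg _ (Nat.cast_nonneg n)
  apply Finset.sum_nonneg
  intro i _
  apply Finset.sum_nonneg
  intro j _
  apply tsum_nonneg
  intro v
  split_ifs
  · exact le_rfl
  · exact (Real.exp_pos _).le

variable {d : ℕ}

theorem II_lower (hd : 0 < d) :
    -(Real.log Real.pi + Real.eulerMascheroniConstant) / 2 - 1 / d ≤
      1 / 2 * ∫ t in Ioi (0 : ℝ), II d t :=
  LB17.lower_of hd (LB17.eOpt_nn d) (fun t ht => eOpt_ge hd t ht)

end Pool.Agent.Helper78.LE
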