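import Pool.Agent.Helper78.LE.LB9

/-!
Project LB, module LB10 (written by helper98): the optimal Gaussian energy and the optimality
bound for labelled configurations.
-/

set_option autoImplicit false

open MeasureTheory Set Filter Topology

namespace Pool.Agent.Helper78.LE

namespace LB10

variable {d : ℕ} (b : Module.Basis (Fin d) ℝ (EV d))

theorem gau_nonneg (t r : ℝ) : 0 ≤ gau t r := (Real.exp_pos _).le

theorem gau_anti {s t : ℝ} (h : s ≤ t) (r : ℝ) : gau t r ≤ gau s r := by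
  unfold gau
  apply Real.exp_le_exp.mpr
  nlinarith [sq_nonneg r]

theorem gau_summable (t : ℝ) (ht : 0 < t) :
    Summable (fun n : Fin d → ℤ => gau t ‖latVec b n‖) := by
  obtain ⟨c, C, hc, hC, hb⟩ := lin_bounds b
  have ha : 0 < t * c ^ 2 / (d + 1) := by positivity
  apply Summable.of_nonneg_of_le (fun n => gau_nonneg _ _) _ (LB9.EE_summable _ ha)
  intro n
  unfold gau LB9.EE
  apply Real.exp_le_exp.mpr
  apply neg_le_neg
  rw [latVec_eq]
  have h1 := (hb (iv n)).1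
  have h2 : ∑ l, (n l : ℝ) ^ 2 ≤ (d + 1) * ‖iv n‖ ^ 2 := by
    have h3 : ∀ l ∈ Finset.univ, (n l : ℝ) ^ 2 ≤ ‖iv n‖ ^ 2 := by
      intro l _
      have h4 : ‖iv n l‖ ≤ ‖iv n‖ := norm_le_pi_norm (iv n) l
      rw [Real.norm_eq_abs] at h4
      have h5 : (n l : ℝ) ^ 2 = |iv n l| ^ 2 := by
        rw [sq_abs]
        rfl
      rw [h5]
      exact pow_le_pow_left₀ (abs_nonneg _) h4 2
    have h6 := Finset.sum_le_card_nsmul _ _ _ h3
    rw [Finset.card_univ, Fintype.card_fin, nsmul_eq_mul] at h6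
    nlinarith [sq_nonneg ‖iv n‖]
  have h7 : (c * ‖iv n‖) ^ 2 ≤ ‖lin b (iv n)‖ ^ 2 :=
    pow_le_pow_left₀ (by positivity) h1 2
  calc t * c ^ 2 / (d + 1) * ∑ l, (n l : ℝ) ^ 2
      ≤ t * c ^ 2 / (d + 1) * ((d + 1) * ‖iv n‖ ^ 2) := by gcongr
    _ = t * (c * ‖iv n‖) ^ 2 := by
        field_simp
    _ ≤ t * ‖lin b (iv n)‖ ^ 2 := by gcongr

theorem shift_le (t : ℝ) (ht : 0 < t) (a v : EV d) :
    gau t ‖a + v‖ ≤ Real.exp (t * ‖a‖ ^ 2) * gau (t / 2) ‖v‖ := by
  unfold gau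
  rw [← Real.exp_add]
  apply Real.exp_le_exp.mpr
  have h1 : ‖v‖ ≤ ‖a + v‖ + ‖a‖ := by
    have := norm_sub_le (a + v) a
    rwa [add_sub_cancel_left] at this
  have h2 : ‖v‖ ^ 2 ≤ 2 * ‖a + v‖ ^ 2 + 2 * ‖a‖ ^ 2 := by
    have h3 : ‖v‖ ^ 2 ≤ (‖a + v‖ + ‖a‖) ^ 2 := pow_le_pow_left₀ (norm_nonneg _) h1 2
    nlinarith [sq_nonneg (‖a + v‖ - ‖a‖)]
  nlinarith

theorem shift_summable (t : ℝ) (ht : 0 < t) (a : EV d) (P : (Fin d → ℤ) → Prop)
    [DecidablePred P] :
    Summable (fun v : Fin d → ℤ => if P v then 0 else gau t ‖a + latVec b v‖) := by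
  have h1 := (gau_summable b (t / 2) (by positivity)).mul_left (Real.exp (t * ‖a‖ ^ 2))
  apply Summable.of_nonneg_of_le _ _ h1
  · intro v
    split_ifs
    · exact le_rfl
    · exact gau_nonneg _ _
  · intro v
    split_ifs
    · exact mul_nonneg (Real.exp_pos _).le (gau_nonneg _ _)
    · exact shift_le t ht a _

theorem perEnergy_nonneg {n : ℕ} (y : Fin n → EV d) (t : ℝ) : 0 ≤ perEnergy b y t := by
  unfold perEnergy
  apply Finset.sum_nonneg
  intro i _
  apply Finset.sum_nonneg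
  intro j _
  apply tsum_nonneg
  intro v
  split_ifs
  · exact le_rfl
  · exact gau_nonneg _ _

theorem perEnergy_anti {n : ℕ} (y : Fin n → EV d) {s t : ℝ} (hs : 0 < s) (hst : s ≤ t) :
    perEnergy b y t ≤ perEnergy b y s := by
  unfold perEnergy
  apply Finset.sum_le_sum
  intro i _
  apply Finset.sum_le_sum
  intro j _
  apply Summable.tsum_le_tsum _ (shift_summable b t (hs.trans_le hst) _ _)
    (shift_summable b s hs _ _)
  intro v
  split_ifs
  · exact le_rfl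
  · exact gau_anti hst _

/-- scaled basis -/
noncomputable def sc (c : ℝ) (hc : c ≠ 0) : Module.Basis (Fin d) ℝ (EV d) :=
  b.unitsSMul (fun _ => Units.mk0 c hc)

theorem latVec_sc (c : ℝ) (hc : c ≠ 0) (v : Fin d → ℤ) :
    latVec (sc b c hc) v = c • latVec b v := by
  unfold latVec sc
  rw [Finset.smul_sum]
  apply Finset.sum_congr rfl
  intro i _
  rw [Module.Basis.unitsSMul_apply]
  simp only [Units.smul_def, Units.val_mk0]
  rw [smul_smul, smul_smul, mul_comm]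

theorem covol_sc (c : ℝ) (hc : c ≠ 0) : covol (sc b c hc) = |c| ^ d * covol b := by
  unfold covol
  rw [ZSpan.measure_fundamentalDomain (sc b c hc) volume b]
  unfold sc
  rw [Module.Basis.det_unitsSMul_self, ENNReal.toReal_mul, ENNReal.toReal_ofReal (abs_nonneg _)]
  simp [abs_pow]

theorem perEnergy_sc {n : ℕ} (y : Fin n → EV d) (t c : ℝ) (hc : 0 < c) :
    perEnergy (sc b c hc.ne') (fun i => c • y i) (t / c ^ 2) = perEnergy b y t := by
  unfold perEnergy
  apply Finset.sum_congr rfl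
  intro i _
  apply Finset.sum_congr rfl
  intro j _
  apply tsum_congr
  intro v
  rw [latVec_sc, ← smul_sub, ← smul_add, norm_smul, Real.norm_of_nonneg hc.le]
  congr 1
  unfold gau
  congr 1
  rw [mul_pow]
  field_simp

end LB10

section LB10
variable {d : ℕ} (b : Module.Basis (Fin d) ℝ (EV d))

theorem theta_summable (t : ℝ) (ht : 0 < t) :
    Summable (fun n : Fin d → ℤ => gau t ‖latVec b n‖) := LB10.gau_summable b t ht

theorem theta_nonneg (t : ℝ) : 0 ≤ theta b t := tsum_nonneg fun _ => LB10.gau_nonneg _ _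

theorem exists_unit_basis (d : ℕ) : ∃ b : Module.Basis (Fin d) ℝ (EV d), covol b = 1 :=
  ⟨LB9.sb d, LB9.covol_sb d⟩

theorem perSet_nonneg (t e : ℝ) (he : e ∈ perSet d t) : 0 ≤ e := by
  obtain ⟨n, b', y, hn, _, _, rfl⟩ := he
  exact div_nonneg (LB10.perEnergy_nonneg b' y t) (Nat.cast_nonneg n)

theorem perSet_nonempty (d : ℕ) (t : ℝ) : (perSet d t).Nonempty :=
  ⟨_, 1, LB9.sb d, fun _ => 0, one_pos, fun _ _ _ _ => Subsingleton.elim _ _,
    by rw [LB9.covol_sb]; simp, rfl⟩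

theorem perSet_bddBelow (d : ℕ) (t : ℝ) : BddBelow (perSet d t) :=
  ⟨0, fun e he => perSet_nonneg t e he⟩

theorem eOpt_nonneg (d : ℕ) (t : ℝ) : 0 ≤ eOpt d t :=
  le_csInf (perSet_nonempty d t) fun e he => perSet_nonneg t e he

theorem eOpt_le_theta (hb : covol b = 1) (t : ℝ) : eOpt d t ≤ theta b t := by
  apply csInf_le (perSet_bddBelow d t)
  refine ⟨1, b, fun _ => 0, one_pos, fun _ _ _ _ => Subsingleton.elim _ _,
    by rw [hb]; simp, ?_⟩
  unfold perEnergy theta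
  rw [Nat.cast_one, div_one, Fin.sum_univ_one, Fin.sum_univ_one]
  simp only [sub_self, zero_add, true_and]
  have h := tsum_subtype {n : Fin d → ℤ | n ≠ 0} (fun n => gau t ‖latVec b n‖)
  have h2 : (∑' n : {n : Fin d → ℤ // n ≠ 0}, gau t ‖latVec b n.1‖) =
      ∑' x : {n : Fin d → ℤ | n ≠ 0}, gau t ‖latVec b x‖ := rfl
  rw [h2, h]
  apply tsum_congr
  intro v
  by_cases hv : v = 0
  · simp [hv]
  · simp [hv]

theorem eOpt_anti (d : ℕ) : AntitoneOn (eOpt d) (Ioi 0) := by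
  intro s hs t _ hst
  apply le_csInf (perSet_nonempty d s)
  rintro e ⟨n, b', y, hn, hdis, hcov, rfl⟩
  have hn' : (0 : ℝ) < n := Nat.cast_pos.2 hn
  calc eOpt d t ≤ perEnergy b' y t / n :=
        csInf_le (perSet_bddBelow d t) ⟨n, b', y, hn, hdis, hcov, rfl⟩
    _ ≤ perEnergy b' y s / n := by
        have := LB10.perEnergy_anti b' y hs hst
        gcongr

theorem eOpt_of_univOpt (hb : covol b = 1) (h : UnivOpt b) (t : ℝ) (ht : 0 < t) :
    eOpt d t = theta b t := by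
  apply le_antisymm (eOpt_le_theta b hb t)
  apply le_csInf (perSet_nonempty d t)
  rintro e ⟨n, b', y, hn, hdis, hcov, rfl⟩
  have hn' : (0 : ℝ) < n := Nat.cast_pos.2 hn
  have h1 := h t ht n b' y hn hdis (by rw [hcov, hb, mul_one])
  rw [le_div_iff₀ hn', mul_comm]
  exact h1

/-- every periodic configuration bounds the optimal energy after scaling -/
theorem eOpt_le_perEnergy {n : ℕ} (hn : 0 < n) (y : Fin n → EV d)
    (hdis : ∀ (i j : Fin n) (v : Fin d → ℤ), y i - y j + latVec b v = 0 → i = j) (t : ℝ)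
    (c : ℝ) (hc : 0 < c) (hcov : c ^ d * covol b = n) :
    n * eOpt d (t / c ^ 2) ≤ perEnergy b y t := by
  have hn' : (0 : ℝ) < n := Nat.cast_pos.2 hn
  have h1 : eOpt d (t / c ^ 2) ≤
      perEnergy (LB10.sc b c hc.ne') (fun i => c • y i) (t / c ^ 2) / n := by
    apply csInf_le (perSet_bddBelow d _)
    refine ⟨n, LB10.sc b c hc.ne', fun i => c • y i, hn, ?_, ?_, rfl⟩
    · intro i j v h
      rw [LB10.latVec_sc, ← smul_sub, ← smul_add, smul_eq_zero] at h
      exact hdis i j v (h.resolve_left hc.ne')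
    · rw [LB10.covol_sc, abs_of_pos hc, hcov]
  rw [LB10.perEnergy_sc b y t c hc, le_div_iff₀ hn'] at h1
  linarith

theorem corridor_opt (hd : 0 < d) (t δ : ℝ) (ht : 0 < t) (hδ : 0 < δ) :
    ∃ M : ℕ, 0 < M ∧ ∀ (n K : ℕ) (κ : Fin n → Fin K) (p : Fin n → EV d), 0 < n →
      (∀ i l, 0 ≤ p i l ∧ p i l < M) → (∀ i j, κ i = κ j → p i = p j → i = j) →
      n * eOpt d (t * ((1 + δ) * K * (M : ℝ) ^ d / n) ^ ((2 : ℝ) / d)) ≤
        (1 + δ) * labE t κ p + δ * n := by
  obtain ⟨M, hM, hmain⟩ := corridor_energy hd t δ ht hδ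
  refine ⟨M, hM, ?_⟩
  intro n K κ p hn hp hinj
  obtain ⟨b', y, hdis, hcov, hen⟩ := hmain n K κ p hn hp hinj
  have hn' : (0 : ℝ) < n := Nat.cast_pos.2 hn
  have hd' : (0 : ℝ) < d := Nat.cast_pos.2 hd
  have hc' : 0 < covol b' := covol_pos b'
  set c : ℝ := ((n : ℝ) / covol b') ^ ((1 : ℝ) / d) with hcdef
  have hc : 0 < c := Real.rpow_pos_of_pos (div_pos hn' hc') _
  have hcd : c ^ d * covol b' = n := by
    rw [hcdef, ← Real.rpow_natCast, ← Real.rpow_mul (div_pos hn' hc').le, one_div,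
      inv_mul_cancel₀ hd'.ne', Real.rpow_one]
    field_simp
  have h1 := eOpt_le_perEnergy b' hn y hdis t c hc hcd
  have h2 : t / c ^ 2 = t * (covol b' / n) ^ ((2 : ℝ) / d) := by
    have h3 : c ^ 2 = ((n : ℝ) / covol b') ^ ((2 : ℝ) / d) := by
      rw [hcdef, ← Real.rpow_natCast, ← Real.rpow_mul (div_pos hn' hc').le]
      congr 1
      push_cast
      ring
    rw [h3, ← inv_div (n : ℝ) (covol b'), Real.inv_rpow (div_pos hn' hc').le, div_eq_mul_inv]
  have h4 : t / c ^ 2 ≤ t * ((1 + δ) * K * (M : ℝ) ^ d / n) ^ ((2 : ℝ) / d) := by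
    rw [h2]
    gcongr
  have h5 : 0 < t / c ^ 2 := by positivity
  have h6 := eOpt_anti d (Set.mem_Ioi.2 h5) (Set.mem_Ioi.2 (h5.trans_le h4)) h4
  calc n * eOpt d (t * ((1 + δ) * K * (M : ℝ) ^ d / n) ^ ((2 : ℝ) / d))
      ≤ n * eOpt d (t / c ^ 2) := by gcongr
    _ ≤ perEnergy b' y t := h1
    _ ≤ _ := hen

end LB10

end Pool.Agent.Helper78.LE
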