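import Pool.Agent.Helper78.LE.LE1

/-!
LE2: the surface measure in stereographic coordinates.
-/

set_option autoImplicit false

open MeasureTheory Set Filter Topology
open scoped RealInnerProductSpace Pointwise

namespace Pool.Agent.Helper78.LE

variable {d : ℕ}

noncomputable def stereoS (y : EV d) : Metric.sphere (0 : EV (d + 1)) 1 :=
  ⟨stereo y, by simp [norm_stereo]⟩

namespace LE2

/-- last coordinate -/
noncomputable def la : EV (d + 1) →L[ℝ] ℝ := EuclideanSpace.proj (Fin.last d)

/-- first `d` coordinates -/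
noncomputable def pr : EV (d + 1) →L[ℝ] EV d :=
  LinearMap.toContinuousLinearMap
    { toFun := fun z => WithLp.toLp 2 fun i => z i.castSucc
      map_add' := fun x y => by ext i; simp
      map_smul' := fun c x => by ext i; simp }

/-- the embedding of the equatorial hyperplane -/
noncomputable def em : EV d →L[ℝ] EV (d + 1) :=
  LinearMap.toContinuousLinearMap
    { toFun := fun y => WithLp.toLp 2 (Fin.snoc (α := fun _ => ℝ) (fun i => y i) 0)
      map_add' := fun x y => by
        ext i; refine Fin.lastCases ?_ (fun j => ?_) i <;> simp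
      map_smul' := fun c x => by
        ext i; refine Fin.lastCases ?_ (fun j => ?_) i <;> simp }

/-- the north pole -/
noncomputable def eN : EV (d + 1) := EuclideanSpace.single (Fin.last d) (1:ℝ)

@[simp] lemma la_apply (z : EV (d + 1)) : la z = z (Fin.last d) := rfl
@[simp] lemma pr_apply (z : EV (d + 1)) (i : Fin d) : pr z i = z i.castSucc := rfl
@[simp] lemma em_castSucc (y : EV d) (i : Fin d) : em y i.castSucc = y i := by
  change (Fin.snoc (α := fun _ => ℝ) (fun i => y i) 0 : Fin (d + 1) → ℝ) i.castSucc = y i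
  simp
@[simp] lemma em_last (y : EV d) : em y (Fin.last d) = 0 := by
  change (Fin.snoc (α := fun _ => ℝ) (fun i => y i) 0 : Fin (d + 1) → ℝ) (Fin.last d) = 0
  simp
@[simp] lemma eN_castSucc (i : Fin d) : (eN : EV (d + 1)) i.castSucc = 0 := by
  simp [eN, Fin.castSucc_ne_last]
@[simp] lemma eN_last : (eN : EV (d + 1)) (Fin.last d) = 1 := by
  simp [eN]

lemma inner_eq (u v : EV (d + 1)) : ⟪u, v⟫ = ⟪pr u, pr v⟫ + la u * la v := by
  simp only [PiLp.inner_apply, Fin.sum_univ_castSucc, la_apply, pr_apply]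
  simp [mul_comm]

lemma ext_pr {u v : EV (d + 1)} (h : pr u = pr v) (h' : la u = la v) : u = v := by
  ext i
  refine Fin.lastCases ?_ (fun j => ?_) i
  · exact h'
  · rw [← pr_apply, h, pr_apply]

@[simp] lemma pr_em (y : EV d) : pr (em y) = y := by ext i; simp
@[simp] lemma pr_eN : pr (eN : EV (d + 1)) = 0 := by ext i; simp
lemma la_em (y : EV d) : la (em y) = 0 := by simp
lemma la_eN : la (eN : EV (d + 1)) = 1 := by simp

lemma stereo_eq (y : EV d) : stereo y = cfac y • em y + (1 - cfac y) • eN := by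
  ext i
  refine Fin.lastCases ?_ (fun j => ?_) i
  · simp [stereo]
  · simp [stereo]

lemma cfac_pos (y : EV d) : 0 < cfac y := by unfold cfac; positivity

lemma cfac_mul (y : EV d) : cfac y * (1 + ‖y‖ ^ 2) = 2 := by
  unfold cfac
  have : (1 + ‖y‖ ^ 2) ≠ 0 := by positivity
  field_simp

lemma cfac_deriv (y : EV d) : HasFDerivAt (cfac (d := d)) ((-(cfac y ^ 2)) • innerSL ℝ y) y := by
  have h1 : HasFDerivAt (fun y : EV d => 1 + ‖y‖ ^ 2) (2 • innerSL ℝ y) y :=
    (hasStrictFDerivAt_norm_sq y).hasFDerivAt.const_add 1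
  have hne : (1 + ‖y‖ ^ 2) ≠ 0 := by positivity
  have h0 : HasDerivAt (fun t : ℝ => 2 / t) (-(2 / (1 + ‖y‖ ^ 2) ^ 2)) (1 + ‖y‖ ^ 2) := by
    have := (hasDerivAt_inv hne).const_mul (2:ℝ)
    refine (this.congr_deriv ?_).congr_of_eventuallyEq ?_
    · ring
    · exact Filter.Eventually.of_forall fun t => by simp [div_eq_mul_inv]
  have h2 := h0.comp_hasFDerivAt y h1
  refine h2.congr_fderiv ?_
  ext h
  simp [cfac]
  field_simp

lemma stereo_deriv (y : EV d) : HasFDerivAt (stereo (d := d))
    (cfac y • em - (cfac y ^ 2) • ((innerSL ℝ y).smulRight (em y - eN))) y := by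
  have e : stereo (d := d) = fun y => cfac y • (em y - eN) + eN := by
    funext y
    rw [stereo_eq, sub_smul, one_smul, smul_sub]
    abel
  rw [e]
  have h1 : HasFDerivAt (fun y : EV d => em y - eN) (em : EV d →L[ℝ] EV (d + 1)) y :=
    em.hasFDerivAt.sub_const _
  have h2 := ((cfac_deriv y).smul h1).add_const eN
  refine h2.congr_fderiv ?_
  ext h i
  simp
  ring

/-- The polar parametrisation. -/
noncomputable def G (z : EV (d + 1)) : EV (d + 1) := la z • stereo (pr z)

/-- Its derivative. -/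
noncomputable def J (z : EV (d + 1)) : EV (d + 1) →L[ℝ] EV (d + 1) :=
  (la : EV (d + 1) →L[ℝ] ℝ).smulRight (stereo (pr z)) +
    la z • (cfac (pr z) • (em.comp pr) -
      (cfac (pr z) ^ 2) • (((innerSL ℝ (pr z)).comp pr).smulRight (em (pr z) - eN)))

lemma G_deriv (z : EV (d + 1)) : HasFDerivAt (G (d := d)) (J z) z := by
  have h1 : HasFDerivAt (fun z : EV (d + 1) => la z) la z := la.hasFDerivAt
  have h2 : HasFDerivAt (fun z : EV (d + 1) => stereo (pr z)) _ z :=
    (stereo_deriv (pr z)).comp z pr.hasFDerivAt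
  have h3 := h1.smul h2
  refine h3.congr_fderiv ?_
  ext h i
  simp [J]
  ring

lemma pr_stereo (y : EV d) : pr (stereo y) = cfac y • y := by
  rw [stereo_eq]; simp

lemma la_stereo (y : EV d) : la (stereo y) = 1 - cfac y := by
  rw [stereo_eq]; simp

lemma J_apply (z h : EV (d + 1)) : J z h = la h • stereo (pr z) +
    la z • (cfac (pr z) • em (pr h) - (cfac (pr z) ^ 2 * ⟪pr z, pr h⟫) • (em (pr z) - eN)) := by
  ext i
  simp [J]
  left
  ring

lemma pr_J (z h : EV (d + 1)) : pr (J z h) =
    (la h * cfac (pr z) - la z * cfac (pr z) ^ 2 * ⟪pr z, pr h⟫) • pr z +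
      (la z * cfac (pr z)) • pr h := by
  rw [J_apply, map_add, map_smul, map_smul, map_sub, map_smul, map_smul, map_sub, pr_stereo,
    pr_em, pr_em, pr_eN]
  module

lemma la_J (z h : EV (d + 1)) : la (J z h) =
    la h - (la h * cfac (pr z) - la z * cfac (pr z) ^ 2 * ⟪pr z, pr h⟫) := by
  rw [J_apply, map_add, map_smul, map_smul, map_sub, map_smul, map_smul, map_sub, la_stereo,
    la_em, la_em, la_eN]
  simp only [smul_eq_mul]
  ring

lemma J_inner (z h k : EV (d + 1)) : ⟪J z h, J z k⟫ =
    la h * la k + (la z * cfac (pr z)) ^ 2 * ⟪pr h, pr k⟫ := by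
  rw [inner_eq, pr_J, pr_J, la_J, la_J]
  have hc := cfac_mul (pr z)
  rw [← real_inner_self_eq_norm_sq] at hc
  simp only [inner_add_left, inner_add_right, real_inner_smul_left, real_inner_smul_right,
    real_inner_comm (pr z) (pr h)]
  linear_combination (cfac (pr z) * (la h - la z * cfac (pr z) * ⟪pr z, pr h⟫) *
    (la k - la z * cfac (pr z) * ⟪pr z, pr k⟫)) * hc

lemma J_det (z : EV (d + 1)) : |(J z).det| = |la z * cfac (pr z)| ^ d := by
  set bb := (EuclideanSpace.basisFun (Fin (d + 1)) ℝ).toBasis with hbb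
  set M := LinearMap.toMatrix bb bb (J z : EV (d + 1) →ₗ[ℝ] EV (d + 1)) with hM
  have hMe : ∀ i j, M i j = (J z (EuclideanSpace.single j (1:ℝ))) i := by
    intro i j
    rw [hM, LinearMap.toMatrix_apply]
    simp [hbb]
  set c := la z * cfac (pr z) with hc
  have hMM : M.transpose * M = Matrix.diagonal
      (Fin.snoc (α := fun _ => ℝ) (fun _ : Fin d => c ^ 2) 1) := by
    ext i j
    have h1 : (M.transpose * M) i j
        = ⟪J z (EuclideanSpace.single i (1:ℝ)), J z (EuclideanSpace.single j (1:ℝ))⟫ := by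
      rw [Matrix.mul_apply, PiLp.inner_apply]
      refine Finset.sum_congr rfl fun k _ => ?_
      rw [Matrix.transpose_apply, hMe, hMe]
      simp [mul_comm]
    rw [h1, J_inner]
    have hsc : ∀ a : Fin d, pr (EuclideanSpace.single a.castSucc (1:ℝ))
        = EuclideanSpace.single a (1:ℝ) := by
      intro a; ext b
      simp [PiLp.single_apply]
    have hsl : pr (EuclideanSpace.single (Fin.last d) (1:ℝ)) = 0 := by
      ext b
      simp [PiLp.single_apply, Fin.castSucc_ne_last]
    have hlc : ∀ a : Fin d, la (EuclideanSpace.single a.castSucc (1:ℝ)) = 0 := by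
      intro a
      simp [PiLp.single_apply, (Fin.castSucc_ne_last a).symm]
    have hll : la (EuclideanSpace.single (Fin.last d) (1:ℝ)) = 1 := by
      simp
    refine Fin.lastCases ?_ (fun a => ?_) i
    · refine Fin.lastCases ?_ (fun b => ?_) j
      · rw [hll, hsl]; simp
      · rw [hll, hlc, hsl, Matrix.diagonal_apply_ne _ (Fin.castSucc_ne_last b).symm]; simp
    · refine Fin.lastCases ?_ (fun b => ?_) j
      · rw [hll, hlc, hsl, Matrix.diagonal_apply_ne _ (Fin.castSucc_ne_last a)]; simp
      · rw [hlc, hlc, hsc, hsc]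
        by_cases hab : a = b
        · subst hab
          rw [Matrix.diagonal_apply_eq]
          simp [hc]
        · rw [Matrix.diagonal_apply_ne _ (fun h => hab (Fin.castSucc_injective _ h))]
          have h0 : ⟪EuclideanSpace.single a (1:ℝ), EuclideanSpace.single b (1:ℝ)⟫ = 0 := by
            rw [EuclideanSpace.inner_single_left]; simp [hab]
          rw [h0]; simp
  have hdet : M.det ^ 2 = (c ^ 2) ^ d := by
    have h1 : (M.transpose * M).det = M.det ^ 2 := by
      rw [Matrix.det_mul, Matrix.det_transpose, sq]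
    rw [← h1, hMM, Matrix.det_diagonal, Fin.prod_univ_castSucc]
    simp
  have hdet2 : M.det = (J z).det := by
    rw [hM, LinearMap.det_toMatrix]
  rw [hdet2] at hdet
  have h2 : |(J z).det| ^ 2 = (|c| ^ d) ^ 2 := by
    rw [sq_abs, hdet, ← pow_mul, ← pow_mul, mul_comm d 2, pow_mul, pow_mul, sq_abs]
  exact (sq_eq_sq₀ (abs_nonneg _) (by positivity)).1 h2

lemma stereo_continuous : Continuous (stereo (d := d)) :=
  continuous_iff_continuousAt.2 fun y => (stereo_deriv y).continuousAt

lemma stereoS_continuous : Continuous (stereoS (d := d)) := stereo_continuous.subtype_mk _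

lemma cfac_continuous : Continuous (cfac (d := d)) :=
  continuous_iff_continuousAt.2 fun y => (cfac_deriv y).continuousAt

lemma stereo_injective : Function.Injective (stereo (d := d)) := by
  intro y y' h
  have h1 := norm_stereo_sub y y'
  rw [h, sub_self, norm_zero] at h1
  have h2 : 0 < √(cfac y * cfac y') := Real.sqrt_pos.2 (mul_pos (cfac_pos y) (cfac_pos y'))
  rcases mul_eq_zero.1 h1.symm with h3 | h3
  · exact sub_eq_zero.1 (norm_eq_zero.1 h3)
  · exact absurd h3 h2.ne'

lemma G_injOn : InjOn (G (d := d)) {z : EV (d + 1) | 0 < la z} := by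
  intro z hz z' hz' h
  have hz1 : 0 < la z := hz
  have hz2 : 0 < la z' := hz'
  have hn : ∀ z : EV (d + 1), 0 < la z → ‖G z‖ = la z := by
    intro z hz
    rw [G, norm_smul, norm_stereo, mul_one, Real.norm_of_nonneg hz.le]
  have h1 : la z = la z' := by rw [← hn z hz1, ← hn z' hz2, h]
  have h2 : stereo (pr z) = stereo (pr z') := by
    have h3 := h
    rw [G, G, h1] at h3
    exact smul_right_injective _ (ne_of_gt hz2) h3
  exact ext_pr (stereo_injective h2) h1

lemma norm_sq_eq (x : EV (d + 1)) : ‖x‖ ^ 2 = ‖pr x‖ ^ 2 + la x ^ 2 := by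
  rw [← real_inner_self_eq_norm_sq, inner_eq, real_inner_self_eq_norm_sq]; ring

lemma exists_stereo (x : EV (d + 1)) (hx : ‖x‖ = 1) (hne : la x ≠ 1) : ∃ y, stereo y = x := by
  have h1 := norm_sq_eq x
  rw [hx] at h1
  have h2 : 1 - la x ≠ 0 := fun h => hne (by linarith)
  refine ⟨(1 - la x)⁻¹ • pr x, ?_⟩
  have hc : cfac ((1 - la x)⁻¹ • pr x) = 1 - la x := by
    have h3 : ‖(1 - la x)⁻¹ • pr x‖ ^ 2 = ((1 - la x)⁻¹) ^ 2 * (1 - la x ^ 2) := by
      rw [norm_smul, mul_pow, Real.norm_eq_abs, sq_abs]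
      congr 1
      linarith
    rw [cfac, h3]
    have h4 : 1 + ((1 - la x)⁻¹) ^ 2 * (1 - la x ^ 2) = 2 * (1 - la x)⁻¹ := by
      field_simp
      ring
    rw [h4]
    field_simp
  apply ext_pr
  · rw [pr_stereo, hc, smul_smul, mul_inv_cancel₀ h2, one_smul]
  · rw [la_stereo, hc]; ring

/-- The part of the parameter space over the set `B`. -/
def SB (B : Set (Metric.sphere (0 : EV (d + 1)) 1)) : Set (EV (d + 1)) :=
  {z | la z ∈ Ioo (0:ℝ) 1 ∧ stereoS (pr z) ∈ B}

lemma SB_meas {B : Set (Metric.sphere (0 : EV (d + 1)) 1)} (hB : MeasurableSet B) :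
    MeasurableSet (SB B) := by
  apply MeasurableSet.inter
  · exact la.continuous.measurable measurableSet_Ioo
  · exact (stereoS_continuous.comp pr.continuous).measurable hB

lemma volume_cone (hd : 0 < d) (B : Set (Metric.sphere (0 : EV (d + 1)) 1)) :
    volume (Ioo (0 : ℝ) 1 • ((↑) '' B : Set (EV (d + 1)))) = volume (G '' SB B) := by
  apply le_antisymm
  · set l : Submodule ℝ (EV (d + 1)) := Submodule.span ℝ {eN} with hl
    have hl0 : volume (l : Set (EV (d + 1))) = 0 := by
      apply Measure.addHaar_submodule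
      intro htop
      have h1 : em (EuclideanSpace.single (⟨0, hd⟩ : Fin d) (1:ℝ)) ∈ l := by rw [htop]; trivial
      rw [hl, Submodule.mem_span_singleton] at h1
      obtain ⟨c, hc⟩ := h1
      have h2 := congrArg pr hc
      rw [map_smul, pr_eN, pr_em, smul_zero] at h2
      have h3 := congrArg (fun v : EV d => v ⟨0, hd⟩) h2
      simp at h3
    have hsub : (Ioo (0 : ℝ) 1 • ((↑) '' B : Set (EV (d + 1)))) ⊆ G '' SB B ∪ l := by
      rintro _ ⟨t, ht, _, ⟨x, hx, rfl⟩, rfl⟩
      have hxn : ‖(x : EV (d + 1))‖ = 1 := by simpa using x.2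
      by_cases h1 : la (x : EV (d + 1)) = 1
      · right
        have h2 := norm_sq_eq (x : EV (d + 1))
        rw [hxn, h1] at h2
        have h3 : pr (x : EV (d + 1)) = 0 := by
          have : ‖pr (x : EV (d + 1))‖ ^ 2 = 0 := by linarith
          exact norm_eq_zero.1 (pow_eq_zero_iff (by norm_num) |>.1 this)
        have h4 : (x : EV (d + 1)) = eN := ext_pr (by rw [h3, pr_eN]) (by rw [h1, la_eN])
        rw [h4]
        exact Submodule.smul_mem _ _ (Submodule.mem_span_singleton_self _)
      · left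
        obtain ⟨y, hy⟩ := exists_stereo _ hxn h1
        have hp : pr (em y + t • eN) = y := by rw [map_add, map_smul, pr_em, pr_eN]; simp
        have hla : la (em y + t • eN) = t := by rw [map_add, map_smul, la_em, la_eN]; simp
        refine ⟨em y + t • eN, ⟨?_, ?_⟩, ?_⟩
        · rw [hla]; exact ht
        · rw [hp]
          have : stereoS y = x := Subtype.ext hy
          rw [this]; exact hx
        · rw [G, hp, hla, hy]
    calc _ ≤ volume (G '' SB B ∪ l) := measure_mono hsub
      _ ≤ volume (G '' SB B) + volume (l : Set (EV (d + 1))) := measure_union_le _ _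
      _ = volume (G '' SB B) := by rw [hl0, add_zero]
  · apply measure_mono
    rintro _ ⟨z, ⟨hz1, hz2⟩, rfl⟩
    exact Set.smul_mem_smul hz1 ⟨_, hz2, rfl⟩

lemma volume_image {B : Set (Metric.sphere (0 : EV (d + 1)) 1)} (hB : MeasurableSet B) :
    volume (G '' SB B) = ∫⁻ z in SB B, ENNReal.ofReal ((la z * cfac (pr z)) ^ d) := by
  rw [← lintegral_abs_det_fderiv_eq_addHaar_image volume (SB_meas hB)
    (fun z _ => (G_deriv z).hasFDerivWithinAt) (G_injOn.mono fun z hz => hz.1.1)]
  apply setLIntegral_congr_fun (SB_meas hB)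
  intro z hz
  simp only
  rw [J_det, abs_of_nonneg (mul_nonneg hz.1.1.le (cfac_pos _).le)]

lemma mp_split : MeasurePreserving (fun z : EV (d + 1) => (la z, pr z)) volume
    ((volume : Measure ℝ).prod (volume : Measure (EV d))) := by
  have h1 : MeasurePreserving (WithLp.ofLp : EV (d + 1) → (Fin (d + 1) → ℝ)) volume volume :=
    PiLp.volume_preserving_ofLp (Fin (d + 1))
  have h2 := volume_preserving_piFinSuccAbove (fun _ : Fin (d + 1) => ℝ) (Fin.last d)
  have h3 : MeasurePreserving (WithLp.toLp 2 : (Fin d → ℝ) → EV d) volume volume :=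
    PiLp.volume_preserving_toLp (Fin d)
  have h4 := (MeasurePreserving.id (volume : Measure ℝ)).prod h3
  have h5 := h4.comp (h2.comp h1)
  have e : (fun z : EV (d + 1) => (la z, pr z)) =
      Prod.map id (WithLp.toLp 2) ∘
        (MeasurableEquiv.piFinSuccAbove (fun _ : Fin (d + 1) => ℝ) (Fin.last d)) ∘ WithLp.ofLp := by
    funext z
    apply Prod.ext
    · rfl
    · ext i
      simp [MeasurableEquiv.piFinSuccAbove, Fin.insertNthEquiv]
      rfl
  rw [e]
  exact h5

lemma lintegral_pow_Ioo (n : ℕ) :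
    ∫⁻ t in Ioo (0:ℝ) 1, ENNReal.ofReal (t ^ n) = ENNReal.ofReal (1 / ((n : ℝ) + 1)) := by
  have h1 : ∫ t in (0:ℝ)..1, t ^ n = 1 / ((n : ℝ) + 1) := by
    rw [integral_pow]; simp
  rw [← h1, intervalIntegral.integral_of_le zero_le_one, ← integral_Ioc_eq_integral_Ioo.symm,
    ofReal_integral_eq_lintegral_ofReal]
  · exact ((continuous_pow n).integrableOn_Icc).mono_set Ioo_subset_Icc_self
  · rw [Filter.EventuallyLE, ae_restrict_iff' measurableSet_Ioo]
    exact Filter.Eventually.of_forall fun t ht => pow_nonneg ht.1.le n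

lemma lintegral_SB {B : Set (Metric.sphere (0 : EV (d + 1)) 1)} (hB : MeasurableSet B) :
    ∫⁻ z in SB B, ENNReal.ofReal ((la z * cfac (pr z)) ^ d) =
      ENNReal.ofReal (1 / ((d : ℝ) + 1)) *
        ∫⁻ y in stereoS ⁻¹' B, ENNReal.ofReal (cfac y ^ d) := by
  have hA : MeasurableSet (stereoS (d := d) ⁻¹' B) := stereoS_continuous.measurable hB
  have hmeas : Measurable fun q : ℝ × EV d => ENNReal.ofReal ((q.1 * cfac q.2) ^ d) := by
    apply Measurable.ennreal_ofReal
    apply Measurable.pow_const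
    exact measurable_fst.mul (cfac_continuous.measurable.comp measurable_snd)
  have h1 := mp_split.setLIntegral_comp_preimage (measurableSet_Ioo.prod hA) hmeas
    (s := Ioo (0:ℝ) 1 ×ˢ (stereoS (d := d) ⁻¹' B))
  have e : SB B = (fun z : EV (d + 1) => (la z, pr z)) ⁻¹'
      (Ioo (0:ℝ) 1 ×ˢ (stereoS (d := d) ⁻¹' B)) := by
    ext z; rfl
  rw [e, h1, ← Measure.prod_restrict, ← lintegral_pow_Ioo]
  rw [← lintegral_prod_mul]
  · rw [Measure.prod_restrict]
    apply setLIntegral_congr_fun (measurableSet_Ioo.prod hA)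
    intro q hq
    simp only
    rw [mul_pow, ENNReal.ofReal_mul (pow_nonneg hq.1.1.le d)]
  · exact ((measurable_id.pow_const d).ennreal_ofReal).aemeasurable
  · exact ((cfac_continuous.measurable.pow_const d).ennreal_ofReal).aemeasurable

end LE2

theorem map_stereo (hd : 0 < d) :
    Measure.map (stereoS (d := d)) (volume.withDensity fun y => ENNReal.ofReal (cfac y ^ d)) =
      sphMeas d := by
  ext B hB
  have hA : MeasurableSet (stereoS (d := d) ⁻¹' B) := LE2.stereoS_continuous.measurable hB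
  rw [Measure.map_apply LE2.stereoS_continuous.measurable hB, withDensity_apply _ hA, sphMeas,
    Measure.toSphere_apply' _ hB, LE2.volume_cone hd, LE2.volume_image hB, LE2.lintegral_SB hB,
    ← mul_assoc]
  have h1 : ((Module.finrank ℝ (EV (d + 1)) : ℕ) : ENNReal) * ENNReal.ofReal (1 / ((d : ℝ) + 1))
      = 1 := by
    rw [finrank_euclideanSpace, Fintype.card_fin, ← ENNReal.ofReal_natCast,
      ← ENNReal.ofReal_mul (by positivity)]
    have : ((d + 1 : ℕ) : ℝ) * (1 / ((d : ℝ) + 1)) = 1 := by
      push_cast; field_simp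
    rw [this, ENNReal.ofReal_one]
  rw [h1, one_mul]

end Pool.Agent.Helper78.LE
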