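import Mathlib
import Pool.Agent.Helper78.LE.LE2

/-!
Project LE (MP_d7f1f6_an), module LE3 (written by helper76): integrability of the kernel and of
the density, the constant `V` in lattice coordinates, tails.
-/

set_option autoImplicit false

open MeasureTheory Set Filter Topology

namespace Pool.Agent.Helper78.LE

/-! ### auxiliary facts -/
namespace LE3aux

variable {d : ℕ} (b : Module.Basis (Fin d) ℝ (EV d))

theorem stereo_continuous : Continuous (stereo (d := d)) := by
  unfold stereo
  refine (PiLp.continuous_toLp 2 _).comp (continuous_pi fun i => ?_)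
  have hc := cfac_continuous (d := d)
  refine Fin.lastCases ?_ (fun j => ?_) i
  · simp only [Fin.snoc_last]
    fun_prop
  · simp only [Fin.snoc_castSucc]
    fun_prop

theorem stereoS_continuous : Continuous (stereoS (d := d)) :=
  Continuous.subtype_mk stereo_continuous _

theorem sph_univ (d : ℕ) : sphMeas d univ = (d + 1 : ℕ) * volume (Metric.ball (0 : EV (d + 1)) 1) := by
  unfold sphMeas
  rw [Measure.toSphere_apply_univ]
  simp

instance sph_finite (d : ℕ) : IsFiniteMeasure (sphMeas d) := by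
  unfold sphMeas; infer_instance

theorem lintegral_cfac (hd : 0 < d) :
    ∫⁻ y : EV d, ENNReal.ofReal (cfac y ^ d) = sphMeas d univ := by
  rw [← map_stereo hd, Measure.map_apply stereoS_continuous.measurable MeasurableSet.univ,
    preimage_univ, withDensity_apply _ MeasurableSet.univ, Measure.restrict_univ]

theorem integrable_cfac (hd : 0 < d) : Integrable (fun y : EV d => cfac y ^ d) := by
  refine ⟨(cfac_continuous.pow d).aestronglyMeasurable, ?_⟩
  rw [hasFiniteIntegral_iff_ofReal (Filter.Eventually.of_forall fun y =>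
    (pow_pos (cfac_pos y) d).le)]
  rw [lintegral_cfac hd]
  exact measure_lt_top _ _

theorem integral_cfac (hd : 0 < d) : ∫ y : EV d, cfac y ^ d = sphArea d := by
  rw [integral_eq_lintegral_of_nonneg_ae (Filter.Eventually.of_forall fun y =>
    (pow_pos (cfac_pos y) d).le) (cfac_continuous.pow d).aestronglyMeasurable, lintegral_cfac hd]
  rfl

theorem lin_emb : MeasurableEmbedding (lin b) := by
  rw [← linCE_coe]
  exact (linCE b).toHomeomorph.measurableEmbedding

theorem integral_lin (f : EV d → ℝ) : ∫ s, f (lin b s) = (covol b)⁻¹ * ∫ y, f y := by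
  rw [← (lin_emb b).integral_map, map_lin, integral_smul_measure, ENNReal.toReal_inv,
    ENNReal.toReal_ofReal (covol_pos b).le, smul_eq_mul]

theorem integrable_lin {f : EV d → ℝ} (hf : Integrable f) : Integrable (fun s => f (lin b s)) := by
  have h1 : Integrable f (Measure.map (lin b) volume) := by
    rw [map_lin]
    refine hf.smul_measure ?_
    rw [ENNReal.inv_ne_top]
    exact (ENNReal.ofReal_pos.mpr (covol_pos b)).ne'
  exact (lin_emb b).integrable_map_iff.mp h1

end LE3aux

open LE3aux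

section LE3
variable {d : ℕ} (b : Module.Basis (Fin d) ℝ (EV d))

theorem sphArea_pos (d : ℕ) : 0 < sphArea d := by
  unfold sphArea
  apply ENNReal.toReal_pos
  · rw [sph_univ]
    have h1 : volume (Metric.ball (0 : EV (d + 1)) 1) ≠ 0 := (Metric.measure_ball_pos _ _ one_pos).ne'
    exact mul_ne_zero (by simp) h1
  · exact (measure_lt_top _ _).ne

theorem dens_pos (s : Fin d → ℝ) : 0 < dens b s := by
  unfold dens
  have h1 := covol_pos b
  have h2 := sphArea_pos d
  have h3 := cfac_pos (lin b s)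
  positivity

theorem dens_continuous : Continuous (dens b) := by
  unfold dens
  have h1 := (cfac_continuous (d := d)).comp (lin_continuous b)
  exact continuous_const.mul (h1.pow d)

theorem dens_integrable (hd : 0 < d) : Integrable (dens b) := by
  unfold dens
  exact (integrable_lin b (integrable_cfac hd)).const_mul _

theorem integral_dens (hd : 0 < d) : ∫ s, dens b s = 1 := by
  unfold dens
  rw [integral_const_mul, integral_lin b (fun y => cfac y ^ d), integral_cfac hd]
  have h1 := (covol_pos b).ne'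
  have h2 := (sphArea_pos d).ne'
  field_simp

end LE3

namespace LE3aux

variable {d : ℕ} (b : Module.Basis (Fin d) ℝ (EV d))

theorem dens_le (s : Fin d → ℝ) : dens b s ≤ covol b / sphArea d * 2 ^ d := by
  unfold dens
  have h1 := covol_pos b
  have h2 := sphArea_pos d
  have h3 := pow_le_pow_left₀ (cfac_pos (lin b s)).le (cfac_le (lin b s)) d
  have h4 : 0 ≤ covol b / sphArea d := by positivity
  exact mul_le_mul_of_nonneg_left h3 h4

/-- `|ell|` grows slower than a power -/
theorem abs_ell_le (s : Fin d → ℝ) : |ell b s| ≤ 5 * (1 + ‖lin b s‖ ^ 2) ^ (1 / 4 : ℝ) := by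
  have h0 : (1 : ℝ) ≤ 1 + ‖lin b s‖ ^ 2 := by nlinarith [sq_nonneg ‖lin b s‖]
  have h1 : (1 : ℝ) ≤ (1 + ‖lin b s‖ ^ 2) ^ (1 / 4 : ℝ) := Real.one_le_rpow h0 (by norm_num)
  have h2 : ell b s = Real.log 2 - Real.log (1 + ‖lin b s‖ ^ 2) := by
    unfold ell cfac
    rw [Real.log_div (by norm_num) (by positivity)]
  have h3 : Real.log (1 + ‖lin b s‖ ^ 2) ≤ (1 + ‖lin b s‖ ^ 2) ^ (1 / 4 : ℝ) / (1 / 4) :=
    Real.log_le_rpow_div (by positivity) (by norm_num)
  have h4 : 0 ≤ Real.log (1 + ‖lin b s‖ ^ 2) := Real.log_nonneg h0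
  have h5 : Real.log 2 ≤ 1 := by
    have := Real.log_two_lt_d9
    linarith
  have h6 : 0 ≤ Real.log 2 := Real.log_nonneg (by norm_num)
  rw [h2, abs_le]
  constructor <;> linarith

theorem ell_dens_integrable (hd : 0 < d) : Integrable (fun s => |ell b s| * dens b s) := by
  have h1 : Integrable (fun y : EV d => ((1 : ℝ) + ‖y‖ ^ 2) ^ (-(2 * (d : ℝ) - 1 / 2) / 2)) := by
    apply integrable_rpow_neg_one_add_norm_sq
    rw [finrank_euclideanSpace, Fintype.card_fin]
    have : (1 : ℝ) ≤ d := by exact_mod_cast hd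
    linarith
  have h2 := ((integrable_lin b h1).const_mul (covol b / sphArea d * 2 ^ d * 5))
  refine h2.mono' ?_ (Filter.Eventually.of_forall fun s => ?_)
  · exact ((ell_continuous b).abs.mul (dens_continuous b)).aestronglyMeasurable
  · have hc := covol_pos b
    have hs := sphArea_pos d
    rw [Real.norm_eq_abs, abs_of_nonneg (mul_nonneg (abs_nonneg _) (dens_pos b s).le)]
    have h3 := abs_ell_le b s
    have h4 : dens b s = covol b / sphArea d * 2 ^ d * (1 + ‖lin b s‖ ^ 2) ^ (-(d : ℝ)) := by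
      unfold dens cfac
      rw [div_pow, Real.rpow_neg (by positivity), Real.rpow_natCast]
      ring
    have h5 : (1 + ‖lin b s‖ ^ 2) ^ (-(2 * (d : ℝ) - 1 / 2) / 2) =
        (1 + ‖lin b s‖ ^ 2) ^ (1 / 4 : ℝ) * (1 + ‖lin b s‖ ^ 2) ^ (-(d : ℝ)) := by
      rw [← Real.rpow_add (by positivity)]
      congr 1
      ring
    rw [h4, h5]
    have h6 : 0 ≤ covol b / sphArea d * 2 ^ d * (1 + ‖lin b s‖ ^ 2) ^ (-(d : ℝ)) := by
      positivity
    calc |ell b s| * (covol b / sphArea d * 2 ^ d * (1 + ‖lin b s‖ ^ 2) ^ (-(d : ℝ)))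
        ≤ (5 * (1 + ‖lin b s‖ ^ 2) ^ (1 / 4 : ℝ)) *
          (covol b / sphArea d * 2 ^ d * (1 + ‖lin b s‖ ^ 2) ^ (-(d : ℝ))) :=
          mul_le_mul_of_nonneg_right h3 h6
      _ = _ := by ring

theorem nontriv (hd : 0 < d) : Nontrivial (EV d) := by
  have : Nonempty (Fin d) := ⟨⟨0, hd⟩⟩
  infer_instance

theorem integrable_poslog (hd : 0 < d) : Integrable (fun y : EV d => max (-Real.log ‖y‖) 0) := by
  have := nontriv hd
  rw [integrable_fun_norm_addHaar volume (f := fun r => max (-Real.log r) 0)]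
  have hm : Measurable (fun y : ℝ => y ^ (Module.finrank ℝ (EV d) - 1) • max (-Real.log y) 0) := by
    simp only [smul_eq_mul]
    exact (measurable_id.pow_const _).mul ((Real.measurable_log.neg).max measurable_const)
  have h1 : Ioi (0 : ℝ) = Ioc 0 1 ∪ Ioi 1 := (Ioc_union_Ioi_eq_Ioi zero_le_one).symm
  rw [h1]
  apply IntegrableOn.union
  · have h2 : IntegrableOn Real.log (Ioc 0 1) :=
      (intervalIntegral.intervalIntegrable_log' (a := 0) (b := 1)).1
    refine Integrable.mono' (g := fun y => |Real.log y|) h2.abs hm.aestronglyMeasurable ?_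
    rw [ae_restrict_iff' measurableSet_Ioc]
    refine Filter.Eventually.of_forall fun y hy => ?_
    have h3 : Real.log y ≤ 0 := Real.log_nonpos hy.1.le hy.2
    rw [smul_eq_mul, norm_mul, norm_pow, Real.norm_eq_abs, Real.norm_eq_abs, abs_of_pos hy.1,
      max_eq_left (by linarith), abs_neg]
    have h4 : y ^ (Module.finrank ℝ (EV d) - 1) ≤ 1 := pow_le_one₀ hy.1.le hy.2
    have := abs_nonneg (Real.log y)
    nlinarith
  · have h2 : EqOn (fun y : ℝ => y ^ (Module.finrank ℝ (EV d) - 1) • max (-Real.log y) 0)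
        (fun _ => 0) (Ioi 1) := by
      intro y hy
      have h3 : 0 ≤ Real.log y := Real.log_nonneg (le_of_lt hy)
      simp only [smul_eq_mul]
      rw [max_eq_right (by linarith), mul_zero]
    rw [integrableOn_congr_fun h2 measurableSet_Ioi]
    exact integrableOn_zero

theorem integrable_poslog_lin (hd : 0 < d) :
    Integrable (fun t : Fin d → ℝ => max (-Real.log ‖lin b t‖) 0) :=
  integrable_lin b (integrable_poslog hd)

theorem kern_measurable : Measurable (fun z : (Fin d → ℝ) × (Fin d → ℝ) => kern b z.1 z.2) := by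
  unfold kern
  have h1 : Measurable (fun z : (Fin d → ℝ) × (Fin d → ℝ) => ‖lin b (z.1 - z.2)‖) :=
    ((lin_continuous b).comp (continuous_fst.sub continuous_snd)).norm.measurable
  have h2 : Measurable (fun z : (Fin d → ℝ) × (Fin d → ℝ) => ell b z.1) :=
    ((ell_continuous b).comp continuous_fst).measurable
  have h3 : Measurable (fun z : (Fin d → ℝ) × (Fin d → ℝ) => ell b z.2) :=
    ((ell_continuous b).comp continuous_snd).measurable
  exact (((Real.measurable_log.comp h1).neg).sub (h2.div_const 2)).sub (h3.div_const 2)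

end LE3aux

section LE3
variable {d : ℕ} (b : Module.Basis (Fin d) ℝ (EV d))

theorem kern_integrable (hd : 0 < d) :
    Integrable (fun z : (Fin d → ℝ) × (Fin d → ℝ) => kern b z.1 z.2 * (dens b z.1 * dens b z.2))
      (volume.prod volume) := by
  have hD := dens_integrable b hd
  have hE := ell_dens_integrable b hd
  have hG := integrable_poslog_lin b hd
  have i1 := (Integrable.convolution_integrand (ContinuousLinearMap.mul ℝ ℝ) hD hG).const_mul
    (covol b / sphArea d * 2 ^ d)
  have i2 := (hE.mul_prod hD).const_mul (1 / 2)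
  have i3 := (hD.mul_prod hE).const_mul (1 / 2)
  have i4 := (hD.mul_prod hD).const_mul (2 * Real.log 2)
  have hm : Measurable (fun z : (Fin d → ℝ) × (Fin d → ℝ) =>
      kern b z.1 z.2 * (dens b z.1 * dens b z.2)) := by
    have h2 : Measurable (fun z : (Fin d → ℝ) × (Fin d → ℝ) => dens b z.1) :=
      ((dens_continuous b).comp continuous_fst).measurable
    have h3 : Measurable (fun z : (Fin d → ℝ) × (Fin d → ℝ) => dens b z.2) :=
      ((dens_continuous b).comp continuous_snd).measurable
    exact (kern_measurable b).mul (h2.mul h3)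
  refine (((i1.add i2).add i3).add i4).mono' hm.aestronglyMeasurable
    (Filter.Eventually.of_forall fun z => ?_)
  simp only [Pi.add_apply, ContinuousLinearMap.mul_apply']
  have p1 := dens_pos b z.1
  have p2 := dens_pos b z.2
  have q1 := dens_le b z.1
  have k1 := kern_ge b z.1 z.2
  have hl2 : 0 ≤ Real.log 2 := Real.log_nonneg (by norm_num)
  have k2 : kern b z.1 z.2 ≤ max (-Real.log ‖lin b (z.1 - z.2)‖) 0 + |ell b z.1| / 2 +
      |ell b z.2| / 2 := by
    unfold kern
    have e1 := le_max_left (-Real.log ‖lin b (z.1 - z.2)‖) 0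
    have e2 := neg_abs_le (ell b z.1)
    have e3 := neg_abs_le (ell b z.2)
    linarith
  have k3 : |kern b z.1 z.2| ≤ max (-Real.log ‖lin b (z.1 - z.2)‖) 0 + |ell b z.1| / 2 +
      |ell b z.2| / 2 + 2 * Real.log 2 := by
    have e1 := le_max_right (-Real.log ‖lin b (z.1 - z.2)‖) 0
    have e2 := abs_nonneg (ell b z.1)
    have e3 := abs_nonneg (ell b z.2)
    rw [abs_le]
    constructor <;> linarith
  rw [norm_mul, Real.norm_eq_abs, Real.norm_eq_abs, abs_of_pos (mul_pos p1 p2)]
  have e1 := le_max_right (-Real.log ‖lin b (z.1 - z.2)‖) 0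
  set g := max (-Real.log ‖lin b (z.1 - z.2)‖) 0 with hg
  calc |kern b z.1 z.2| * (dens b z.1 * dens b z.2)
      ≤ (g + |ell b z.1| / 2 + |ell b z.2| / 2 + 2 * Real.log 2) * (dens b z.1 * dens b z.2) :=
        mul_le_mul_of_nonneg_right k3 (mul_pos p1 p2).le
    _ = dens b z.1 * (dens b z.2 * g) + 1 / 2 * (|ell b z.1| * dens b z.1 * dens b z.2) +
        1 / 2 * (dens b z.1 * (|ell b z.2| * dens b z.2)) +
        2 * Real.log 2 * (dens b z.1 * dens b z.2) := by ring
    _ ≤ _ := by
        gcongr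

end LE3

namespace LE3aux

variable {d : ℕ} (b : Module.Basis (Fin d) ℝ (EV d))

/-- integrals over the sphere in lattice coordinates -/
theorem sph_int (hd : 0 < d) {f : Metric.sphere (0 : EV (d + 1)) 1 → ℝ} (hf : Measurable f) :
    ∫ x, f x ∂(sphMeas d) = sphArea d * ∫ s, f (stereoS (lin b s)) * dens b s := by
  have hmc : Measurable (fun y : EV d => ENNReal.ofReal (cfac y ^ d)) :=
    (cfac_continuous.pow d).measurable.ennreal_ofReal
  rw [← map_stereo hd, integral_map stereoS_continuous.measurable.aemeasurable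
    hf.aestronglyMeasurable, integral_withDensity_eq_integral_toReal_smul hmc
    (Filter.Eventually.of_forall fun _ => ENNReal.ofReal_lt_top)]
  have h1 : ∀ y : EV d, (ENNReal.ofReal (cfac y ^ d)).toReal • f (stereoS y) =
      cfac y ^ d * f (stereoS y) := by
    intro y
    rw [ENNReal.toReal_ofReal (pow_pos (cfac_pos y) d).le, smul_eq_mul]
  simp only [h1]
  have h2 := integral_lin b (fun y => cfac y ^ d * f (stereoS y))
  have hc := (covol_pos b).ne'
  have hs := (sphArea_pos d).ne'
  have h3 : ∫ y : EV d, cfac y ^ d * f (stereoS y) =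
      covol b * ∫ s, cfac (lin b s) ^ d * f (stereoS (lin b s)) := by
    rw [h2]; field_simp
  rw [h3]
  have h4 : (fun s => f (stereoS (lin b s)) * dens b s) =
      fun s => (covol b / sphArea d) * (cfac (lin b s) ^ d * f (stereoS (lin b s))) := by
    funext s
    unfold dens
    ring
  rw [h4, integral_const_mul]
  field_simp

theorem sph_kernel_measurable : Measurable
    (fun z : Metric.sphere (0 : EV (d + 1)) 1 × Metric.sphere (0 : EV (d + 1)) 1 =>
      -Real.log ‖(z.1 : EV (d + 1)) - (z.2 : EV (d + 1))‖) := by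
  have h1 : Continuous
      (fun z : Metric.sphere (0 : EV (d + 1)) 1 × Metric.sphere (0 : EV (d + 1)) 1 =>
      ‖(z.1 : EV (d + 1)) - (z.2 : EV (d + 1))‖) := by fun_prop
  exact (Real.measurable_log.comp h1.measurable).neg

theorem ae_ne (hd : 0 < d) (s : Fin d → ℝ) : ∀ᵐ s' : Fin d → ℝ, s ≠ s' := by
  have : Nonempty (Fin d) := ⟨⟨0, hd⟩⟩
  have h1 : (volume : Measure (Fin d → ℝ)) {s} = 0 := measure_singleton s
  have h2 : ∀ᵐ s' : Fin d → ℝ, s' ∉ ({s} : Set (Fin d → ℝ)) := measure_eq_zero_iff_ae_notMem.mp h1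
  filter_upwards [h2] with s' hs' h
  exact hs' (by rw [h]; exact mem_singleton _)

end LE3aux

section LE3
variable {d : ℕ} (b : Module.Basis (Fin d) ℝ (EV d))

theorem Vlog_eq (hd : 0 < d) :
    Vlog d = ∫ z : (Fin d → ℝ) × (Fin d → ℝ), kern b z.1 z.2 * (dens b z.1 * dens b z.2)
      ∂(volume.prod volume) := by
  unfold Vlog
  have hs := (sphArea_pos d).ne'
  have h1 : ∀ x : Metric.sphere (0 : EV (d + 1)) 1,
      ∫ y : Metric.sphere (0 : EV (d + 1)) 1, -Real.log ‖(x : EV (d + 1)) - (y : EV (d + 1))‖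
        ∂(sphMeas d) = sphArea d * ∫ s', -Real.log ‖(x : EV (d + 1)) -
          (stereoS (lin b s') : EV (d + 1))‖ * dens b s' := by
    intro x
    have hm : Measurable (fun y : Metric.sphere (0 : EV (d + 1)) 1 =>
        -Real.log ‖(x : EV (d + 1)) - (y : EV (d + 1))‖) := by
      have hcx : Continuous (fun y : Metric.sphere (0 : EV (d + 1)) 1 =>
        ‖(x : EV (d + 1)) - (y : EV (d + 1))‖) := by fun_prop
      exact (Real.measurable_log.comp hcx.measurable).neg
    exact sph_int b hd hm
  simp only [h1]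
  have h2 : Measurable (fun x : Metric.sphere (0 : EV (d + 1)) 1 =>
      sphArea d * ∫ s', -Real.log ‖(x : EV (d + 1)) -
          (stereoS (lin b s') : EV (d + 1))‖ * dens b s') := by
    apply Measurable.const_mul
    have h3 : Measurable (fun z : Metric.sphere (0 : EV (d + 1)) 1 × (Fin d → ℝ) =>
        -Real.log ‖(z.1 : EV (d + 1)) - (stereoS (lin b z.2) : EV (d + 1))‖ * dens b z.2) := by
      have h4 : Measurable (fun z : Metric.sphere (0 : EV (d + 1)) 1 × (Fin d → ℝ) =>
          (z.1, stereoS (lin b z.2))) := by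
        refine measurable_fst.prodMk ?_
        exact (stereoS_continuous.comp (lin_continuous b)).measurable.comp measurable_snd
      exact (sph_kernel_measurable.comp h4).mul ((dens_continuous b).measurable.comp measurable_snd)
    exact (h3.stronglyMeasurable.integral_prod_right).measurable
  rw [sph_int b hd h2, integral_prod _ (kern_integrable b hd)]
  have h5 : ∀ s : Fin d → ℝ, (sphArea d * ∫ s', -Real.log ‖(stereoS (lin b s) : EV (d + 1)) -
      (stereoS (lin b s') : EV (d + 1))‖ * dens b s') * dens b s =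
      sphArea d * ∫ s', kern b s s' * (dens b s * dens b s') := by
    intro s
    rw [mul_assoc, ← integral_mul_const]
    congr 1
    apply integral_congr_ae
    filter_upwards [ae_ne hd s] with s' hs'
    rw [kern_eq b hs']
    change -Real.log ‖stereo (lin b s) - stereo (lin b s')‖ * dens b s' * dens b s = _
    ring
  simp only [h5]
  rw [integral_const_mul]
  field_simp

theorem dens_tail (hd : 0 < d) : ∃ C : ℝ, 0 < C ∧ ∀ A : ℝ, 1 ≤ A →
    ∫ s in (Set.pi Set.univ fun _ => Set.Ico (-A) A)ᶜ, dens b s ≤ C / A := by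
  obtain ⟨c, C, hc, hC, hb⟩ := lin_bounds b
  set g : (Fin d → ℝ) → ℝ := (Metric.ball (0 : Fin d → ℝ) 1)ᶜ.indicator
    (fun t => (‖t‖ ^ (2 * d))⁻¹) with hg
  have hgm : Measurable g := by
    apply Measurable.indicator _ Metric.isOpen_ball.measurableSet.compl
    exact (measurable_norm.pow_const _).inv
  have hg0 : ∀ t, 0 ≤ g t := by
    intro t
    apply indicator_nonneg
    intro x _
    positivity
  have hgi : Integrable g := by
    have h1 : Integrable (fun t : Fin d → ℝ => (1 + ‖t‖) ^ (-(2 * (d : ℝ)))) := by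
      apply integrable_one_add_norm
      rw [Module.finrank_fin_fun]
      have : (1 : ℝ) ≤ d := by exact_mod_cast hd
      linarith
    refine (h1.const_mul (2 ^ (2 * d))).mono' hgm.aestronglyMeasurable
      (Filter.Eventually.of_forall fun t => ?_)
    rw [Real.norm_eq_abs, abs_of_nonneg (hg0 t)]
    by_cases ht : t ∈ (Metric.ball (0 : Fin d → ℝ) 1)ᶜ
    · rw [hg, indicator_of_mem ht]
      have h2 : 1 ≤ ‖t‖ := by
        simpa [Metric.mem_ball] using ht
      have h3 : (1 + ‖t‖) ^ (-(2 * (d : ℝ))) = ((1 + ‖t‖) ^ (2 * d))⁻¹ := by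
        rw [Real.rpow_neg (by positivity), ← Real.rpow_natCast]
        push_cast
        rfl
      rw [h3]
      have h4 : (1 + ‖t‖) ^ (2 * d) ≤ (2 * ‖t‖) ^ (2 * d) :=
        pow_le_pow_left₀ (by positivity) (by linarith) _
      rw [mul_pow] at h4
      have h5 : 0 < ‖t‖ ^ (2 * d) := by positivity
      have h6 : 0 < (1 + ‖t‖) ^ (2 * d) := by positivity
      rw [← div_eq_mul_inv, le_div_iff₀ h6, inv_mul_le_iff₀ h5]
      linarith
    · rw [hg, indicator_of_notMem ht]
      positivity
  have hI : 0 ≤ ∫ t, g t := integral_nonneg hg0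
  have hcv := covol_pos b
  have hsa := sphArea_pos d
  set K : ℝ := covol b / sphArea d * (2 / c ^ 2) ^ d with hK
  have hKpos : 0 < K := by positivity
  refine ⟨K * (∫ t, g t) + 1, by positivity, fun A hA => ?_⟩
  have hA0 : 0 < A := by linarith
  have hbound : ∀ s ∈ (Set.pi Set.univ fun _ : Fin d => Set.Ico (-A) A)ᶜ,
      dens b s ≤ K * (A ^ (2 * d))⁻¹ * g (A⁻¹ • s) := by
    intro s hs
    have h1 : A ≤ ‖s‖ := by
      by_contra hlt
      push Not at hlt
      apply hs
      intro i _
      have h2 : |s i| ≤ ‖s‖ := norm_le_pi_norm s i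
      have h3 := abs_lt.mp (lt_of_le_of_lt h2 hlt)
      exact ⟨h3.1.le, h3.2⟩
    have hs0 : 0 < ‖s‖ := by linarith
    have h2 : A⁻¹ • s ∈ (Metric.ball (0 : Fin d → ℝ) 1)ᶜ := by
      rw [mem_compl_iff, Metric.mem_ball, dist_zero_right, norm_smul, not_lt, norm_inv,
        Real.norm_eq_abs, abs_of_pos hA0, inv_mul_eq_div, le_div_iff₀ hA0]
      linarith
    rw [hg, indicator_of_mem h2, norm_smul, norm_inv, Real.norm_eq_abs, abs_of_pos hA0]
    have h3 : K * (A ^ (2 * d))⁻¹ * ((A⁻¹ * ‖s‖) ^ (2 * d))⁻¹ = K * (‖s‖ ^ (2 * d))⁻¹ := by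
      rw [mul_pow, inv_pow]
      field_simp
    rw [h3, hK]
    unfold dens cfac
    have h4 : 2 / (1 + ‖lin b s‖ ^ 2) ≤ 2 / (c ^ 2 * ‖s‖ ^ 2) := by
      apply div_le_div_of_nonneg_left (by norm_num) (by positivity)
      have h5 := (hb s).1
      have h6 : (c * ‖s‖) ^ 2 ≤ ‖lin b s‖ ^ 2 := pow_le_pow_left₀ (by positivity) h5 2
      nlinarith
    have h5 : (2 / (1 + ‖lin b s‖ ^ 2)) ^ d ≤ (2 / (c ^ 2 * ‖s‖ ^ 2)) ^ d :=
      pow_le_pow_left₀ (by positivity) h4 d
    have h6 : (2 / (c ^ 2 * ‖s‖ ^ 2)) ^ d = (2 / c ^ 2) ^ d * (‖s‖ ^ (2 * d))⁻¹ := by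
      have h7 : 2 / (c ^ 2 * ‖s‖ ^ 2) = 2 / c ^ 2 * (‖s‖ ^ 2)⁻¹ := by
        field_simp
      rw [h7, mul_pow, inv_pow, ← pow_mul]
    rw [mul_assoc, ← h6]
    exact mul_le_mul_of_nonneg_left h5 (by positivity)
  have hcomp : Integrable (fun s : Fin d → ℝ => g (A⁻¹ • s)) :=
    hgi.comp_smul (by positivity)
  have hmeas : MeasurableSet (Set.pi Set.univ fun _ : Fin d => Set.Ico (-A) A)ᶜ :=
    (MeasurableSet.univ_pi fun _ => measurableSet_Ico).compl
  calc ∫ s in (Set.pi Set.univ fun _ => Set.Ico (-A) A)ᶜ, dens b s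
      ≤ ∫ s in (Set.pi Set.univ fun _ => Set.Ico (-A) A)ᶜ, K * (A ^ (2 * d))⁻¹ * g (A⁻¹ • s) :=
        setIntegral_mono_on (dens_integrable b hd).integrableOn
          (hcomp.const_mul _).integrableOn hmeas hbound
    _ ≤ ∫ s, K * (A ^ (2 * d))⁻¹ * g (A⁻¹ • s) := by
        refine setIntegral_le_integral (hcomp.const_mul _) (Filter.Eventually.of_forall fun s => ?_)
        exact mul_nonneg (by positivity) (hg0 _)
    _ = K * (A ^ (2 * d))⁻¹ * (A ^ d * ∫ t, g t) := by
        rw [integral_const_mul, Measure.integral_comp_smul, Module.finrank_fin_fun, smul_eq_mul,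
          inv_pow, inv_inv, abs_of_pos (by positivity)]
    _ = K * (∫ t, g t) * (A ^ d)⁻¹ := by
        rw [two_mul, pow_add]
        field_simp
    _ ≤ (K * (∫ t, g t) + 1) / A := by
        rw [div_eq_mul_inv]
        have h7 : A ≤ A ^ d := le_self_pow₀ hA hd.ne'
        have h8 : (A ^ d)⁻¹ ≤ A⁻¹ := inv_anti₀ hA0 h7
        have h9 : 0 ≤ K * ∫ t, g t := by positivity
        have h10 : 0 < A⁻¹ := by positivity
        nlinarith

end LE3

end Pool.Agent.Helper78.LE
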