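import Pool.Agent.Helper78.LE.LBDefs
import Pool.Agent.Helper78.LE.LE0
import Pool.Agent.Helper78.LE.LE1
import Pool.Agent.Helper78.LE.LE3

/-!
Project LB, module LB11 (written by helper83): the local lower bound, from the choice of the
pole, the cover by cubes and the corridor bound.
-/

set_option autoImplicit false

open MeasureTheory Set Filter Topology

namespace Pool.Agent.Helper78.LE

namespace LB11

variable {d : ℕ}

theorem gau_pos (t r : ℝ) : 0 < gau t r := Real.exp_pos _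

theorem gau_le {t lam r r' : ℝ} (ht : 0 ≤ t) (hlam : 0 ≤ lam) (hr : 0 ≤ r) (h : lam * r ≤ r') :
    gau t r' ≤ gau (t * lam ^ 2) r := by
  unfold gau
  refine Real.exp_le_exp.2 (neg_le_neg ?_)
  have h1 : (lam * r) ^ 2 ≤ r' ^ 2 := pow_le_pow_left₀ (by positivity) h 2
  calc t * lam ^ 2 * r ^ 2 = t * (lam * r) ^ 2 := by ring
    _ ≤ t * r' ^ 2 := mul_le_mul_of_nonneg_left h1 ht

/-- restriction of a double sum of nonnegative terms -/
theorem sum_le_sum {N : ℕ} (S : Finset (Fin N)) (F : Fin N → Fin N → ℝ) (hF : ∀ u v, 0 ≤ F u v)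
    (e : Fin S.card ≃ S) :
    ∑ i, ∑ j, F (e i) (e j) ≤ ∑ u, ∑ v, F u v := by
  have h1 : ∀ f : Fin N → ℝ, ∑ i, f (e i) = ∑ u ∈ S, f u := by
    intro f
    rw [Equiv.sum_comp e (fun u : S => f u)]
    exact Finset.sum_coe_sort S f
  calc ∑ i, ∑ j, F (e i) (e j) = ∑ i, ∑ v ∈ S, F (e i) v :=
        Finset.sum_congr rfl fun i _ => h1 _
    _ = ∑ u ∈ S, ∑ v ∈ S, F u v := h1 (fun u => ∑ v ∈ S, F u v)
    _ ≤ ∑ u ∈ S, ∑ v, F u v := Finset.sum_le_sum fun u _ =>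
        Finset.sum_le_univ_sum_of_nonneg (fun v => hF u v)
    _ ≤ ∑ u, ∑ v, F u v :=
        Finset.sum_le_univ_sum_of_nonneg (fun u => Finset.sum_nonneg fun v _ => hF u v)

theorem core (t lam : ℝ) (ht : 0 ≤ t) (hlam : 0 < lam) {G : ℕ} (a : Fin G → Fin d → ℝ)
    (h : ℝ) (hh : 0 < h) (c : Fin G → ℝ) (hc : ∀ j, 0 < c j) (A : ℝ)
    (hcov : ∀ y : EV d, (∀ l, -A ≤ y l ∧ y l < A) → ∃ j, ∀ l, a j l ≤ y l ∧ y l < a j l + h)
    (hcf : ∀ (j : Fin G) (y : EV d), (∀ l, a j l ≤ y l ∧ y l < a j l + h) → cfac y ≤ c j)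
    (M : ℕ) (hM : 0 < M) (nn : Fin G → ℕ) (hnn : ∀ j, h * lam * c j ≤ M * nn j) {N : ℕ}
    (x : Fin N → EV (d + 1)) (hinj : Function.Injective x) (R : EV (d + 1) ≃ₗᵢ[ℝ] EV (d + 1))
    (S : Finset (Fin N)) (y : Fin N → EV d)
    (hy : ∀ i ∈ S, R (x i) = stereo (y i) ∧ ∀ l, -A ≤ y i l ∧ y i l < A) :
    ∃ (κ : Fin S.card → Fin (∑ j, nn j ^ d)) (p : Fin S.card → EV d),
      (∀ i l, 0 ≤ p i l ∧ p i l < M) ∧ (∀ i j, κ i = κ j → p i = p j → i = j) ∧
      labE t κ p ≤ gE (t * lam ^ 2) x := by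
  classical
  have hM0 : (0 : ℝ) < M := by exact_mod_cast hM
  have hn0 : ∀ j, (0 : ℝ) < nn j := by
    intro j
    have h1 := hnn j
    have h2 : 0 < h * lam * c j := by have := hc j; positivity
    have h3 : (0 : ℝ) < M * nn j := lt_of_lt_of_le h2 h1
    exact (mul_pos_iff_of_pos_left hM0).1 h3
  let e : Fin S.card ≃ S := S.equivFin.symm
  have hex : ∀ i : Fin S.card, ∃ j, ∀ l, a j l ≤ y (e i) l ∧ y (e i) l < a j l + h :=
    fun i => hcov (y (e i)) (hy (e i) (e i).2).2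
  choose jj hjj using hex
  -- rescaled coordinate
  let z : Fin S.card → Fin d → ℝ := fun i l => (y (e i) l - a (jj i) l) * (nn (jj i) / h)
  have hz0 : ∀ i l, 0 ≤ z i l := fun i l =>
    mul_nonneg (sub_nonneg.2 (hjj i l).1) (by have := hn0 (jj i); positivity)
  have hz1 : ∀ i l, z i l < nn (jj i) := by
    intro i l
    have h1 : y (e i) l - a (jj i) l < h := by linarith [(hjj i l).2]
    have h2 : 0 < (nn (jj i) : ℝ) / h := div_pos (hn0 _) hh
    calc z i l < h * (nn (jj i) / h) := mul_lt_mul_of_pos_right h1 h2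
      _ = nn (jj i) := by field_simp
  have hfl : ∀ i l, ⌊z i l⌋₊ < nn (jj i) := fun i l => (Nat.floor_lt (hz0 i l)).2 (hz1 i l)
  let lab : Fin S.card → (Σ j : Fin G, (Fin d → Fin (nn j))) :=
    fun i => ⟨jj i, fun l => ⟨⌊z i l⌋₊, hfl i l⟩⟩
  have hcard : Fintype.card (Σ j : Fin G, (Fin d → Fin (nn j))) = ∑ j, nn j ^ d := by
    rw [Fintype.card_sigma]
    simp
  let eq := Fintype.equivFinOfCardEq hcard
  have hlab : ∀ i i', eq (lab i) = eq (lab i') → jj i = jj i' ∧ ∀ l, ⌊z i l⌋₊ = ⌊z i' l⌋₊ := by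
    intro i i' hii
    have h1 : lab i = lab i' := eq.injective hii
    have h2 := congrArg (fun q : (Σ j : Fin G, (Fin d → Fin (nn j))) =>
      ((q.1, fun l => (q.2 l : ℕ)) : Fin G × (Fin d → ℕ))) h1
    have h3 := Prod.ext_iff.1 h2
    exact ⟨h3.1, fun l => congrFun h3.2 l⟩
  let p : Fin S.card → EV d := fun i => WithLp.toLp 2 (fun l => (M : ℝ) * (z i l - ⌊z i l⌋₊))
  have hpl : ∀ i l, p i l = (M : ℝ) * (z i l - ⌊z i l⌋₊) := fun i l => rfl
  -- differences in the same cell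
  have hdiff : ∀ i i', eq (lab i) = eq (lab i') →
      p i - p i' = ((M : ℝ) * (nn (jj i) / h)) • (y (e i) - y (e i')) := by
    intro i i' hii
    obtain ⟨h1, h2⟩ := hlab i i' hii
    ext l
    have h3 : z i' l = (y (e i') l - a (jj i) l) * (nn (jj i) / h) := by
      change (y (e i') l - a (jj i') l) * (nn (jj i') / h) = _
      rw [← h1]
    have h4 : z i l = (y (e i) l - a (jj i) l) * (nn (jj i) / h) := rfl
    rw [PiLp.sub_apply, PiLp.smul_apply, PiLp.sub_apply, hpl, hpl, ← h2 l, h3, h4, smul_eq_mul]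
    ring
  have hRx : ∀ i i', lam * ‖x (e i) - x (e i')‖ = lam * (‖y (e i) - y (e i')‖ *
      √(cfac (y (e i)) * cfac (y (e i')))) := by
    intro i i'
    rw [← norm_stereo_sub, ← (hy (e i) (e i).2).1, ← (hy (e i') (e i').2).1, ← map_sub,
      LinearIsometryEquiv.norm_map]
  have hnorm : ∀ i i', eq (lab i) = eq (lab i') →
      lam * ‖x (e i) - x (e i')‖ ≤ ‖p i - p i'‖ := by
    intro i i' hii
    rw [hRx, hdiff i i' hii, norm_smul, Real.norm_eq_abs, abs_of_pos (by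
      have := hn0 (jj i); positivity)]
    obtain ⟨h1, h2⟩ := hlab i i' hii
    have h3 : cfac (y (e i)) ≤ c (jj i) := hcf _ _ (hjj i)
    have h4 : cfac (y (e i')) ≤ c (jj i) := by
      rw [h1]
      exact hcf _ _ (hjj i')
    have h5 : √(cfac (y (e i)) * cfac (y (e i'))) ≤ c (jj i) := by
      rw [Real.sqrt_le_left (hc _).le, pow_two]
      exact mul_le_mul h3 h4 (cfac_pos _).le (hc _).le
    have h6 : lam * c (jj i) ≤ (M : ℝ) * (nn (jj i) / h) := by
      rw [← mul_div_assoc, le_div_iff₀ hh]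
      calc lam * c (jj i) * h = h * lam * c (jj i) := by ring
        _ ≤ _ := hnn _
    calc lam * (‖y (e i) - y (e i')‖ * √(cfac (y (e i)) * cfac (y (e i')))) ≤
          lam * (‖y (e i) - y (e i')‖ * c (jj i)) := by gcongr
      _ = lam * c (jj i) * ‖y (e i) - y (e i')‖ := by ring
      _ ≤ (M : ℝ) * (nn (jj i) / h) * ‖y (e i) - y (e i')‖ := by gcongr
  have hse : ∀ i i', x (e i) = x (e i') → i = i' := by
    intro i i' hii
    exact e.injective (Subtype.ext (hinj hii))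
  refine ⟨fun i => eq (lab i), p, ?_, ?_, ?_⟩
  · intro i l
    rw [hpl]
    have h1 := Nat.floor_le (hz0 i l)
    have h2 := Nat.lt_floor_add_one (z i l)
    constructor
    · exact mul_nonneg hM0.le (by linarith)
    · calc (M : ℝ) * (z i l - ⌊z i l⌋₊) < M * 1 := mul_lt_mul_of_pos_left (by linarith) hM0
        _ = M := mul_one _
  · intro i i' hii hpp
    have h1 := hnorm i i' hii
    rw [hpp, sub_self, norm_zero] at h1
    have h2 : ‖x (e i) - x (e i')‖ ≤ 0 := by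
      by_contra hcon
      push Not at hcon
      have : 0 < lam * ‖x (e i) - x (e i')‖ := mul_pos hlam hcon
      linarith
    exact hse i i' (sub_eq_zero.1 (norm_le_zero_iff.1 h2))
  · have h1 := sum_le_sum S (fun u v => if u = v then 0 else gau (t * lam ^ 2) ‖x u - x v‖)
      (fun u v => by
        split_ifs
        · exact le_rfl
        · exact (gau_pos _ _).le) e
    refine le_trans ?_ h1
    unfold labE
    refine Finset.sum_le_sum fun i _ => Finset.sum_le_sum fun i' _ => ?_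
    by_cases hii : i = i'
    · subst hii
      simp
    · have h2 : ¬ (e i : Fin N) = e i' := fun h3 => hii (e.injective (Subtype.ext h3))
      rw [if_neg h2]
      split_ifs with h3
      · exact gau_le ht hlam.le (norm_nonneg _) (hnorm i i' h3.2)
      · exact (gau_pos _ _).le

theorem growth {G : ℕ} (h : ℝ) (hh : 0 < h) (c : Fin G → ℝ) (hc : ∀ j, 0 < c j) (M : ℕ)
    (hM : 0 < M) (B C : ℝ) (hB : ∑ j, h ^ d * c j ^ d ≤ B) (hBC : B < C) :
    ∀ᶠ lam : ℝ in atTop,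
      ((∑ j, ⌈h * lam * c j / M⌉₊ ^ d : ℕ) : ℝ) * (M : ℝ) ^ d ≤ lam ^ d * C := by
  have hM0 : (0 : ℝ) < M := by exact_mod_cast hM
  have h1 : Tendsto (fun lam : ℝ => ∑ j, (h * c j + M / lam) ^ d) atTop
      (𝓝 (∑ j, (h * c j + 0) ^ d)) := by
    refine tendsto_finsetSum _ fun j _ => ?_
    refine (Tendsto.const_add _ ?_).pow d
    exact tendsto_const_nhds.div_atTop tendsto_id
  have h2 : ∑ j, (h * c j + 0) ^ d < C := by
    refine lt_of_le_of_lt ?_ hBC
    refine le_trans (le_of_eq ?_) hB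
    refine Finset.sum_congr rfl fun j _ => ?_
    rw [add_zero, mul_pow]
  filter_upwards [h1.eventually (gt_mem_nhds h2), eventually_gt_atTop 0] with lam h3 hlam
  rw [Nat.cast_sum, Finset.sum_mul]
  calc ∑ j, ((⌈h * lam * c j / M⌉₊ ^ d : ℕ) : ℝ) * (M : ℝ) ^ d
      ≤ ∑ j, lam ^ d * (h * c j + M / lam) ^ d := by
        refine Finset.sum_le_sum fun j _ => ?_
        rw [Nat.cast_pow, ← mul_pow, ← mul_pow]
        refine pow_le_pow_left₀ (by positivity) ?_ d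
        have h4 : 0 ≤ h * lam * c j / M := by have := hc j; positivity
        have h5 := (Nat.ceil_lt_add_one h4).le
        calc (⌈h * lam * c j / M⌉₊ : ℝ) * M ≤ (h * lam * c j / M + 1) * M := by gcongr
          _ = lam * (h * c j + M / lam) := by field_simp
    _ = lam ^ d * ∑ j, (h * c j + M / lam) ^ d := by rw [Finset.mul_sum]
    _ ≤ lam ^ d * C := by gcongr

/-- the exponent -/
theorem choose_delta {e : ℝ → ℝ} {t ε : ℝ} (hε : 0 < ε) {q : ℝ}
    (hc : ContinuousAt e t) : ∃ δ : ℝ, 0 < δ ∧ δ < 1 ∧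
      (1 + δ) * (e t - ε) ≤ (1 - δ) * e (t * ((1 + δ) ^ 3 / (1 - δ)) ^ q) - δ := by
  have h1 : ContinuousAt (fun δ : ℝ => t * ((1 + δ) ^ 3 / (1 - δ)) ^ q) 0 := by
    refine continuousAt_const.mul ?_
    refine ContinuousAt.rpow_const ?_ (Or.inl (by norm_num))
    refine ContinuousAt.div (by fun_prop) (by fun_prop) (by norm_num)
  have h0 : t * ((1 + (0 : ℝ)) ^ 3 / (1 - 0)) ^ q = t := by
    norm_num
  have h2 : ContinuousAt (fun δ : ℝ => e (t * ((1 + δ) ^ 3 / (1 - δ)) ^ q)) 0 := by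
    refine ContinuousAt.comp (g := e) ?_ h1
    rw [h0]
    exact hc
  have h3 : ContinuousAt (fun δ : ℝ => (1 - δ) * e (t * ((1 + δ) ^ 3 / (1 - δ)) ^ q) - δ -
      (1 + δ) * (e t - ε)) 0 := by
    refine ContinuousAt.sub (ContinuousAt.sub (ContinuousAt.mul (by fun_prop) h2) continuousAt_id)
      (by fun_prop)
  have h4 : 0 < (1 - (0 : ℝ)) * e (t * ((1 + 0) ^ 3 / (1 - 0)) ^ q) - 0 - (1 + 0) * (e t - ε) := by
    rw [h0]
    linarith
  have h5 : ∀ᶠ δ : ℝ in 𝓝 0, 0 < (1 - δ) * e (t * ((1 + δ) ^ 3 / (1 - δ)) ^ q) - δ -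
      (1 + δ) * (e t - ε) := h3.eventually (lt_mem_nhds h4)
  obtain ⟨r, hr, hr2⟩ := Metric.eventually_nhds_iff.1 h5
  refine ⟨min (r / 2) (1 / 2), by positivity, by
    have := min_le_right (r / 2) (1 / 2 : ℝ); linarith, ?_⟩
  have h6 : dist (min (r / 2) (1 / 2)) (0 : ℝ) < r := by
    rw [Real.dist_eq, sub_zero, abs_of_pos (by positivity)]
    have := min_le_left (r / 2) (1 / 2 : ℝ)
    linarith
  have := hr2 h6
  linarith

end LB11

section LB11
variable {d : ℕ}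

open LB11 in
theorem local_bound_of (hd : 0 < d) (t ε : ℝ) (ht : 0 < t) (hε : 0 < ε)
    (hc : ContinuousAt (eOpt d) t)
    (rot : ∀ δ : ℝ, 0 < δ → ∃ A : ℝ, 0 < A ∧
      ∀ (N : ℕ) (x : Fin N → EV (d + 1)), (∀ i, ‖x i‖ = 1) →
        ∃ (R : EV (d + 1) ≃ₗᵢ[ℝ] EV (d + 1)) (S : Finset (Fin N)) (y : Fin N → EV d),
          (1 - δ) * N ≤ S.card ∧
          ∀ i ∈ S, R (x i) = stereo (y i) ∧ ∀ l, -A ≤ y i l ∧ y i l < A)
    (cover : ∀ A δ : ℝ, 0 < A → 0 < δ →
      ∃ (G : ℕ) (a : Fin G → Fin d → ℝ) (h : ℝ) (c : Fin G → ℝ), 0 < h ∧ (∀ j, 0 < c j) ∧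
        (∀ y : EV d, (∀ l, -A ≤ y l ∧ y l < A) → ∃ j, ∀ l, a j l ≤ y l ∧ y l < a j l + h) ∧
        (∀ (j : Fin G) (y : EV d), (∀ l, a j l ≤ y l ∧ y l < a j l + h) → cfac y ≤ c j) ∧
        ∑ j, h ^ d * c j ^ d ≤ (1 + δ) * sphArea d)
    (nonneg : ∀ s, 0 ≤ eOpt d s) (anti : AntitoneOn (eOpt d) (Ioi 0))
    (corr : ∀ δ : ℝ, 0 < δ →
      ∃ M : ℕ, 0 < M ∧ ∀ (n K : ℕ) (κ : Fin n → Fin K) (p : Fin n → EV d), 0 < n →
        (∀ i l, 0 ≤ p i l ∧ p i l < M) → (∀ i j, κ i = κ j → p i = p j → i = j) →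
        n * eOpt d (t * ((1 + δ) * K * (M : ℝ) ^ d / n) ^ ((2 : ℝ) / d)) ≤
          (1 + δ) * labE t κ p + δ * n) :
    ∀ᶠ N : ℕ in atTop, ∀ x : Fin N → EV (d + 1), (∀ i, ‖x i‖ = 1) → Function.Injective x →
      N * (eOpt d t - ε) ≤ gE (t * rate d N) x := by
  obtain ⟨δ, hδ, hδ1, hδ2⟩ := choose_delta (q := (2 : ℝ) / d) hε hc
  obtain ⟨A, hA, hrot⟩ := rot δ hδ
  obtain ⟨G, a, h, c, hh, hcpos, hcov, hcf, hsum⟩ := cover A δ hA hδ
  obtain ⟨M, hM, hcorr⟩ := corr δ hδ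
  have hH := sphArea_pos d
  have hM0 : (0 : ℝ) < M := by exact_mod_cast hM
  have hd0 : (d : ℝ) ≠ 0 := by
    have : (0 : ℝ) < d := by exact_mod_cast hd
    exact this.ne'
  have hlt : (1 + δ) * sphArea d < (1 + δ) ^ 2 * sphArea d := by
    have : (1 + δ) < (1 + δ) ^ 2 := by nlinarith
    gcongr
  have hg := growth (d := d) h hh c hcpos M hM _ _ hsum hlt
  have hlamt : Tendsto (fun N : ℕ => ((N : ℝ) / sphArea d) ^ ((1 : ℝ) / d)) atTop atTop := by
    refine (tendsto_rpow_atTop (by positivity)).comp ?_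
    exact tendsto_natCast_atTop_atTop.atTop_div_const hH
  filter_upwards [hlamt.eventually hg, eventually_ge_atTop 1] with N hN1 hN x hx hinj
  obtain ⟨R, S, y, hcard, hy⟩ := hrot N x hx
  set lam : ℝ := ((N : ℝ) / sphArea d) ^ ((1 : ℝ) / d) with hlam
  have hN0 : (0 : ℝ) < N := by exact_mod_cast hN
  have hNH : 0 < (N : ℝ) / sphArea d := by positivity
  have hlam0 : 0 < lam := Real.rpow_pos_of_pos hNH _
  have hlamd : lam ^ d = (N : ℝ) / sphArea d := by
    rw [hlam, ← Real.rpow_natCast, ← Real.rpow_mul hNH.le, one_div, inv_mul_cancel₀ hd0,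
      Real.rpow_one]
  have hrate : rate d N = lam ^ 2 := by
    unfold rate
    rw [hlam, ← Real.rpow_natCast, ← Real.rpow_mul hNH.le]
    congr 1
    push_cast
    ring
  have hnn : ∀ j, h * lam * c j ≤ (M : ℝ) * (⌈h * lam * c j / M⌉₊ : ℕ) := by
    intro j
    have h1 := Nat.le_ceil (h * lam * c j / M)
    rw [div_le_iff₀ hM0] at h1
    linarith
  have hcore := core t lam ht.le hlam0 a h hh c hcpos A hcov hcf M hM
    (fun j => ⌈h * lam * c j / M⌉₊) hnn x hinj R S y hy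
  rw [← hrate] at hcore
  rw [hlamd] at hN1
  generalize ∑ j, ⌈h * lam * c j / M⌉₊ ^ d = K at hN1 hcore
  obtain ⟨κ, p, hp1, hp2, hp3⟩ := hcore
  have hS0 : (0 : ℝ) < S.card := by
    have : 0 < (1 - δ) * N := mul_pos (by linarith) hN0
    linarith
  have hSn : 0 < S.card := by exact_mod_cast hS0
  have hSN : (S.card : ℝ) ≤ N := by
    have : S.card ≤ N := by simpa using Finset.card_le_univ S
    exact_mod_cast this
  have hK := hcorr S.card _ κ p hSn hp1 hp2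
  have hKpos : (0 : ℝ) < K := by
    have : 0 < K := Fin.pos (κ ⟨0, hSn⟩)
    exact_mod_cast this
  have hN2 : (K : ℝ) * (M : ℝ) ^ d ≤ (1 + δ) ^ 2 * N := by
    refine hN1.trans (le_of_eq ?_)
    field_simp
  have harg : (1 + δ) * K * (M : ℝ) ^ d / S.card ≤ (1 + δ) ^ 3 / (1 - δ) := by
    rw [div_le_div_iff₀ hS0 (by linarith)]
    calc (1 + δ) * K * (M : ℝ) ^ d * (1 - δ) = (1 + δ) * (1 - δ) * (K * (M : ℝ) ^ d) := by ring
      _ ≤ (1 + δ) * (1 - δ) * ((1 + δ) ^ 2 * N) := by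
          refine mul_le_mul_of_nonneg_left hN2 (mul_nonneg (by linarith) (by linarith))
      _ = (1 + δ) ^ 3 * ((1 - δ) * N) := by ring
      _ ≤ (1 + δ) ^ 3 * S.card := mul_le_mul_of_nonneg_left hcard (by positivity)
  have hargpos : 0 < (1 + δ) * K * (M : ℝ) ^ d / S.card := by positivity
  have hmono : eOpt d (t * ((1 + δ) ^ 3 / (1 - δ)) ^ ((2 : ℝ) / d)) ≤
      eOpt d (t * ((1 + δ) * K * (M : ℝ) ^ d / S.card) ^ ((2 : ℝ) / d)) := by
    refine anti ?_ ?_ ?_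
    · exact mul_pos ht (Real.rpow_pos_of_pos hargpos _)
    · exact mul_pos ht (Real.rpow_pos_of_pos (div_pos (by positivity) (by linarith)) _)
    · gcongr
  set E := eOpt d (t * ((1 + δ) ^ 3 / (1 - δ)) ^ ((2 : ℝ) / d)) with hE
  have hE0 : 0 ≤ E := nonneg _
  have h7 : (S.card : ℝ) * E ≤ (1 + δ) * gE (t * rate d N) x + δ * S.card := by
    calc (S.card : ℝ) * E ≤ S.card *
          eOpt d (t * ((1 + δ) * K * (M : ℝ) ^ d / S.card) ^ ((2 : ℝ) / d)) := by gcongr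
      _ ≤ (1 + δ) * labE t κ p + δ * S.card := hK
      _ ≤ (1 + δ) * gE (t * rate d N) x + δ * S.card := by gcongr
  have h8 : (1 - δ) * N * E ≤ S.card * E := mul_le_mul_of_nonneg_right hcard hE0
  have h9 : δ * S.card ≤ δ * N := mul_le_mul_of_nonneg_left hSN hδ.le
  have h10 : N * ((1 + δ) * (eOpt d t - ε)) ≤ N * ((1 - δ) * E - δ) :=
    mul_le_mul_of_nonneg_left hδ2 hN0.le
  have h11 : (1 + δ) * (N * (eOpt d t - ε)) ≤ (1 + δ) * gE (t * rate d N) x := by linarith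
  exact le_of_mul_le_mul_left h11 (by linarith)

end LB11

end Pool.Agent.Helper78.LE
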