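import Pool.Agent.Helper78.LE.LBDefs
import Pool.Agent.Helper78.LE.LE1
import Pool.Agent.Helper78.LE.LE3

/-!
Project LB, module LB8: a cover by small cubes.
-/

set_option autoImplicit false

open MeasureTheory Set Filter Topology

namespace Pool.Agent.Helper78.LE

namespace LB8

variable {d : ℕ}

/-- the half open cube -/
def cub (a : Fin d → ℝ) (h : ℝ) : Set (EV d) := {y | ∀ l, a l ≤ y l ∧ y l < a l + h}

theorem cub_eq (a : Fin d → ℝ) (h : ℝ) : cub a h =
    (WithLp.ofLp : EV d → Fin d → ℝ) ⁻¹' (Set.pi Set.univ fun l => Set.Ico (a l) (a l + h)) := by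
  ext y
  simp [cub, Set.mem_pi]

theorem cub_meas (a : Fin d → ℝ) (h : ℝ) : MeasurableSet (cub a h) := by
  rw [cub_eq]
  exact (PiLp.volume_preserving_ofLp (Fin d)).measurable
    (MeasurableSet.univ_pi fun l => measurableSet_Ico)

theorem cub_vol (a : Fin d → ℝ) (h : ℝ) (hh : 0 < h) : volume.real (cub a h) = h ^ d := by
  rw [cub_eq, measureReal_def, (PiLp.volume_preserving_ofLp (Fin d)).measure_preimage
    (MeasurableSet.univ_pi fun l => measurableSet_Ico).nullMeasurableSet, volume_pi_pi]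
  simp [hh.le]

/-- comparison inside a cube -/
theorem cfac_comp (A h : ℝ) (hA : 0 < A) (hh : 0 < h) (y y' : EV d) (hy : ∀ l, |y l| ≤ A)
    (hy' : ∀ l, |y' l| ≤ A) (hyy : ∀ l, |y l - y' l| ≤ h) :
    cfac y ≤ (1 + 2 * d * A * h) * cfac y' := by
  have h1 : ‖y'‖ ^ 2 - ‖y‖ ^ 2 ≤ 2 * d * A * h := by
    rw [norm_sq_EV, norm_sq_EV]
    have h2 : ∀ l ∈ (Finset.univ : Finset (Fin d)), (y' l) ^ 2 - (y l) ^ 2 ≤ 2 * A * h := by
      intro l _
      have h3 : (y' l) ^ 2 - (y l) ^ 2 = (y' l - y l) * (y' l + y l) := by ring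
      rw [h3]
      have h4 : |(y' l - y l) * (y' l + y l)| ≤ h * (2 * A) := by
        rw [abs_mul]
        apply mul_le_mul _ _ (abs_nonneg _) hh.le
        · rw [abs_sub_comm]
          exact hyy l
        · have := abs_add_le (y' l) (y l)
          linarith [hy l, hy' l]
      linarith [le_abs_self ((y' l - y l) * (y' l + y l))]
    have := Finset.sum_le_sum h2
    simp at this
    linarith
  have h5 : 0 < 1 + ‖y‖ ^ 2 := by positivity
  have h6 : 0 < 1 + ‖y'‖ ^ 2 := by positivity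
  unfold cfac
  rw [mul_div_assoc', div_le_div_iff₀ h5 h6]
  have h7 : 0 ≤ 2 * d * A * h := by positivity
  nlinarith [mul_nonneg h7 (sq_nonneg ‖y‖)]

end LB8

section LB8
variable {d : ℕ}

open LB8 in
theorem cover_low (hd : 0 < d) (A ε : ℝ) (hA : 0 < A) (hε : 0 < ε) :
    ∃ (G : ℕ) (a : Fin G → Fin d → ℝ) (h : ℝ) (c : Fin G → ℝ), 0 < h ∧ (∀ j, 0 < c j) ∧
      (∀ y : EV d, (∀ l, -A ≤ y l ∧ y l < A) → ∃ j, ∀ l, a j l ≤ y l ∧ y l < a j l + h) ∧
      (∀ (j : Fin G) (y : EV d), (∀ l, a j l ≤ y l ∧ y l < a j l + h) → cfac y ≤ c j) ∧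
      ∑ j, h ^ d * c j ^ d ≤ (1 + ε) * sphArea d := by
  -- choice of the mesh
  obtain ⟨n, hn0, hn⟩ : ∃ n : ℕ, 0 < n ∧ (1 + 2 * d * A * (2 * A / n)) ^ (2 * d) ≤ 1 + ε := by
    have h1 : Tendsto (fun n : ℕ => (1 + 2 * d * A * (2 * A * (1 / (n : ℝ)))) ^ (2 * d)) atTop
        (𝓝 ((1 + 2 * d * A * (2 * A * 0)) ^ (2 * d))) :=
      (tendsto_const_nhds.add (((tendsto_one_div_atTop_nhds_zero_nat).const_mul (2 * A)).const_mul
        (2 * d * A))).pow _
    have h2 : (1 + 2 * d * A * (2 * A * 0)) ^ (2 * d) < 1 + ε := by simpa using hε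
    obtain ⟨n, h3, h4⟩ := ((h1.eventually (ge_mem_nhds h2)).and (eventually_gt_atTop 0)).exists
    refine ⟨n, h4, ?_⟩
    rw [mul_one_div] at h3
    exact h3
  have hnR : (0 : ℝ) < n := by exact_mod_cast hn0
  set h : ℝ := 2 * A / n with hh
  have hpos : 0 < h := by positivity
  have hnh : n * h = 2 * A := by
    rw [hh]
    field_simp
  set ρ : ℝ := 1 + 2 * d * A * h with hρ
  have hρ1 : 1 ≤ ρ := by
    rw [hρ]
    have : 0 ≤ 2 * d * A * h := by positivity
    linarith
  let e := Fintype.equivFin (Fin d → Fin n)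
  let a0 : (Fin d → Fin n) → Fin d → ℝ := fun j l => -A + h * (j l : ℕ)
  have hin : ∀ (j : Fin d → Fin n) (y : EV d), y ∈ cub (a0 j) h → ∀ l, |y l| ≤ A := by
    intro j y hy l
    have h1 := hy l
    simp only [a0] at h1
    have h2 : ((j l : ℕ) : ℝ) + 1 ≤ n := by exact_mod_cast (j l).isLt
    have h3 : (0 : ℝ) ≤ (j l : ℕ) := Nat.cast_nonneg _
    have h4 : h * (((j l : ℕ) : ℝ) + 1) ≤ h * n := mul_le_mul_of_nonneg_left h2 hpos.le
    have h5 : 0 ≤ h * ((j l : ℕ) : ℝ) := mul_nonneg hpos.le h3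
    rw [abs_le]
    constructor <;> nlinarith
  have hcor : ∀ j : Fin d → Fin n, (WithLp.toLp 2 (a0 j) : EV d) ∈ cub (a0 j) h := by
    intro j l
    simp [hpos]
  have hcl : ∀ (j : Fin d → Fin n) (y y' : EV d), y ∈ cub (a0 j) h → y' ∈ cub (a0 j) h →
      ∀ l, |y l - y' l| ≤ h := by
    intro j y y' hy hy' l
    have h1 := hy l
    have h2 := hy' l
    rw [abs_le]
    constructor <;> linarith
  have hcomp : ∀ (j : Fin d → Fin n) (y y' : EV d), y ∈ cub (a0 j) h → y' ∈ cub (a0 j) h →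
      cfac y ≤ ρ * cfac y' := fun j y y' hy hy' =>
    cfac_comp A h hA hpos y y' (hin j y hy) (hin j y' hy') (hcl j y y' hy hy')
  refine ⟨Fintype.card (Fin d → Fin n), fun j => a0 (e.symm j), h,
    fun j => ρ * cfac (WithLp.toLp 2 (a0 (e.symm j)) : EV d), hpos, ?_, ?_, ?_, ?_⟩
  · intro j
    have := cfac_pos (WithLp.toLp 2 (a0 (e.symm j)) : EV d)
    positivity
  · intro y hy
    have hlt : ∀ l, ⌊(y l + A) / h⌋₊ < n := by
      intro l
      rw [Nat.floor_lt (div_nonneg (by linarith [(hy l).1]) hpos.le), div_lt_iff₀ hpos, hnh]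
      linarith [(hy l).2]
    refine ⟨e (fun l => ⟨⌊(y l + A) / h⌋₊, hlt l⟩), fun l => ?_⟩
    simp only [Equiv.symm_apply_apply, a0]
    have h1 := Nat.floor_le (div_nonneg (by linarith [(hy l).1]) hpos.le : 0 ≤ (y l + A) / h)
    have h2 := Nat.lt_floor_add_one ((y l + A) / h)
    rw [le_div_iff₀ hpos] at h1
    rw [div_lt_iff₀ hpos] at h2
    constructor <;> nlinarith
  · intro j y hy
    exact hcomp (e.symm j) y _ hy (hcor _)
  · have h1 : ∀ j : Fin d → Fin n, h ^ d * (ρ * cfac (WithLp.toLp 2 (a0 j) : EV d)) ^ d ≤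
        ρ ^ (2 * d) * ∫ y in cub (a0 j) h, cfac y ^ d := by
      intro j
      have h2 : ∀ y ∈ cub (a0 j) h, cfac (WithLp.toLp 2 (a0 j) : EV d) ^ d / ρ ^ d ≤ cfac y ^ d := by
        intro y hy
        rw [div_le_iff₀ (by positivity), ← mul_pow]
        apply pow_le_pow_left₀ (cfac_pos _).le
        rw [mul_comm]
        exact hcomp j _ y (hcor j) hy
      have h3 := setIntegral_ge_of_const_le_real (cub_meas (a0 j) h) (by
          intro hc
          have := cub_vol (a0 j) h hpos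
          rw [measureReal_def, hc] at this
          simp at this
          exact absurd this.symm (pow_pos hpos d).ne') h2 (LE3aux.integrable_cfac hd).integrableOn
      rw [cub_vol _ _ hpos] at h3
      calc h ^ d * (ρ * cfac (WithLp.toLp 2 (a0 j) : EV d)) ^ d
          = ρ ^ (2 * d) * (cfac (WithLp.toLp 2 (a0 j) : EV d) ^ d / ρ ^ d * h ^ d) := by
            have : ρ ^ d ≠ 0 := by positivity
            rw [mul_pow, two_mul, pow_add]
            field_simp
        _ ≤ _ := by gcongr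
    have h4 : ∑ j : Fin (Fintype.card (Fin d → Fin n)), h ^ d *
        (ρ * cfac (WithLp.toLp 2 (a0 (e.symm j)) : EV d)) ^ d =
        ∑ j : Fin d → Fin n, h ^ d * (ρ * cfac (WithLp.toLp 2 (a0 j) : EV d)) ^ d :=
      e.symm.sum_comp (fun j => h ^ d * (ρ * cfac (WithLp.toLp 2 (a0 j) : EV d)) ^ d)
    rw [h4]
    have hdisj : (Set.univ : Set (Fin d → Fin n)).PairwiseDisjoint (fun j => cub (a0 j) h) := by
      intro j _ j' _ hjj
      rw [Function.onFun, Set.disjoint_left]
      intro y hy hy'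
      apply hjj
      funext l
      apply Fin.ext
      have h5 := hy l
      have h6 := hy' l
      simp only [a0] at h5 h6
      have h7 : ((j l : ℕ) : ℝ) < (j' l : ℕ) + 1 := by
        by_contra hc
        push Not at hc
        have := mul_le_mul_of_nonneg_left hc hpos.le
        nlinarith
      have h8 : ((j' l : ℕ) : ℝ) < (j l : ℕ) + 1 := by
        by_contra hc
        push Not at hc
        have := mul_le_mul_of_nonneg_left hc hpos.le
        nlinarith
      have h9 : (j l : ℕ) < (j' l : ℕ) + 1 := by exact_mod_cast h7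
      have h10 : (j' l : ℕ) < (j l : ℕ) + 1 := by exact_mod_cast h8
      omega
    calc ∑ j : Fin d → Fin n, h ^ d * (ρ * cfac (WithLp.toLp 2 (a0 j) : EV d)) ^ d
        ≤ ∑ j : Fin d → Fin n, ρ ^ (2 * d) * ∫ y in cub (a0 j) h, cfac y ^ d :=
          Finset.sum_le_sum fun j _ => h1 j
      _ = ρ ^ (2 * d) * ∑ j : Fin d → Fin n, ∫ y in cub (a0 j) h, cfac y ^ d := by
          rw [Finset.mul_sum]
      _ = ρ ^ (2 * d) * ∫ y in ⋃ j, cub (a0 j) h, cfac y ^ d := by
          rw [integral_iUnion_fintype (fun j => cub_meas _ _) (fun j j' hjj =>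
            hdisj (Set.mem_univ j) (Set.mem_univ j') hjj)
            (fun j => (LE3aux.integrable_cfac hd).integrableOn)]
      _ ≤ (1 + ε) * sphArea d := by
          apply mul_le_mul hn _ (integral_nonneg fun y => pow_nonneg (cfac_pos y).le d) (by linarith)
          rw [← LE3aux.integral_cfac hd]
          exact setIntegral_le_integral (LE3aux.integrable_cfac hd)
            (Filter.Eventually.of_forall fun y => pow_nonneg (cfac_pos y).le d)

end LB8

end Pool.Agent.Helper78.LE
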