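import Pool.Agent.Helper78.LE.LB7
import Pool.Agent.Helper78.LE.LB8
import Pool.Agent.Helper78.LE.LB10
import Pool.Agent.Helper78.LE.LB11a

/-!
Project LB, module LB11 (written by helper83): the local lower bound.
-/

set_option autoImplicit false

open MeasureTheory Set Filter Topology

namespace Pool.Agent.Helper78.LE

section LB11
variable {d : ℕ}

theorem local_bound (hd : 0 < d) (t ε : ℝ) (ht : 0 < t) (hε : 0 < ε)
    (hc : ContinuousAt (eOpt d) t) :
    ∀ᶠ N : ℕ in atTop, ∀ x : Fin N → EV (d + 1), (∀ i, ‖x i‖ = 1) → Function.Injective x →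
      N * (eOpt d t - ε) ≤ gE (t * rate d N) x :=
  local_bound_of hd t ε ht hε hc (fun δ hδ => rot_choice hd δ hδ)
    (fun A δ hA hδ => cover_low hd A δ hA hδ) (eOpt_nonneg d) (eOpt_anti d)
    (fun δ hδ => corridor_opt hd t δ ht hδ)

end LB11

end Pool.Agent.Helper78.LE
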