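import Pool.Agent.Helper78.LE.LB14
import Pool.Agent.Helper78.LE.LB10
import Pool.Agent.Helper78.LE.LB16

/-!
Project LB, module LB15a: integrability of the integrand of the lower bound and continuity of the
optimal Gaussian energy almost everywhere.
-/

set_option autoImplicit false

open MeasureTheory Set Filter Topology

namespace Pool.Agent.Helper78.LE

section LB15a
variable {d : ℕ}

theorem ae_continuousAt (d : ℕ) : ∀ᵐ t ∂(volume.restrict (Ioi (0 : ℝ))),
    ContinuousAt (eOpt d) t := by
  have hanti : Antitone (fun s : ℝ => eOpt d (Real.exp s)) := by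
    intro s t hst
    exact eOpt_anti d (Real.exp_pos s) (Real.exp_pos t) (Real.exp_le_exp.mpr hst)
  have hc := hanti.countable_not_continuousAt
  have hc2 := hc.image Real.exp
  have h0 : ∀ᵐ t ∂(volume.restrict (Ioi (0 : ℝ))),
      t ∉ Real.exp '' {x | ¬ContinuousAt (fun s : ℝ => eOpt d (Real.exp s)) x} :=
    hc2.ae_notMem _
  filter_upwards [h0, ae_restrict_mem measurableSet_Ioi] with t ht ht0
  have ht1 : (0 : ℝ) < t := ht0
  have h1 : ContinuousAt (fun s : ℝ => eOpt d (Real.exp s)) (Real.log t) := by
    by_contra hcon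
    exact ht ⟨Real.log t, hcon, Real.exp_log ht1⟩
  have h2 : ContinuousAt (fun u : ℝ => eOpt d (Real.exp (Real.log u))) t :=
    ContinuousAt.comp (g := fun s : ℝ => eOpt d (Real.exp s)) (f := Real.log) h1
      (Real.continuousAt_log ht1.ne')
  refine h2.congr ?_
  filter_upwards [Ioi_mem_nhds ht1] with u hu
  rw [Real.exp_log hu]

theorem II_int (hd : 0 < d) : IntegrableOn (II d) (Ioi 0) := by
  obtain ⟨b, hb⟩ := exists_unit_basis d
  obtain ⟨Z, hZ⟩ := exists_zeta b hd
  have hT := (zeta_theta b hd Z hZ).1
  have hd0 : (0 : ℝ) < (d : ℝ) / 2 := by positivity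
  -- lower bound function
  set g : ℝ → ℝ := fun t => (Ioc (0 : ℝ) 1).indicator (fun _ => (1 : ℝ)) t +
    (Ioi (1 : ℝ)).indicator (fun t => Real.pi ^ ((d : ℝ) / 2) * t ^ (-((d : ℝ) / 2) - 1)) t with hg
  have hgint : Integrable g := by
    apply Integrable.add
    · rw [integrable_indicator_iff measurableSet_Ioc]
      exact integrableOn_const (by simp)
    · rw [integrable_indicator_iff measurableSet_Ioi]
      exact (integrableOn_Ioi_rpow_of_lt (by linarith) one_pos).const_mul _
  have hmeas : AEStronglyMeasurable (II d) (volume.restrict (Ioi 0)) := by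
    have h1 : AEMeasurable (eOpt d) (volume.restrict (Ioi 0)) :=
      aemeasurable_restrict_of_antitoneOn measurableSet_Ioi (eOpt_anti d)
    have h2 : Measurable (fun t : ℝ => (Real.pi / t) ^ ((d : ℝ) / 2)) :=
      (measurable_const.div measurable_id).pow_const _
    have h3 : Measurable (fun t : ℝ => Real.exp (-t)) := Real.measurable_exp.comp measurable_neg
    exact (((h1.sub h2.aemeasurable).add h3.aemeasurable).div
      measurable_id.aemeasurable).aestronglyMeasurable
  refine Integrable.mono' (g := fun t => |TT b t| + g t) (hT.abs.add hgint.restrict) hmeas ?_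
  rw [ae_restrict_iff' measurableSet_Ioi]
  apply Filter.Eventually.of_forall
  intro t ht
  have ht0 : (0 : ℝ) < t := ht
  have hup : II d t ≤ TT b t := by
    unfold II TT
    apply div_le_div_of_nonneg_right _ ht0.le
    rw [hb, div_one]
    have := eOpt_le_theta b hb t
    linarith
  have hlow : -g t ≤ II d t := by
    by_cases h1 : t ≤ 1
    · have e1 : t ∈ Ioc (0 : ℝ) 1 := ⟨ht0, h1⟩
      have e2 : t ∉ Ioi (1 : ℝ) := not_lt.mpr h1
      simp only [hg, Set.indicator_of_mem e1, Set.indicator_of_notMem e2, add_zero]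
      unfold II
      rw [le_div_iff₀ ht0]
      have h2 := eOpt_ge (d := d) hd t ht0
      have h3 := Real.add_one_le_exp (-t)
      linarith
    · have e0 : (1 : ℝ) < t := not_le.mp h1
      have e1 : t ∉ Ioc (0 : ℝ) 1 := fun h => h1 h.2
      have e2 : t ∈ Ioi (1 : ℝ) := e0
      simp only [hg, Set.indicator_of_notMem e1, Set.indicator_of_mem e2, zero_add]
      unfold II
      rw [le_div_iff₀ ht0]
      have h2 := eOpt_nonneg d t
      have h3 := Real.exp_pos (-t)
      have h4 : Real.pi ^ ((d : ℝ) / 2) * t ^ (-((d : ℝ) / 2) - 1) * t =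
          (Real.pi / t) ^ ((d : ℝ) / 2) := by
        rw [mul_assoc, ← Real.rpow_add_one ht0.ne', Real.div_rpow Real.pi_pos.le ht0.le]
        rw [sub_add_cancel, Real.rpow_neg ht0.le]
        rfl
      have h5 : -(Real.pi ^ ((d : ℝ) / 2) * t ^ (-((d : ℝ) / 2) - 1)) * t =
          -((Real.pi / t) ^ ((d : ℝ) / 2)) := by
        rw [neg_mul, h4]
      rw [h5]
      linarith
  rw [Real.norm_eq_abs, abs_le]
  constructor
  · have := abs_nonneg (TT b t)
    linarith
  · have h6 : 0 ≤ g t := by
      simp only [hg]
      apply add_nonneg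
      · exact Set.indicator_nonneg (fun _ _ => zero_le_one) _
      · apply Set.indicator_nonneg
        intro u hu
        have hu0 : (0 : ℝ) < u := lt_trans one_pos hu
        positivity
    have := le_abs_self (TT b t)
    linarith

end LB15a

end Pool.Agent.Helper78.LE
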