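import Pool.Agent.Helper78.LE.LBDefs
import Pool.Agent.Helper78.LE.LE3

/-!
Project LB, module LB5: invariance of the surface measure.
-/

set_option autoImplicit false

open MeasureTheory Set Filter Topology
open scoped Pointwise

namespace Pool.Agent.Helper78.LE

namespace LB5
variable {d : ℕ}

/-- the isometry on the sphere -/
noncomputable def onS (R : EV (d + 1) ≃ₗᵢ[ℝ] EV (d + 1)) :
    Metric.sphere (0 : EV (d + 1)) 1 → Metric.sphere (0 : EV (d + 1)) 1 :=
  fun x => ⟨R x, by simp⟩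

theorem onS_cont (R : EV (d + 1) ≃ₗᵢ[ℝ] EV (d + 1)) : Continuous (onS R) :=
  (R.continuous.comp continuous_subtype_val).subtype_mk _

theorem onS_mp (R : EV (d + 1) ≃ₗᵢ[ℝ] EV (d + 1)) :
    MeasurePreserving (onS R) (sphMeas d) (sphMeas d) := by
  refine ⟨(onS_cont R).measurable, ?_⟩
  ext s hs
  rw [Measure.map_apply (onS_cont R).measurable hs]
  unfold sphMeas
  rw [Measure.toSphere_apply' _ hs, Measure.toSphere_apply' _ ((onS_cont R).measurable hs)]
  congr 1
  have h1 : (Ioo (0 : ℝ) 1 • ((↑) '' (onS R ⁻¹' s) : Set (EV (d + 1)))) =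
      R ⁻¹' (Ioo (0 : ℝ) 1 • ((↑) '' s : Set (EV (d + 1)))) := by
    ext z
    simp only [Set.mem_smul, Set.mem_preimage]
    constructor
    · rintro ⟨c, hc, w, ⟨x, hx, rfl⟩, rfl⟩
      exact ⟨c, hc, R x, ⟨onS R x, hx, rfl⟩, by simp⟩
    · rintro ⟨c, hc, w, ⟨x, hx, rfl⟩, h⟩
      refine ⟨c, hc, R.symm x, ⟨onS R.symm x, ?_, rfl⟩, ?_⟩
      · have : onS R (onS R.symm x) = x := by
          apply Subtype.ext
          simp [onS]
        show onS R (onS R.symm x) ∈ s
        rw [this]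
        exact hx
      · apply R.injective
        rw [← h]
        simp
  rw [h1]
  exact R.measurePreserving.measure_preimage_emb R.toHomeomorph.measurableEmbedding _

end LB5

section LB5
variable {d : ℕ}

theorem sph_inv (R : EV (d + 1) ≃ₗᵢ[ℝ] EV (d + 1)) (F : EV (d + 1) → ℝ) (hF : Measurable F) :
    ∫ x, F (R (x : EV (d + 1))) ∂(sphMeas d) = ∫ x, F (x : EV (d + 1)) ∂(sphMeas d) := by
  have h := LB5.onS_mp R
  have h2 : ∫ x, F (x : EV (d + 1)) ∂(Measure.map (LB5.onS R) (sphMeas d)) =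
      ∫ x, F ((LB5.onS R x : Metric.sphere (0 : EV (d + 1)) 1) : EV (d + 1)) ∂(sphMeas d) :=
    integral_map h.measurable.aemeasurable
      (hF.comp measurable_subtype_coe).aestronglyMeasurable
  rw [h.map_eq] at h2
  rw [h2]
  rfl

theorem exists_isometry (x y : EV (d + 1)) (hx : ‖x‖ = 1) (hy : ‖y‖ = 1) :
    ∃ R : EV (d + 1) ≃ₗᵢ[ℝ] EV (d + 1), R x = y :=
  ⟨(Submodule.span ℝ {x - y})ᗮ.reflection, Submodule.reflection_sub (by rw [hx, hy])⟩

theorem sph_marginal (t : ℝ) (x : EV (d + 1)) (hx : ‖x‖ = 1) :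
    ∫ y, gau t ‖x - (y : EV (d + 1))‖ ∂(sphMeas d) = sphArea d * gS d t := by
  have hm : ∀ z : EV (d + 1), Measurable (fun y : EV (d + 1) => gau t ‖z - y‖) := by
    intro z
    unfold gau
    fun_prop
  have h1 : ∀ z : Metric.sphere (0 : EV (d + 1)) 1,
      ∫ y, gau t ‖(z : EV (d + 1)) - (y : EV (d + 1))‖ ∂(sphMeas d) =
        ∫ y, gau t ‖x - (y : EV (d + 1))‖ ∂(sphMeas d) := by
    intro z
    obtain ⟨R, hR⟩ := exists_isometry x (z : EV (d + 1)) hx (by simp)
    rw [← sph_inv R (fun y => gau t ‖(z : EV (d + 1)) - y‖) (hm z)]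
    congr 1
    funext y
    rw [← hR, ← map_sub, R.norm_map]
  have hA := sphArea_pos d
  unfold gS
  simp only [h1]
  rw [integral_const, measureReal_def, smul_eq_mul]
  change _ = sphArea d * ((sphArea d * _) / sphArea d ^ 2)
  field_simp

end LB5

end Pool.Agent.Helper78.LE
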