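import Pool.Agent.Helper78.LE.LBDefs
import Pool.Agent.Helper78.LE.LB5

/-!
Project LB, module LB4: the Gaussian bound by positive definiteness.
-/

set_option autoImplicit false

open MeasureTheory Set Filter Topology
open scoped InnerProductSpace

namespace Pool.Agent.Helper78.LE

namespace LB4
variable {d : ℕ}

theorem gau_pos (t r : ℝ) : 0 < gau t r := Real.exp_pos _

theorem gau_mul (t : ℝ) (x y z : EV (d + 1)) :
    gau (2 * t) ‖x - z‖ * gau (2 * t) ‖y - z‖ =
      gau t ‖x - y‖ * gau (4 * t) ‖((1 / 2 : ℝ) • (x + y)) - z‖ := by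
  unfold gau
  rw [← Real.exp_add, ← Real.exp_add]
  congr 1
  have h1 : ‖x - z‖ ^ 2 + ‖y - z‖ ^ 2 =
      2 * ‖((1 / 2 : ℝ) • (x + y)) - z‖ ^ 2 + ‖x - y‖ ^ 2 / 2 := by
    have h2 := parallelogram_law_with_norm ℝ (x - z) (y - z)
    have h3 : x - z + (y - z) = (2 : ℝ) • ((1 / 2 : ℝ) • (x + y) - z) := by
      module
    have h4 : x - z - (y - z) = x - y := by abel
    rw [h3, h4, norm_smul] at h2
    simp only [Real.norm_ofNat] at h2
    nlinarith
  linear_combination (-(2 * t)) * h1

theorem gau_int (s : ℝ) (hs : 0 < s) : Integrable (fun z : EV (d + 1) => gau s ‖z‖) := by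
  apply Integrable.of_integral_ne_zero
  have h := GaussianFourier.integral_rexp_neg_mul_sq_norm (V := EV (d + 1)) hs
  unfold gau
  simp only [← neg_mul]
  rw [h]
  positivity

theorem gau_int' (s : ℝ) (hs : 0 < s) (x : EV (d + 1)) :
    Integrable (fun z : EV (d + 1) => gau s ‖x - z‖) := (gau_int s hs).comp_sub_left x

/-- the total mass -/
noncomputable def JJ (d : ℕ) (t : ℝ) : ℝ := ∫ z : EV (d + 1), gau (4 * t) ‖z‖

theorem JJ_pos (t : ℝ) (ht : 0 < t) : 0 < JJ d t := by
  unfold JJ
  have h := GaussianFourier.integral_rexp_neg_mul_sq_norm (V := EV (d + 1)) (b := 4 * t) (by positivity)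
  unfold gau
  simp only [← neg_mul]
  simp only [← neg_mul] at h
  rw [h]
  positivity

theorem gau_meas (s : ℝ) (x : EV (d + 1)) : Measurable (fun z : EV (d + 1) => gau s ‖x - z‖) := by
  unfold gau
  fun_prop

theorem gau_sq (t : ℝ) (r : ℝ) : gau (2 * t) r ^ 2 = gau (4 * t) r := by
  unfold gau
  rw [← Real.exp_nat_mul]
  congr 1
  push_cast
  ring

theorem memLp (t : ℝ) (ht : 0 < t) (x : EV (d + 1)) :
    MemLp (fun z : EV (d + 1) => gau (2 * t) ‖x - z‖) 2 volume := by
  rw [memLp_two_iff_integrable_sq (gau_meas _ x).aestronglyMeasurable]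
  simp only [gau_sq]
  exact gau_int' (4 * t) (by positivity) x

/-- the feature map -/
noncomputable def phi (t : ℝ) (ht : 0 < t) (x : EV (d + 1)) : Lp ℝ 2 (volume : Measure (EV (d + 1))) :=
  (memLp t ht x).toLp _

theorem inner_phi (t : ℝ) (ht : 0 < t) (x y : EV (d + 1)) :
    ⟪phi t ht x, phi t ht y⟫_ℝ = JJ d t * gau t ‖x - y‖ := by
  rw [L2.inner_def]
  have h1 : (fun z => ⟪phi t ht x z, phi t ht y z⟫_ℝ) =ᵐ[volume]
      fun z => gau t ‖x - y‖ * gau (4 * t) ‖((1 / 2 : ℝ) • (x + y)) - z‖ := by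
    filter_upwards [(memLp t ht x).coeFn_toLp, (memLp t ht y).coeFn_toLp] with z hx hy
    rw [← gau_mul]
    unfold phi
    rw [hx, hy]
    simp [mul_comm]
  rw [integral_congr_ae h1, integral_const_mul,
    integral_sub_left_eq_self (fun z : EV (d + 1) => gau (4 * t) ‖z‖) volume]
  unfold JJ
  ring

theorem phi_cont (t : ℝ) (ht : 0 < t) : Continuous (phi t ht : EV (d + 1) → _) := by
  rw [continuous_iff_continuousAt]
  intro x
  rw [ContinuousAt, tendsto_iff_norm_sub_tendsto_zero]
  have h1 : ∀ y, ‖phi t ht y - phi t ht x‖ = √(2 * JJ d t * (1 - gau t ‖y - x‖)) := by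
    intro y
    rw [← Real.sqrt_sq (norm_nonneg (phi t ht y - phi t ht x)), ← real_inner_self_eq_norm_sq,
      inner_sub_left, inner_sub_right, inner_sub_right, inner_phi, inner_phi, inner_phi, inner_phi]
    congr 1
    rw [norm_sub_rev x y]
    simp [gau]
    ring
  simp only [h1]
  have h2 : Continuous fun y : EV (d + 1) => √(2 * JJ d t * (1 - gau t ‖y - x‖)) := by
    unfold gau
    fun_prop
  have h3 := h2.tendsto x
  simpa [gau] using h3

theorem phi_norm (t : ℝ) (ht : 0 < t) (x : EV (d + 1)) : ‖phi t ht x‖ = √(JJ d t) := by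
  rw [← Real.sqrt_sq (norm_nonneg (phi t ht x)), ← real_inner_self_eq_norm_sq, inner_phi]
  simp [gau]

end LB4

section LB4
variable {d : ℕ}

open LB4 in
theorem gE_ge (t : ℝ) (ht : 0 < t) {N : ℕ} (x : Fin N → EV (d + 1)) (hx : ∀ i, ‖x i‖ = 1) :
    (N : ℝ) ^ 2 * gS d t - N ≤ gE t x := by
  set J := JJ d t with hJ
  have hJpos : 0 < J := JJ_pos t ht
  have hA := sphArea_pos d
  have hint : Integrable (fun y : Metric.sphere (0 : EV (d + 1)) 1 => phi t ht (y : EV (d + 1)))
      (sphMeas d) := by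
    refine Integrable.of_bound
      ((phi_cont t ht).comp continuous_subtype_val).aestronglyMeasurable (√J)
      (Filter.Eventually.of_forall fun y => ?_)
    exact (phi_norm t ht _).le
  set m := ∫ y : Metric.sphere (0 : EV (d + 1)) 1, phi t ht (y : EV (d + 1)) ∂(sphMeas d) with hm
  have h1 : ∀ z : EV (d + 1), ‖z‖ = 1 → ⟪phi t ht z, m⟫_ℝ = J * (sphArea d * gS d t) := by
    intro z hz
    rw [hm, ← integral_inner hint]
    simp only [inner_phi]
    rw [integral_const_mul, sph_marginal t z hz]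
  have h2 : ⟪m, m⟫_ℝ = J * sphArea d ^ 2 * gS d t := by
    have h3 : ⟪m, m⟫_ℝ = ∫ y : Metric.sphere (0 : EV (d + 1)) 1, ⟪m, phi t ht (y : EV (d + 1))⟫_ℝ
        ∂(sphMeas d) := by
      rw [integral_inner hint]
    rw [h3]
    have h4 : ∀ y : Metric.sphere (0 : EV (d + 1)) 1, ⟪m, phi t ht (y : EV (d + 1))⟫_ℝ =
        J * (sphArea d * gS d t) := by
      intro y
      rw [real_inner_comm]
      exact h1 y (by simp)
    simp only [h4]
    rw [integral_const, measureReal_def, smul_eq_mul]
    change sphArea d * _ = _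
    ring
  set v := ∑ i, phi t ht (x i) with hv
  have h3 : ⟪v, m⟫_ℝ = N * (J * (sphArea d * gS d t)) := by
    rw [hv, sum_inner]
    simp only [h1 _ (hx _)]
    simp
  have h4 : ⟪v, v⟫_ℝ = J * (gE t x + N) := by
    rw [hv, sum_inner]
    simp only [inner_sum, inner_phi]
    unfold gE
    have h5 : ∀ i, ∑ j, J * gau t ‖x i - x j‖ = J * ((∑ j, if i = j then 0 else gau t ‖x i - x j‖) + 1) := by
      intro i
      rw [← Finset.mul_sum]
      congr 1
      have h6 : ∀ j, gau t ‖x i - x j‖ = (if i = j then 0 else gau t ‖x i - x j‖) + if i = j then 1 else 0 := by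
        intro j
        split_ifs with h
        · subst h
          simp [gau]
        · ring
      rw [Finset.sum_congr rfl (fun j _ => h6 j), Finset.sum_add_distrib]
      simp
    rw [Finset.sum_congr rfl (fun i _ => h5 i), ← Finset.mul_sum, Finset.sum_add_distrib]
    simp
  have h5 : 0 ≤ ⟪v - ((N : ℝ) / sphArea d) • m, v - ((N : ℝ) / sphArea d) • m⟫_ℝ :=
    real_inner_self_nonneg
  rw [inner_sub_left, inner_sub_right, inner_sub_right, real_inner_smul_left, real_inner_smul_left,
    real_inner_smul_right, real_inner_smul_right, real_inner_comm v m, h3, h2, h4] at h5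
  have h6 : J * (gE t x + N) - N / sphArea d * (N * (J * (sphArea d * gS d t))) -
      (N / sphArea d * (N * (J * (sphArea d * gS d t))) -
        N / sphArea d * (N / sphArea d * (J * sphArea d ^ 2 * gS d t))) =
      J * (gE t x + N - N ^ 2 * gS d t) := by
    field_simp
    ring
  have h7 : 0 ≤ J * (gE t x + N - N ^ 2 * gS d t) := by
    rw [← h6]
    linarith
  have h8 := nonneg_of_mul_nonneg_right h7 hJpos
  linarith

end LB4

end Pool.Agent.Helper78.LE
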