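import Pool.Agent.Helper78.LE.LB2

/-!
Project LB, module LB6 (written by helper46): the exact identity between logarithmic and Gaussian
energies.
-/

set_option autoImplicit false

open MeasureTheory Set Filter Topology

namespace Pool.Agent.Helper78.LE

namespace LB6aux

variable {d : ℕ}

theorem sum_eq {n N : ℕ} (x : Fin N → EV n) (u : ℝ) :
    ∑ i, ∑ j, (if i = j then 0 else (gau u ‖x i - x j‖ - Real.exp (-u)) / u) =
      (gE u x - ((N : ℝ) * N - N) * Real.exp (-u)) / u := by
  have h1 : ∀ i j : Fin N, (if i = j then 0 else (gau u ‖x i - x j‖ - Real.exp (-u)) / u) =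
      (if i = j then 0 else gau u ‖x i - x j‖) / u -
        (Real.exp (-u) - if i = j then Real.exp (-u) else 0) / u := by
    intro i j
    split_ifs <;> ring
  simp_rw [h1, Finset.sum_sub_distrib, ← Finset.sum_div, Finset.sum_sub_distrib]
  simp only [Finset.sum_const, Finset.card_univ, Fintype.card_fin, nsmul_eq_mul,
    Finset.sum_ite_eq, Finset.mem_univ, if_true]
  unfold gE
  ring

/-- the integrand at scale one -/
noncomputable def PHI {N : ℕ} (x : Fin N → EV (d + 1)) (u : ℝ) : ℝ :=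
  (gE u x / N - N * gS d u + Real.exp (-u)) / u

theorem PHI_eq {N : ℕ} (hN : 0 < N) (x : Fin N → EV (d + 1)) (u : ℝ) :
    PHI x u = (1 / N : ℝ) *
      (∑ i, ∑ j, (if i = j then 0 else (gau u ‖x i - x j‖ - Real.exp (-u)) / u)) -
      N * ((gS d u - Real.exp (-u)) / u) := by
  rw [sum_eq]
  unfold PHI
  have hN' : (N : ℝ) ≠ 0 := by positivity
  rcases eq_or_ne u 0 with h0 | h0
  · subst h0
    simp
  · field_simp
    ring

theorem pair_int {n N : ℕ} (x : Fin N → EV n) (hinj : Function.Injective x) (i j : Fin N) :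
    IntegrableOn (fun u => if i = j then 0 else (gau u ‖x i - x j‖ - Real.exp (-u)) / u)
      (Ioi 0) := by
  by_cases h : i = j
  · simp only [h, if_true]
    exact integrableOn_zero
  · simp only [h, if_false]
    exact log_rep_int (norm_pos_iff.2 (sub_ne_zero.2 (hinj.ne h)))

theorem pair_val {n N : ℕ} (x : Fin N → EV n) (hinj : Function.Injective x) (i j : Fin N) :
    ∫ u in Ioi (0 : ℝ), (if i = j then 0 else (gau u ‖x i - x j‖ - Real.exp (-u)) / u) =
      2 * (if i = j then 0 else -Real.log ‖x i - x j‖) := by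
  by_cases h : i = j
  · simp [h]
  · simp only [h, if_false]
    rw [log_rep (norm_pos_iff.2 (sub_ne_zero.2 (hinj.ne h)))]
    ring

theorem PHI_int (hd : 0 < d) {N : ℕ} (hN : 0 < N) (x : Fin N → EV (d + 1))
    (hinj : Function.Injective x) : IntegrableOn (PHI x) (Ioi 0) ∧
    ∫ u in Ioi (0 : ℝ), PHI x u = 2 * ((logEnergy x - Vlog d * (N : ℝ) ^ 2) / N) := by
  have h1 : IntegrableOn (fun u => ∑ i, ∑ j,
      (if i = j then 0 else (gau u ‖x i - x j‖ - Real.exp (-u)) / u)) (Ioi 0) :=
    integrable_finsetSum _ fun i _ => integrable_finsetSum _ fun j _ => pair_int x hinj i j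
  have h2 : IntegrableOn (fun u => (1 / N : ℝ) * ∑ i, ∑ j,
      (if i = j then 0 else (gau u ‖x i - x j‖ - Real.exp (-u)) / u)) (Ioi 0) := h1.const_mul _
  have h3 : IntegrableOn (fun u => (N : ℝ) * ((gS d u - Real.exp (-u)) / u)) (Ioi 0) :=
    (V_rep_int hd).const_mul _
  have h4 : PHI x = fun u => (1 / N : ℝ) * (∑ i, ∑ j,
      (if i = j then 0 else (gau u ‖x i - x j‖ - Real.exp (-u)) / u)) -
      N * ((gS d u - Real.exp (-u)) / u) := funext fun u => PHI_eq hN x u
  rw [h4]
  refine ⟨h2.sub h3, ?_⟩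
  rw [integral_sub h2 h3, integral_const_mul, integral_const_mul, V_rep hd,
    integral_finsetSum _ fun i _ => integrable_finsetSum _ fun j _ => pair_int x hinj i j]
  have h5 : ∀ i, ∫ u in Ioi (0 : ℝ), (∑ j,
      (if i = j then 0 else (gau u ‖x i - x j‖ - Real.exp (-u)) / u)) =
      2 * ∑ j, (if i = j then 0 else -Real.log ‖x i - x j‖) := by
    intro i
    rw [integral_finsetSum _ fun j _ => pair_int x hinj i j, Finset.mul_sum]
    exact Finset.sum_congr rfl fun j _ => pair_val x hinj i j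
  simp_rw [h5]
  rw [← Finset.mul_sum]
  have h6 : (∑ i, ∑ j, (if i = j then 0 else -Real.log ‖x i - x j‖)) = logEnergy x := rfl
  rw [h6]
  have hN' : (N : ℝ) ≠ 0 := by positivity
  field_simp

end LB6aux

section LB6
variable {d : ℕ}

open LB6aux

theorem energy_identity (hd : 0 < d) {N : ℕ} (hN : 0 < N) (x : Fin N → EV (d + 1))
    (hx : ∀ i, ‖x i‖ = 1) (hinj : Function.Injective x) (L : ℝ) (hL : 0 < L) :
    IntegrableOn (fun t => (gE (t * L) x / N - N * gS d (t * L) + Real.exp (-t)) / t) (Ioi 0) ∧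
    ∫ t in Ioi (0 : ℝ), (gE (t * L) x / N - N * gS d (t * L) + Real.exp (-t)) / t =
      2 * ((logEnergy x - Vlog d * (N : ℝ) ^ 2) / N) + Real.log L := by
  obtain ⟨hI, hV⟩ := PHI_int hd hN x hinj
  have hr : 0 < Real.sqrt L := Real.sqrt_pos.2 hL
  have h1 : IntegrableOn (fun t => PHI x (t * L)) (Ioi 0) := by
    rw [integrableOn_Ioi_comp_mul_right_iff _ _ hL]
    simpa using hI
  have h2 : IntegrableOn (fun t => L * PHI x (t * L)) (Ioi 0) := h1.const_mul _
  have h3 := log_rep_int hr
  have h4 : ∀ t ∈ Ioi (0 : ℝ), L * PHI x (t * L) -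
      (gau t (Real.sqrt L) - Real.exp (-t)) / t =
      (gE (t * L) x / N - N * gS d (t * L) + Real.exp (-t)) / t := by
    intro t ht
    have ht' : t ≠ 0 := (mem_Ioi.1 ht).ne'
    unfold PHI gau
    rw [Real.sq_sqrt hL.le]
    field_simp
    ring
  refine ⟨(h2.sub h3).congr_fun h4 measurableSet_Ioi, ?_⟩
  rw [← setIntegral_congr_fun measurableSet_Ioi h4, integral_sub h2 h3, integral_const_mul,
    integral_comp_mul_right_Ioi _ _ hL, zero_mul, hV, log_rep hr, Real.log_sqrt hL.le, smul_eq_mul,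
    ← mul_assoc, mul_inv_cancel₀ hL.ne']
  ring

end LB6

end Pool.Agent.Helper78.LE
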