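import Pool.Agent.Helper78.LE.LB3
import Pool.Agent.Helper78.LE.LB4
import Pool.Agent.Helper78.LE.LB6
import Pool.Agent.Helper78.LE.LB10
import Pool.Agent.Helper78.LE.LB11
import Pool.Agent.Helper78.LE.LB15a

/-!
Project LB: the lower half of the next order asymptotics.
-/

set_option autoImplicit false

open MeasureTheory Set Filter Topology

namespace Pool.Agent.Helper78.LE

variable {d : ℕ}

namespace LB15

theorem stereo_inj {u v : EV d} (h : stereo u = stereo v) : u = v := by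
  have h1 : ‖stereo u - stereo v‖ = 0 := by rw [h, sub_self, norm_zero]
  rw [norm_stereo_sub] at h1
  have hc := cfac_pos u
  have hc' := cfac_pos v
  have h2 : √(cfac u * cfac v) ≠ 0 := by positivity
  rcases mul_eq_zero.1 h1 with h3 | h3
  · exact sub_eq_zero.1 (norm_eq_zero.1 h3)
  · exact absurd h3 h2

theorem exists_conf (hd : 0 < d) (N : ℕ) : ∃ x : Fin N → EV (d + 1),
    (∀ i, ‖x i‖ = 1) ∧ Function.Injective x := by
  refine ⟨fun i => stereo (WithLp.toLp 2 (fun _ => ((i : ℕ) : ℝ))), fun i => norm_stereo _, ?_⟩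
  intro i j hij
  have h1 := stereo_inj hij
  have h2 := congrArg (fun y : EV d => y ⟨0, hd⟩) h1
  simp only at h2
  exact Fin.ext (by exact_mod_cast h2)

theorem exists_near (hd : 0 < d) (N : ℕ) : ∃ x : Fin N → EV (d + 1),
    (∀ i, ‖x i‖ = 1) ∧ Function.Injective x ∧ logEnergy x < minLog d N + 1 := by
  obtain ⟨x₀, h1, h2⟩ := exists_conf hd N
  have hne : {e : ℝ | ∃ x : Fin N → EV (d + 1),
    (∀ i, ‖x i‖ = 1) ∧ Function.Injective x ∧ e = logEnergy x}.Nonempty :=
    ⟨_, x₀, h1, h2, rfl⟩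
  obtain ⟨e, ⟨x, hx, hi, rfl⟩, he⟩ := exists_lt_of_csInf_lt hne
    (show sInf _ < minLog d N + 1 from lt_add_one _)
  exact ⟨x, hx, hi, he⟩

theorem rate_pos (d : ℕ) {N : ℕ} (hN : 0 < N) : 0 < rate d N := by
  unfold rate
  have := sphArea_pos d
  have : (0 : ℝ) < N := Nat.cast_pos.2 hN
  positivity

theorem rate_rpow (hd : 0 < d) (N : ℕ) : rate d N ^ ((d : ℝ) / 2) = N / sphArea d := by
  unfold rate
  have h0 : (0 : ℝ) ≤ N / sphArea d := div_nonneg (Nat.cast_nonneg _) (sphArea_pos d).le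
  have hd' : (d : ℝ) ≠ 0 := by positivity
  rw [← Real.rpow_mul h0]
  have : (2 : ℝ) / d * (d / 2) = 1 := by field_simp
  rw [this, Real.rpow_one]

theorem log_rate (d : ℕ) {N : ℕ} (hN : 0 < N) :
    Real.log (rate d N) = 2 / d * (Real.log N - Real.log (sphArea d)) := by
  unfold rate
  have h1 := sphArea_pos d
  have h2 : (0 : ℝ) < N := Nat.cast_pos.2 hN
  rw [Real.log_rpow (by positivity), Real.log_div h2.ne' h1.ne']

theorem gE_nonneg {n N : ℕ} (t : ℝ) (x : Fin N → EV n) : 0 ≤ gE t x := by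
  unfold gE gau
  refine Finset.sum_nonneg fun i _ => Finset.sum_nonneg fun j _ => ?_
  split_ifs
  · exact le_rfl
  · exact (Real.exp_pos _).le

theorem rate_tendsto (hd : 0 < d) : Tendsto (rate d) atTop atTop := by
  unfold rate
  have hd' : (0 : ℝ) < 2 / d := by positivity
  refine (tendsto_rpow_atTop hd').comp ?_
  exact tendsto_natCast_atTop_atTop.atTop_div_const (sphArea_pos d)

/-- the smooth part of the energy converges -/
theorem gS_lim (hd : 0 < d) (t : ℝ) (ht : 0 < t) :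
    Tendsto (fun N : ℕ => (N : ℝ) * gS d (t * rate d N)) atTop
      (𝓝 ((Real.pi / t) ^ ((d : ℝ) / 2))) := by
  have h1 : Tendsto (fun N : ℕ => t * rate d N) atTop atTop :=
    (rate_tendsto hd).const_mul_atTop ht
  have h2 := ((gS_tendsto hd).comp h1).const_mul (sphArea d * t ^ (-((d : ℝ) / 2)))
  have h3 : sphArea d * t ^ (-((d : ℝ) / 2)) * (Real.pi ^ ((d : ℝ) / 2) / sphArea d) =
      (Real.pi / t) ^ ((d : ℝ) / 2) := by
    rw [Real.div_rpow Real.pi_pos.le ht.le, Real.rpow_neg ht.le]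
    have := (sphArea_pos d).ne'
    field_simp
  rw [h3] at h2
  refine h2.congr' ?_
  filter_upwards [eventually_gt_atTop 0] with N hN
  have h4 := rate_pos d hN
  simp only [Function.comp_apply]
  rw [Real.mul_rpow ht.le h4.le, rate_rpow hd, Real.rpow_neg ht.le]
  have h5 := (sphArea_pos d).ne'
  have h6 : t ^ ((d : ℝ) / 2) ≠ 0 := (Real.rpow_pos_of_pos ht _).ne'
  field_simp

/-- the domination -/
noncomputable def DD (d : ℕ) (C : ℝ) (t : ℝ) : ℝ :=
  if t ≤ 1 then 1 else C * sphArea d * t ^ (-(d : ℝ) / 2 - 1)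

theorem DD_int (hd : 0 < d) (C : ℝ) : IntegrableOn (DD d C) (Ioi 0) := by
  have h1 : IntegrableOn (DD d C) (Ioc 0 1) := by
    refine IntegrableOn.congr_fun (f := fun _ => (1 : ℝ)) ?_ ?_ measurableSet_Ioc
    · exact integrableOn_const (by simp)
    · intro t ht
      simp only [DD, if_pos ht.2]
  have h2 : IntegrableOn (DD d C) (Ioi 1) := by
    have hd' : (0 : ℝ) < d := by positivity
    have h3 : IntegrableOn (fun t : ℝ => C * sphArea d * t ^ (-(d : ℝ) / 2 - 1)) (Ioi 1) :=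
      (integrableOn_Ioi_rpow_of_lt (by linarith) one_pos).const_mul _
    refine h3.congr_fun ?_ measurableSet_Ioi
    intro t ht
    have ht' : ¬ t ≤ 1 := not_le.2 (mem_Ioi.1 ht)
    simp only [DD, if_neg ht']
  have : Ioi (0 : ℝ) = Ioc 0 1 ∪ Ioi 1 := (Ioc_union_Ioi_eq_Ioi zero_le_one).symm
  rw [this]
  exact h1.union h2

/-- the integrand of the energy identity -/
noncomputable def JJ {N : ℕ} (x : Fin N → EV (d + 1)) (t : ℝ) : ℝ :=
  (gE (t * rate d N) x / N - N * gS d (t * rate d N) + Real.exp (-t)) / t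

theorem JJ_ge (hd : 0 < d) (C : ℝ) (hC : ∀ t : ℝ, 0 < t → gS d t ≤ C * t ^ (-(d : ℝ) / 2))
    {N : ℕ} (hN : 0 < N) (x : Fin N → EV (d + 1)) (hx : ∀ i, ‖x i‖ = 1) (t : ℝ) (ht : 0 < t) :
    -DD d C t ≤ JJ x t := by
  have hN' : (0 : ℝ) < N := Nat.cast_pos.2 hN
  have hr := rate_pos d hN
  have htr : 0 < t * rate d N := mul_pos ht hr
  unfold DD JJ
  split_ifs with h
  · have h1 := gE_ge (t * rate d N) htr x hx
    have h2 : (N : ℝ) * gS d (t * rate d N) - 1 ≤ gE (t * rate d N) x / N := by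
      rw [le_div_iff₀ hN']
      nlinarith [h1]
    have h3 := Real.add_one_le_exp (-t)
    rw [le_div_iff₀ ht]
    linarith
  · have h1 := gE_nonneg (t * rate d N) x
    have h2 : 0 ≤ gE (t * rate d N) x / N := div_nonneg h1 hN'.le
    have h3 := hC (t * rate d N) htr
    have h4 : (N : ℝ) * gS d (t * rate d N) ≤ C * sphArea d * t ^ (-(d : ℝ) / 2) := by
      calc (N : ℝ) * gS d (t * rate d N) ≤ N * (C * (t * rate d N) ^ (-(d : ℝ) / 2)) :=
            mul_le_mul_of_nonneg_left h3 hN'.le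
        _ = C * sphArea d * t ^ (-(d : ℝ) / 2) := by
            have e1 : (-(d : ℝ) / 2) = -((d : ℝ) / 2) := by ring
            rw [e1, Real.mul_rpow ht.le hr.le, Real.rpow_neg hr.le, rate_rpow hd]
            have := (sphArea_pos d).ne'
            field_simp
    have h5 : t ^ (-(d : ℝ) / 2 - 1) = t ^ (-(d : ℝ) / 2) / t := by
      rw [Real.rpow_sub ht, Real.rpow_one]
    rw [h5, le_div_iff₀ ht]
    have h6 : -(C * sphArea d * (t ^ (-(d : ℝ) / 2) / t)) * t =
        -(C * sphArea d * t ^ (-(d : ℝ) / 2)) := by field_simp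
    rw [h6]
    have h7 := (Real.exp_pos (-t)).le
    linarith

theorem JJ_liminf (hd : 0 < d) (X : ∀ N : ℕ, Fin N → EV (d + 1)) (hX : ∀ N i, ‖X N i‖ = 1)
    (hXi : ∀ N, Function.Injective (X N)) (t : ℝ) (ht : 0 < t) (hc : ContinuousAt (eOpt d) t)
    (δ : ℝ) (hδ : 0 < δ) : ∀ᶠ N : ℕ in atTop, II d t - δ ≤ JJ (X N) t := by
  have h1 := local_bound hd t (δ * t / 2) ht (by positivity) hc
  have h2 := (gS_lim hd t ht).eventually (gt_mem_nhds
    (show (Real.pi / t) ^ ((d : ℝ) / 2) < (Real.pi / t) ^ ((d : ℝ) / 2) + δ * t / 2 by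
      have : 0 < δ * t / 2 := by positivity
      linarith))
  filter_upwards [h1, h2, eventually_gt_atTop 0] with N g1 g2 g3
  have hN' : (0 : ℝ) < N := Nat.cast_pos.2 g3
  have g4 := g1 (X N) (hX N) (hXi N)
  have g5 : eOpt d t - δ * t / 2 ≤ gE (t * rate d N) (X N) / N := by
    rw [le_div_iff₀ hN']
    linarith
  unfold II JJ
  rw [le_div_iff₀ ht, sub_mul, div_mul_cancel₀ _ ht.ne']
  linarith

theorem JJ_int (hd : 0 < d) {N : ℕ} (hN : 0 < N) (x : Fin N → EV (d + 1))
    (hx : ∀ i, ‖x i‖ = 1) (hinj : Function.Injective x) : IntegrableOn (JJ x) (Ioi 0) :=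
  (energy_identity hd hN x hx hinj (rate d N) (rate_pos d hN)).1

theorem JJ_val (hd : 0 < d) {N : ℕ} (hN : 0 < N) (x : Fin N → EV (d + 1))
    (hx : ∀ i, ‖x i‖ = 1) (hinj : Function.Injective x) :
    ∫ t in Ioi (0 : ℝ), JJ x t = 2 * ((logEnergy x - Vlog d * (N : ℝ) ^ 2) / N) +
      2 / d * (Real.log N - Real.log (sphArea d)) := by
  rw [← log_rate d hN]
  exact (energy_identity hd hN x hx hinj (rate d N) (rate_pos d hN)).2

theorem liminf_int (hd : 0 < d) (X : ∀ N : ℕ, Fin N → EV (d + 1)) (hX : ∀ N i, ‖X N i‖ = 1)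
    (hXi : ∀ N, Function.Injective (X N)) (ε : ℝ) (hε : 0 < ε) :
    ∀ᶠ N : ℕ in atTop, (∫ t in Ioi (0 : ℝ), II d t) - ε ≤ ∫ t in Ioi (0 : ℝ), JJ (X N) t := by
  obtain ⟨C, hC, hCb⟩ := gS_bound hd
  have hI := II_int hd
  have key : Tendsto (fun N : ℕ => ∫ t in Ioi (0 : ℝ), min (JJ (X N) t) (II d t)) atTop
      (𝓝 (∫ t in Ioi (0 : ℝ), II d t)) := by
    refine tendsto_integral_filter_of_dominated_convergence (fun t => |II d t| + DD d C t) ?_ ?_
      (hI.abs.add (DD_int hd C)) ?_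
    · filter_upwards [eventually_gt_atTop 0] with N hN
      exact (JJ_int hd hN _ (hX N) (hXi N)).aestronglyMeasurable.inf hI.aestronglyMeasurable
    · filter_upwards [eventually_gt_atTop 0] with N hN
      refine (ae_restrict_iff' measurableSet_Ioi).2 (ae_of_all _ fun t ht => ?_)
      have h1 := JJ_ge hd C hCb hN (X N) (hX N) t ht
      have h2 := neg_abs_le (II d t)
      have h3 := le_abs_self (II d t)
      have h4 : 0 ≤ DD d C t := by
        unfold DD
        have := sphArea_pos d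
        have : (0 : ℝ) < t := ht
        split_ifs <;> positivity
      have h5 := abs_nonneg (II d t)
      rw [Real.norm_eq_abs, abs_le]
      constructor
      · refine le_min ?_ ?_ <;> linarith
      · refine (min_le_right _ _).trans ?_
        linarith
    · have h0 : ∀ᵐ t ∂(volume.restrict (Ioi (0 : ℝ))), t ∈ Ioi (0 : ℝ) :=
        ae_restrict_mem measurableSet_Ioi
      filter_upwards [h0, ae_continuousAt d] with t ht hc
      rw [Metric.tendsto_atTop]
      intro δ hδ
      have h1 := JJ_liminf hd X hX hXi t ht hc (δ / 2) (by positivity)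
      obtain ⟨N₀, hN₀⟩ := eventually_atTop.1 h1
      refine ⟨N₀, fun N hN => ?_⟩
      have h2 := hN₀ N hN
      rw [Real.dist_eq, abs_sub_lt_iff]
      constructor
      · have := min_le_right (JJ (X N) t) (II d t)
        linarith
      · have : II d t - δ / 2 ≤ min (JJ (X N) t) (II d t) := le_min h2 (by linarith)
        linarith
  have h1 := key.eventually (lt_mem_nhds (show (∫ t in Ioi (0 : ℝ), II d t) - ε <
    ∫ t in Ioi (0 : ℝ), II d t by linarith))
  filter_upwards [h1, eventually_gt_atTop 0] with N g1 g2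
  refine g1.le.trans ?_
  have hJ := JJ_int hd g2 _ (hX N) (hXi N)
  exact integral_mono (hJ.inf hI) hJ fun t => min_le_left _ _

end LB15

open LB15 in
theorem lower (hd : 0 < d) (ε : ℝ) (hε : 0 < ε) :
    ∀ᶠ N : ℕ in atTop, Vlog d * (N : ℝ) ^ 2 - 1 / d * (N * Real.log N) +
        (1 / d * Real.log (sphArea d) + 1 / 2 * (∫ t in Ioi (0 : ℝ), II d t) - ε) * N ≤
          minLog d N := by
  choose X hX hXi hXe using fun N => exists_near hd N
  have h1 := liminf_int hd X hX hXi ε hε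
  have h2 : ∀ᶠ N : ℕ in atTop, 2 / ε ≤ (N : ℝ) := 
    tendsto_natCast_atTop_atTop.eventually_ge_atTop _
  filter_upwards [h1, h2, eventually_gt_atTop 0] with N g1 g2 g3
  have hN' : (0 : ℝ) < N := Nat.cast_pos.2 g3
  rw [JJ_val hd g3 _ (hX N) (hXi N)] at g1
  have g4 : 2 ≤ ε * N := by
    rw [div_le_iff₀ hε] at g2
    linarith
  have g5 := hXe N
  have hd' : (d : ℝ) ≠ 0 := by positivity
  have g6 : ((∫ t in Ioi (0 : ℝ), II d t) - ε) * N ≤
      2 * (logEnergy (X N) - Vlog d * (N : ℝ) ^ 2) +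
        2 / d * (Real.log N - Real.log (sphArea d)) * N := by
    have := mul_le_mul_of_nonneg_right g1 hN'.le
    refine this.trans (le_of_eq ?_)
    field_simp
  have g7 : 2 / (d : ℝ) * (Real.log N - Real.log (sphArea d)) * N =
      2 * (1 / d * (N * Real.log N) - 1 / d * Real.log (sphArea d) * N) := by ring
  rw [g7] at g6
  nlinarith [g4, g5, g6]

end Pool.Agent.Helper78.LE
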