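import Pool.Agent.Helper78.LE.Defs

/-!
Project LB (lower half for universally optimal lattices): definitions.
-/

set_option autoImplicit false

open MeasureTheory Set Filter Topology

namespace Pool.Agent.Helper78.LE

/-- Gaussian of the distance -/
noncomputable def gau (t r : ℝ) : ℝ := Real.exp (-(t * r ^ 2))

/-- Gaussian energy of a finite family, ordered pairs `i ≠ j` -/
noncomputable def gE {n N : ℕ} (t : ℝ) (x : Fin N → EV n) : ℝ :=
  ∑ i, ∑ j, if i = j then 0 else gau t ‖x i - x j‖

/-- mean of the Gaussian kernel over the sphere -/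
noncomputable def gS (d : ℕ) (t : ℝ) : ℝ :=
  (∫ x, ∫ y, gau t ‖(x : EV (d + 1)) - (y : EV (d + 1))‖ ∂(sphMeas d) ∂(sphMeas d)) /
    sphArea d ^ 2

variable {d : ℕ} (b : Module.Basis (Fin d) ℝ (EV d))

/-- Gaussian energy of the lattice per point: the sum over the nonzero lattice vectors -/
noncomputable def theta (t : ℝ) : ℝ := ∑' n : {n : Fin d → ℤ // n ≠ 0}, gau t ‖latVec b n.1‖

/-- Gaussian energy of one period of the periodic configuration `y + Λ'`, `Λ'` the lattice with
basis `b'` -/
noncomputable def perEnergy {n : ℕ} (y : Fin n → EV d) (t : ℝ) : ℝ :=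
  ∑ i, ∑ j, ∑' v : Fin d → ℤ, if i = j ∧ v = 0 then 0 else gau t ‖y i - y j + latVec b v‖

/-- Universal optimality (Cohn and Kumar) of the lattice with basis `b`: for every `t > 0` its
Gaussian energy per point is at most that of every periodic configuration of the same density. -/
def UnivOpt : Prop :=
  ∀ t : ℝ, 0 < t → ∀ (n : ℕ) (b' : Module.Basis (Fin d) ℝ (EV d)) (y : Fin n → EV d), 0 < n →
    (∀ (i j : Fin n) (v : Fin d → ℤ), y i - y j + latVec b' v = 0 → i = j) →
    covol b' = n * covol b → n * theta b t ≤ perEnergy b' y t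

/-- the Gaussian energies per point of the periodic configurations of density `1` in `ℝ^d` -/
def perSet (d : ℕ) (t : ℝ) : Set ℝ :=
  {e : ℝ | ∃ (n : ℕ) (b' : Module.Basis (Fin d) ℝ (EV d)) (y : Fin n → EV d), 0 < n ∧
    (∀ (i j : Fin n) (v : Fin d → ℤ), y i - y j + latVec b' v = 0 → i = j) ∧
    covol b' = n ∧ e = perEnergy b' y t / n}

/-- the optimal Gaussian energy per point at density `1` -/
noncomputable def eOpt (d : ℕ) (t : ℝ) : ℝ := sInf (perSet d t)

/-- the rate `(N / H_d)^(2/d)` -/
noncomputable def rate (d N : ℕ) : ℝ := ((N : ℝ) / sphArea d) ^ ((2 : ℝ) / d)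

/-- the integrand of the lower bound -/
noncomputable def II (d : ℕ) (t : ℝ) : ℝ :=
  (eOpt d t - (Real.pi / t) ^ ((d : ℝ) / 2) + Real.exp (-t)) / t

/-- energy of the pairs with the same label -/
noncomputable def labE {n K : ℕ} (t : ℝ) (κ : Fin n → Fin K) (p : Fin n → EV d) : ℝ :=
  ∑ i, ∑ j, if i ≠ j ∧ κ i = κ j then gau t ‖p i - p j‖ else 0

/-- the difference of the discrete and the continuous average of the Gaussian -/
noncomputable def GG (k : ℕ) (t : ℝ) (x : Fin d → ℤ) : ℝ :=
  (∫ y, gau t ‖lin b (iv x + y)‖ ∂(Measure.pi fun _ => autD k)) -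
    ∫ y, gau t ‖lin b (iv x + y)‖ ∂(Measure.pi fun _ => autM k)

end Pool.Agent.Helper78.LE
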