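import Pool.Agent.Helper78.LE.LE3
import Pool.Agent.Helper78.LE.LBDefs
import Pool.Agent.Helper78.LE.LB5

/-!
Project LB: asymptotics of the mean of the Gaussian kernel over the sphere.
-/

set_option autoImplicit false

open MeasureTheory Set Filter Topology

namespace Pool.Agent.Helper78.LE

variable {d : ℕ}

open LE3aux

namespace LB3

/-- the kernel after stereographic projection -/
noncomputable def KS (t : ℝ) (y : EV d) : ℝ :=
  Real.exp (-(t * (4 * ‖y‖ ^ 2 / (1 + ‖y‖ ^ 2)))) * cfac y ^ d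

theorem KS_nonneg (t : ℝ) (y : EV d) : 0 ≤ KS t y :=
  mul_nonneg (Real.exp_pos _).le (pow_pos (cfac_pos y) d).le

theorem KS_continuous (t : ℝ) : Continuous (KS (d := d) t) := by
  unfold KS
  refine Continuous.mul ?_ (cfac_continuous.pow d)
  refine Real.continuous_exp.comp ((Continuous.mul continuous_const ?_).neg)
  refine Continuous.div (by fun_prop) (by fun_prop) fun y => ?_
  positivity

theorem gau_stereo (t : ℝ) (y : EV d) :
    gau t ‖stereo (0 : EV d) - stereo y‖ = Real.exp (-(t * (4 * ‖y‖ ^ 2 / (1 + ‖y‖ ^ 2)))) := by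
  unfold gau
  rw [norm_stereo_sub, mul_pow, Real.sq_sqrt (mul_pos (cfac_pos _) (cfac_pos _)).le]
  congr 3
  rw [zero_sub, norm_neg]
  unfold cfac
  rw [norm_zero]
  ring

theorem sph_int' (hd : 0 < d) {f : Metric.sphere (0 : EV (d + 1)) 1 → ℝ} (hf : Measurable f) :
    ∫ x, f x ∂(sphMeas d) = ∫ y : EV d, f (stereoS y) * cfac y ^ d := by
  have hmc : Measurable (fun y : EV d => ENNReal.ofReal (cfac y ^ d)) :=
    (cfac_continuous.pow d).measurable.ennreal_ofReal
  rw [← map_stereo hd, integral_map stereoS_continuous.measurable.aemeasurable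
    hf.aestronglyMeasurable, integral_withDensity_eq_integral_toReal_smul hmc
    (Filter.Eventually.of_forall fun _ => ENNReal.ofReal_lt_top)]
  refine integral_congr_ae (Filter.Eventually.of_forall fun y => ?_)
  simp only
  rw [ENNReal.toReal_ofReal (pow_pos (cfac_pos y) d).le, smul_eq_mul, mul_comm]

theorem pow_le_fact (n : ℕ) {x : ℝ} (hx : 0 ≤ x) : x ^ n * Real.exp (-x) ≤ n.factorial := by
  have h := Real.pow_div_factorial_le_exp x hx n
  rw [div_le_iff₀ (by positivity)] at h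
  rw [Real.exp_neg, ← div_eq_mul_inv, div_le_iff₀ (Real.exp_pos x), mul_comm]
  exact h

theorem cfac_nonneg (y : EV d) : 0 ≤ cfac y ^ d := (pow_pos (cfac_pos y) d).le

theorem cfac_pow_le (y : EV d) : cfac y ^ d ≤ 2 ^ d :=
  pow_le_pow_left₀ (cfac_pos y).le (cfac_le y) d

/-- pointwise bound -/
theorem KS_le (t : ℝ) (ht : 0 < t) (y : EV d) :
    KS t y ≤ 2 ^ d * Real.exp (-(2 * t) * ‖y‖ ^ 2) + Real.exp (-(2 * t)) * cfac y ^ d := by
  have hp : (0 : ℝ) < 1 + ‖y‖ ^ 2 := by positivity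
  by_cases hy : ‖y‖ ≤ 1
  · have hy2 : ‖y‖ ^ 2 ≤ 1 := pow_le_one₀ (norm_nonneg y) hy
    have h1 : KS t y ≤ 2 ^ d * Real.exp (-(2 * t) * ‖y‖ ^ 2) := by
      unfold KS
      rw [mul_comm ((2 : ℝ) ^ d)]
      apply mul_le_mul _ (cfac_pow_le y) (cfac_nonneg y) (Real.exp_pos _).le
      apply Real.exp_le_exp.2
      have h2 : 2 * ‖y‖ ^ 2 ≤ 4 * ‖y‖ ^ 2 / (1 + ‖y‖ ^ 2) := by
        rw [le_div_iff₀ hp]
        nlinarith [sq_nonneg ‖y‖]
      nlinarith
    have h3 : 0 ≤ Real.exp (-(2 * t)) * cfac y ^ d := mul_nonneg (Real.exp_pos _).le (cfac_nonneg y)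
    linarith
  · push Not at hy
    have hy2 : 1 ≤ ‖y‖ ^ 2 := one_le_pow₀ hy.le
    have h1 : KS t y ≤ Real.exp (-(2 * t)) * cfac y ^ d := by
      unfold KS
      apply mul_le_mul_of_nonneg_right _ (cfac_nonneg y)
      apply Real.exp_le_exp.2
      have h2 : 2 ≤ 4 * ‖y‖ ^ 2 / (1 + ‖y‖ ^ 2) := by
        rw [le_div_iff₀ hp]
        linarith
      nlinarith
    have h3 : 0 ≤ 2 ^ d * Real.exp (-(2 * t) * ‖y‖ ^ 2) := by positivity
    linarith

theorem KS_integrable (hd : 0 < d) (t : ℝ) (ht : 0 ≤ t) : Integrable (KS (d := d) t) := by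
  refine Integrable.mono (integrable_cfac hd) (KS_continuous t).aestronglyMeasurable
    (Eventually.of_forall fun y => ?_)
  rw [Real.norm_of_nonneg (KS_nonneg t y), Real.norm_of_nonneg (cfac_nonneg y)]
  unfold KS
  have h1 : Real.exp (-(t * (4 * ‖y‖ ^ 2 / (1 + ‖y‖ ^ 2)))) ≤ 1 := by
    rw [Real.exp_le_one_iff]
    have : 0 ≤ t * (4 * ‖y‖ ^ 2 / (1 + ‖y‖ ^ 2)) := by positivity
    linarith
  calc Real.exp (-(t * (4 * ‖y‖ ^ 2 / (1 + ‖y‖ ^ 2)))) * cfac y ^ d ≤ 1 * cfac y ^ d :=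
        mul_le_mul_of_nonneg_right h1 (cfac_nonneg y)
    _ = _ := one_mul _

theorem gauss_int {b : ℝ} (hb : 0 < b) :
    ∫ v : EV d, Real.exp (-b * ‖v‖ ^ 2) = (Real.pi / b) ^ ((d : ℝ) / 2) := by
  have h := GaussianFourier.integral_rexp_neg_mul_sq_norm (V := EV d) hb
  rw [h]
  simp

theorem gauss_integrable {b : ℝ} (hb : 0 < b) :
    Integrable (fun v : EV d => Real.exp (-b * ‖v‖ ^ 2)) := by
  by_contra h
  have h1 := gauss_int (d := d) hb
  rw [integral_undef h] at h1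
  have : 0 < (Real.pi / b) ^ ((d : ℝ) / 2) := by positivity
  linarith

theorem KS_bound (hd : 0 < d) (t : ℝ) (ht : 0 < t) :
    ∫ y : EV d, KS t y ≤ 2 ^ d * (Real.pi / (2 * t)) ^ ((d : ℝ) / 2) +
      Real.exp (-(2 * t)) * sphArea d := by
  have h1 : ∫ y : EV d, KS t y ≤ ∫ y : EV d, (2 ^ d * Real.exp (-(2 * t) * ‖y‖ ^ 2) +
      Real.exp (-(2 * t)) * cfac y ^ d) := by
    apply integral_mono (KS_integrable hd t ht.le)
    · exact ((gauss_integrable (by positivity : 0 < 2 * t)).const_mul _).add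
        ((integrable_cfac hd).const_mul _)
    · intro y
      exact KS_le t ht y
  rw [integral_add ((gauss_integrable (by positivity : 0 < 2 * t)).const_mul _)
        ((integrable_cfac hd).const_mul _), integral_const_mul, integral_const_mul,
        gauss_int (by positivity : 0 < 2 * t), integral_cfac hd] at h1
  exact h1

/-- the rescaled kernel -/
noncomputable def HS (t : ℝ) (z : EV d) : ℝ := KS t ((√t)⁻¹ • z)

theorem HS_norm {t : ℝ} (ht : 0 < t) (z : EV d) : ‖(√t)⁻¹ • z‖ ^ 2 = ‖z‖ ^ 2 / t := by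
  rw [norm_smul, mul_pow, norm_inv, Real.norm_of_nonneg (Real.sqrt_nonneg t), inv_pow,
    Real.sq_sqrt ht.le]
  field_simp

theorem HS_int {t : ℝ} (ht : 0 < t) :
    ∫ z : EV d, HS t z = t ^ ((d : ℝ) / 2) * ∫ y : EV d, KS t y := by
  unfold HS
  rw [Measure.integral_comp_smul volume (KS (d := d) t) (√t)⁻¹, finrank_euclideanSpace,
    Fintype.card_fin, smul_eq_mul]
  congr 1
  rw [inv_pow, inv_inv, abs_of_nonneg (by positivity), Real.sqrt_eq_rpow, ← Real.rpow_natCast,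
    ← Real.rpow_mul ht.le]
  congr 1
  ring

theorem HS_tendsto (z : EV d) : Tendsto (fun t : ℝ => HS t z) atTop
    (𝓝 (Real.exp (-4 * ‖z‖ ^ 2) * 2 ^ d)) := by
  have h0 : Tendsto (fun t : ℝ => ‖z‖ ^ 2 / t) atTop (𝓝 0) :=
    tendsto_const_nhds.div_atTop tendsto_id
  have h1 : Tendsto (fun t : ℝ => Real.exp (-(4 * ‖z‖ ^ 2 / (1 + ‖z‖ ^ 2 / t))) *
      (2 / (1 + ‖z‖ ^ 2 / t)) ^ d) atTop
      (𝓝 (Real.exp (-(4 * ‖z‖ ^ 2 / (1 + 0))) * (2 / (1 + 0)) ^ d)) := by
    have h2 : Tendsto (fun t : ℝ => 1 + ‖z‖ ^ 2 / t) atTop (𝓝 (1 + 0)) := h0.const_add 1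
    refine Tendsto.mul ?_ ?_
    · refine (Real.continuous_exp.tendsto _).comp ?_
      exact (tendsto_const_nhds.div h2 (by norm_num)).neg
    · exact (tendsto_const_nhds.div h2 (by norm_num)).pow d
  have h3 : Real.exp (-(4 * ‖z‖ ^ 2 / (1 + 0))) * (2 / (1 + 0)) ^ d =
      Real.exp (-4 * ‖z‖ ^ 2) * (2 : ℝ) ^ d := by
    norm_num
  rw [h3] at h1
  refine h1.congr' ?_
  filter_upwards [eventually_gt_atTop 0] with t ht
  unfold HS KS cfac
  rw [HS_norm ht]
  congr 3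
  have : (1 + ‖z‖ ^ 2 / t) ≠ 0 := by positivity
  field_simp

theorem HS_bound {t : ℝ} (ht : 1 ≤ t) (z : EV d) :
    ‖HS t z‖ ≤ 2 ^ d * Real.exp (-2 * ‖z‖ ^ 2) + d.factorial * cfac z ^ d := by
  have ht0 : 0 < t := by linarith
  have hn : 0 ≤ HS t z := KS_nonneg _ _
  rw [Real.norm_of_nonneg hn]
  have hc := cfac_nonneg z
  by_cases hz : ‖z‖ ^ 2 ≤ t
  · have h1 : HS t z ≤ 2 ^ d * Real.exp (-2 * ‖z‖ ^ 2) := by
      unfold HS KS
      rw [HS_norm ht0, mul_comm ((2 : ℝ) ^ d)]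
      apply mul_le_mul _ (cfac_pow_le _) (cfac_nonneg _) (Real.exp_pos _).le
      apply Real.exp_le_exp.2
      have h2 : 2 * ‖z‖ ^ 2 ≤ t * (4 * (‖z‖ ^ 2 / t) / (1 + ‖z‖ ^ 2 / t)) := by
        have h3 : t * (4 * (‖z‖ ^ 2 / t) / (1 + ‖z‖ ^ 2 / t)) = 4 * ‖z‖ ^ 2 / (1 + ‖z‖ ^ 2 / t) := by
          have : (1 + ‖z‖ ^ 2 / t) ≠ 0 := by positivity
          field_simp
        rw [h3, le_div_iff₀ (by positivity)]
        have h4 : ‖z‖ ^ 2 / t ≤ 1 := by
          rw [div_le_one ht0]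
          exact hz
        nlinarith [sq_nonneg ‖z‖]
      linarith
    have h5 : (0 : ℝ) ≤ d.factorial * cfac z ^ d := by positivity
    linarith
  · push Not at hz
    have hz1 : 1 ≤ ‖z‖ ^ 2 := ht.trans hz.le
    have h1 : HS t z ≤ d.factorial * cfac z ^ d := by
      unfold HS KS
      rw [HS_norm ht0]
      have h2 : cfac ((√t)⁻¹ • z) ≤ (2 * t) * cfac z := by
        unfold cfac
        rw [HS_norm ht0, mul_div_assoc', div_le_div_iff₀ (by positivity) (by positivity)]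
        have : (1 + ‖z‖ ^ 2 / t) * t = t + ‖z‖ ^ 2 := by field_simp
        nlinarith
      have h3 : cfac ((√t)⁻¹ • z) ^ d ≤ ((2 * t) * cfac z) ^ d :=
        pow_le_pow_left₀ (cfac_pos _).le h2 d
      have h4 : Real.exp (-(t * (4 * (‖z‖ ^ 2 / t) / (1 + ‖z‖ ^ 2 / t)))) ≤ Real.exp (-(2 * t)) := by
        apply Real.exp_le_exp.2
        have h5 : 2 ≤ 4 * (‖z‖ ^ 2 / t) / (1 + ‖z‖ ^ 2 / t) := by
          rw [le_div_iff₀ (by positivity)]
          have : 1 ≤ ‖z‖ ^ 2 / t := by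
            rw [le_div_iff₀ ht0]
            linarith
          linarith
        nlinarith
      calc Real.exp (-(t * (4 * (‖z‖ ^ 2 / t) / (1 + ‖z‖ ^ 2 / t)))) * cfac ((√t)⁻¹ • z) ^ d
          ≤ Real.exp (-(2 * t)) * ((2 * t) * cfac z) ^ d :=
            mul_le_mul h4 h3 (cfac_nonneg _) (Real.exp_pos _).le
        _ = ((2 * t) ^ d * Real.exp (-(2 * t))) * cfac z ^ d := by rw [mul_pow]; ring
        _ ≤ d.factorial * cfac z ^ d :=
            mul_le_mul_of_nonneg_right (pow_le_fact d (by positivity)) hc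
    have h5 : 0 ≤ 2 ^ d * Real.exp (-2 * ‖z‖ ^ 2) := by positivity
    linarith

end LB3

open LB3

theorem gS_nonneg (d : ℕ) (t : ℝ) : 0 ≤ gS d t := by
  unfold gS
  refine div_nonneg (integral_nonneg fun x => integral_nonneg fun y => ?_) (sq_nonneg _)
  exact (Real.exp_pos _).le

theorem gS_stereo (hd : 0 < d) (t : ℝ) : gS d t =
    (∫ y : EV d, Real.exp (-(t * (4 * ‖y‖ ^ 2 / (1 + ‖y‖ ^ 2)))) * cfac y ^ d) / sphArea d := by
  have h1 := sph_marginal t (stereo (0 : EV d)) (norm_stereo 0)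
  have hH := sphArea_pos d
  rw [eq_div_iff hH.ne', mul_comm, ← h1]
  have hm : Measurable (fun y : Metric.sphere (0 : EV (d + 1)) 1 =>
      gau t ‖stereo (0 : EV d) - (y : EV (d + 1))‖) := by
    unfold gau
    have : Continuous (fun y : Metric.sphere (0 : EV (d + 1)) 1 =>
      Real.exp (-(t * ‖stereo (0 : EV d) - (y : EV (d + 1))‖ ^ 2))) := by fun_prop
    exact this.measurable
  rw [sph_int' hd hm]
  refine integral_congr_ae (Filter.Eventually.of_forall fun y => ?_)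
  simp only [stereoS]
  rw [gau_stereo]

theorem gS_bound (hd : 0 < d) : ∃ C : ℝ, 0 < C ∧ ∀ t : ℝ, 0 < t →
    gS d t ≤ C * t ^ (-(d : ℝ) / 2) := by
  have hH := sphArea_pos d
  refine ⟨(2 ^ d * (Real.pi / 2) ^ ((d : ℝ) / 2) + d.factorial * sphArea d) / sphArea d,
    by positivity, ?_⟩
  intro t ht
  rw [gS_stereo hd, div_mul_eq_mul_div]
  apply div_le_div_of_nonneg_right _ hH.le
  refine (KS_bound hd t ht).trans ?_
  have e1 : t ^ (-(d : ℝ) / 2) = (t ^ ((d : ℝ) / 2))⁻¹ := by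
    rw [← Real.rpow_neg ht.le]
    congr 1
    ring
  have hpos : 0 < t ^ ((d : ℝ) / 2) := by positivity
  rw [e1, add_mul]
  have h1 : (Real.pi / (2 * t)) ^ ((d : ℝ) / 2) =
      (Real.pi / 2) ^ ((d : ℝ) / 2) * (t ^ ((d : ℝ) / 2))⁻¹ := by
    rw [← div_div, Real.div_rpow (by positivity) ht.le, div_eq_mul_inv]
  have h2 : Real.exp (-(2 * t)) ≤ d.factorial * (t ^ ((d : ℝ) / 2))⁻¹ := by
    rw [← div_eq_mul_inv, le_div_iff₀ hpos]
    have hf : (1 : ℝ) ≤ d.factorial := by exact_mod_cast Nat.one_le_iff_ne_zero.2 (Nat.factorial_ne_zero d)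
    rcases le_total t 1 with h | h
    · have h3 : t ^ ((d : ℝ) / 2) ≤ 1 := Real.rpow_le_one ht.le h (by positivity)
      have h4 : Real.exp (-(2 * t)) ≤ 1 := by
        rw [Real.exp_le_one_iff]
        linarith
      calc Real.exp (-(2 * t)) * t ^ ((d : ℝ) / 2) ≤ 1 * 1 :=
            mul_le_mul h4 h3 hpos.le zero_le_one
        _ ≤ d.factorial := by linarith
    · have h3 : t ^ ((d : ℝ) / 2) ≤ (2 * t) ^ d := by
        calc t ^ ((d : ℝ) / 2) ≤ t ^ (d : ℝ) := by
              apply Real.rpow_le_rpow_of_exponent_le h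
              have : (0 : ℝ) ≤ d := by positivity
              linarith
          _ = t ^ d := Real.rpow_natCast t d
          _ ≤ (2 * t) ^ d := pow_le_pow_left₀ ht.le (by linarith) d
      calc Real.exp (-(2 * t)) * t ^ ((d : ℝ) / 2) ≤ Real.exp (-(2 * t)) * (2 * t) ^ d :=
            mul_le_mul_of_nonneg_left h3 (Real.exp_pos _).le
        _ = (2 * t) ^ d * Real.exp (-(2 * t)) := mul_comm _ _
        _ ≤ _ := pow_le_fact d (by positivity)
  rw [h1]
  have h5 : Real.exp (-(2 * t)) * sphArea d ≤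
      (d.factorial * (t ^ ((d : ℝ) / 2))⁻¹) * sphArea d := mul_le_mul_of_nonneg_right h2 hH.le
  linarith

theorem gS_tendsto (hd : 0 < d) : Tendsto (fun t : ℝ => t ^ ((d : ℝ) / 2) * gS d t) atTop
    (𝓝 (Real.pi ^ ((d : ℝ) / 2) / sphArea d)) := by
  have hH := sphArea_pos d
  have h1 : Tendsto (fun t : ℝ => ∫ z : EV d, HS t z) atTop
      (𝓝 (∫ z : EV d, Real.exp (-4 * ‖z‖ ^ 2) * 2 ^ d)) := by
    apply tendsto_integral_filter_of_dominated_convergence
      (fun z => 2 ^ d * Real.exp (-2 * ‖z‖ ^ 2) + d.factorial * cfac z ^ d)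
    · refine Eventually.of_forall fun t => ?_
      unfold HS
      exact ((KS_continuous t).comp (continuous_const_smul _)).aestronglyMeasurable
    · filter_upwards [eventually_ge_atTop 1] with t ht
      exact Eventually.of_forall fun z => HS_bound ht z
    · exact ((gauss_integrable (by norm_num : (0 : ℝ) < 2)).const_mul _).add
        ((integrable_cfac hd).const_mul _)
    · exact Eventually.of_forall fun z => HS_tendsto z
  have h2 : ∫ z : EV d, Real.exp (-4 * ‖z‖ ^ 2) * 2 ^ d = Real.pi ^ ((d : ℝ) / 2) := by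
    rw [integral_mul_const, gauss_int (by norm_num : (0 : ℝ) < 4),
      Real.div_rpow Real.pi_pos.le (by norm_num)]
    have h3 : (4 : ℝ) ^ ((d : ℝ) / 2) = 2 ^ d := by
      have : (4 : ℝ) = 2 ^ (2 : ℝ) := by norm_num
      rw [this, ← Real.rpow_mul (by norm_num), ← Real.rpow_natCast]
      congr 1
      ring
    rw [h3]
    field_simp
  rw [h2] at h1
  refine (h1.div_const (sphArea d)).congr' ?_
  filter_upwards [eventually_gt_atTop 0] with t ht
  rw [HS_int ht, gS_stereo hd, mul_div_assoc]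
  rfl

end Pool.Agent.Helper78.LE
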