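import Pool.Agent.Helper78.LE.LBDefs
import Pool.Agent.Helper78.LE.LE1
import Pool.Agent.Helper78.LE.LE2
import Pool.Agent.Helper78.LE.LE3
import Pool.Agent.Helper78.LE.LB5

/-!
Project LB, module LB7: choice of the pole.
-/

set_option autoImplicit false

open MeasureTheory Set Filter Topology
open scoped InnerProductSpace

namespace Pool.Agent.Helper78.LE

namespace LB7
variable {d : ℕ}

/-- the cap around the north pole -/
def cap (d : ℕ) (s : ℝ) : Set (Metric.sphere (0 : EV (d + 1)) 1) :=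
  {z | 1 - s < ⟪(z : EV (d + 1)), LE2.eN⟫_ℝ}

theorem inner_eN (z : EV (d + 1)) : ⟪z, LE2.eN⟫_ℝ = LE2.la z := by
  rw [LE2.inner_eq]
  simp

theorem cap_meas (s : ℝ) : MeasurableSet (cap d s) := by
  unfold cap
  apply measurableSet_lt measurable_const
  exact (continuous_subtype_val.inner continuous_const).measurable

theorem inter_cap (hd : 0 < d) : sphMeas d (⋂ n : ℕ, cap d (1 / ((n : ℝ) + 1))) = 0 := by
  have hm : MeasurableSet (⋂ n : ℕ, cap d (1 / ((n : ℝ) + 1))) :=
    MeasurableSet.iInter fun n => cap_meas _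
  rw [← map_stereo hd, Measure.map_apply LE2.stereoS_continuous.measurable hm]
  have h : stereoS (d := d) ⁻¹' (⋂ n : ℕ, cap d (1 / ((n : ℝ) + 1))) = ∅ := by
    ext y
    simp only [Set.mem_preimage, Set.mem_iInter, Set.mem_empty_iff_false, iff_false, not_forall]
    have hc := LE2.cfac_pos y
    obtain ⟨n, hn⟩ := exists_nat_one_div_lt hc
    refine ⟨n, ?_⟩
    unfold cap
    rw [Set.mem_ofPred_eq, inner_eN, not_lt]
    change LE2.la (stereo y) ≤ _
    rw [LE2.la_stereo]
    linarith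
  rw [h, measure_empty]

theorem small_cap (hd : 0 < d) (ε : ℝ) (hε : 0 < ε) :
    ∃ s : ℝ, 0 < s ∧ (sphMeas d).real (cap d s) ≤ ε * sphArea d := by
  have h1 : Tendsto (fun n : ℕ => sphMeas d (cap d (1 / ((n : ℝ) + 1)))) atTop (𝓝 0) := by
    rw [← inter_cap hd]
    apply tendsto_measure_iInter_atTop (fun n => (cap_meas _).nullMeasurableSet)
    · intro n m hnm z hz
      unfold cap at hz ⊢
      rw [Set.mem_ofPred_eq] at hz ⊢
      have : 1 / ((m : ℝ) + 1) ≤ 1 / ((n : ℝ) + 1) := by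
        apply one_div_le_one_div_of_le (by positivity)
        have : (n : ℝ) ≤ m := by exact_mod_cast hnm
        linarith
      linarith
    · exact ⟨0, measure_ne_top _ _⟩
  have hA := sphArea_pos d
  have h2 : (0 : ENNReal) < ENNReal.ofReal (ε * sphArea d) := by
    rw [ENNReal.ofReal_pos]
    positivity
  obtain ⟨n, hn⟩ := (h1.eventually (ge_mem_nhds h2)).exists
  refine ⟨1 / ((n : ℝ) + 1), by positivity, ?_⟩
  rw [measureReal_def]
  exact ENNReal.toReal_le_of_le_ofReal (by positivity) hn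

theorem cap_rot (s : ℝ) (x : EV (d + 1)) (hx : ‖x‖ = 1) :
    (sphMeas d).real {c | 1 - s < ⟪x, (c : EV (d + 1))⟫_ℝ} = (sphMeas d).real (cap d s) := by
  obtain ⟨R, hR⟩ := exists_isometry x (LE2.eN : EV (d + 1)) hx (by simp [LE2.eN])
  have h1 : {c : Metric.sphere (0 : EV (d + 1)) 1 | 1 - s < ⟪x, (c : EV (d + 1))⟫_ℝ} =
      LB5.onS R ⁻¹' (cap d s) := by
    ext c
    unfold cap
    simp only [Set.mem_ofPred_eq, Set.mem_preimage]
    have : ⟪((LB5.onS R c : Metric.sphere (0 : EV (d + 1)) 1) : EV (d + 1)), LE2.eN⟫_ℝ =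
        ⟪x, (c : EV (d + 1))⟫_ℝ := by
      rw [← hR]
      change ⟪R c, R x⟫_ℝ = _
      rw [R.inner_map_map, real_inner_comm]
    rw [this]
  rw [h1, measureReal_def, (LB5.onS_mp R).measure_preimage (cap_meas s).nullMeasurableSet]
  rfl

end LB7

section LB7
variable {d : ℕ}

open LB7 in
theorem rot_choice (hd : 0 < d) (ε : ℝ) (hε : 0 < ε) : ∃ A : ℝ, 0 < A ∧
    ∀ (N : ℕ) (x : Fin N → EV (d + 1)), (∀ i, ‖x i‖ = 1) →
      ∃ (R : EV (d + 1) ≃ₗᵢ[ℝ] EV (d + 1)) (S : Finset (Fin N)) (y : Fin N → EV d),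
        (1 - ε) * N ≤ S.card ∧
        ∀ i ∈ S, R (x i) = stereo (y i) ∧ ∀ l, -A ≤ y i l ∧ y i l < A := by
  obtain ⟨s, hs, hcap⟩ := small_cap hd ε hε
  refine ⟨2 / s + 1, by positivity, fun N x hx => ?_⟩
  have hA := sphArea_pos d
  have hne : sphMeas d ≠ 0 := by
    intro h
    have : sphArea d = 0 := by
      unfold sphArea
      rw [h]
      simp
    linarith
  have hm : ∀ i, MeasurableSet {c : Metric.sphere (0 : EV (d + 1)) 1 | 1 - s < ⟪x i, (c : EV (d + 1))⟫_ℝ} := by
    intro i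
    apply measurableSet_lt measurable_const
    exact (continuous_const.inner continuous_subtype_val).measurable
  have hint : ∀ i, Integrable (Set.indicator
      {c : Metric.sphere (0 : EV (d + 1)) 1 | 1 - s < ⟪x i, (c : EV (d + 1))⟫_ℝ} (fun _ => (1 : ℝ)))
      (sphMeas d) := fun i => (integrable_const (1 : ℝ)).indicator (hm i)
  obtain ⟨c, hc⟩ := exists_le_average hne (integrable_finsetSum Finset.univ (fun i _ => hint i))
  rw [average_eq, integral_finsetSum _ (fun i _ => hint i)] at hc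
  have h1 : ∀ i, ∫ a, Set.indicator
      {c : Metric.sphere (0 : EV (d + 1)) 1 | 1 - s < ⟪x i, (c : EV (d + 1))⟫_ℝ} (fun _ => (1 : ℝ)) a
      ∂(sphMeas d) = (sphMeas d).real (cap d s) := by
    intro i
    rw [integral_indicator_const _ (hm i), cap_rot s (x i) (hx i)]
    simp
  simp only [h1] at hc
  rw [Finset.sum_const, Finset.card_univ, Fintype.card_fin, smul_eq_mul, nsmul_eq_mul] at hc
  have h2 : (sphMeas d).real Set.univ = sphArea d := rfl
  rw [h2] at hc
  obtain ⟨R, hR⟩ := exists_isometry (c : EV (d + 1)) (LE2.eN : EV (d + 1)) (by simp) (by simp [LE2.eN])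
  have hla : ∀ i, LE2.la (R (x i)) = ⟪x i, (c : EV (d + 1))⟫_ℝ := by
    intro i
    rw [← inner_eN, ← hR, R.inner_map_map]
  classical
  set S : Finset (Fin N) := Finset.univ.filter (fun i => ¬ 1 - s < ⟪x i, (c : EV (d + 1))⟫_ℝ) with hS
  have hex : ∀ i, ∃ y : EV d, i ∈ S → R (x i) = stereo y := by
    intro i
    by_cases hi : i ∈ S
    · rw [hS, Finset.mem_filter, ← hla] at hi
      obtain ⟨y, hy⟩ := LE2.exists_stereo (R (x i)) (by rw [R.norm_map, hx]) (by
        intro h
        apply hi.2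
        rw [h]
        linarith)
      exact ⟨y, fun _ => hy.symm⟩
    · exact ⟨0, fun h => absurd h hi⟩
  choose y hy using hex
  refine ⟨R, S, y, ?_, ?_⟩
  · have h3 : (∑ i, Set.indicator {c : Metric.sphere (0 : EV (d + 1)) 1 |
        1 - s < ⟪x i, (c : EV (d + 1))⟫_ℝ} (fun _ => (1 : ℝ)) c) = N - S.card := by
      have h4 : (Finset.univ.filter (fun i => 1 - s < ⟪x i, (c : EV (d + 1))⟫_ℝ)).card + S.card = N := by
        rw [hS, Finset.card_filter_add_card_filter_not]
        simp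
      have h5 : (∑ i, Set.indicator {c : Metric.sphere (0 : EV (d + 1)) 1 |
        1 - s < ⟪x i, (c : EV (d + 1))⟫_ℝ} (fun _ => (1 : ℝ)) c) =
          (Finset.univ.filter (fun i => 1 - s < ⟪x i, (c : EV (d + 1))⟫_ℝ)).card := by
        rw [Finset.card_filter]
        push_cast
        apply Finset.sum_congr rfl
        intro i _
        simp [Set.indicator_apply]
      rw [h5]
      have : ((Finset.univ.filter (fun i => 1 - s < ⟪x i, (c : EV (d + 1))⟫_ℝ)).card : ℝ) + S.card = N := by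
        exact_mod_cast h4
      linarith
    have h6 : (∑ i, Set.indicator {c : Metric.sphere (0 : EV (d + 1)) 1 |
        1 - s < ⟪x i, (c : EV (d + 1))⟫_ℝ} (fun _ => (1 : ℝ)) c) ≤ ε * N := by
      refine hc.trans ?_
      rw [inv_mul_le_iff₀ hA]
      have : (N : ℝ) * (sphMeas d).real (cap d s) ≤ N * (ε * sphArea d) := by gcongr
      linarith
    rw [h3] at h6
    linarith
  · intro i hi
    refine ⟨hy i hi, fun l => ?_⟩
    have h3 : s ≤ cfac (y i) := by
      have h4 := hi
      rw [hS, Finset.mem_filter, ← hla, hy i hi, LE2.la_stereo] at h4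
      linarith [h4.2]
    have h4 : ‖y i‖ ^ 2 ≤ 2 / s := by
      unfold cfac at h3
      rw [le_div_iff₀ (by positivity)] at h3
      rw [le_div_iff₀ hs]
      nlinarith
    have h5 : (y i l) ^ 2 ≤ ‖y i‖ ^ 2 := by
      rw [norm_sq_EV]
      exact Finset.single_le_sum (f := fun l => (y i l) ^ 2) (fun _ _ => sq_nonneg _)
        (Finset.mem_univ l)
    have h6 : 0 < 2 / s := by positivity
    have h7 : |y i l| < 2 / s + 1 := by
      apply abs_lt_of_sq_lt_sq _ (by positivity)
      nlinarith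
    rw [abs_lt] at h7
    exact ⟨h7.1.le, h7.2⟩

end LB7

end Pool.Agent.Helper78.LE
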