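import Pool.Agent.Helper78.LE.LBDefs

/-!
Project LB, module LB1: Frullani's integral for the logarithm.
-/

set_option autoImplicit false

open MeasureTheory Set Filter Topology

namespace Pool.Agent.Helper78.LE

namespace LB1aux

theorem exp_sub_le {a b t : ℝ} (hab : a ≤ b) (ht : 0 < t) :
    0 ≤ (Real.exp (-(t * a)) - Real.exp (-(t * b))) / t ∧
    (Real.exp (-(t * a)) - Real.exp (-(t * b))) / t ≤ (b - a) * Real.exp (-a * t) := by
  have h1 : Real.exp (-(t * b)) ≤ Real.exp (-(t * a)) :=
    Real.exp_le_exp.mpr (by nlinarith)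
  refine ⟨div_nonneg (by linarith) ht.le, ?_⟩
  rw [div_le_iff₀ ht]
  have h2 : Real.exp (-(t * b)) = Real.exp (-(t * a)) * Real.exp (-(t * (b - a))) := by
    rw [← Real.exp_add]; congr 1; ring
  have h3 : 1 - t * (b - a) ≤ Real.exp (-(t * (b - a))) := by
    have := Real.add_one_le_exp (-(t * (b - a))); linarith
  have h4 : 0 < Real.exp (-(t * a)) := Real.exp_pos _
  have h5 : Real.exp (-a * t) = Real.exp (-(t * a)) := by congr 1; ring
  rw [h2, h5]
  nlinarith

theorem frul_int_le {a b : ℝ} (ha : 0 < a) (hab : a ≤ b) :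
    IntegrableOn (fun t : ℝ => (Real.exp (-(t * a)) - Real.exp (-(t * b))) / t) (Ioi 0) := by
  have h1 : IntegrableOn (fun t : ℝ => (b - a) * Real.exp (-a * t)) (Ioi 0) :=
    (integrableOn_exp_mul_Ioi (neg_lt_zero.mpr ha) 0).const_mul _
  refine Integrable.mono' h1 ?_ ?_
  · refine Measurable.aestronglyMeasurable ?_
    fun_prop
  · refine (ae_restrict_mem measurableSet_Ioi).mono (fun t ht => ?_)
    have h2 := exp_sub_le hab ht
    rw [Real.norm_of_nonneg h2.1]
    exact h2.2

theorem frul_int {a b : ℝ} (ha : 0 < a) (hb : 0 < b) :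
    IntegrableOn (fun t : ℝ => (Real.exp (-(t * a)) - Real.exp (-(t * b))) / t) (Ioi 0) := by
  rcases le_total a b with h | h
  · exact frul_int_le ha h
  · have h1 := (frul_int_le hb h).neg
    refine h1.congr (Eventually.of_forall (fun t => ?_))
    simp only [Pi.neg_apply]
    ring

theorem frul {a b : ℝ} (ha : 0 < a) (hb : 0 < b) :
    ∫ t in Ioi (0 : ℝ), (Real.exp (-(t * a)) - Real.exp (-(t * b))) / t = Real.log (b / a) := by
  have hc : Continuous (fun x : ℝ => Real.exp (-x)) := by fun_prop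
  have h := Frullani.integral_Ioi_eq (f := fun x : ℝ => Real.exp (-x)) (L := 1) (R := 0)
    (hc.locallyIntegrable.locallyIntegrableOn _) ha hb
    (by
      have h1 : Tendsto (fun x : ℝ => Real.exp (-x)) (𝓝 0) (𝓝 (Real.exp (-0))) := hc.tendsto 0
      rw [neg_zero, Real.exp_zero] at h1
      exact h1.mono_left nhdsWithin_le_nhds)
    (Real.tendsto_exp_neg_atTop_nhds_zero)
    (by
      refine (frul_int ha hb).congr (Eventually.of_forall (fun t => ?_))
      simp only [smul_eq_mul]
      rw [mul_comm a t, mul_comm b t, div_eq_inv_mul])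
  rw [sub_zero, smul_eq_mul, mul_one] at h
  rw [← h]
  refine integral_congr_ae (Eventually.of_forall (fun t => ?_))
  simp only [smul_eq_mul]
  rw [mul_comm a t, mul_comm b t, div_eq_inv_mul]

theorem frul_abs_le {a b : ℝ} (ha : 0 < a) (hab : a ≤ b) :
    ∫ t in Ioi (0 : ℝ), |(Real.exp (-(t * a)) - Real.exp (-(t * b))) / t| =
      |Real.log (b / a)| := by
  have hb : 0 < b := lt_of_lt_of_le ha hab
  rw [abs_of_nonneg (Real.log_nonneg ((one_le_div ha).mpr hab)), ← frul ha hb]
  refine setIntegral_congr_fun measurableSet_Ioi (fun t ht => ?_)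
  exact abs_of_nonneg (exp_sub_le hab ht).1

theorem frul_abs {a b : ℝ} (ha : 0 < a) (hb : 0 < b) :
    ∫ t in Ioi (0 : ℝ), |(Real.exp (-(t * a)) - Real.exp (-(t * b))) / t| =
      |Real.log (b / a)| := by
  rcases le_total a b with h | h
  · exact frul_abs_le ha h
  · rw [show b / a = (a / b)⁻¹ by rw [inv_div], Real.log_inv, abs_neg, ← frul_abs_le hb h]
    refine integral_congr_ae (Eventually.of_forall (fun t => ?_))
    simp only []
    rw [← abs_neg]
    congr 1
    ring

end LB1aux

theorem log_rep_int {r : ℝ} (hr : 0 < r) :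
    IntegrableOn (fun t => (gau t r - Real.exp (-t)) / t) (Ioi 0) := by
  have h := LB1aux.frul_int (a := r ^ 2) (b := 1) (by positivity) one_pos
  simp only [mul_one] at h
  exact h

theorem log_rep {r : ℝ} (hr : 0 < r) :
    ∫ t in Ioi (0 : ℝ), (gau t r - Real.exp (-t)) / t = -(2 * Real.log r) := by
  have h := LB1aux.frul (a := r ^ 2) (b := 1) (by positivity) one_pos
  simp only [mul_one] at h
  rw [one_div, Real.log_inv, Real.log_pow] at h
  rw [show -(2 * Real.log r) = -(((2 : ℕ) : ℝ) * Real.log r) by norm_num, ← h]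
  rfl

theorem log_rep_abs {r : ℝ} (hr : 0 < r) :
    ∫ t in Ioi (0 : ℝ), |(gau t r - Real.exp (-t)) / t| = 2 * |Real.log r| := by
  have h := LB1aux.frul_abs (a := r ^ 2) (b := 1) (by positivity) one_pos
  simp only [mul_one] at h
  rw [one_div, Real.log_inv, Real.log_pow, abs_neg, abs_mul, Nat.abs_cast] at h
  rw [show 2 * |Real.log r| = ((2 : ℕ) : ℝ) * |Real.log r| by norm_num, ← h]
  rfl

end Pool.Agent.Helper78.LE
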