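import Pool.Agent.Helper78.LE.LE6

/-!
Project LE, module LE7: autocorrelation of the spline.
-/

set_option autoImplicit false

open MeasureTheory Set Filter Topology

namespace Pool.Agent.Helper78.LE

section LE7
variable (k : ℕ)

/-- `spl k p * p ^ i` -/
noncomputable def phi (k i : ℕ) (p : ℝ) : ℝ := spl k p * p ^ i

/-- the moments of the spline -/
noncomputable def mom (k i : ℕ) : ℝ := ∫ s, spl k s * s ^ i

theorem phi_eq_zero (i : ℕ) (x : ℝ) (h : x < 0 ∨ (k : ℝ) + 1 ≤ x) : phi k i x = 0 := by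
  unfold phi
  rw [spl_eq_zero k x h, zero_mul]

theorem phi_measurable (i : ℕ) : Measurable (phi k i) := by
  unfold phi
  exact (spl_measurable k).mul (measurable_id.pow_const i)

theorem phi_bound' (i : ℕ) (x : ℝ) : ‖phi k i x‖ ≤ ‖((k : ℝ) + 1) ^ i * spl k x‖ := by
  by_cases h : x < 0 ∨ (k : ℝ) + 1 ≤ x
  · rw [phi_eq_zero k i x h, norm_zero]
    exact norm_nonneg _
  · push Not at h
    unfold phi
    rw [norm_mul, norm_mul, mul_comm]
    apply mul_le_mul_of_nonneg_right _ (norm_nonneg _)
    rw [norm_pow, norm_pow]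
    apply pow_le_pow_left₀ (norm_nonneg _)
    rw [Real.norm_of_nonneg h.1, Real.norm_of_nonneg (by positivity)]
    exact h.2.le

theorem phi_bound (i : ℕ) (x : ℝ) : ‖phi k i x‖ ≤ ((k : ℝ) + 1) ^ i := by
  refine (phi_bound' k i x).trans ?_
  rw [norm_mul, Real.norm_of_nonneg (spl_nonneg k x), Real.norm_of_nonneg (by positivity)]
  calc ((k : ℝ) + 1) ^ i * spl k x ≤ ((k : ℝ) + 1) ^ i * 1 := by
        apply mul_le_mul_of_nonneg_left (spl_le_one k x) (by positivity)
    _ = _ := mul_one _

theorem phi_integrable (i : ℕ) : Integrable (phi k i) := by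
  refine Integrable.mono ((spl_integrable k).const_mul (((k : ℝ) + 1) ^ i))
    (phi_measurable k i).aestronglyMeasurable (Eventually.of_forall fun x => ?_)
  exact phi_bound' k i x

theorem integral_phi (i : ℕ) : ∫ p, phi k i p = mom k i := rfl

theorem mom_zero : mom k 0 = 1 := by
  unfold mom
  simpa using integral_spl k

/-- cross correlations -/
noncomputable def cross (k i j : ℕ) (w : ℝ) : ℝ := ∫ p, phi k i p * phi k j (p + w)

theorem aut_eq_cross (y : ℝ) : aut k y = cross k 0 0 y := by
  unfold aut cross phi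
  simp

theorem cross_symm (i j : ℕ) (w : ℝ) : cross k i j w = cross k j i (-w) := by
  unfold cross
  have h := integral_sub_right_eq_self (μ := (volume : Measure ℝ))
    (fun p => phi k i p * phi k j (p + w)) w
  rw [← h]
  congr 1
  ext q
  simp only [sub_add_cancel]
  rw [mul_comm, sub_eq_add_neg]

theorem cross_eq_zero (i j : ℕ) (w : ℝ) (h : (k : ℝ) + 1 ≤ |w|) (p : ℝ) :
    phi k i p * phi k j (p + w) = 0 := by
  by_cases h1 : p < 0 ∨ (k : ℝ) + 1 ≤ p
  · rw [phi_eq_zero k i p h1, zero_mul]
  · by_cases h2 : p + w < 0 ∨ (k : ℝ) + 1 ≤ p + w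
    · rw [phi_eq_zero k j _ h2, mul_zero]
    · exfalso
      push Not at h1 h2
      rcases le_abs.1 h with h3 | h3 <;> linarith [h1.1, h1.2, h2.1, h2.2]

theorem cross_integrable (i j : ℕ) (w : ℝ) : Integrable (fun p => phi k i p * phi k j (p + w)) := by
  refine Integrable.mul_bdd (c := ((k : ℝ) + 1) ^ j) (phi_integrable k i) ?_ ?_
  · exact ((phi_measurable k j).comp (measurable_id.add_const w)).aestronglyMeasurable
  · exact Eventually.of_forall fun p => phi_bound k j _

theorem shear_integrable (i j : ℕ) :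
    Integrable (fun z : ℝ × ℝ => phi k i z.1 * phi k j (z.1 + z.2))
      ((volume : Measure ℝ).prod volume) := by
  have h := Integrable.mul_prod (phi_integrable k i) (phi_integrable k j)
  exact (measurePreserving_prod_add (volume : Measure ℝ) volume).integrable_comp_of_integrable h

theorem integrable_cross (i j : ℕ) : Integrable (cross k i j) := by
  have h := (shear_integrable k i j).integral_prod_right
  exact h

theorem integral_cross (i j : ℕ) : ∫ y, cross k i j y = mom k i * mom k j := by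
  have h := integral_integral_swap (μ := (volume : Measure ℝ)) (ν := (volume : Measure ℝ))
    (f := fun p y => phi k i p * phi k j (p + y)) (shear_integrable k i j)
  unfold cross
  rw [← h]
  have h2 : ∀ p : ℝ, ∫ y, phi k i p * phi k j (p + y) = phi k i p * mom k j := by
    intro p
    rw [integral_const_mul, integral_add_left_eq_self (μ := (volume : Measure ℝ))
      (fun y => phi k j y) p, integral_phi]
  simp_rw [h2]
  rw [integral_mul_const, integral_phi]

theorem hasSum_cross (i j : ℕ) (hj : j ≤ k) (y : ℝ) :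
    HasSum (fun v : ℤ => cross k i j (y - v)) (mom k i * mom k j) := by
  have hfin : ∀ v : ℤ, v ∉ Finset.Icc ⌊y - (k + 1)⌋ ⌈y + (k + 1)⌉ →
      (k : ℝ) + 1 ≤ |y - v| := by
    intro v hv
    rw [Finset.mem_Icc, not_and_or, not_le, not_le] at hv
    rcases hv with hv | hv
    · have h1 : (v : ℝ) ≤ y - (k + 1) := by
        have := Int.floor_le (y - (k + 1))
        have h2 : (v : ℝ) < (⌊y - (k + 1)⌋ : ℝ) := by exact_mod_cast hv
        linarith
      rw [le_abs]
      left
      linarith
    · have h1 : y + (k + 1) ≤ (v : ℝ) := by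
        have := Int.le_ceil (y + (k + 1))
        have h2 : (⌈y + (k + 1)⌉ : ℝ) < v := by exact_mod_cast hv
        linarith
      rw [le_abs]
      right
      linarith
  have h := hasSum_integral_of_summable_integral_norm
    (μ := (volume : Measure ℝ)) (F := fun (v : ℤ) (p : ℝ) => phi k i p * phi k j (p + (y - v)))
    (fun v => cross_integrable k i j _) ?_
  · have h2 : ∀ p : ℝ, ∑' v : ℤ, phi k i p * phi k j (p + (y - v)) = phi k i p * mom k j := by
      intro p
      rw [tsum_mul_left]
      congr 1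
      have h3 := hasSum_spl_moment k j hj (p + y)
      have h4 := (Equiv.neg ℤ).hasSum_iff.2 h3
      refine HasSum.tsum_eq ?_
      have h5 : (fun v : ℤ => phi k j (p + (y - (v : ℝ)))) =
          (fun n : ℤ => spl k (n + (p + y)) * ((n : ℝ) + (p + y)) ^ j) ∘ (Equiv.neg ℤ) := by
        ext v
        simp only [Function.comp_apply, Equiv.neg_apply, phi, Int.cast_neg]
        rw [show p + (y - (v : ℝ)) = -(v : ℝ) + (p + y) by ring]
      rw [h5]
      exact h4
    simp_rw [h2] at h
    rw [integral_mul_const, integral_phi] at h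
    exact h
  · refine summable_of_ne_finset_zero (s := Finset.Icc ⌊y - (k + 1)⌋ ⌈y + (k + 1)⌉) ?_
    intro v hv
    have h3 : ∀ p : ℝ, ‖phi k i p * phi k j (p + (y - v))‖ = 0 := by
      intro p
      rw [cross_eq_zero k i j _ (hfin v hv) p, norm_zero]
    simp_rw [h3]
    simp

theorem hasSum_cross0 (i j : ℕ) (h : i ≤ k ∨ j ≤ k) :
    HasSum (fun v : ℤ => cross k i j v) (mom k i * mom k j) := by
  rcases h with h | h
  · have h1 := hasSum_cross k j i h 0
    rw [mul_comm]
    convert h1 using 1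
    ext v
    rw [cross_symm, zero_sub]
  · have h1 := hasSum_cross k i j h 0
    have h2 := (Equiv.neg ℤ).hasSum_iff.2 h1
    convert h2 using 1
    ext v
    simp

theorem aut_nonneg (y : ℝ) : 0 ≤ aut k y :=
  integral_nonneg fun p => mul_nonneg (spl_nonneg k p) (spl_nonneg k _)

theorem aut_le_one (y : ℝ) : aut k y ≤ 1 := by
  have h := integral_mono (μ := (volume : Measure ℝ)) (f := fun p => spl k p * spl k (p + y))
    (g := spl k) ?_ (spl_integrable k) (fun p => ?_)
  · rw [integral_spl] at h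
    exact h
  · have := cross_integrable k 0 0 y
    simpa [phi] using this
  · calc spl k p * spl k (p + y) ≤ spl k p * 1 :=
        mul_le_mul_of_nonneg_left (spl_le_one k _) (spl_nonneg k p)
      _ = spl k p := mul_one _

theorem cross_measurable (i j : ℕ) : Measurable (cross k i j) := by
  have h : Measurable (Function.uncurry fun y p : ℝ => phi k i p * phi k j (p + y)) := by
    have h1 : Measurable fun z : ℝ × ℝ => phi k i z.2 := (phi_measurable k i).comp measurable_snd
    have h2 : Measurable fun z : ℝ × ℝ => phi k j (z.2 + z.1) :=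
      (phi_measurable k j).comp (measurable_snd.add measurable_fst)
    exact h1.mul h2
  exact (h.stronglyMeasurable.integral_prod_right).measurable

theorem aut_measurable : Measurable (aut k) := by
  have h : aut k = cross k 0 0 := by
    ext y
    exact aut_eq_cross k y
  rw [h]
  exact cross_measurable k 0 0

theorem aut_eq_zero (y : ℝ) (h : (k : ℝ) + 1 ≤ |y|) : aut k y = 0 := by
  rw [aut_eq_cross]
  unfold cross
  simp_rw [cross_eq_zero k 0 0 y h]
  simp

theorem hasSum_aut (y : ℝ) : HasSum (fun v : ℤ => aut k (y - v)) 1 := by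
  have h := hasSum_cross k 0 0 (Nat.zero_le k) y
  rw [mom_zero, mul_one] at h
  simp_rw [aut_eq_cross]
  exact h

theorem aut_integrable : Integrable (aut k) := by
  have h : aut k = cross k 0 0 := by
    ext y
    exact aut_eq_cross k y
  rw [h]
  exact integrable_cross k 0 0

theorem integral_aut : ∫ y, aut k y = 1 := by
  simp_rw [aut_eq_cross]
  rw [integral_cross, mom_zero, mul_one]

theorem sum_aut : ∑ v ∈ Finset.Icc (-(k + 1 : ℤ)) (k + 1), aut k v = 1 := by
  have h := hasSum_cross0 k 0 0 (Or.inl (Nat.zero_le k))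
  rw [mom_zero, mul_one] at h
  have h2 := hasSum_sum_of_ne_finset_zero (f := fun v : ℤ => aut k v)
    (s := Finset.Icc (-(k + 1 : ℤ)) (k + 1)) (L := SummationFilter.unconditional ℤ) ?_
  · simp_rw [aut_eq_cross] at h2 ⊢
    exact h2.unique h
  · intro v hv
    apply aut_eq_zero
    rw [Finset.mem_Icc, not_and_or, not_le, not_le] at hv
    rw [le_abs]
    rcases hv with hv | hv
    · right
      have : (v : ℝ) < -(k + 1) := by exact_mod_cast hv
      linarith
    · left
      have : ((k : ℝ) + 1) < v := by exact_mod_cast hv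
      linarith

theorem autM_prob : IsProbabilityMeasure (autM k) := by
  constructor
  unfold autM
  rw [withDensity_apply _ MeasurableSet.univ, Measure.restrict_univ,
    ← ofReal_integral_eq_lintegral_ofReal (aut_integrable k)
      (Eventually.of_forall fun y => aut_nonneg k y), integral_aut, ENNReal.ofReal_one]

theorem autD_prob : IsProbabilityMeasure (autD k) := by
  constructor
  unfold autD
  rw [Measure.finsetSum_apply]
  simp only [Measure.smul_apply, measure_univ, smul_eq_mul, mul_one]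
  rw [← ENNReal.ofReal_sum_of_nonneg (fun v _ => aut_nonneg k _), sum_aut, ENNReal.ofReal_one]

theorem autM_compl : autM k (Set.Icc (-((k : ℝ) + 1)) (k + 1))ᶜ = 0 := by
  unfold autM
  rw [withDensity_apply _ measurableSet_Icc.compl]
  rw [setLIntegral_congr_fun (g := fun _ => 0) measurableSet_Icc.compl]
  · simp
  · intro y hy
    have h : (k : ℝ) + 1 ≤ |y| := by
      rw [mem_compl_iff, mem_Icc, not_and_or, not_le, not_le] at hy
      rw [le_abs]
      rcases hy with hy | hy
      · right
        linarith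
      · left
        linarith
    simp only
    rw [aut_eq_zero k y h, ENNReal.ofReal_zero]

theorem autD_compl : autD k (Set.Icc (-((k : ℝ) + 1)) (k + 1))ᶜ = 0 := by
  unfold autD
  rw [Measure.finsetSum_apply]
  apply Finset.sum_eq_zero
  intro v hv
  rw [Finset.mem_Icc] at hv
  simp only [Measure.smul_apply, smul_eq_mul]
  rw [Measure.dirac_apply' _ measurableSet_Icc.compl, indicator_of_notMem, mul_zero]
  rw [mem_compl_iff, not_not, mem_Icc]
  constructor
  · exact_mod_cast hv.1
  · exact_mod_cast hv.2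

theorem integral_autD {E : Type*} [NormedAddCommGroup E] [NormedSpace ℝ E] [CompleteSpace E]
    (f : ℝ → E) :
    ∫ y, f y ∂(autD k) = ∑ v ∈ Finset.Icc (-(k + 1 : ℤ)) (k + 1), aut k v • f v := by
  unfold autD
  rw [integral_finsetSum_measure]
  · refine Finset.sum_congr rfl fun v _ => ?_
    rw [integral_smul_measure, integral_dirac, ENNReal.toReal_ofReal (aut_nonneg k _)]
  · intro v _
    apply Integrable.smul_measure _ ENNReal.ofReal_ne_top
    exact integrable_dirac (by simp)

theorem integral_autM {E : Type*} [NormedAddCommGroup E] [NormedSpace ℝ E]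
    (f : ℝ → E) :
    ∫ y, f y ∂(autM k) = ∫ y, aut k y • f y := by
  unfold autM
  rw [integral_withDensity_eq_integral_toReal_smul (aut_measurable k).ennreal_ofReal
    (Eventually.of_forall fun y => ENNReal.ofReal_lt_top)]
  simp_rw [ENNReal.toReal_ofReal (aut_nonneg k _)]

theorem aut_mul_pow (a : ℕ) (y : ℝ) :
    aut k y * y ^ a = ∑ j ∈ Finset.range (a + 1),
      ((-1) ^ (a - j) * (a.choose j : ℝ)) * cross k (a - j) j y := by
  unfold aut cross
  rw [← integral_mul_const]
  simp_rw [← integral_const_mul]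
  rw [← integral_finsetSum]
  · congr 1
    ext p
    rw [show y = (p + y) + (-p) by ring, add_pow, Finset.mul_sum]
    refine Finset.sum_congr rfl fun j _ => ?_
    unfold phi
    rw [show p + (p + y + -p) = p + y by ring, neg_pow]
    ring
  · intro j _
    exact (cross_integrable k _ _ y).const_mul _

theorem aut_moment (a : ℕ) (ha : a ≤ 2 * k + 1) :
    ∫ y, y ^ a ∂(autM k) = ∫ y, y ^ a ∂(autD k) := by
  rw [integral_autM, integral_autD]
  simp_rw [smul_eq_mul]
  have h1 : ∫ y, aut k y * y ^ a = ∑ j ∈ Finset.range (a + 1),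
      ((-1) ^ (a - j) * (a.choose j : ℝ)) * (mom k (a - j) * mom k j) := by
    simp_rw [aut_mul_pow]
    rw [integral_finsetSum]
    · refine Finset.sum_congr rfl fun j _ => ?_
      rw [integral_const_mul, integral_cross]
    · intro j _
      exact (integrable_cross k _ _).const_mul _
  have h2 : HasSum (fun v : ℤ => aut k v * (v : ℝ) ^ a) (∑ j ∈ Finset.range (a + 1),
      ((-1) ^ (a - j) * (a.choose j : ℝ)) * (mom k (a - j) * mom k j)) := by
    simp_rw [aut_mul_pow]
    refine hasSum_sum fun j hj => ?_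
    refine (hasSum_cross0 k _ _ ?_).mul_left _
    rw [Finset.mem_range] at hj
    omega
  have h3 := hasSum_sum_of_ne_finset_zero (f := fun v : ℤ => aut k v * (v : ℝ) ^ a)
    (s := Finset.Icc (-(k + 1 : ℤ)) (k + 1)) (L := SummationFilter.unconditional ℤ) ?_
  · rw [h1, h3.unique h2]
  · intro v hv
    rw [aut_eq_zero, zero_mul]
    rw [Finset.mem_Icc, not_and_or, not_le, not_le] at hv
    rw [le_abs]
    rcases hv with hv | hv
    · right
      have : (v : ℝ) < -(k + 1) := by exact_mod_cast hv
      linarith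
    · left
      have : ((k : ℝ) + 1) < v := by exact_mod_cast hv
      linarith

/-- Cauchy's estimate for the Taylor coefficients at `0` -/
theorem norm_taylor_coeff_le (f : ℂ → ℂ) (R C : ℝ) (hR : 0 < R)
    (hf : DifferentiableOn ℂ f (Metric.ball 0 R)) (hC : ∀ z ∈ Metric.ball (0 : ℂ) R, ‖f z‖ ≤ C)
    (n : ℕ) : ‖((n.factorial : ℂ))⁻¹ * iteratedDeriv n f 0‖ ≤ C / R ^ n := by
  have h1 : ∀ r ∈ Set.Ioo 0 R, ‖((n.factorial : ℂ))⁻¹ * iteratedDeriv n f 0‖ ≤ C / r ^ n := by
    intro r hr
    have h := Complex.norm_iteratedDeriv_le_of_forall_mem_sphere_norm_le (f := f) (c := 0)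
      (R := r) (C := C) n hr.1 ?_ ?_
    · rw [norm_mul, norm_inv, Complex.norm_natCast]
      have hn : (0 : ℝ) < n.factorial := by exact_mod_cast n.factorial_pos
      rw [inv_mul_le_iff₀ hn]
      refine h.trans (le_of_eq ?_)
      ring
    · apply DifferentiableOn.diffContOnCl
      rw [closure_ball (0 : ℂ) hr.1.ne']
      exact hf.mono (Metric.closedBall_subset_ball hr.2)
    · intro z hz
      apply hC
      rw [mem_sphere_iff_norm, sub_zero] at hz
      rw [mem_ball_zero_iff, hz]
      exact hr.2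
  have h2 : Tendsto (fun r : ℝ => C / r ^ n) (𝓝[<] R) (𝓝 (C / R ^ n)) := by
    apply Tendsto.mono_left _ nhdsWithin_le_nhds
    have : ContinuousAt (fun r : ℝ => C / r ^ n) R := by
      apply ContinuousAt.div continuousAt_const (continuousAt_id.pow n)
      exact pow_ne_zero n hR.ne'
    exact this
  refine ge_of_tendsto h2 ?_
  filter_upwards [Ioo_mem_nhdsLT hR] with r hr
  exact h1 r hr

/-- Taylor polynomial at `0` -/
theorem norm_sub_taylor_le (f : ℂ → ℂ) (R C : ℝ) (hR : 0 < R)
    (hf : DifferentiableOn ℂ f (Metric.ball 0 R)) (hC : ∀ z ∈ Metric.ball (0 : ℂ) R, ‖f z‖ ≤ C)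
    (N : ℕ) (z : ℂ) (hz : ‖z‖ ≤ R / 2) :
    ‖f z - ∑ n ∈ Finset.range N, ((n.factorial : ℂ))⁻¹ * iteratedDeriv n f 0 * z ^ n‖ ≤
      2 * C * (‖z‖ / R) ^ N := by
  have hzb : z ∈ Metric.ball (0 : ℂ) R := by
    rw [mem_ball_zero_iff]
    linarith
  have h := Complex.hasSum_taylorSeries_on_ball hf hzb
  have h' : HasSum (fun n : ℕ => ((n.factorial : ℂ))⁻¹ * iteratedDeriv n f 0 * z ^ n) (f z) := by
    have h0 : (fun n : ℕ => ((n.factorial : ℂ))⁻¹ * iteratedDeriv n f 0 * z ^ n) =
        fun n : ℕ => ((n.factorial : ℂ))⁻¹ • (z - 0) ^ n • iteratedDeriv n f 0 := by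
      funext n
      rw [smul_eq_mul, smul_eq_mul, sub_zero]
      ring
    rw [h0]
    exact h
  have hq0 : 0 ≤ ‖z‖ / R := by positivity
  have hq : ‖z‖ / R ≤ 1 / 2 := by
    rw [div_le_iff₀ hR]
    linarith
  have hC0 : 0 ≤ C := (norm_nonneg _).trans (hC 0 (Metric.mem_ball_self hR))
  have hterm : ∀ n : ℕ, ‖((n.factorial : ℂ))⁻¹ * iteratedDeriv n f 0 * z ^ n‖ ≤
      C * (‖z‖ / R) ^ n := by
    intro n
    rw [norm_mul, norm_pow]
    calc _ ≤ C / R ^ n * ‖z‖ ^ n :=
          mul_le_mul_of_nonneg_right (norm_taylor_coeff_le f R C hR hf hC n) (by positivity)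
      _ = _ := by
          rw [div_pow]
          ring
  have htail : f z - ∑ n ∈ Finset.range N, ((n.factorial : ℂ))⁻¹ * iteratedDeriv n f 0 * z ^ n =
      ∑' n : ℕ, (((n + N).factorial : ℂ))⁻¹ * iteratedDeriv (n + N) f 0 * z ^ (n + N) := by
    rw [← h'.tsum_eq, ← h'.summable.sum_add_tsum_nat_add N, add_sub_cancel_left]
  rw [htail]
  have hg : HasSum (fun n : ℕ => C * (‖z‖ / R) ^ N * (‖z‖ / R) ^ n)
      (C * (‖z‖ / R) ^ N * (1 - ‖z‖ / R)⁻¹) :=
    (hasSum_geometric_of_lt_one hq0 (by linarith)).mul_left _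
  have hb := tsum_of_norm_bounded hg (f := fun n : ℕ => (((n + N).factorial : ℂ))⁻¹ *
    iteratedDeriv (n + N) f 0 * z ^ (n + N)) (fun n => by
      refine (hterm (n + N)).trans (le_of_eq ?_)
      rw [pow_add]
      ring)
  refine hb.trans ?_
  have h3 : (1 - ‖z‖ / R)⁻¹ ≤ 2 := by
    rw [inv_le_comm₀ (by linarith) (by norm_num)]
    linarith
  calc C * (‖z‖ / R) ^ N * (1 - ‖z‖ / R)⁻¹ ≤ C * (‖z‖ / R) ^ N * 2 :=
        mul_le_mul_of_nonneg_left h3 (by positivity)
    _ = _ := by ring

/-- the one dimensional estimate -/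
theorem aut_holo (f : ℂ → ℂ) (R C : ℝ) (hR : 2 * ((k : ℝ) + 1) ≤ R)
    (hf : DifferentiableOn ℂ f (Metric.ball 0 R)) (hC : ∀ z ∈ Metric.ball (0 : ℂ) R, ‖f z‖ ≤ C) :
    ‖(∫ y, f (y : ℂ) ∂(autD k)) - ∫ y, f (y : ℂ) ∂(autM k)‖ ≤
      4 * C * (((k : ℝ) + 1) / R) ^ (2 * k + 2) := by
  have := autM_prob k
  have := autD_prob k
  have hk : (0 : ℝ) < (k : ℝ) + 1 := by positivity
  have hR0 : 0 < R := by linarith
  have hC0 : 0 ≤ C := (norm_nonneg _).trans (hC 0 (Metric.mem_ball_self hR0))
  set c : ℕ → ℂ := fun n => ((n.factorial : ℂ))⁻¹ * iteratedDeriv n f 0 with hc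
  set P : ℝ → ℂ := fun y => ∑ n ∈ Finset.range (2 * k + 2), c n * (y : ℂ) ^ n with hP
  set I : Set ℝ := Set.Icc (-((k : ℝ) + 1)) (k + 1) with hI
  have hPc : Continuous P := by
    rw [hP]
    fun_prop
  have hbd : ∀ y ∈ I, ‖f (y : ℂ) - P y‖ ≤ 2 * C * (((k : ℝ) + 1) / R) ^ (2 * k + 2) := by
    intro y hy
    have hyn : ‖(y : ℂ)‖ ≤ (k : ℝ) + 1 := by
      rw [Complex.norm_real, Real.norm_eq_abs, abs_le]
      exact hy
    refine (norm_sub_taylor_le f R C hR0 hf hC (2 * k + 2) (y : ℂ) (by linarith)).trans ?_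
    apply mul_le_mul_of_nonneg_left _ (by positivity)
    apply pow_le_pow_left₀ (by positivity)
    exact div_le_div_of_nonneg_right hyn hR0.le
  -- general facts for a probability measure carried by `I`
  have key : ∀ μ : Measure ℝ, IsProbabilityMeasure μ → μ Iᶜ = 0 →
      ‖(∫ y, f (y : ℂ) ∂μ) - ∫ y, P y ∂μ‖ ≤ 2 * C * (((k : ℝ) + 1) / R) ^ (2 * k + 2) := by
    intro μ hμ hμI
    have := hμ
    have hae : ∀ᵐ y ∂μ, y ∈ I := by
      rw [ae_iff]
      exact hμI
    have hres : μ.restrict I = μ := Measure.restrict_eq_self_of_ae_mem hae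
    have hfc : ContinuousOn (fun y : ℝ => f (y : ℂ)) I := by
      apply hf.continuousOn.comp Complex.continuous_ofReal.continuousOn
      intro y hy
      rw [mem_ball_zero_iff, Complex.norm_real, Real.norm_eq_abs]
      have : |y| ≤ (k : ℝ) + 1 := abs_le.2 hy
      linarith
    have hfm : AEStronglyMeasurable (fun y : ℝ => f (y : ℂ)) μ := by
      rw [← hres]
      exact hfc.aestronglyMeasurable measurableSet_Icc
    have hfi : Integrable (fun y : ℝ => f (y : ℂ)) μ := by
      refine Integrable.mono' (integrable_const C) hfm ?_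
      filter_upwards [hae] with y hy
      apply hC
      rw [mem_ball_zero_iff, Complex.norm_real, Real.norm_eq_abs]
      have : |y| ≤ (k : ℝ) + 1 := abs_le.2 hy
      linarith
    have hPi : Integrable P μ := by
      obtain ⟨D, hD⟩ := (isCompact_Icc (a := -((k : ℝ) + 1)) (b := (k : ℝ) + 1)).exists_bound_of_continuousOn
        hPc.continuousOn
      refine Integrable.mono' (integrable_const D) hPc.aestronglyMeasurable ?_
      filter_upwards [hae] with y hy
      exact hD y hy
    rw [← integral_sub hfi hPi]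
    have h := norm_integral_le_of_norm_le_const (μ := μ) (f := fun y : ℝ => f (y : ℂ) - P y)
      (C := 2 * C * (((k : ℝ) + 1) / R) ^ (2 * k + 2)) (by
        filter_upwards [hae] with y hy
        exact hbd y hy)
    simpa using h
  have hPeq : ∫ y, P y ∂(autD k) = ∫ y, P y ∂(autM k) := by
    have hmono : ∀ (μ : Measure ℝ), IsProbabilityMeasure μ → μ Iᶜ = 0 → ∀ n : ℕ,
        Integrable (fun y : ℝ => y ^ n) μ := by
      intro μ hμ hμI n
      have := hμ
      have hae : ∀ᵐ y ∂μ, y ∈ I := by
        rw [ae_iff]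
        exact hμI
      refine Integrable.mono' (integrable_const (((k : ℝ) + 1) ^ n))
        (continuous_pow n).aestronglyMeasurable ?_
      filter_upwards [hae] with y hy
      rw [norm_pow]
      exact pow_le_pow_left₀ (norm_nonneg _) (abs_le.2 hy) n
    have hint : ∀ (μ : Measure ℝ), IsProbabilityMeasure μ → μ Iᶜ = 0 →
        ∫ y, P y ∂μ = ∑ n ∈ Finset.range (2 * k + 2), c n * ((∫ y, y ^ n ∂μ : ℝ) : ℂ) := by
      intro μ hμ hμI
      rw [hP]
      have h1 : ∀ n : ℕ, ∫ y, c n * (y : ℂ) ^ n ∂μ = c n * ((∫ y, y ^ n ∂μ : ℝ) : ℂ) := by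
        intro n
        rw [integral_const_mul, ← integral_complex_ofReal]
        simp
      rw [integral_finsetSum]
      · exact Finset.sum_congr rfl fun n _ => h1 n
      · intro n _
        have := ((hmono μ hμ hμI n).ofReal (𝕜 := ℂ)).const_mul (c n)
        simpa using this
    rw [hint _ inferInstance (autD_compl k), hint _ inferInstance (autM_compl k)]
    refine Finset.sum_congr rfl fun n hn => ?_
    rw [aut_moment k n (by rw [Finset.mem_range] at hn; omega)]
  have h1 := key _ inferInstance (autD_compl k)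
  have h2 := key _ inferInstance (autM_compl k)
  rw [hPeq] at h1
  calc ‖(∫ y, f (y : ℂ) ∂(autD k)) - ∫ y, f (y : ℂ) ∂(autM k)‖
      = ‖((∫ y, f (y : ℂ) ∂(autD k)) - ∫ y, P y ∂(autM k)) -
          ((∫ y, f (y : ℂ) ∂(autM k)) - ∫ y, P y ∂(autM k))‖ := by
        congr 1
        ring
    _ ≤ _ := norm_sub_le _ _
    _ ≤ 2 * C * (((k : ℝ) + 1) / R) ^ (2 * k + 2) + 2 * C * (((k : ℝ) + 1) / R) ^ (2 * k + 2) :=
        add_le_add h1 h2
    _ = _ := by ring

end LE7

end Pool.Agent.Helper78.LE
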