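import Pool.Agent.Helper78.LE.LE6
import Pool.Agent.Helper78.LE.LE7

/-!
Project LE, module LE7b: windows.
-/

set_option autoImplicit false

open MeasureTheory Set Filter Topology

namespace Pool.Agent.Helper78.LE

section LE7b1

variable (k m : ℕ)

/-! ### one dimension -/

theorem win_measurable : Measurable (win k m) := by
  unfold win
  exact Finset.measurable_sum _ fun i _ => (spl_measurable k).comp (measurable_id.sub_const _)

theorem win_nonneg (s : ℝ) : 0 ≤ win k m s :=
  Finset.sum_nonneg fun _ _ => spl_nonneg k _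

/-- the sum of the integer translates over any finite set that sees the support -/
theorem sum_spl (S : Finset ℤ) (s : ℝ) (h : ∀ n : ℤ, n ∉ S → (n : ℝ) + s < 0 ∨ (k : ℝ) + 1 ≤ n + s) :
    ∑ n ∈ S, spl k (n + s) = 1 := by
  have h1 : HasSum (fun n : ℤ => spl k (n + s)) (∑ n ∈ S, spl k (n + s)) :=
    hasSum_sum_of_ne_finset_zero fun n hn => spl_eq_zero k _ (h n hn)
  exact h1.unique (hasSum_spl k s)

/-- `i ↦ -i` -/
def negCast : ℕ ↪ ℤ := ⟨fun i => -(i : ℤ), fun i j h => by simpa using h⟩

theorem negCast_apply (i : ℕ) : negCast i = -(i : ℤ) := rfl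

theorem win_eq_sum (s : ℝ) : win k m s = ∑ n ∈ (Finset.range m).map negCast, spl k (n + s) := by
  rw [Finset.sum_map, win]
  refine Finset.sum_congr rfl fun i _ => ?_
  congr 1
  rw [negCast_apply]
  push_cast
  ring

theorem win_le_one (s : ℝ) : win k m s ≤ 1 := by
  rw [win_eq_sum]
  exact sum_le_hasSum _ (fun _ _ => spl_nonneg k _) (hasSum_spl k s)

theorem win_eq_zero (s : ℝ) (h : s < 0 ∨ (m : ℝ) + k ≤ s) : win k m s = 0 := by
  refine Finset.sum_eq_zero fun i hi => spl_eq_zero k _ ?_
  have hi' : (i : ℝ) + 1 ≤ m := by exact_mod_cast Finset.mem_range.1 hi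
  have hi0 : (0 : ℝ) ≤ i := i.cast_nonneg
  rcases h with h | h
  · left; linarith
  · right; linarith

theorem win_eq_one (s : ℝ) (h1 : (k : ℝ) ≤ s) (h2 : s < m) : win k m s = 1 := by
  rw [win_eq_sum]
  refine sum_spl k _ s fun n hn => ?_
  by_cases h0 : 0 < n
  · right
    have : (1 : ℝ) ≤ n := by exact_mod_cast h0
    linarith
  · left
    have h3 : (m : ℤ) ≤ -n := by
      by_contra hlt
      apply hn
      rw [Finset.mem_map]
      refine ⟨(-n).toNat, ?_, ?_⟩
      · rw [Finset.mem_range]
        omega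
      · rw [negCast_apply]
        omega
    have h4 : (m : ℝ) ≤ -n := by exact_mod_cast h3
    linarith

theorem spl_shift_integrable (c : ℝ) : Integrable (fun s => spl k (s - c)) :=
  (spl_integrable k).comp_sub_right c

theorem win_integrable : Integrable (win k m) := by
  unfold win
  exact integrable_finsetSum _ fun i _ => spl_shift_integrable k _

theorem integral_win : ∫ s, win k m s = m := by
  unfold win
  rw [integral_finsetSum _ fun i _ => spl_shift_integrable k _]
  have : ∀ i ∈ Finset.range m, ∫ s, spl k (s - (i : ℝ)) = 1 := by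
    intro i _
    rw [integral_sub_right_eq_self (fun s => spl k s), integral_spl]
  rw [Finset.sum_congr rfl this]
  simp

theorem sum_win (u : ℝ) (hu : u ∈ Set.Ico (0 : ℝ) 1) :
    ∑ n : Fin (m + k + 1), win k m (((n : ℕ) : ℝ) + u) = m := by
  unfold win
  rw [Finset.sum_comm]
  have : ∀ i ∈ Finset.range m, ∑ n : Fin (m + k + 1), spl k (((n : ℕ) : ℝ) + u - i) = 1 := by
    intro i hi
    have hi' : (i : ℝ) + 1 ≤ m := by exact_mod_cast Finset.mem_range.1 hi
    have hi0 : (0 : ℝ) ≤ i := i.cast_nonneg
    rw [Fin.sum_univ_eq_sum_range (fun n : ℕ => spl k ((n : ℝ) + u - i))]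
    have h1 := sum_spl k ((Finset.range (m + k + 1)).map Nat.castEmbedding) (u - i) (by
      intro n hn
      by_cases h0 : 0 ≤ n
      · right
        have h3 : ((m : ℤ) + k + 1) ≤ n := by
          by_contra hlt
          apply hn
          rw [Finset.mem_map]
          refine ⟨n.toNat, ?_, ?_⟩
          · rw [Finset.mem_range]
            omega
          · simp only [Nat.castEmbedding_apply]
            omega
        have h4 : ((m : ℝ) + k + 1) ≤ n := by exact_mod_cast h3
        linarith [hu.1]
      · left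
        have h3 : n ≤ -1 := by omega
        have h4 : (n : ℝ) ≤ -1 := by exact_mod_cast h3
        linarith [hu.2])
    rw [Finset.sum_map] at h1
    rw [← h1]
    refine Finset.sum_congr rfl fun n _ => ?_
    congr 1
    simp only [Nat.castEmbedding_apply, Int.cast_natCast]
    ring
  rw [Finset.sum_congr rfl this]
  simp

theorem sum_win_shift (n : ℕ) (s : ℝ) :
    ∑ j : Fin n, win k m (s - m * ((j : ℕ) : ℝ)) = win k (m * n) s := by
  rw [Fin.sum_univ_eq_sum_range (fun j : ℕ => win k m (s - m * (j : ℝ)))]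
  induction n with
  | zero => simp [win]
  | succ n ih =>
    rw [Finset.sum_range_succ, ih, Nat.mul_succ]
    unfold win
    rw [Finset.sum_range_add]
    congr 1
    refine Finset.sum_congr rfl fun i _ => ?_
    congr 1
    push_cast
    ring

theorem spl_mul_integrable (c y : ℝ) : Integrable (fun t => spl k (t - c) * spl k (t + y)) := by
  refine Integrable.mono' (spl_shift_integrable k c) ?_ (Eventually.of_forall fun t => ?_)
  · exact (((spl_measurable k).comp (measurable_id.sub_const _)).mul
      ((spl_measurable k).comp (measurable_id.add_const _))).aestronglyMeasurable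
  · rw [Real.norm_eq_abs, abs_of_nonneg (mul_nonneg (spl_nonneg k _) (spl_nonneg k _))]
    exact mul_le_of_le_one_right (spl_nonneg k _) (spl_le_one k _)

theorem corr_win (y : ℝ) : ∫ t, win k m t * win k m (t + y) =
    ∑ i : Fin m, ∑ i' : Fin m, aut k (y - ((i : ℕ) : ℝ) + ((i' : ℕ) : ℝ)) := by
  have h1 : ∀ t, win k m t * win k m (t + y) = ∑ i : Fin m, ∑ i' : Fin m,
      spl k (t - ((i' : ℕ) : ℝ)) * spl k (t + (y - ((i : ℕ) : ℝ))) := by
    intro t
    unfold win
    rw [← Fin.sum_univ_eq_sum_range (fun i : ℕ => spl k (t - (i : ℝ))),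
      ← Fin.sum_univ_eq_sum_range (fun i : ℕ => spl k (t + y - (i : ℝ))), Finset.sum_mul_sum,
      Finset.sum_comm]
    refine Finset.sum_congr rfl fun i _ => Finset.sum_congr rfl fun i' _ => ?_
    rw [add_sub_assoc]
  simp_rw [h1]
  rw [integral_finsetSum _ fun i _ => integrable_finsetSum _ fun i' _ => spl_mul_integrable k _ _]
  refine Finset.sum_congr rfl fun i _ => ?_
  rw [integral_finsetSum _ fun i' _ => spl_mul_integrable k _ _]
  refine Finset.sum_congr rfl fun i' _ => ?_
  unfold aut
  rw [← integral_add_right_eq_self (fun t => spl k (t - ((i' : ℕ) : ℝ)) *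
    spl k (t + (y - ((i : ℕ) : ℝ)))) ((i' : ℕ) : ℝ)]
  refine integral_congr_ae (Eventually.of_forall fun t => ?_)
  dsimp only
  rw [add_sub_cancel_right]
  congr 2
  ring

theorem win_sq_integrable : Integrable (fun t => win k m t ^ 2) := by
  refine Integrable.mono' (win_integrable k m) ((win_measurable k m).pow_const 2).aestronglyMeasurable
    (Eventually.of_forall fun t => ?_)
  rw [Real.norm_eq_abs, abs_of_nonneg (sq_nonneg _), sq]
  exact mul_le_of_le_one_right (win_nonneg k m _) (win_le_one k m _)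

theorem integral_win_sq (hm : k ≤ m) : (m : ℝ) - k ≤ ∫ t, win k m t ^ 2 := by
  have hkm : (k : ℝ) ≤ m := by exact_mod_cast hm
  have h1 : ∫ t, (Set.Ico (k : ℝ) m).indicator (fun _ => (1 : ℝ)) t = (m : ℝ) - k := by
    rw [integral_indicator measurableSet_Ico]
    simp [hkm]
  rw [← h1]
  refine integral_mono ?_ (win_sq_integrable k m) fun t => ?_
  · rw [integrable_indicator_iff measurableSet_Ico]
    exact integrableOn_const (by simp)
  · by_cases ht : t ∈ Set.Ico (k : ℝ) m
    · simp only [Set.indicator_of_mem ht]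
      rw [win_eq_one k m t ht.1 ht.2]
      norm_num
    · simp only [Set.indicator_of_notMem ht]
      positivity

end LE7b1

section LE7b

variable {d : ℕ} (k m : ℕ)

/-! ### several dimensions -/

theorem Win_measurable : Measurable (Win k m (d := d)) := by
  unfold Win
  exact Finset.measurable_prod _ fun i _ => (win_measurable k m).comp (measurable_pi_apply i)

theorem Win_nonneg (p : Fin d → ℝ) : 0 ≤ Win k m p :=
  Finset.prod_nonneg fun _ _ => win_nonneg k m _

theorem Win_le_one (p : Fin d → ℝ) : Win k m p ≤ 1 :=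
  Finset.prod_le_one (fun _ _ => win_nonneg k m _) fun _ _ => win_le_one k m _

theorem Win_eq_zero (p : Fin d → ℝ) (h : ∃ i, p i < 0 ∨ (m : ℝ) + k ≤ p i) : Win k m p = 0 := by
  obtain ⟨i, hi⟩ := h
  exact Finset.prod_eq_zero (Finset.mem_univ i) (win_eq_zero k m _ hi)

theorem Win_integrable : Integrable (Win k m (d := d)) := by
  unfold Win
  exact Integrable.fintype_prod fun _ => win_integrable k m

theorem integral_Win : ∫ p : Fin d → ℝ, Win k m p = (m : ℝ) ^ d := by
  unfold Win
  rw [integral_fintype_prod_volume_eq_pow (win k m), integral_win, Fintype.card_fin]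

theorem prod_sum_fin {n : ℕ} (g : Fin d → Fin n → ℝ) :
    ∏ l, ∑ i : Fin n, g l i = ∑ x : Fin d → Fin n, ∏ l, g l (x l) := by
  rw [Finset.prod_univ_sum, Fintype.piFinset_univ]

theorem sum_Win (u : Fin d → ℝ) (hu : u ∈ cube d) :
    ∑ n : IW d k m, Win k m (pt n u) = (m : ℝ) ^ d := by
  unfold Win pt
  rw [← prod_sum_fin (fun l (n : Fin (m + k + 1)) => win k m (((n : ℕ) : ℝ) + u l))]
  rw [Finset.prod_congr rfl fun l _ => sum_win k m (u l) (hu l trivial)]
  simp

theorem integral_Win_sq (hm : k ≤ m) :
    (m : ℝ) ^ d - ∫ p : Fin d → ℝ, Win k m p ^ 2 ≤ ((m : ℝ) + k) ^ d - ((m : ℝ) - k) ^ d := by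
  have h1 : ∫ p : Fin d → ℝ, Win k m p ^ 2 = (∫ t, win k m t ^ 2) ^ d := by
    unfold Win
    simp_rw [← Finset.prod_pow]
    rw [integral_fintype_prod_volume_eq_pow (fun t => win k m t ^ 2), Fintype.card_fin]
  have hkm : (0 : ℝ) ≤ (m : ℝ) - k := by
    have : (k : ℝ) ≤ m := by exact_mod_cast hm
    linarith
  have h2 := pow_le_pow_left₀ hkm (integral_win_sq k m hm) d
  have h3 : (m : ℝ) ^ d ≤ ((m : ℝ) + k) ^ d :=
    pow_le_pow_left₀ m.cast_nonneg (by linarith [(k.cast_nonneg : (0 : ℝ) ≤ k)]) d
  rw [h1]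
  linarith

/-- windows tile -/
theorem sum_Win_shift (n : ℕ) (s : Fin d → ℝ) :
    ∑ j : Fin d → Fin n, Win k m (fun i => s i - m * ((j i : ℕ) : ℝ)) = Win k (m * n) s := by
  unfold Win
  rw [← prod_sum_fin (fun l (j : Fin n) => win k m (s l - m * ((j : ℕ) : ℝ)))]
  exact Finset.prod_congr rfl fun l _ => sum_win_shift k m n (s l)

/-- the integer translates of the cube -/
def trans {k m : ℕ} (n : IW d k m) : Set (Fin d → ℝ) :=
  {p | (fun i => p i - ((n i : ℕ) : ℝ)) ∈ cube d}

theorem cube_measurable : MeasurableSet (cube d) :=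
  MeasurableSet.univ_pi fun _ => measurableSet_Ico

theorem trans_measurable (n : IW d k m) : MeasurableSet (trans n) := by
  refine measurableSet_preimage ?_ cube_measurable
  exact measurable_pi_lambda _ fun i => (measurable_pi_apply i).sub_const _

theorem setIntegral_trans (n : IW d k m) (g : (Fin d → ℝ) → ℝ) :
    ∫ u in cube d, g (pt n u) = ∫ p, (trans n).indicator g p := by
  rw [← integral_indicator cube_measurable]
  rw [← integral_add_left_eq_self (fun p => (trans n).indicator g p) (fun i => ((n i : ℕ) : ℝ))]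
  refine integral_congr_ae (Eventually.of_forall fun u => ?_)
  dsimp only
  have h1 : (fun i => ((n i : ℕ) : ℝ)) + u = pt n u := rfl
  rw [h1]
  by_cases hu : u ∈ cube d
  · have h2 : pt n u ∈ trans n := by
      change (fun i => pt n u i - ((n i : ℕ) : ℝ)) ∈ cube d
      have : (fun i => pt n u i - ((n i : ℕ) : ℝ)) = u := by
        funext i
        simp [pt]
      rwa [this]
    rw [Set.indicator_of_mem hu, Set.indicator_of_mem h2]
  · have h2 : pt n u ∉ trans n := by
      intro h
      apply hu
      change (fun i => pt n u i - ((n i : ℕ) : ℝ)) ∈ cube d at h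
      have : (fun i => pt n u i - ((n i : ℕ) : ℝ)) = u := by
        funext i
        simp [pt]
      rwa [this] at h
    rw [Set.indicator_of_notMem hu, Set.indicator_of_notMem h2]

theorem sum_trans (g : (Fin d → ℝ) → ℝ)
    (hg : ∀ p, (∃ i, p i < 0 ∨ (m : ℝ) + k ≤ p i) → g p = 0) (p : Fin d → ℝ) :
    ∑ n : IW d k m, (trans n).indicator g p = g p := by
  by_cases hp : ∃ i, p i < 0 ∨ (m : ℝ) + k ≤ p i
  · rw [hg p hp]
    refine Finset.sum_eq_zero fun n _ => ?_
    by_cases h : p ∈ trans n
    · rw [Set.indicator_of_mem h, hg p hp]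
    · rw [Set.indicator_of_notMem h]
  · push Not at hp
    have hfl : ∀ i, ⌊p i⌋₊ < m + k + 1 := by
      intro i
      rw [Nat.floor_lt (hp i).1]
      push_cast
      linarith [(hp i).2]
    rw [Finset.sum_eq_single (fun i => (⟨⌊p i⌋₊, hfl i⟩ : Fin (m + k + 1)))]
    · rw [Set.indicator_of_mem]
      intro i _
      refine ⟨?_, ?_⟩
      · simpa using Nat.floor_le (hp i).1
      · have := Nat.lt_floor_add_one (p i)
        simp only
        linarith
    · intro n _ hn
      refine Set.indicator_of_notMem (fun h => hn ?_) _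
      funext i
      have h1 := h i trivial
      apply Fin.ext
      have h2 : ((n i : ℕ) : ℝ) ≤ p i := by linarith [h1.1]
      have h3 : p i < ((n i : ℕ) : ℝ) + 1 := by linarith [h1.2]
      exact ((Nat.floor_eq_iff (hp i).1).2 ⟨h2, h3⟩).symm
    · intro h
      exact absurd (Finset.mem_univ _) h

theorem unfold_general (g : (Fin d → ℝ) → ℝ) (hgi : Integrable g)
    (hg : ∀ p, (∃ i, p i < 0 ∨ (m : ℝ) + k ≤ p i) → g p = 0) :
    ∫ u in cube d, ∑ n : IW d k m, g (pt n u) = ∫ p, g p := by
  have hint : ∀ n : IW d k m, Integrable (fun u => g (pt n u)) := by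
    intro n
    exact hgi.comp_add_left (fun i => ((n i : ℕ) : ℝ))
  rw [integral_finsetSum _ fun n _ => (hint n).integrableOn]
  simp_rw [setIntegral_trans]
  rw [← integral_finsetSum _ fun n _ => hgi.indicator (trans_measurable k m n)]
  exact integral_congr_ae (Eventually.of_forall fun p => sum_trans k m g hg p)

/-- unfolding of the random shift -/
theorem unfold_Win (f : (Fin d → ℝ) → ℝ) (hf : Integrable (fun p => Win k m p * f p)) :
    ∫ u in cube d, ∑ n : IW d k m, Win k m (pt n u) * f (pt n u) = ∫ p, Win k m p * f p :=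
  unfold_general k m (fun p => Win k m p * f p) hf fun p hp => by
    rw [Win_eq_zero k m p hp, zero_mul]

/-- product of the autocorrelations -/
noncomputable def Aut (k : ℕ) (y : Fin d → ℝ) : ℝ := ∏ l, aut k (y l)

theorem Win_mul_integrable (y : Fin d → ℝ) : Integrable (fun p => Win k m p * Win k m (p + y)) := by
  refine Integrable.mono' (Win_integrable k m) ?_ (Eventually.of_forall fun t => ?_)
  · exact ((Win_measurable k m).mul
      ((Win_measurable k m).comp (measurable_id.add_const _))).aestronglyMeasurable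
  · rw [Real.norm_eq_abs, abs_of_nonneg (mul_nonneg (Win_nonneg k m _) (Win_nonneg k m _))]
    exact mul_le_of_le_one_right (Win_nonneg k m _) (Win_le_one k m _)

/-- the correlation of the window -/
theorem corr_Win (y : Fin d → ℝ) : ∫ p, Win k m p * Win k m (p + y) =
    ∑ i : Fin d → Fin m, ∑ i' : Fin d → Fin m,
      Aut k (y - iv (fun l => ((i l : ℕ) : ℤ) - ((i' l : ℕ) : ℤ))) := by
  have h1 : ∫ p, Win k m p * Win k m (p + y) = ∏ l, ∫ t, win k m t * win k m (t + y l) := by
    rw [← integral_fintype_prod_volume_eq_prod (fun l t => win k m t * win k m (t + y l))]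
    refine integral_congr_ae (Eventually.of_forall fun p => ?_)
    dsimp only
    unfold Win
    rw [← Finset.prod_mul_distrib]
    rfl
  rw [h1, Finset.prod_congr rfl fun l _ => corr_win k m (y l), prod_sum_fin]
  refine Finset.sum_congr rfl fun i _ => ?_
  rw [prod_sum_fin]
  refine Finset.sum_congr rfl fun i' _ => ?_
  unfold Aut iv
  refine Finset.prod_congr rfl fun l _ => ?_
  congr 1
  simp only [Pi.sub_apply]
  push_cast
  ring

/-! ### product measures -/

theorem Aut_nonneg (y : Fin d → ℝ) : 0 ≤ Aut k y := Finset.prod_nonneg fun _ _ => aut_nonneg k _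

theorem Aut_le_one (y : Fin d → ℝ) : Aut k y ≤ 1 :=
  Finset.prod_le_one (fun _ _ => aut_nonneg k _) fun _ _ => aut_le_one k _

theorem Aut_measurable : Measurable (Aut k (d := d)) := by
  unfold Aut
  exact Finset.measurable_prod _ fun i _ => (aut_measurable k).comp (measurable_pi_apply i)

theorem Aut_eq_zero (y : Fin d → ℝ) (h : ∃ l, (k : ℝ) + 1 ≤ |y l|) : Aut k y = 0 := by
  obtain ⟨l, hl⟩ := h
  exact Finset.prod_eq_zero (Finset.mem_univ l) (aut_eq_zero k _ hl)

theorem pi_autM : (Measure.pi fun _ : Fin d => autM k) =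
    (volume : Measure (Fin d → ℝ)).withDensity (fun y => ENNReal.ofReal (Aut k y)) := by
  have := autM_prob k
  refine Measure.pi_eq fun s hs => ?_
  rw [withDensity_apply _ (MeasurableSet.univ_pi hs)]
  have h1 : (volume : Measure (Fin d → ℝ)).restrict (Set.pi Set.univ s) =
      Measure.pi fun i => (volume : Measure ℝ).restrict (s i) := by
    rw [volume_pi, Measure.restrict_pi_pi]
  rw [h1, ← ofReal_integral_eq_lintegral_ofReal]
  · unfold Aut
    rw [integral_fintype_prod_eq_prod (fun _ : Fin d => aut k),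
      ENNReal.ofReal_prod_of_nonneg fun i _ => integral_nonneg fun y => aut_nonneg k y]
    refine Finset.prod_congr rfl fun i _ => ?_
    unfold autM
    rw [withDensity_apply _ (hs i), ofReal_integral_eq_lintegral_ofReal
      (aut_integrable k).integrableOn (Eventually.of_forall fun y => aut_nonneg k y)]
  · unfold Aut
    exact Integrable.fintype_prod fun i => (aut_integrable k).integrableOn
  · exact Eventually.of_forall fun y => Aut_nonneg k y

theorem le7b_integral_pi_autM (g : (Fin d → ℝ) → ℝ) :
    ∫ y, g y ∂(Measure.pi fun _ => autM k) = ∫ y, Aut k y * g y := by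
  rw [pi_autM, integral_withDensity_eq_integral_toReal_smul
    (Aut_measurable k).ennreal_ofReal
    (Eventually.of_forall fun y => ENNReal.ofReal_lt_top)]
  refine integral_congr_ae (Eventually.of_forall fun y => ?_)
  dsimp only
  rw [ENNReal.toReal_ofReal (Aut_nonneg k y), smul_eq_mul]

/-- the integer box that carries `autD` -/
noncomputable def boxD (d k : ℕ) : Finset (Fin d → ℤ) :=
  Fintype.piFinset fun _ => Finset.Icc (-((k : ℤ) + 1)) ((k : ℤ) + 1)

theorem pi_autD : (Measure.pi fun _ : Fin d => autD k) =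
    ∑ v ∈ boxD d k, ENNReal.ofReal (Aut k (iv v)) • Measure.dirac (iv v) := by
  classical
  have := autD_prob k
  refine Measure.pi_eq fun s hs => ?_
  have h1 : ∀ i : Fin d, autD k (s i) = ∑ v ∈ Finset.Icc (-((k : ℤ) + 1)) ((k : ℤ) + 1),
      ENNReal.ofReal (aut k v) * (s i).indicator 1 (v : ℝ) := by
    intro i
    unfold autD
    rw [Measure.finsetSum_apply]
    refine Finset.sum_congr rfl fun v _ => ?_
    rw [Measure.smul_apply, smul_eq_mul, Measure.dirac_apply' _ (hs i)]
  rw [Finset.prod_congr rfl fun i _ => h1 i, Finset.prod_univ_sum, Measure.finsetSum_apply]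
  refine Finset.sum_congr rfl fun v _ => ?_
  rw [Measure.smul_apply, smul_eq_mul, Measure.dirac_apply' _ (MeasurableSet.univ_pi hs),
    Finset.prod_mul_distrib]
  congr 1
  · unfold Aut
    rw [ENNReal.ofReal_prod_of_nonneg fun i _ => aut_nonneg k _]
    rfl
  · by_cases h : iv v ∈ Set.pi Set.univ s
    · rw [Set.indicator_of_mem h]
      symm
      refine Finset.prod_eq_one fun i _ => ?_
      have : ((v i : ℤ) : ℝ) ∈ s i := h i trivial
      rw [Set.indicator_of_mem this]
      rfl
    · rw [Set.indicator_of_notMem h]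
      have : ∃ i, ((v i : ℤ) : ℝ) ∉ s i := by
        by_contra hcon
        push Not at hcon
        exact h fun i _ => hcon i
      obtain ⟨i, hi⟩ := this
      symm
      exact Finset.prod_eq_zero (Finset.mem_univ i) (Set.indicator_of_notMem hi _)

theorem le7b_integral_pi_autD (g : (Fin d → ℝ) → ℝ) :
    ∫ y, g y ∂(Measure.pi fun _ => autD k) = ∑ v ∈ boxD d k, Aut k (iv v) * g (iv v) := by
  rw [pi_autD, integral_finsetSum_measure]
  · refine Finset.sum_congr rfl fun v _ => ?_
    rw [integral_smul_measure, integral_dirac, ENNReal.toReal_ofReal (Aut_nonneg k _), smul_eq_mul]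
  · intro v _
    exact (integrable_dirac enorm_lt_top).smul_measure ENNReal.ofReal_ne_top

/-! ### the discrete correlation -/

/-- a large box -/
noncomputable def boxR (d k m : ℕ) : Finset (Fin d → ℤ) :=
  Fintype.piFinset fun _ => Finset.Icc (-((m : ℤ) + k + 1)) ((m : ℤ) + k + 1)

theorem sum_shift_Win (n' : IW d k m) (u : Fin d → ℝ) (hu : u ∈ cube d) (f : (Fin d → ℝ) → ℝ) :
    ∑ n : IW d k m, Win k m (pt n u) * f (fun i => ((n i : ℕ) : ℝ) - ((n' i : ℕ) : ℝ)) =
      ∑ w ∈ boxR d k m, Win k m (pt n' u + iv w) * f (iv w) := by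
  refine Finset.sum_of_injOn (fun n => fun l => ((n l : ℕ) : ℤ) - ((n' l : ℕ) : ℤ)) ?_ ?_ ?_ ?_
  · intro n _ n1 _ h
    funext l
    have := congrFun h l
    simp only at this
    apply Fin.ext
    omega
  · intro n _
    rw [Finset.mem_coe, boxR, Fintype.mem_piFinset]
    intro l
    rw [Finset.mem_Icc]
    have h1 := (n l).isLt
    have h2 := (n' l).isLt
    constructor <;> dsimp only <;> omega
  · intro w _ hw
    by_contra hne
    have h0 : Win k m (pt n' u + iv w) ≠ 0 := left_ne_zero_of_mul hne
    have h1 : ∀ l, 0 ≤ (pt n' u + iv w) l ∧ (pt n' u + iv w) l < (m : ℝ) + k := by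
      intro l
      by_contra hl
      apply h0
      refine Win_eq_zero k m _ ⟨l, ?_⟩
      by_contra hcon
      push Not at hcon
      exact hl hcon
    apply hw
    have h2 : ∀ l, 0 ≤ ((n' l : ℕ) : ℤ) + w l ∧ ((n' l : ℕ) : ℤ) + w l < m + k + 1 := by
      intro l
      have h3 := h1 l
      have h4 := hu l trivial
      simp only [pt, iv, Pi.add_apply] at h3
      constructor
      · have : (-1 : ℝ) < ((n' l : ℕ) : ℤ) + w l := by
          push_cast
          linarith [h3.1, h4.2]
        have : (-1 : ℤ) < ((n' l : ℕ) : ℤ) + w l := by exact_mod_cast this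
        omega
      · have : (((n' l : ℕ) : ℤ) : ℝ) + w l < (m : ℝ) + k + 1 := by
          push_cast
          linarith [h3.2, h4.1]
        exact_mod_cast this
    refine ⟨fun l => ⟨(((n' l : ℕ) : ℤ) + w l).toNat, by have := h2 l; omega⟩,
      Finset.mem_coe.2 (Finset.mem_univ _), ?_⟩
    funext l
    have := h2 l
    dsimp only
    omega
  · intro n _
    have h1 : (pt n' u + iv fun l => ((n l : ℕ) : ℤ) - ((n' l : ℕ) : ℤ)) = pt n u := by
      funext l
      simp only [pt, iv, Pi.add_apply]
      push_cast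
      ring
    have h2 : (iv fun l => ((n l : ℕ) : ℤ) - ((n' l : ℕ) : ℤ)) =
        fun i => ((n i : ℕ) : ℝ) - ((n' i : ℕ) : ℝ) := by
      funext l
      simp only [iv]
      push_cast
      ring
    rw [h1, h2]

theorem sum_shift_Aut (i i' : Fin d → Fin m) (f : (Fin d → ℝ) → ℝ) :
    ∑ v ∈ boxD d k, Aut k (iv v) * f (iv (fun l => ((i l : ℕ) : ℤ) - ((i' l : ℕ) : ℤ)) + iv v) =
      ∑ w ∈ boxR d k m, Aut k (iv w - iv (fun l => ((i l : ℕ) : ℤ) - ((i' l : ℕ) : ℤ))) * f (iv w) := by
  refine Finset.sum_of_injOn (fun v => fun l => v l + (((i l : ℕ) : ℤ) - ((i' l : ℕ) : ℤ))) ?_ ?_ ?_ ?_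
  · intro n _ n1 _ h
    funext l
    have := congrFun h l
    simp only at this
    omega
  · intro v hv
    rw [Finset.mem_coe, boxD, Fintype.mem_piFinset] at hv
    rw [Finset.mem_coe, boxR, Fintype.mem_piFinset]
    intro l
    have h3 := hv l
    rw [Finset.mem_Icc] at h3 ⊢
    have h1 := (i l).isLt
    have h2 := (i' l).isLt
    constructor <;> dsimp only <;> omega
  · intro w _ hw
    rw [Aut_eq_zero, zero_mul]
    by_contra hcon
    push Not at hcon
    apply hw
    refine ⟨fun l => w l - (((i l : ℕ) : ℤ) - ((i' l : ℕ) : ℤ)), ?_, ?_⟩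
    · rw [Finset.mem_coe, boxD, Fintype.mem_piFinset]
      intro l
      have h1 := hcon l
      simp only [iv, Pi.sub_apply] at h1
      have h2 : |w l - (((i l : ℕ) : ℤ) - ((i' l : ℕ) : ℤ))| < (k : ℤ) + 1 := by exact_mod_cast h1
      rw [abs_lt] at h2
      rw [Finset.mem_Icc]
      omega
    · funext l
      dsimp only
      ring
  · intro v _
    have h1 : (iv fun l => v l + (((i l : ℕ) : ℤ) - ((i' l : ℕ) : ℤ))) =
        iv (fun l => ((i l : ℕ) : ℤ) - ((i' l : ℕ) : ℤ)) + iv v := by
      funext l
      simp only [iv, Pi.add_apply]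
      push_cast
      ring
    rw [h1, add_sub_cancel_left]

theorem corr_discrete (f : (Fin d → ℝ) → ℝ) :
    ∫ u in cube d, ∑ n : IW d k m, ∑ n' : IW d k m,
        Win k m (pt n u) * Win k m (pt n' u) * f (fun i => ((n i : ℕ) : ℝ) - ((n' i : ℕ) : ℝ)) =
      ∑ i : Fin d → Fin m, ∑ i' : Fin d → Fin m,
        ∫ y, f (iv (fun l => ((i l : ℕ) : ℤ) - ((i' l : ℕ) : ℤ)) + y)
          ∂(Measure.pi fun _ => autD k) := by
  have h1 : ∀ u ∈ cube d, ∑ n : IW d k m, ∑ n' : IW d k m,
        Win k m (pt n u) * Win k m (pt n' u) * f (fun i => ((n i : ℕ) : ℝ) - ((n' i : ℕ) : ℝ)) =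
      ∑ w ∈ boxR d k m, f (iv w) * ∑ n' : IW d k m,
        Win k m (pt n' u) * Win k m (pt n' u + iv w) := by
    intro u hu
    rw [Finset.sum_comm]
    have h2 : ∀ n' : IW d k m, ∑ n : IW d k m, Win k m (pt n u) * Win k m (pt n' u) *
        f (fun i => ((n i : ℕ) : ℝ) - ((n' i : ℕ) : ℝ)) =
        ∑ w ∈ boxR d k m, Win k m (pt n' u) * (Win k m (pt n' u + iv w) * f (iv w)) := by
      intro n'
      rw [← Finset.mul_sum, ← sum_shift_Win k m n' u hu f, Finset.mul_sum]
      refine Finset.sum_congr rfl fun n _ => ?_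
      ring
    rw [Finset.sum_congr rfl fun n' _ => h2 n', Finset.sum_comm]
    refine Finset.sum_congr rfl fun w _ => ?_
    rw [Finset.mul_sum]
    refine Finset.sum_congr rfl fun n' _ => ?_
    ring
  rw [setIntegral_congr_fun cube_measurable h1]
  have hint : ∀ (w : Fin d → ℤ) (n' : IW d k m),
      Integrable (fun u => Win k m (pt n' u) * Win k m (pt n' u + iv w)) := by
    intro w n'
    exact (Win_mul_integrable k m (iv w)).comp_add_left (fun i => ((n' i : ℕ) : ℝ))
  rw [integral_finsetSum _ fun w _ => ((integrable_finsetSum _ fun n' _ =>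
    (hint w n').integrableOn).const_mul _)]
  have h3 : ∀ w ∈ boxR d k m, ∫ u in cube d, f (iv w) * ∑ n' : IW d k m,
      Win k m (pt n' u) * Win k m (pt n' u + iv w) =
      f (iv w) * ∑ i : Fin d → Fin m, ∑ i' : Fin d → Fin m,
        Aut k (iv w - iv (fun l => ((i l : ℕ) : ℤ) - ((i' l : ℕ) : ℤ))) := by
    intro w _
    rw [integral_const_mul, unfold_Win k m (fun p => Win k m (p + iv w)) (Win_mul_integrable k m _),
      corr_Win]
  rw [Finset.sum_congr rfl h3]
  simp_rw [le7b_integral_pi_autD, sum_shift_Aut, Finset.mul_sum]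
  rw [Finset.sum_comm]
  refine Finset.sum_congr rfl fun i _ => ?_
  rw [Finset.sum_comm]
  refine Finset.sum_congr rfl fun i' _ => Finset.sum_congr rfl fun w _ => ?_
  ring

/-! ### the continuous correlation -/

theorem loc_mul {f : (Fin d → ℝ) → ℝ} (hf : LocallyIntegrable f) {g : (Fin d → ℝ) → ℝ}
    (hg : Measurable g) (hg1 : ∀ y, |g y| ≤ 1) {K : Set (Fin d → ℝ)} (hK : IsCompact K)
    (h0 : ∀ y, y ∉ K → g y = 0) : Integrable (fun y => g y * f y) := by
  have h := (hf.integrableOn_isCompact hK).integrable_indicator hK.measurableSet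
  refine h.mono (hg.aestronglyMeasurable.mul hf.aestronglyMeasurable)
    (Eventually.of_forall fun y => ?_)
  by_cases hy : y ∈ K
  · rw [Set.indicator_of_mem hy, norm_mul]
    exact mul_le_of_le_one_left (norm_nonneg _) (by simpa using hg1 y)
  · rw [h0 y hy, zero_mul, norm_zero]
    exact norm_nonneg _

theorem Aut_shift_integrable {f : (Fin d → ℝ) → ℝ} (hf : LocallyIntegrable f) (c : Fin d → ℝ) :
    Integrable (fun y => Aut k (y - c) * f y) := by
  refine loc_mul hf ((Aut_measurable k).comp (measurable_id.sub_const c)) (fun y => ?_)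
    (K := Set.Icc (fun l => c l - (k + 1)) (fun l => c l + (k + 1))) isCompact_Icc fun y hy => ?_
  · rw [abs_of_nonneg (Aut_nonneg k _)]
    exact Aut_le_one k _
  · refine Aut_eq_zero k _ ?_
    by_contra hcon
    push Not at hcon
    apply hy
    constructor
    · intro l
      have := (abs_lt.1 (hcon l)).1
      simp only [Pi.sub_apply] at this
      dsimp only
      linarith
    · intro l
      have := (abs_lt.1 (hcon l)).2
      simp only [Pi.sub_apply] at this
      dsimp only
      linarith

theorem Win_prod_integrable {f : (Fin d → ℝ) → ℝ} (hf : LocallyIntegrable f) :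
    Integrable (fun z : (Fin d → ℝ) × (Fin d → ℝ) =>
      Win k m z.2 * Win k m (z.2 + z.1) * f z.1) (volume.prod volume) := by
  have hK : IsCompact (Set.Icc (fun _ : Fin d => -((m : ℝ) + k)) (fun _ => (m : ℝ) + k)) :=
    isCompact_Icc
  have h := ((hf.integrableOn_isCompact hK).integrable_indicator hK.measurableSet).mul_prod
    (Win_integrable k m (d := d))
  refine h.mono ?_ (Eventually.of_forall fun z => ?_)
  · refine AEStronglyMeasurable.mul ?_ hf.aestronglyMeasurable.comp_fst
    exact (((Win_measurable k m).comp measurable_snd).mul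
      ((Win_measurable k m).comp (measurable_snd.add measurable_fst))).aestronglyMeasurable
  · by_cases hz : z.1 ∈ Set.Icc (fun _ : Fin d => -((m : ℝ) + k)) (fun _ => (m : ℝ) + k)
    · rw [Set.indicator_of_mem hz, norm_mul, norm_mul, norm_mul, mul_comm ‖f z.1‖]
      refine mul_le_mul_of_nonneg_right ?_ (norm_nonneg _)
      refine mul_le_of_le_one_right (norm_nonneg _) ?_
      rw [Real.norm_eq_abs, abs_of_nonneg (Win_nonneg k m _)]
      exact Win_le_one k m _
    · have h0 : Win k m z.2 * Win k m (z.2 + z.1) = 0 := by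
        by_contra hne
        have h1 : ∀ (p : Fin d → ℝ), Win k m p ≠ 0 → ∀ l, 0 ≤ p l ∧ p l < (m : ℝ) + k := by
          intro p hp l
          by_contra hl
          apply hp
          refine Win_eq_zero k m _ ⟨l, ?_⟩
          by_contra hcon
          push Not at hcon
          exact hl hcon
        have h2 := h1 _ (left_ne_zero_of_mul hne)
        have h3 := h1 _ (right_ne_zero_of_mul hne)
        apply hz
        constructor
        · intro l
          have h4 := h2 l
          have h5 := h3 l
          simp only [Pi.add_apply] at h5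
          dsimp only
          linarith [h4.2, h5.1]
        · intro l
          have h4 := h2 l
          have h5 := h3 l
          simp only [Pi.add_apply] at h5
          dsimp only
          linarith [h4.1, h5.2]
      rw [h0, zero_mul, norm_zero]
      exact norm_nonneg _

theorem corr_continuous (f : (Fin d → ℝ) → ℝ) (hf : LocallyIntegrable f) :
    ∫ p : Fin d → ℝ, ∫ p' : Fin d → ℝ, Win k m p * Win k m p' * f (p - p') =
      ∑ i : Fin d → Fin m, ∑ i' : Fin d → Fin m,
        ∫ y, f (iv (fun l => ((i l : ℕ) : ℤ) - ((i' l : ℕ) : ℤ)) + y)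
          ∂(Measure.pi fun _ => autM k) := by
  have hG := Win_prod_integrable k m hf
  have hmp := measurePreserving_sub_prod (volume : Measure (Fin d → ℝ)) (volume : Measure (Fin d → ℝ))
  have hF : Integrable (fun z : (Fin d → ℝ) × (Fin d → ℝ) =>
      Win k m z.1 * Win k m z.2 * f (z.1 - z.2)) (volume.prod volume) := by
    have h1 := hmp.integrable_comp_of_integrable hG
    refine h1.congr (Eventually.of_forall fun z => ?_)
    simp only [Function.comp]
    rw [add_sub_cancel]
    ring
  have h1 : ∫ p : Fin d → ℝ, ∫ p' : Fin d → ℝ, Win k m p * Win k m p' * f (p - p') =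
      ∫ z : (Fin d → ℝ) × (Fin d → ℝ), Win k m z.1 * Win k m z.2 * f (z.1 - z.2)
        ∂(volume.prod volume) := (integral_prod _ hF).symm
  have h2 : ∫ z : (Fin d → ℝ) × (Fin d → ℝ), Win k m z.1 * Win k m z.2 * f (z.1 - z.2)
        ∂(volume.prod volume) = ∫ z : (Fin d → ℝ) × (Fin d → ℝ),
          Win k m z.2 * Win k m (z.2 + z.1) * f z.1 ∂(volume.prod volume) := by
    have h3 := integral_map hmp.measurable.aemeasurable
      (f := fun z : (Fin d → ℝ) × (Fin d → ℝ) => Win k m z.2 * Win k m (z.2 + z.1) * f z.1)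
      (by rw [hmp.map_eq]; exact hG.aestronglyMeasurable)
    rw [hmp.map_eq] at h3
    rw [h3]
    refine integral_congr_ae (Eventually.of_forall fun z => ?_)
    dsimp only
    rw [add_sub_cancel]
    ring
  rw [h1, h2, integral_prod _ hG]
  have h4 : ∀ y : Fin d → ℝ, ∫ p : Fin d → ℝ, Win k m p * Win k m (p + y) * f y =
      ∑ i : Fin d → Fin m, ∑ i' : Fin d → Fin m,
        Aut k (y - iv (fun l => ((i l : ℕ) : ℤ) - ((i' l : ℕ) : ℤ))) * f y := by
    intro y
    rw [integral_mul_const, corr_Win, Finset.sum_mul]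
    refine Finset.sum_congr rfl fun i _ => ?_
    rw [Finset.sum_mul]
  simp_rw [h4]
  rw [integral_finsetSum _ fun i _ => integrable_finsetSum _ fun i' _ =>
    Aut_shift_integrable k hf _]
  refine Finset.sum_congr rfl fun i _ => ?_
  rw [integral_finsetSum _ fun i' _ => Aut_shift_integrable k hf _]
  refine Finset.sum_congr rfl fun i' _ => ?_
  rw [le7b_integral_pi_autM, ← integral_add_left_eq_self (fun y => Aut k (y -
    iv (fun l => ((i l : ℕ) : ℤ) - ((i' l : ℕ) : ℤ))) * f y)
    (iv (fun l => ((i l : ℕ) : ℤ) - ((i' l : ℕ) : ℤ)))]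
  refine integral_congr_ae (Eventually.of_forall fun y => ?_)
  dsimp only
  rw [add_sub_cancel_left]

end LE7b

end Pool.Agent.Helper78.LE
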