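import Pool.Agent.Helper78.LE.LE0
import Pool.Agent.Helper78.LE.LE1
import Pool.Agent.Helper78.LE.LE7b

/-!
Project LE (helper78, MP_d7f1f6_an), module LE12: one window (helper26).
-/

set_option autoImplicit false

open MeasureTheory Set Filter Topology

namespace Pool.Agent.Helper78.LE

section LE12
variable {d : ℕ} (b : Module.Basis (Fin d) ℝ (EV d)) (k m : ℕ)

theorem FF_measurable : Measurable (FF b) := by
  unfold FF
  exact (Real.measurable_log.comp (lin_continuous b).norm.measurable).neg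

theorem abs_FF_le : ∃ C : ℝ, 0 ≤ C ∧ ∀ s : Fin d → ℝ, |FF b s| ≤ |Real.log ‖s‖| + C := by
  obtain ⟨c, C, hc, hC, h⟩ := lin_bounds b
  refine ⟨|Real.log c| + |Real.log C|, by positivity, fun s => ?_⟩
  by_cases hs : s = 0
  · subst hs
    have : lin b 0 = 0 := (lin_eq_zero b 0).2 rfl
    simp only [FF, this, norm_zero, Real.log_zero, neg_zero, abs_zero]
    positivity
  · have hs' : 0 < ‖s‖ := norm_pos_iff.2 hs
    obtain ⟨h1, h2⟩ := h s
    have hl : 0 < ‖lin b s‖ := lt_of_lt_of_le (by positivity) h1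
    have e1 : Real.log c + Real.log ‖s‖ ≤ Real.log ‖lin b s‖ := by
      rw [← Real.log_mul hc.ne' hs'.ne']
      exact Real.log_le_log (by positivity) h1
    have e2 : Real.log ‖lin b s‖ ≤ Real.log C + Real.log ‖s‖ := by
      rw [← Real.log_mul hC.ne' hs'.ne']
      exact Real.log_le_log hl h2
    unfold FF
    rw [abs_neg, abs_le]
    have a1 := neg_abs_le (Real.log c)
    have a2 := neg_abs_le (Real.log ‖s‖)
    have a3 := le_abs_self (Real.log C)
    have a4 := le_abs_self (Real.log ‖s‖)
    have a5 := abs_nonneg (Real.log C)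
    have a6 := abs_nonneg (Real.log c)
    constructor <;> linarith

theorem log_norm_integrableOn (R : ℝ) :
    IntegrableOn (fun s : Fin d → ℝ => Real.log ‖s‖) (Metric.ball 0 R) := by
  rcases Nat.eq_zero_or_pos d with rfl | hd
  · have : (fun s : Fin 0 → ℝ => Real.log ‖s‖) = fun _ => (0 : ℝ) := by
      funext s
      rw [Subsingleton.elim s 0]
      simp
    rw [this]
    exact integrableOn_zero
  · have : Nonempty (Fin d) := ⟨⟨0, hd⟩⟩
    have : Nontrivial (Fin d → ℝ) := Function.nontrivial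
    rw [integrableOn_fun_norm_addHaar (E := Fin d → ℝ) (μ := volume) (f := Real.log)]
    have h1 : IntegrableOn Real.log (Ioo 0 R) := by
      rcases le_or_gt R 0 with hR | hR
      · rw [Ioo_eq_empty (by linarith)]
        exact integrableOn_empty
      · have := (intervalIntegral.intervalIntegrable_log' (a := 0) (b := R)).1
        exact this.mono_set Ioo_subset_Ioc_self
    have h2 : IntegrableOn (fun y : ℝ => Real.log y * y ^ (Module.finrank ℝ (Fin d → ℝ) - 1))
        (Ioo 0 R) := by
      refine Integrable.mul_bdd (c := |R| ^ (Module.finrank ℝ (Fin d → ℝ) - 1)) h1 ?_ ?_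
      · exact (continuous_pow _).aestronglyMeasurable
      · refine (ae_restrict_iff' measurableSet_Ioo).2 (ae_of_all _ fun x hx => ?_)
        rw [norm_pow]
        refine pow_le_pow_left₀ (norm_nonneg _) ?_ _
        rw [Real.norm_eq_abs, abs_of_pos hx.1, abs_of_pos (hx.1.trans hx.2)]
        exact hx.2.le
    refine h2.congr_fun (fun y _ => ?_) measurableSet_Ioo
    simp [mul_comm]

theorem FF_locInt : LocallyIntegrable (FF b) := by
  intro x
  refine ⟨Metric.ball 0 (‖x‖ + 1), Metric.isOpen_ball.mem_nhds (by simp), ?_⟩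
  obtain ⟨C, hC, h⟩ := abs_FF_le b
  have h1 : IntegrableOn (fun s : Fin d → ℝ => |Real.log ‖s‖| + C)
      (Metric.ball 0 (‖x‖ + 1)) :=
    (log_norm_integrableOn _).abs.add (integrableOn_const (by
      exact (measure_ball_lt_top).ne) )
  refine Integrable.mono' h1 (FF_measurable b).aestronglyMeasurable (ae_of_all _ fun s => ?_)
  rw [Real.norm_eq_abs]
  exact h s

/-! #### Algebra of one configuration -/

theorem alg_sum {ι : Type*} [Fintype ι] [DecidableEq ι] (w e : ι → ℝ) (F : ι → ι → ℝ) (c : ℝ)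
    (hF : ∀ n, F n n = 0) :
    (∑ n, ∑ n', if n = n' then 0 else w n * w n' * (c + F n n' - e n / 2 - e n' / 2)) =
      c * ((∑ n, w n) ^ 2 - ∑ n, w n * w n) + (∑ n, ∑ n', w n * w n' * F n n') -
        ((∑ n, w n) * (∑ n, w n * e n) - ∑ n, w n * (w n * e n)) := by
  have h1 : ∀ n n', (if n = n' then (0 : ℝ) else
      w n * w n' * (c + F n n' - e n / 2 - e n' / 2)) =
      (c * (w n * w n') + w n * w n' * F n n' - (w n * e n) * w n' / 2 -
        w n * (w n' * e n') / 2) - (if n = n' then w n * w n * (c - e n) else 0) := by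
    intro n n'
    split_ifs with h
    · subst h; rw [hF]; ring
    · ring
  simp_rw [h1, Finset.sum_sub_distrib, Finset.sum_add_distrib, Finset.sum_ite_eq,
    Finset.mem_univ, if_true, ← Finset.mul_sum, ← Finset.sum_div, ← Finset.mul_sum,
    ← Finset.sum_mul]
  have h2 : ∑ n, w n * w n * (c - e n) = c * (∑ n, w n * w n) - ∑ n, w n * (w n * e n) := by
    rw [Finset.mul_sum, ← Finset.sum_sub_distrib]
    exact Finset.sum_congr rfl fun n _ => by ring
  rw [h2]
  ring

/-- `ell` along the window -/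
noncomputable def eW (a : Fin d → ℝ) (ρ : ℝ) (p : Fin d → ℝ) : ℝ := ell b (a + ρ • p)

theorem eW_continuous (a : Fin d → ℝ) (ρ : ℝ) : Continuous (eW b a ρ) := by
  unfold eW
  exact (ell_continuous b).comp (by fun_prop)

theorem kern_window (a : Fin d → ℝ) (ρ : ℝ) (hρ : 0 < ρ) {p p' : Fin d → ℝ} (h : p ≠ p') :
    kern b (a + ρ • p) (a + ρ • p') =
      -Real.log ρ + FF b (p - p') - eW b a ρ p / 2 - eW b a ρ p' / 2 := by
  have e : a + ρ • p - (a + ρ • p') = ρ • (p - p') := by rw [smul_sub]; abel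
  have h0 : 0 < ‖lin b (p - p')‖ := by
    rw [norm_pos_iff, Ne, lin_eq_zero, sub_eq_zero]
    exact h
  unfold kern FF eW
  rw [e, lin_smul, norm_smul, Real.norm_eq_abs, abs_of_pos hρ,
    Real.log_mul hρ.ne' h0.ne']
  ring

theorem FF_zero : FF b 0 = 0 := by
  unfold FF
  rw [(lin_eq_zero b 0).2 rfl]
  simp

theorem pt_sub {k m : ℕ} (n n' : IW d k m) (u : Fin d → ℝ) :
    pt n u - pt n' u = fun i => ((n i : ℕ) : ℝ) - ((n' i : ℕ) : ℝ) := by
  funext i
  simp [pt]

theorem pt_injective {k m : ℕ} (u : Fin d → ℝ) :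
    Function.Injective (fun n : IW d k m => pt n u) := by
  intro n n' h
  funext i
  have := congrFun h i
  simp only [pt, add_left_inj, Nat.cast_inj] at this
  exact Fin.ext this

/-- internal energy plus rounding cost -/
noncomputable def compE (a : Fin d → ℝ) (ρ l D : ℝ) (u : Fin d → ℝ) : ℝ :=
  (∑ n : IW d k m, ∑ n' : IW d k m, if n = n' then 0 else
    Win k m (pt n u) * Win k m (pt n' u) * kern b (a + ρ • pt n u) (a + ρ • pt n' u)) +
    (Real.log D + Real.log ρ + l) * ∑ n : IW d k m, Win k m (pt n u) * (1 - Win k m (pt n u))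

noncomputable def selfE (a : Fin d → ℝ) (ρ : ℝ) : ℝ :=
  ∫ z : (Fin d → ℝ) × (Fin d → ℝ), Win k m z.1 * Win k m z.2 *
    kern b (a + ρ • z.1) (a + ρ • z.2) ∂(volume.prod volume)

theorem compE_eq (a : Fin d → ℝ) (ρ l D : ℝ) (hρ : 0 < ρ) (u : Fin d → ℝ) :
    compE b k m a ρ l D u =
      -Real.log ρ * ((∑ n : IW d k m, Win k m (pt n u)) ^ 2 -
          ∑ n : IW d k m, Win k m (pt n u) * Win k m (pt n u)) +
        (∑ n : IW d k m, ∑ n' : IW d k m, Win k m (pt n u) * Win k m (pt n' u) *
          FF b (fun i => ((n i : ℕ) : ℝ) - ((n' i : ℕ) : ℝ))) -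
        ((∑ n : IW d k m, Win k m (pt n u)) *
            (∑ n : IW d k m, Win k m (pt n u) * eW b a ρ (pt n u)) -
          ∑ n : IW d k m, Win k m (pt n u) * (Win k m (pt n u) * eW b a ρ (pt n u))) +
        (Real.log D + Real.log ρ + l) * ((∑ n : IW d k m, Win k m (pt n u)) -
          ∑ n : IW d k m, Win k m (pt n u) * Win k m (pt n u)) := by
  unfold compE
  rw [← alg_sum (fun n : IW d k m => Win k m (pt n u)) (fun n => eW b a ρ (pt n u))
    (fun n n' => FF b (fun i => ((n i : ℕ) : ℝ) - ((n' i : ℕ) : ℝ))) (-Real.log ρ)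
    (fun n => by
      have : (fun i => ((n i : ℕ) : ℝ) - ((n i : ℕ) : ℝ)) = (0 : Fin d → ℝ) := by
        funext i; simp
      rw [this, FF_zero])]
  congr 1
  · refine Finset.sum_congr rfl fun n _ => Finset.sum_congr rfl fun n' _ => ?_
    split_ifs with h
    · rfl
    · rw [kern_window b a ρ hρ (fun e => h (pt_injective u e)), pt_sub]
  · congr 1
    rw [← Finset.sum_sub_distrib]
    exact Finset.sum_congr rfl fun n _ => by ring

/-! #### Integrability on the cube -/

theorem cube_subset_Icc : cube d ⊆ Icc (0 : Fin d → ℝ) 1 := by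
  intro u hu
  rw [cube, Set.mem_univ_pi] at hu
  exact ⟨fun i => (hu i).1, fun i => (hu i).2.le⟩

theorem measurableSet_cube : MeasurableSet (cube d) :=
  MeasurableSet.univ_pi fun _ => measurableSet_Ico

theorem volume_cube : volume (cube d) = 1 := by
  unfold cube
  rw [Real.volume_pi_Ico]
  simp

theorem pt_continuous {k m : ℕ} (n : IW d k m) : Continuous (fun u : Fin d → ℝ => pt n u) := by
  unfold pt
  fun_prop

theorem intOn_cube {h g : (Fin d → ℝ) → ℝ} (hm : Measurable h) (hb : ∀ u, |h u| ≤ 1)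
    (hg : Continuous g) : IntegrableOn (fun u => h u * g u) (cube d) := by
  have h1 : IntegrableOn g (cube d) :=
    (hg.continuousOn.integrableOn_compact isCompact_Icc).mono_set cube_subset_Icc
  exact h1.bdd_mul (c := 1) hm.aestronglyMeasurable (ae_of_all _ fun u => hb u)

theorem Win_pt_measurable (n : IW d k m) : Measurable (fun u : Fin d → ℝ => Win k m (pt n u)) :=
  (Win_measurable k m).comp (pt_continuous n).measurable

theorem Win_abs_le (p : Fin d → ℝ) : |Win k m p| ≤ 1 := by
  rw [abs_of_nonneg (Win_nonneg k m p)]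
  exact Win_le_one k m p

theorem WW_abs_le (p p' : Fin d → ℝ) : |Win k m p * Win k m p'| ≤ 1 := by
  rw [abs_mul]
  exact mul_le_one₀ (Win_abs_le k m p) (abs_nonneg _) (Win_abs_le k m p')

theorem intA : IntegrableOn (fun u : Fin d → ℝ =>
    ∑ n : IW d k m, Win k m (pt n u) * Win k m (pt n u)) (cube d) := by
  refine integrable_finsetSum _ fun n _ => ?_
  have := intOn_cube (d := d) (h := fun u => Win k m (pt n u) * Win k m (pt n u))
    (g := fun _ => 1) ((Win_pt_measurable k m n).mul (Win_pt_measurable k m n))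
    (fun u => WW_abs_le k m _ _) continuous_const
  exact Integrable.congr this (ae_of_all _ fun u => by simp)

theorem intB : IntegrableOn (fun u : Fin d → ℝ =>
    ∑ n : IW d k m, ∑ n' : IW d k m, Win k m (pt n u) * Win k m (pt n' u) *
          FF b (fun i => ((n i : ℕ) : ℝ) - ((n' i : ℕ) : ℝ))) (cube d) := by
  refine integrable_finsetSum _ fun n _ => integrable_finsetSum _ fun n' _ => ?_
  exact intOn_cube (d := d) (h := fun u => Win k m (pt n u) * Win k m (pt n' u))
    (g := fun _ => FF b (fun i => ((n i : ℕ) : ℝ) - ((n' i : ℕ) : ℝ)))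
    ((Win_pt_measurable k m n).mul (Win_pt_measurable k m n'))
    (fun u => WW_abs_le k m _ _) continuous_const

theorem intE1 (a : Fin d → ℝ) (ρ : ℝ) : IntegrableOn (fun u : Fin d → ℝ =>
    ∑ n : IW d k m, Win k m (pt n u) * eW b a ρ (pt n u)) (cube d) := by
  refine integrable_finsetSum _ fun n _ => ?_
  exact intOn_cube (d := d) (h := fun u => Win k m (pt n u))
    (g := fun u => eW b a ρ (pt n u)) (Win_pt_measurable k m n)
    (fun u => Win_abs_le k m _) ((eW_continuous b a ρ).comp (pt_continuous n))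

theorem intE2 (a : Fin d → ℝ) (ρ : ℝ) : IntegrableOn (fun u : Fin d → ℝ =>
    ∑ n : IW d k m, Win k m (pt n u) * (Win k m (pt n u) * eW b a ρ (pt n u))) (cube d) := by
  refine integrable_finsetSum _ fun n _ => ?_
  have := intOn_cube (d := d) (h := fun u => Win k m (pt n u) * Win k m (pt n u))
    (g := fun u => eW b a ρ (pt n u))
    ((Win_pt_measurable k m n).mul (Win_pt_measurable k m n))
    (fun u => WW_abs_le k m _ _) ((eW_continuous b a ρ).comp (pt_continuous n))
  exact Integrable.congr this (ae_of_all _ fun u => by simp [mul_assoc])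

/-- the formula on the cube -/
theorem compE_cube (a : Fin d → ℝ) (ρ l D : ℝ) (hρ : 0 < ρ) (u : Fin d → ℝ) (hu : u ∈ cube d) :
    compE b k m a ρ l D u =
      (-Real.log ρ * ((m : ℝ) ^ d) ^ 2 + (Real.log D + Real.log ρ + l) * (m : ℝ) ^ d) +
      (-(Real.log D + l)) * (∑ n : IW d k m, Win k m (pt n u) * Win k m (pt n u)) +
        (∑ n : IW d k m, ∑ n' : IW d k m, Win k m (pt n u) * Win k m (pt n' u) *
          FF b (fun i => ((n i : ℕ) : ℝ) - ((n' i : ℕ) : ℝ))) +
        (-(m : ℝ) ^ d) * (∑ n : IW d k m, Win k m (pt n u) * eW b a ρ (pt n u)) +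
          ∑ n : IW d k m, Win k m (pt n u) * (Win k m (pt n u) * eW b a ρ (pt n u)) := by
  rw [compE_eq b k m a ρ l D hρ, sum_Win k m u hu]
  ring

theorem intConst (c : ℝ) : IntegrableOn (fun _ : Fin d → ℝ => c) (cube d) :=
  integrableOn_const (by rw [volume_cube]; exact ENNReal.one_ne_top)

theorem integral_lin {α : Type*} [MeasurableSpace α] {μ : Measure α} {f A B C E : α → ℝ}
    (hf : Integrable f μ) (hA : Integrable A μ) (hB : Integrable B μ) (hC : Integrable C μ)
    (hE : Integrable E μ) (x y : ℝ) :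
    ∫ a, (f a + x * A a + B a + y * C a + E a) ∂μ =
      (∫ a, f a ∂μ) + x * (∫ a, A a ∂μ) + (∫ a, B a ∂μ) + y * (∫ a, C a ∂μ) + ∫ a, E a ∂μ := by
  have h1 : Integrable (fun a => f a + x * A a) μ := hf.add (hA.const_mul x)
  have h2 : Integrable (fun a => f a + x * A a + B a) μ := h1.add hB
  have h3 : Integrable (fun a => f a + x * A a + B a + y * C a) μ := h2.add (hC.const_mul y)
  rw [integral_add h3 hE, integral_add h2 (hC.const_mul y), integral_add h1 hB,
    integral_add hf (hA.const_mul x), integral_const_mul, integral_const_mul]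

theorem comp_integrable (a : Fin d → ℝ) (ρ l D : ℝ) (hρ : 0 < ρ) :
    IntegrableOn (compE b k m a ρ l D) (cube d) := by
  refine IntegrableOn.congr_fun (?_ : IntegrableOn (fun u => _) (cube d))
    (fun u hu => (compE_cube b k m a ρ l D hρ u hu).symm) measurableSet_cube
  exact ((((intConst _).add ((intA k m).const_mul _)).add (intB b k m)).add
    ((intE1 b k m a ρ).const_mul _)).add (intE2 b k m a ρ)

theorem integral_compE (a : Fin d → ℝ) (ρ l D : ℝ) (hρ : 0 < ρ) :
    ∫ u in cube d, compE b k m a ρ l D u =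
      (-Real.log ρ * ((m : ℝ) ^ d) ^ 2 + (Real.log D + Real.log ρ + l) * (m : ℝ) ^ d) +
      (-(Real.log D + l)) * (∫ u in cube d, ∑ n : IW d k m, Win k m (pt n u) * Win k m (pt n u)) +
        (∫ u in cube d, ∑ n : IW d k m, ∑ n' : IW d k m, Win k m (pt n u) * Win k m (pt n' u) *
          FF b (fun i => ((n i : ℕ) : ℝ) - ((n' i : ℕ) : ℝ))) +
        (-(m : ℝ) ^ d) *
          (∫ u in cube d, ∑ n : IW d k m, Win k m (pt n u) * eW b a ρ (pt n u)) +
          ∫ u in cube d, ∑ n : IW d k m,
            Win k m (pt n u) * (Win k m (pt n u) * eW b a ρ (pt n u)) := by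
  rw [setIntegral_congr_fun measurableSet_cube (fun u hu => compE_cube b k m a ρ l D hρ u hu)]
  rw [integral_lin (intConst _) (intA k m) (intB b k m) (intE1 b k m a ρ) (intE2 b k m a ρ),
    setIntegral_const]
  simp [Measure.real, volume_cube]

/-! #### Integrals over the window -/

theorem Win_eq_zero' {p : Fin d → ℝ} (h : p ∉ Icc (0 : Fin d → ℝ) (fun _ => (m : ℝ) + k)) :
    Win k m p = 0 := by
  refine Win_eq_zero k m p ?_
  by_contra hc
  push Not at hc
  exact h ⟨fun i => (hc i).1, fun i => (hc i).2.le⟩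

theorem WE_integrable (a : Fin d → ℝ) (ρ : ℝ) :
    Integrable (fun p => Win k m p * eW b a ρ p) := by
  have h1 : Integrable ((Icc (0 : Fin d → ℝ) (fun _ => (m : ℝ) + k)).indicator (eW b a ρ)) := by
    rw [integrable_indicator_iff measurableSet_Icc]
    exact (eW_continuous b a ρ).continuousOn.integrableOn_compact isCompact_Icc
  refine (h1.bdd_mul (c := 1) (Win_measurable k m).aestronglyMeasurable
    (ae_of_all _ fun u => Win_abs_le k m u)).congr (ae_of_all _ fun p => ?_)
  by_cases hp : p ∈ Icc (0 : Fin d → ℝ) (fun _ => (m : ℝ) + k)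
  · simp only [Set.indicator_of_mem hp]
  · simp only [Win_eq_zero' k m hp, zero_mul]

theorem WWE_integrable (a : Fin d → ℝ) (ρ : ℝ) :
    Integrable (fun p => Win k m p * (Win k m p * eW b a ρ p)) :=
  (WE_integrable b k m a ρ).bdd_mul (c := 1) (Win_measurable k m).aestronglyMeasurable
    (ae_of_all _ fun u => Win_abs_le k m u)

theorem WW_integrable : Integrable (fun p : Fin d → ℝ => Win k m p * Win k m p) :=
  (Win_integrable k m).bdd_mul (c := 1) (Win_measurable k m).aestronglyMeasurable
    (ae_of_all _ fun u => Win_abs_le k m u)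

/-- the box containing all differences -/
def Kbox (d k m : ℕ) : Set (Fin d → ℝ) := Icc (fun _ => -((m : ℝ) + k)) (fun _ => (m : ℝ) + k)

theorem WWF_aux (p q : Fin d → ℝ) :
    Win k m p * ((Kbox d k m).indicator (FF b) (p - q) * Win k m q) =
      Win k m p * Win k m q * FF b (p - q) := by
  by_cases ha : p ∈ Icc (0 : Fin d → ℝ) (fun _ => (m : ℝ) + k)
  · by_cases hb : q ∈ Icc (0 : Fin d → ℝ) (fun _ => (m : ℝ) + k)
    · have : p - q ∈ Kbox d k m := by
        refine ⟨fun i => ?_, fun i => ?_⟩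
        · have h1 : 0 ≤ p i := ha.1 i
          have h2 : q i ≤ (m : ℝ) + k := hb.2 i
          simp only [Pi.sub_apply]
          linarith
        · have h1 : p i ≤ (m : ℝ) + k := ha.2 i
          have h2 : 0 ≤ q i := hb.1 i
          simp only [Pi.sub_apply]
          linarith
      rw [Set.indicator_of_mem this]
      ring
    · rw [Win_eq_zero' k m hb]; ring
  · rw [Win_eq_zero' k m ha]; ring

theorem WWF_integrable : Integrable (fun z : (Fin d → ℝ) × (Fin d → ℝ) =>
    Win k m z.1 * Win k m z.2 * FF b (z.1 - z.2)) (volume.prod volume) := by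
  have h1 : Integrable ((Kbox d k m).indicator (FF b)) := by
    rw [integrable_indicator_iff (s := Kbox d k m) measurableSet_Icc]
    exact (FF_locInt b).integrableOn_isCompact isCompact_Icc
  have h2 : Integrable (fun z : (Fin d → ℝ) × (Fin d → ℝ) =>
      (Kbox d k m).indicator (FF b) z.1 * Win k m z.2) (volume.prod volume) :=
    h1.mul_prod (Win_integrable k m)
  have h3 : Integrable (fun z : (Fin d → ℝ) × (Fin d → ℝ) =>
      (Kbox d k m).indicator (FF b) (z.1 - z.2) * Win k m z.2) (volume.prod volume) :=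
    (measurePreserving_sub_prod (volume : Measure (Fin d → ℝ))
      (volume : Measure (Fin d → ℝ))).integrable_comp_of_integrable h2
  have h4 : Integrable (fun z : (Fin d → ℝ) × (Fin d → ℝ) =>
      Win k m z.1 * ((Kbox d k m).indicator (FF b) (z.1 - z.2) * Win k m z.2))
      (volume.prod volume) := 
    h3.bdd_mul (c := 1) ((Win_measurable k m).comp measurable_fst).aestronglyMeasurable
      (ae_of_all _ fun u => Win_abs_le k m u.1)
  refine h4.congr (ae_of_all _ fun z => ?_)
  exact WWF_aux b k m z.1 z.2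

theorem ae_ne (hd : 0 < d) : ∀ᵐ z : (Fin d → ℝ) × (Fin d → ℝ) ∂(volume.prod volume),
    z.1 ≠ z.2 := by
  have : Nonempty (Fin d) := ⟨⟨0, hd⟩⟩
  rw [Measure.ae_prod_iff_ae_ae]
  · refine ae_of_all _ fun x => ?_
    have : (volume : Measure (Fin d → ℝ)) {x} = 0 := by
      exact measure_singleton x
    rw [ae_iff]
    convert this using 2
    ext y
    simp [eq_comm]
  · exact (measurableSet_eq_fun measurable_fst measurable_snd).compl

theorem selfE_eq (hd : 0 < d) (a : Fin d → ℝ) (ρ : ℝ) (hρ : 0 < ρ) :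
    selfE b k m a ρ = -Real.log ρ * ((m : ℝ) ^ d) ^ 2 +
      (∫ p : Fin d → ℝ, ∫ p' : Fin d → ℝ, Win k m p * Win k m p' * FF b (p - p')) -
      (m : ℝ) ^ d * ∫ p : Fin d → ℝ, Win k m p * eW b a ρ p := by
  have i1 : Integrable (fun z : (Fin d → ℝ) × (Fin d → ℝ) => Win k m z.1 * Win k m z.2)
    (volume.prod volume) := (Win_integrable k m).mul_prod (Win_integrable k m)
  have i2 : Integrable (fun z : (Fin d → ℝ) × (Fin d → ℝ) =>
      (Win k m z.1 * eW b a ρ z.1) * Win k m z.2) (volume.prod volume) :=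
    (WE_integrable b k m a ρ).mul_prod (Win_integrable k m)
  have i3 : Integrable (fun z : (Fin d → ℝ) × (Fin d → ℝ) =>
      Win k m z.1 * (Win k m z.2 * eW b a ρ z.2)) (volume.prod volume) :=
    (Win_integrable k m).mul_prod (WE_integrable b k m a ρ)
  have i0 : Integrable (fun _ : (Fin d → ℝ) × (Fin d → ℝ) => (0 : ℝ)) (volume.prod volume) :=
    integrable_zero _ _ _
  have e : selfE b k m a ρ = ∫ z : (Fin d → ℝ) × (Fin d → ℝ),
      (Win k m z.1 * Win k m z.2 * FF b (z.1 - z.2) +
        (-Real.log ρ) * (Win k m z.1 * Win k m z.2) +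
        (-(1 / 2)) * ((Win k m z.1 * eW b a ρ z.1) * Win k m z.2) +
        (-(1 / 2)) * (Win k m z.1 * (Win k m z.2 * eW b a ρ z.2)) + 0) ∂(volume.prod volume) := by
    unfold selfE
    refine integral_congr_ae ?_
    filter_upwards [ae_ne hd] with z hz
    rw [kern_window b a ρ hρ hz]
    ring
  rw [e, integral_lin (WWF_integrable b k m) i1 (i2.const_mul (-(1 / 2)))
    i3 i0 (-Real.log ρ) (-(1 / 2)), integral_const_mul, integral_zero,
    integral_prod _ (WWF_integrable b k m), integral_prod_mul,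
    integral_prod_mul (fun p => Win k m p * eW b a ρ p) (fun p => Win k m p),
    integral_prod_mul (fun p => Win k m p) (fun p => Win k m p * eW b a ρ p), integral_Win]
  ring

theorem comp_formula (hd : 0 < d) (a : Fin d → ℝ) (ρ l D : ℝ) (hρ : 0 < ρ) (hD : 0 < D)
    (hl : ∀ p : Fin d → ℝ, (∀ i, 0 ≤ p i ∧ p i ≤ m + k) → ell b (a + ρ • p) ≤ l) :
    (∫ u in cube d, compE b k m a ρ l D u) - selfE b k m a ρ ≤
      (m : ℝ) ^ d * (Real.log ρ + l) + BW b k m +
        Real.log D * ((m : ℝ) ^ d - ∫ p : Fin d → ℝ, Win k m p ^ 2) := by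
  have hB : (∫ u in cube d, ∑ n : IW d k m, ∑ n' : IW d k m,
      Win k m (pt n u) * Win k m (pt n' u) *
          FF b (fun i => ((n i : ℕ) : ℝ) - ((n' i : ℕ) : ℝ))) -
      (∫ p : Fin d → ℝ, ∫ p' : Fin d → ℝ, Win k m p * Win k m p' * FF b (p - p')) =
        BW b k m := by
    rw [corr_discrete, corr_continuous k m (FF b) (FF_locInt b)]
    unfold BW Gam
    simp_rw [Finset.sum_sub_distrib]
  have hle : ∫ p : Fin d → ℝ, Win k m p * (Win k m p * eW b a ρ p) ≤
      ∫ p : Fin d → ℝ, l * (Win k m p * Win k m p) := by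
    refine integral_mono (WWE_integrable b k m a ρ) ((WW_integrable k m).const_mul l) fun p => ?_
    by_cases hp : p ∈ Icc (0 : Fin d → ℝ) (fun _ => (m : ℝ) + k)
    · have h1 : eW b a ρ p ≤ l := hl p fun i => ⟨hp.1 i, hp.2 i⟩
      have h2 : 0 ≤ Win k m p * Win k m p := mul_self_nonneg _
      calc Win k m p * (Win k m p * eW b a ρ p) = eW b a ρ p * (Win k m p * Win k m p) := by ring
        _ ≤ l * (Win k m p * Win k m p) := mul_le_mul_of_nonneg_right h1 h2
    · simp only [Win_eq_zero' k m hp, zero_mul, mul_zero, le_refl]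
  rw [integral_const_mul] at hle
  have hsq : ∫ p : Fin d → ℝ, Win k m p ^ 2 = ∫ p : Fin d → ℝ, Win k m p * Win k m p := by
    simp_rw [pow_two]
  rw [integral_compE b k m a ρ l D hρ, selfE_eq b k m hd a ρ hρ, hsq,
    unfold_Win k m (Win k m) (WW_integrable k m),
    unfold_Win k m (eW b a ρ) (WE_integrable b k m a ρ),
    unfold_Win k m (fun p => Win k m p * eW b a ρ p) (WWE_integrable b k m a ρ)]
  linarith

end LE12

end Pool.Agent.Helper78.LE
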