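import Pool.Agent.Helper78.LE.PiAut
import Pool.Agent.Helper78.LE.LE12
import Pool.Agent.Helper78.LE.LBDefs
import Pool.Agent.Helper78.LE.LB1

/-!
Project LB: `Gam` as a theta integral.
-/

set_option autoImplicit false

open MeasureTheory Set Filter Topology

namespace Pool.Agent.Helper78.LE

variable {d : ℕ} (b : Module.Basis (Fin d) ℝ (EV d)) (k : ℕ)

namespace LB12

/-- the integrand of the logarithm -/
noncomputable def ph (t : ℝ) (s : Fin d → ℝ) : ℝ := (gau t ‖lin b s‖ - Real.exp (-t)) / t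

theorem ph_int (s : Fin d → ℝ) (hs : s ≠ 0) : IntegrableOn (fun t => ph b t s) (Ioi 0) := by
  have h : 0 < ‖lin b s‖ := norm_pos_iff.2 fun h => hs ((lin_eq_zero b s).1 h)
  exact log_rep_int h

theorem ph_val (s : Fin d → ℝ) (hs : s ≠ 0) : ∫ t in Ioi (0 : ℝ), ph b t s = 2 * FF b s := by
  have h : 0 < ‖lin b s‖ := norm_pos_iff.2 fun h => hs ((lin_eq_zero b s).1 h)
  have := log_rep h
  unfold ph FF
  rw [this]
  ring

theorem ph_abs (s : Fin d → ℝ) (hs : s ≠ 0) : ∫ t in Ioi (0 : ℝ), |ph b t s| = 2 * |FF b s| := by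
  have h : 0 < ‖lin b s‖ := norm_pos_iff.2 fun h => hs ((lin_eq_zero b s).1 h)
  have := log_rep_abs h
  unfold ph FF
  rw [this, abs_neg]

theorem ph_meas : Measurable (fun z : ℝ × (Fin d → ℝ) => ph b z.1 z.2) := by
  unfold ph gau
  have h1 : Measurable (fun z : ℝ × (Fin d → ℝ) => ‖lin b z.2‖) :=
    ((lin_continuous b).norm.measurable).comp measurable_snd
  exact ((Real.measurable_exp.comp ((measurable_fst.mul (h1.pow_const 2)).neg)).sub
    (Real.measurable_exp.comp measurable_fst.neg)).div measurable_fst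

theorem aut_even (y : ℝ) : aut k (-y) = aut k y := by
  rw [aut_eq_cross, aut_eq_cross, cross_symm, neg_neg]

theorem aut_int_zero (z : ℤ) (h : z ∉ Finset.Icc (-(k + 1 : ℤ)) (k + 1)) : aut k z = 0 := by
  apply aut_eq_zero
  rw [Finset.mem_Icc] at h
  have h1 : (k : ℤ) + 1 ≤ |z| := by
    rw [le_abs]
    by_contra hcon
    push Not at hcon
    apply h
    constructor <;> omega
  have h2 : (((k : ℤ) + 1 : ℤ) : ℝ) ≤ ((|z| : ℤ) : ℝ) := Int.cast_le.2 h1
  push_cast at h2
  exact h2

theorem weight_zero (v : Fin d → ℤ) (h : v ∉ bx d k) : ∏ i, aut k (v i) = 0 := by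
  unfold bx at h
  rw [Fintype.mem_piFinset] at h
  push Not at h
  obtain ⟨i, hi⟩ := h
  exact Finset.prod_eq_zero (Finset.mem_univ i) (aut_int_zero k _ hi)

theorem weight_sum : ∑ v ∈ bx d k, ∏ i, aut k (v i) = 1 := by
  have h := Finset.prod_univ_sum (ι := Fin d) (fun _ => Finset.Icc (-(k + 1 : ℤ)) (k + 1))
    (fun _ v => aut k v)
  unfold bx
  rw [← h]
  refine Finset.prod_eq_one fun i _ => ?_
  exact sum_aut k

/-- the discrete part -/
noncomputable def dis (x : Fin d → ℤ) (t : ℝ) : ℝ :=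
  ∑ v ∈ (bx d k).erase (-x), (∏ i, aut k (v i)) * ph b t (iv x + iv v)

theorem iv_add_ne {x v : Fin d → ℤ} (h : v ≠ -x) : iv x + iv v ≠ 0 := by
  intro hc
  apply h
  funext i
  have := congrFun hc i
  simp only [Pi.add_apply, iv, Pi.zero_apply] at this
  have h2 : ((x i + v i : ℤ) : ℝ) = 0 := by push_cast; exact this
  have h3 : x i + v i = 0 := by exact_mod_cast h2
  simp only [Pi.neg_apply]
  omega

theorem iv_add_neg (x : Fin d → ℤ) : iv x + iv (-x) = 0 := by
  funext i
  simp [iv]

theorem weight_neg (x : Fin d → ℤ) : ∏ i, aut k (((-x) i : ℤ) : ℝ) = ∏ i, aut k (x i) := by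
  refine Finset.prod_congr rfl fun i _ => ?_
  rw [Pi.neg_apply]
  push_cast
  exact aut_even k _

/-- splitting off the singular term in a weighted sum -/
theorem sum_split (x : Fin d → ℤ) (f : (Fin d → ℤ) → ℝ) :
    ∑ v ∈ bx d k, (∏ i, aut k (v i)) * f v =
      ∑ v ∈ (bx d k).erase (-x), (∏ i, aut k (v i)) * f v + (∏ i, aut k (x i)) * f (-x) := by
  by_cases h : -x ∈ bx d k
  · rw [← Finset.sum_erase_add _ _ h, weight_neg]
  · rw [Finset.erase_eq_of_notMem h]
    have h0 := weight_zero k (-x) h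
    rw [weight_neg] at h0
    rw [h0, zero_mul, add_zero]

theorem dis_eq (x : Fin d → ℤ) (t : ℝ) :
    dis b k x t = ((∫ y, gau t ‖lin b (iv x + y)‖ ∂(Measure.pi fun _ => autD k)) - Real.exp (-t) -
      (1 - Real.exp (-t)) * ∏ i, aut k (x i)) / t := by
  rw [integral_pi_autD]
  have h1 : ∑ v ∈ bx d k, (∏ i, aut k (v i)) • gau t ‖lin b (iv x + iv v)‖ - Real.exp (-t) =
      ∑ v ∈ bx d k, (∏ i, aut k (v i)) * (gau t ‖lin b (iv x + iv v)‖ - Real.exp (-t)) := by
    simp_rw [mul_sub, Finset.sum_sub_distrib, ← Finset.sum_mul, weight_sum, one_mul, smul_eq_mul]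
  have h2 : gau t ‖lin b (iv x + iv (-x))‖ = 1 := by
    rw [iv_add_neg, (lin_eq_zero b 0).2 rfl]
    simp [gau]
  rw [h1, sum_split k x, h2]
  unfold dis ph
  have h3 : ∀ v : Fin d → ℤ, (∏ i, aut k (v i)) * ((gau t ‖lin b (iv x + iv v)‖ -
      Real.exp (-t)) / t) = ((∏ i, aut k (v i)) * (gau t ‖lin b (iv x + iv v)‖ -
      Real.exp (-t))) / t := fun v => by ring
  simp_rw [h3, ← Finset.sum_div]
  congr 1
  ring

theorem dis_int (x : Fin d → ℤ) : IntegrableOn (dis b k x) (Ioi 0) := by
  unfold dis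
  refine integrable_finset_sum _ fun v hv => ?_
  exact (ph_int b _ (iv_add_ne (Finset.ne_of_mem_erase hv))).const_mul _

theorem dis_val (x : Fin d → ℤ) : ∫ t in Ioi (0 : ℝ), dis b k x t =
    2 * ∫ y, FF b (iv x + y) ∂(Measure.pi fun _ => autD k) := by
  unfold dis
  rw [integral_finset_sum _ fun v hv =>
    (ph_int b _ (iv_add_ne (Finset.ne_of_mem_erase hv))).const_mul _]
  rw [integral_pi_autD]
  simp_rw [smul_eq_mul]
  rw [sum_split k x, iv_add_neg, FF_zero, mul_zero, add_zero, Finset.mul_sum]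
  refine Finset.sum_congr rfl fun v hv => ?_
  rw [integral_const_mul, ph_val b _ (iv_add_ne (Finset.ne_of_mem_erase hv))]
  ring

/-- the continuous law -/
noncomputable abbrev muM (d k : ℕ) : Measure (Fin d → ℝ) := Measure.pi fun _ => autM k

theorem ae_ne' (hd : 0 < d) (c : Fin d → ℝ) : ∀ᵐ y ∂(muM d k), c + y ≠ 0 := by
  have : Nonempty (Fin d) := ⟨⟨0, hd⟩⟩
  have h1 : ∀ᵐ y : Fin d → ℝ ∂volume, c + y ≠ 0 := by
    have h2 : (volume : Measure (Fin d → ℝ)) {-c} = 0 := measure_singleton _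
    rw [ae_iff]
    convert h2 using 2
    ext y
    simp only [ne_eq, not_not, mem_setOf_eq, mem_singleton_iff]
    constructor
    · intro h
      exact (neg_eq_of_add_eq_zero_right h).symm
    · rintro rfl
      simp
  unfold muM
  rw [pi_autM]
  exact (withDensity_absolutelyContinuous _ _).ae_le h1

theorem FF_muM_int (c : Fin d → ℝ) : Integrable (fun y => FF b (c + y)) (muM d k) := by
  unfold muM
  rw [pi_autM, integrable_withDensity_iff_integrable_smul₀'
    (Aut_measurable k).ennreal_ofReal.aemeasurable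
    (Eventually.of_forall fun y => ENNReal.ofReal_lt_top)]
  have h := Aut_shift_integrable k (FF_locInt b) c
  have h2 := h.comp_add_left c
  refine h2.congr (Eventually.of_forall fun y => ?_)
  dsimp only
  rw [ENNReal.toReal_ofReal (Aut_nonneg k y), smul_eq_mul, add_sub_cancel_left]

theorem con_int (hd : 0 < d) (x : Fin d → ℤ) :
    Integrable (fun z : ℝ × (Fin d → ℝ) => ph b z.1 (iv x + z.2))
      ((volume.restrict (Ioi (0 : ℝ))).prod (muM d k)) := by
  have := autM_prob k
  have hm : Measurable (fun z : ℝ × (Fin d → ℝ) => ph b z.1 (iv x + z.2)) :=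
    (ph_meas b).comp (measurable_fst.prodMk (measurable_snd.const_add (iv x)))
  rw [integrable_prod_iff' hm.aestronglyMeasurable]
  constructor
  · filter_upwards [ae_ne' k hd (iv x)] with y hy
    exact ph_int b _ hy
  · have h1 : Integrable (fun y => 2 * |FF b (iv x + y)|) (muM d k) :=
      ((FF_muM_int b k (iv x)).abs).const_mul 2
    refine h1.congr ?_
    filter_upwards [ae_ne' k hd (iv x)] with y hy
    rw [← ph_abs b _ hy]
    rfl

theorem con_eq (x : Fin d → ℤ) (t : ℝ) (ht : 0 < t) :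
    ∫ y, ph b t (iv x + y) ∂(muM d k) =
      ((∫ y, gau t ‖lin b (iv x + y)‖ ∂(muM d k)) - Real.exp (-t)) / t := by
  have := autM_prob k
  unfold ph
  rw [integral_div, integral_sub, integral_const]
  · simp
  · refine Integrable.mono' (integrable_const (1 : ℝ)) ?_ (Eventually.of_forall fun y => ?_)
    · have : Continuous (fun y => gau t ‖lin b (iv x + y)‖) := by
        unfold gau
        have h1 : Continuous (fun y => ‖lin b (iv x + y)‖) :=
          (lin_continuous b).norm.comp (continuous_const.add continuous_id)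
        exact Real.continuous_exp.comp ((continuous_const.mul (h1.pow 2)).neg)
      exact this.aestronglyMeasurable
    · unfold gau
      rw [Real.norm_eq_abs, abs_of_pos (Real.exp_pos _)]
      apply Real.exp_le_one_iff.2
      have : 0 ≤ t * ‖lin b (iv x + y)‖ ^ 2 := by positivity
      linarith
  · exact integrable_const _

end LB12

open LB12 in
theorem Gam_rep (hd : 0 < d) (x : Fin d → ℤ) :
    IntegrableOn (fun t => (GG b k t x - (1 - Real.exp (-t)) * ∏ i, aut k (x i)) / t) (Ioi 0) ∧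
    ∫ t in Ioi (0 : ℝ), (GG b k t x - (1 - Real.exp (-t)) * ∏ i, aut k (x i)) / t =
      2 * Gam b k x := by
  have := autM_prob k
  have hci := con_int b k hd x
  have h1 : IntegrableOn (fun t => ∫ y, ph b t (iv x + y) ∂(muM d k)) (Ioi 0) :=
    hci.integral_prod_left
  have h2 : ∫ t in Ioi (0 : ℝ), ∫ y, ph b t (iv x + y) ∂(muM d k) =
      2 * ∫ y, FF b (iv x + y) ∂(muM d k) := by
    rw [integral_integral_swap hci, ← integral_const_mul]
    refine integral_congr_ae ?_
    filter_upwards [ae_ne' k hd (iv x)] with y hy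
    exact ph_val b _ hy
  have h3 : EqOn (fun t => dis b k x t - ∫ y, ph b t (iv x + y) ∂(muM d k))
      (fun t => (GG b k t x - (1 - Real.exp (-t)) * ∏ i, aut k (x i)) / t) (Ioi 0) := by
    intro t ht
    dsimp only
    rw [dis_eq, con_eq b k x t ht]
    unfold GG muM
    ring
  have h4 : IntegrableOn (fun t => dis b k x t - ∫ y, ph b t (iv x + y) ∂(muM d k)) (Ioi 0) :=
    (dis_int b k x).sub h1
  refine ⟨h4.congr_fun h3 measurableSet_Ioi, ?_⟩
  rw [← setIntegral_congr_fun measurableSet_Ioi h3, integral_sub (dis_int b k x) h1, dis_val, h2]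
  unfold Gam muM
  ring

end Pool.Agent.Helper78.LE
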