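import Pool.Agent.Helper78.LE.LE9b
import Pool.Agent.Helper78.LE.LBDefs

/-! Decay of the difference of the discrete and the continuous average of the Gaussian. -/

set_option autoImplicit false

open MeasureTheory Set Filter Topology

namespace Pool.Agent.Helper78.LE

variable {d : ℕ} (b : Module.Basis (Fin d) ℝ (EV d)) (k : ℕ)

namespace LB13

/-- the complex quadratic polynomial of a slice -/
noncomputable def qf (p q : EV d) (z : ℂ) : ℂ :=
  ((‖p‖ ^ 2 : ℝ) : ℂ) + 2 * z * ((inner ℝ p q : ℝ) : ℂ) + z ^ 2 * ((‖q‖ ^ 2 : ℝ) : ℂ)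

theorem qf_real (p q : EV d) (t : ℝ) : qf p q (t : ℂ) = ((‖p + t • q‖ ^ 2 : ℝ) : ℂ) := by
  have h1 : ‖p + t • q‖ ^ 2 = ‖p‖ ^ 2 + 2 * t * inner ℝ p q + t ^ 2 * ‖q‖ ^ 2 := by
    rw [norm_add_sq_real, inner_smul_right, norm_smul, mul_pow, Real.norm_eq_abs, sq_abs]
    ring
  rw [h1]
  unfold qf
  push_cast
  ring

theorem qf_re (p q : EV d) (ρ : ℝ) (hρ : 0 ≤ ρ) (h : ρ * ‖q‖ ≤ ‖p‖ / 5) (z : ℂ)
    (hz : z ∈ Metric.ball (0 : ℂ) ρ) : ‖p‖ ^ 2 / 2 ≤ (qf p q z).re := by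
  have hb := hslice_base p q ρ hρ h z hz
  have h1 : |(qf p q z - ((‖p‖ ^ 2 : ℝ) : ℂ)).re| ≤ ‖qf p q z - ((‖p‖ ^ 2 : ℝ) : ℂ)‖ :=
    Complex.abs_re_le_norm _
  rw [Complex.sub_re, Complex.ofReal_re] at h1
  have h2 := neg_abs_le ((qf p q z).re - ‖p‖ ^ 2)
  have h3 : ‖qf p q z - ((‖p‖ ^ 2 : ℝ) : ℂ)‖ ≤ ‖p‖ ^ 2 / 2 := hb
  linarith

theorem qf_norm (p q : EV d) (ρ : ℝ) (hρ : 0 ≤ ρ) (h : ρ * ‖q‖ ≤ ‖p‖ / 5) (z : ℂ)
    (hz : z ∈ Metric.ball (0 : ℂ) ρ) : ‖qf p q z‖ ≤ 3 / 2 * ‖p‖ ^ 2 := by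
  have h3 : ‖qf p q z - ((‖p‖ ^ 2 : ℝ) : ℂ)‖ ≤ ‖p‖ ^ 2 / 2 := hslice_base p q ρ hρ h z hz
  have hn : ‖((‖p‖ ^ 2 : ℝ) : ℂ)‖ = ‖p‖ ^ 2 := by
    rw [Complex.norm_real, Real.norm_of_nonneg (by positivity)]
  have := norm_sub_norm_le (qf p q z) ((‖p‖ ^ 2 : ℝ) : ℂ)
  rw [hn] at this
  linarith

theorem exp_neg_sub_one (u : ℂ) (hu : 0 ≤ u.re) : ‖Complex.exp (-u) - 1‖ ≤ ‖u‖ := by
  have h := Convex.norm_image_sub_le_of_norm_deriv_le (𝕜 := ℂ) (f := fun v : ℂ => Complex.exp (-v))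
    (C := 1) (s := {v : ℂ | 0 ≤ v.re}) (x := 0) (y := u)
    (fun v _ => by fun_prop)
    (fun v hv => by
      have h1 : HasDerivAt (fun v : ℂ => Complex.exp (-v)) (Complex.exp (-v) * (-1)) v :=
        (hasDerivAt_neg v).cexp
      rw [h1.deriv, norm_mul, norm_neg, norm_one, mul_one, Complex.norm_exp, Complex.neg_re,
        Real.exp_le_one_iff]
      have : 0 ≤ v.re := hv
      linarith)
    (convex_halfSpace_re_ge 0) (by simp) hu
  simpa using h

/-- the slice -/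
noncomputable def gsl (t : ℝ) (p q : EV d) (z : ℂ) : ℂ := Complex.exp (-((t : ℂ) * qf p q z))

theorem gsl_real (t : ℝ) (p q : EV d) (s : ℝ) :
    gsl t p q (s : ℂ) = ((gau t ‖p + s • q‖ : ℝ) : ℂ) := by
  unfold gsl gau
  rw [qf_real]
  push_cast
  rfl

theorem gsl_diff (t : ℝ) (p q : EV d) : Differentiable ℂ (gsl t p q) := by
  unfold gsl qf
  fun_prop

theorem gau_norm (t r : ℝ) : ‖gau t r‖ = gau t r :=
  Real.norm_of_nonneg (Real.exp_pos _).le

theorem gau_le_one (t : ℝ) (ht : 0 ≤ t) (r : ℝ) : gau t r ≤ 1 := by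
  unfold gau
  rw [Real.exp_le_one_iff]
  have : 0 ≤ t * r ^ 2 := by positivity
  linarith

theorem gsl_real_integrable (t : ℝ) (ht : 0 ≤ t) (p q : EV d) (m : Measure ℝ)
    [IsProbabilityMeasure m] : Integrable (fun s : ℝ => gsl t p q (s : ℂ)) m := by
  refine Integrable.mono' (integrable_const (1 : ℝ)) ?_ ?_
  · exact ((gsl_diff t p q).continuous.comp Complex.continuous_ofReal).aestronglyMeasurable
  · apply Filter.Eventually.of_forall
    intro s
    rw [gsl_real, Complex.norm_real, gau_norm]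
    exact gau_le_one t ht _

/-- one dimensional estimate, two bounds -/
theorem gsl_aut (t : ℝ) (ht : 0 < t) (p q : EV d) (ρ : ℝ) (hρ2 : 2 * ((k : ℝ) + 1) ≤ ρ)
    (h : ρ * ‖q‖ ≤ ‖p‖ / 5) (B : ℝ)
    (hB : 3 / 2 * t * ‖p‖ ^ 2 ≤ B ∨ Real.exp (-(t * (‖p‖ ^ 2 / 2))) ≤ B) :
    ‖(∫ s, gsl t p q ((s : ℝ) : ℂ) ∂(autD k)) - ∫ s, gsl t p q ((s : ℝ) : ℂ) ∂(autM k)‖ ≤
      4 * B * (((k : ℝ) + 1) / ρ) ^ (2 * k + 2) := by
  have hpD := autD_prob k
  have hpM := autM_prob k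
  have hρ : 0 ≤ ρ := by
    have : (0 : ℝ) ≤ (k : ℝ) := Nat.cast_nonneg k
    linarith
  rcases hB with hB | hB
  · have h1 := aut_holo k (fun z => gsl t p q z - 1) ρ B hρ2
      ((gsl_diff t p q).sub_const 1).differentiableOn (by
        intro z hz
        have h2 : 0 ≤ ((t : ℂ) * qf p q z).re := by
          rw [Complex.re_ofReal_mul]
          have := qf_re p q ρ hρ h z hz
          have h3 : 0 ≤ ‖p‖ ^ 2 / 2 := by positivity
          exact mul_nonneg ht.le (h3.trans this)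
        calc ‖gsl t p q z - 1‖ ≤ ‖(t : ℂ) * qf p q z‖ := exp_neg_sub_one _ h2
          _ = t * ‖qf p q z‖ := by rw [norm_mul, Complex.norm_real, Real.norm_of_nonneg ht.le]
          _ ≤ t * (3 / 2 * ‖p‖ ^ 2) := mul_le_mul_of_nonneg_left (qf_norm p q ρ hρ h z hz) ht.le
          _ ≤ B := by linarith)
    have e1 : ∫ s, (gsl t p q ((s : ℝ) : ℂ) - 1) ∂(autD k) =
        (∫ s, gsl t p q ((s : ℝ) : ℂ) ∂(autD k)) - 1 := by
      rw [integral_sub (gsl_real_integrable t ht.le p q _) (integrable_const _), integral_const,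
        probReal_univ, one_smul]
    have e2 : ∫ s, (gsl t p q ((s : ℝ) : ℂ) - 1) ∂(autM k) =
        (∫ s, gsl t p q ((s : ℝ) : ℂ) ∂(autM k)) - 1 := by
      rw [integral_sub (gsl_real_integrable t ht.le p q _) (integrable_const _), integral_const,
        probReal_univ, one_smul]
    rw [e1, e2, sub_sub_sub_cancel_right] at h1
    exact h1
  · apply aut_holo k (gsl t p q) ρ B hρ2 (gsl_diff t p q).differentiableOn
    intro z hz
    refine le_trans ?_ hB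
    unfold gsl
    rw [Complex.norm_exp, Complex.neg_re, Complex.re_ofReal_mul]
    apply Real.exp_le_exp.mpr
    have := mul_le_mul_of_nonneg_left (qf_re p q ρ hρ h z hz) ht.le
    linarith

/-- the estimate for one `t` -/
theorem GG_far (c0 C0 : ℝ) (hc0 : 0 < c0) (hC0 : 0 < C0)
    (hlin : ∀ s : Fin d → ℝ, c0 * ‖s‖ ≤ ‖lin b s‖ ∧ ‖lin b s‖ ≤ C0 * ‖s‖)
    (t : ℝ) (ht : 0 < t) (x : Fin d → ℤ)
    (hx1 : 2 * ((k : ℝ) + 1) ≤ ‖iv x‖)
    (hx3 : 20 * ((k : ℝ) + 1) * C0 ≤ c0 * ‖iv x‖) (B : ℝ)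
    (hB : 6 * C0 ^ 2 * t * ‖iv x‖ ^ 2 ≤ B ∨ Real.exp (-(t * (c0 ^ 2 / 8 * ‖iv x‖ ^ 2))) ≤ B) :
    |GG b k t x| ≤ d * (4 * B *
      (((k : ℝ) + 1) / (c0 * ‖iv x‖ / (10 * C0))) ^ (2 * k + 2)) := by
  have hpD := autD_prob k
  have hpM := autM_prob k
  set r0 := ‖iv x‖ with hr0
  set A : ℝ := (k : ℝ) + 1 with hA
  have hA0 : 0 < A := by positivity
  have hr00 : 0 < r0 := by nlinarith
  set K : Set ℝ := Set.Icc (-A) A with hK
  have hlow : ∀ y : Fin d → ℝ, ‖y‖ ≤ A → c0 * r0 / 2 ≤ ‖lin b (iv x + y)‖ := by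
    intro y hy
    have h1 := (hlin (iv x + y)).1
    have h2 : r0 - ‖y‖ ≤ ‖iv x + y‖ := by
      have := norm_sub_le (iv x + y) y
      rw [add_sub_cancel_right] at this
      linarith
    have h3 : r0 / 2 ≤ ‖iv x + y‖ := by linarith
    calc c0 * r0 / 2 = c0 * (r0 / 2) := by ring
      _ ≤ c0 * ‖iv x + y‖ := mul_le_mul_of_nonneg_left h3 hc0.le
      _ ≤ _ := h1
  have hup : ∀ y : Fin d → ℝ, ‖y‖ ≤ A → ‖lin b (iv x + y)‖ ≤ 2 * C0 * r0 := by
    intro y hy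
    have h1 := (hlin (iv x + y)).2
    have h2 : ‖iv x + y‖ ≤ r0 + ‖y‖ := norm_add_le _ _
    have h3 : ‖iv x + y‖ ≤ 2 * r0 := by linarith
    calc ‖lin b (iv x + y)‖ ≤ C0 * ‖iv x + y‖ := h1
      _ ≤ C0 * (2 * r0) := mul_le_mul_of_nonneg_left h3 hC0.le
      _ = _ := by ring
  have hq : ∀ i : Fin d, ‖lin b (Pi.single i 1)‖ ≤ C0 := by
    intro i
    have h1 := (hlin (Pi.single i 1)).2
    have h2 : ‖(Pi.single i 1 : Fin d → ℝ)‖ ≤ 1 := by
      rw [pi_norm_le_iff_of_nonneg zero_le_one]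
      intro j
      by_cases hj : j = i
      · subst hj
        simp
      · rw [Pi.single_eq_of_ne hj]
        simp
    calc _ ≤ C0 * ‖(Pi.single i 1 : Fin d → ℝ)‖ := h1
      _ ≤ C0 * 1 := mul_le_mul_of_nonneg_left h2 hC0.le
      _ = C0 := mul_one _
  set f : (Fin d → ℝ) → ℂ := fun y => ((gau t ‖lin b (iv x + y)‖ : ℝ) : ℂ) with hf
  have hfm : Measurable f := by
    apply Complex.measurable_ofReal.comp
    have h1 : Continuous (fun y : Fin d → ℝ => gau t ‖lin b (iv x + y)‖) := by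
      unfold gau
      have := lin_continuous b
      fun_prop
    exact h1.measurable
  have hbd : ∀ y ∈ Set.pi Set.univ (fun _ : Fin d => K), ‖f y‖ ≤ 1 := by
    intro y _
    rw [hf]
    simp only
    rw [Complex.norm_real, gau_norm]
    exact gau_le_one t ht.le _
  have hGG : ((GG b k t x : ℝ) : ℂ) = (∫ y, f y ∂(Measure.pi fun _ : Fin d => autD k)) -
      ∫ y, f y ∂(Measure.pi fun _ : Fin d => autM k) := by
    unfold GG
    rw [Complex.ofReal_sub, ← integral_complex_ofReal, ← integral_complex_ofReal]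
  have hnorm : |GG b k t x| = ‖((GG b k t x : ℝ) : ℂ)‖ := by
    rw [Complex.norm_real, Real.norm_eq_abs]
  rw [hnorm, hGG]
  apply hybrid (autD k) (autM k) K measurableSet_Icc (autD_compl k) (autM_compl k) f hfm _ hbd
  intro i y hy
  set p := lin b (iv x + Function.update y i 0) with hp
  set q := lin b (Pi.single i 1) with hqd
  have hupd : ∀ s : ℝ, lin b (iv x + Function.update y i s) = p + s • q := by
    intro s
    rw [hp, hqd, ← lin_smul, ← lin_add]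
    congr 1
    funext j
    by_cases hj : j = i
    · subst hj
      simp
    · simp [Function.update_of_ne hj, Pi.single_eq_of_ne hj]
  have hybox : ‖Function.update y i 0‖ ≤ A := by
    apply norm_box k
    intro j _
    by_cases hj : j = i
    · subst hj
      rw [Function.update_self]
      exact ⟨by linarith, hA0.le⟩
    · rw [Function.update_of_ne hj]
      exact hy j (Set.mem_univ _)
  have hsl : ∀ s : ℝ, f (Function.update y i s) = gsl t p q (s : ℂ) := by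
    intro s
    rw [gsl_real, ← hupd s]
  have hp1 : c0 * r0 / 2 ≤ ‖p‖ := hlow _ hybox
  have hp2 : ‖p‖ ≤ 2 * C0 * r0 := hup _ hybox
  set Rz := c0 * r0 / (10 * C0) with hRz
  have hRz0 : 0 ≤ Rz := by positivity
  have hRq : Rz * ‖q‖ ≤ ‖p‖ / 5 := by
    calc Rz * ‖q‖ ≤ Rz * C0 := mul_le_mul_of_nonneg_left (hq i) hRz0
      _ = c0 * r0 / 2 / 5 := by
          rw [hRz]
          field_simp
          ring
      _ ≤ ‖p‖ / 5 := by linarith
  have hR2 : 2 * ((k : ℝ) + 1) ≤ Rz := by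
    rw [hRz, le_div_iff₀ (by positivity)]
    linarith
  simp_rw [hsl]
  apply gsl_aut k t ht p q Rz hR2 hRq B
  rcases hB with hB | hB
  · left
    have h1 : ‖p‖ ^ 2 ≤ (2 * C0 * r0) ^ 2 := pow_le_pow_left₀ (norm_nonneg _) hp2 2
    have h2 := mul_le_mul_of_nonneg_left h1 (show (0 : ℝ) ≤ 3 / 2 * t by positivity)
    calc 3 / 2 * t * ‖p‖ ^ 2 ≤ 3 / 2 * t * (2 * C0 * r0) ^ 2 := h2
      _ = 6 * C0 ^ 2 * t * r0 ^ 2 := by ring
      _ ≤ B := hB
  · right
    refine le_trans ?_ hB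
    apply Real.exp_le_exp.mpr
    have h1 : (c0 * r0 / 2) ^ 2 ≤ ‖p‖ ^ 2 := pow_le_pow_left₀ (by positivity) hp1 2
    have h2 := mul_le_mul_of_nonneg_left h1 ht.le
    nlinarith

end LB13

open LB13 in
theorem GG_decay : ∃ C X : ℝ, (k : ℝ) + 1 ≤ X ∧ ∀ x : Fin d → ℤ, X ≤ ‖iv x‖ →
    ∫ t in Ioi (0 : ℝ), |GG b k t x / t| ≤ C * (1 + ‖iv x‖) ^ (-(2 * (k : ℝ) + 1)) := by
  obtain ⟨c0, C0, hc0, hC0, hlin⟩ := lin_bounds b
  set A : ℝ := (k : ℝ) + 1 with hA
  have hA0 : 0 < A := by positivity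
  set X : ℝ := 2 * A + 20 * A * C0 / c0 + 1 with hX
  set M : ℝ := 10 * A * C0 / c0 with hM
  have hM0 : 0 < M := by positivity
  set c1 : ℝ := c0 ^ 2 / 8 with hc1
  have hc10 : 0 < c1 := by positivity
  set a : ℝ := 6 * C0 ^ 2 with ha
  have ha0 : 0 < a := by positivity
  refine ⟨d * (4 * M ^ (2 * k + 2)) * (a + 1 / c1) * 2 ^ (2 * k + 1), X, ?_, ?_⟩
  · have h2 : 0 ≤ 20 * A * C0 / c0 := by positivity
    linarith
  intro x hx
  set r0 := ‖iv x‖ with hr0
  have hX3 : 0 < 20 * A * C0 / c0 := by positivity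
  have hr1 : 1 ≤ r0 := by linarith
  have hrpos : 0 < r0 := by linarith
  have hx1 : 2 * ((k : ℝ) + 1) ≤ r0 := by linarith
  have hx3 : 20 * ((k : ℝ) + 1) * C0 ≤ c0 * r0 := by
    have : 20 * A * C0 / c0 ≤ r0 := by linarith
    rw [div_le_iff₀ hc0] at this
    linarith
  have hMr : (((k : ℝ) + 1) / (c0 * r0 / (10 * C0))) = M / r0 := by
    rw [hM, hA]
    field_simp
  have hfar : ∀ t : ℝ, 0 < t → ∀ B : ℝ,
      (a * t * r0 ^ 2 ≤ B ∨ Real.exp (-(t * (c1 * r0 ^ 2))) ≤ B) →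
      |GG b k t x| ≤ d * (4 * M ^ (2 * k + 2)) / r0 ^ (2 * k + 2) * B := by
    intro t ht B hB
    have h1 := GG_far b k c0 C0 hc0 hC0 hlin t ht x hx1 hx3 B hB
    rw [hMr, div_pow] at h1
    refine h1.trans (le_of_eq ?_)
    ring
  set D : ℝ := d * (4 * M ^ (2 * k + 2)) / r0 ^ (2 * k + 2) with hD
  have hD0 : 0 ≤ D := by positivity
  -- the dominating function
  set g : ℝ → ℝ := fun t => D * ((Set.Ioc 0 (1 / r0 ^ 2)).indicator (fun _ => a * r0 ^ 2) t +
    r0 ^ 2 * Real.exp (-(c1 * r0 ^ 2) * t)) with hg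
  have hi1 : Integrable ((Set.Ioc (0 : ℝ) (1 / r0 ^ 2)).indicator (fun _ => a * r0 ^ 2))
      (volume.restrict (Ioi 0)) := by
    apply Integrable.mono_measure _ Measure.restrict_le_self
    rw [integrable_indicator_iff measurableSet_Ioc]
    exact integrableOn_const (by simp) enorm_ne_top
  have hi2 : IntegrableOn (fun t => Real.exp (-(c1 * r0 ^ 2) * t)) (Ioi 0) :=
    exp_neg_integrableOn_Ioi 0 (by positivity)
  have hgi : IntegrableOn g (Ioi 0) := (hi1.add (hi2.const_mul _)).const_mul D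
  have hint : ∫ t in Ioi (0 : ℝ), g t = D * (a + 1 / c1) := by
    rw [hg, integral_const_mul, integral_add hi1 (hi2.const_mul _), integral_const_mul]
    congr 1
    congr 1
    · rw [integral_indicator measurableSet_Ioc, Measure.restrict_restrict measurableSet_Ioc,
        setIntegral_const]
      have h1 : Set.Ioc (0 : ℝ) (1 / r0 ^ 2) ∩ Ioi 0 = Set.Ioc 0 (1 / r0 ^ 2) := by
        rw [Set.inter_eq_left]
        intro t ht
        exact ht.1
      rw [h1, Real.volume_real_Ioc_of_le (by positivity), smul_eq_mul]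
      field_simp
      ring
    · rw [integral_exp_mul_Ioi (by nlinarith [show 0 < c1 * r0 ^ 2 by positivity]) 0]
      rw [mul_zero, Real.exp_zero]
      field_simp
  have hle : ∫ t in Ioi (0 : ℝ), |GG b k t x / t| ≤ ∫ t in Ioi (0 : ℝ), g t := by
    apply integral_mono_of_nonneg
    · exact Filter.Eventually.of_forall fun t => abs_nonneg _
    · exact hgi
    · rw [Filter.EventuallyLE, ae_restrict_iff' measurableSet_Ioi]
      apply Filter.Eventually.of_forall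
      intro t ht
      have ht0 : 0 < t := ht
      rw [abs_div, abs_of_pos ht0, div_le_iff₀ ht0]
      by_cases hts : t ≤ 1 / r0 ^ 2
      · have h1 := hfar t ht0 (a * t * r0 ^ 2) (Or.inl le_rfl)
        have hmem : t ∈ Set.Ioc (0 : ℝ) (1 / r0 ^ 2) := ⟨ht0, hts⟩
        have h2 : (Set.Ioc (0 : ℝ) (1 / r0 ^ 2)).indicator (fun _ => a * r0 ^ 2) t = a * r0 ^ 2 :=
          Set.indicator_of_mem hmem _
        rw [hg]
        simp only
        rw [h2]
        have h3 : 0 ≤ D * (r0 ^ 2 * Real.exp (-(c1 * r0 ^ 2) * t)) * t := by positivity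
        calc |GG b k t x| ≤ D * (a * t * r0 ^ 2) := h1
          _ ≤ D * (a * t * r0 ^ 2) + D * (r0 ^ 2 * Real.exp (-(c1 * r0 ^ 2) * t)) * t := by linarith
          _ = _ := by ring
      · push Not at hts
        have h1 := hfar t ht0 (Real.exp (-(t * (c1 * r0 ^ 2)))) (Or.inr le_rfl)
        have h2 : (Set.Ioc (0 : ℝ) (1 / r0 ^ 2)).indicator (fun _ => a * r0 ^ 2) t = 0 :=
          Set.indicator_of_notMem (fun h => absurd h.2 (not_le.mpr hts)) _
        rw [hg]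
        simp only
        rw [h2, zero_add]
        have h3 : 1 ≤ r0 ^ 2 * t := by
          rw [div_lt_iff₀ (by positivity)] at hts
          linarith
        have h4 : -(t * (c1 * r0 ^ 2)) = -(c1 * r0 ^ 2) * t := by ring
        rw [h4] at h1
        have h5 : 0 ≤ D * Real.exp (-(c1 * r0 ^ 2) * t) := by positivity
        calc |GG b k t x| ≤ D * Real.exp (-(c1 * r0 ^ 2) * t) := h1
          _ ≤ D * Real.exp (-(c1 * r0 ^ 2) * t) * (r0 ^ 2 * t) := le_mul_of_one_le_right h5 h3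
          _ = _ := by ring
  rw [hint] at hle
  refine hle.trans ?_
  rw [rpow_neg_odd k _ (by linarith)]
  have hpos : 0 < (1 + r0) ^ (2 * k + 1) := by positivity
  rw [← div_eq_mul_inv, le_div_iff₀ hpos]
  have h3 : (1 + r0) ^ (2 * k + 1) ≤ 2 ^ (2 * k + 1) * r0 ^ (2 * k + 1) := by
    rw [← mul_pow]
    exact pow_le_pow_left₀ (by linarith) (by linarith) _
  have h4 : r0 ^ (2 * k + 1) ≤ r0 ^ (2 * k + 2) := pow_le_pow_right₀ hr1 (by omega)
  have h5 : 0 ≤ D * (a + 1 / c1) := by positivity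
  calc D * (a + 1 / c1) * (1 + r0) ^ (2 * k + 1) ≤
      D * (a + 1 / c1) * (2 ^ (2 * k + 1) * r0 ^ (2 * k + 2)) := by
        apply mul_le_mul_of_nonneg_left _ h5
        exact h3.trans (mul_le_mul_of_nonneg_left h4 (by positivity))
    _ = _ := by
        rw [hD]
        field_simp

end Pool.Agent.Helper78.LE
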