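import Pool.Agent.Helper78.LE.LE10
import Pool.Agent.Helper78.LE.LB12
import Pool.Agent.Helper78.LE.LB13

/-!
Project LB, module LB14: the theta integral of the derivative of the zeta function.
-/

set_option autoImplicit false

open MeasureTheory Set Filter Topology

namespace Pool.Agent.Helper78.LE

section LB14
variable {d : ℕ} (b : Module.Basis (Fin d) ℝ (EV d)) (k : ℕ)

namespace LB14

theorem integral_gau (t : ℝ) (ht : 0 < t) :
    ∫ z : EV d, gau t ‖z‖ = (Real.pi / t) ^ ((d : ℝ) / 2) := by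
  have h := GaussianFourier.integral_rexp_neg_mul_sq_norm (V := EV d) ht
  have h2 : Module.finrank ℝ (EV d) = d := by simp
  rw [h2] at h
  rw [← h]
  unfold gau
  simp only [neg_mul]

theorem integrable_gau (t : ℝ) (ht : 0 < t) : Integrable (fun z : EV d => gau t ‖z‖) := by
  by_contra hc
  have h := integral_gau (d := d) t ht
  rw [integral_undef hc] at h
  have h1 : 0 < (Real.pi / t) ^ ((d : ℝ) / 2) := Real.rpow_pos_of_pos (div_pos Real.pi_pos ht) _
  linarith

theorem integrable_gauLin (t : ℝ) (ht : 0 < t) :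
    Integrable (fun y : Fin d → ℝ => gau t ‖lin b y‖) := by
  have hc := covol_pos b
  have h4 : Integrable (fun z : EV d => gau t ‖z‖) (Measure.map (lin b) volume) := by
    rw [map_lin]
    apply (integrable_gau t ht).smul_measure
    rw [ENNReal.inv_ne_top]
    exact (ENNReal.ofReal_pos.mpr hc).ne'
  exact h4.comp_measurable (lin_continuous b).measurable

theorem integral_gauLin (t : ℝ) (ht : 0 < t) :
    ∫ y : Fin d → ℝ, gau t ‖lin b y‖ = (Real.pi / t) ^ ((d : ℝ) / 2) / covol b := by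
  have hc := covol_pos b
  have h1 : ∫ y : Fin d → ℝ, gau t ‖lin b y‖ =
      ∫ z : EV d, gau t ‖z‖ ∂(Measure.map (lin b) volume) := by
    rw [integral_map (lin_continuous b).aemeasurable]
    rw [map_lin]
    apply AEStronglyMeasurable.smul_measure
    exact (integrable_gau t ht).aestronglyMeasurable
  rw [h1, map_lin, integral_smul_measure, integral_gau t ht, ENNReal.toReal_inv,
    ENNReal.toReal_ofReal hc.le, smul_eq_mul]
  field_simp

theorem summable_gau (t : ℝ) (ht : 0 < t) :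
    Summable (fun n : Fin d → ℤ => gau t ‖latVec b n‖) := by
  set m : ℕ := d + 1 with hm
  have hs := summable_latVec b (2 * (m : ℝ)) (by rw [hm]; push_cast; linarith)
  refine Summable.of_norm_bounded_eventually (hs.mul_left ((m.factorial : ℝ) / t ^ m)) ?_
  have h0 : ∀ᶠ n : Fin d → ℤ in cofinite, n ≠ 0 := by
    rw [Filter.eventually_cofinite]
    refine (Set.finite_singleton (0 : Fin d → ℤ)).subset ?_
    intro n hn
    simpa using hn
  filter_upwards [h0] with n hn
  have h3 : 0 < ‖latVec b n‖ := by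
    rw [latVec_eq, norm_pos_iff, Ne, lin_eq_zero, iv_eq_zero]
    exact hn
  set r := ‖latVec b n‖ with hr
  have h4 : 0 ≤ t * r ^ 2 := by positivity
  have h5 := Real.pow_div_factorial_le_exp (t * r ^ 2) h4 m
  unfold gau
  rw [Real.norm_of_nonneg (Real.exp_pos _).le, Real.exp_neg, Real.rpow_neg h3.le,
    Real.rpow_mul h3.le, Real.rpow_natCast, Real.rpow_ofNat, inv_le_iff_one_le_mul₀ (Real.exp_pos _)]
  have h6 : 0 < (t * r ^ 2) ^ m := by positivity
  have h7 : (0 : ℝ) < m.factorial := by positivity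
  have h8 : (m.factorial : ℝ) / t ^ m * ((r ^ 2) ^ m)⁻¹ = (m.factorial : ℝ) / (t * r ^ 2) ^ m := by
    rw [mul_pow]
    field_simp
  rw [h8]
  calc (1 : ℝ) = (m.factorial : ℝ) / (t * r ^ 2) ^ m * ((t * r ^ 2) ^ m / m.factorial) := by
        field_simp
    _ ≤ _ := mul_le_mul_of_nonneg_left h5 (by positivity)

theorem hasSum_theta (t : ℝ) (ht : 0 < t) :
    HasSum (fun n : Fin d → ℤ => gau t ‖latVec b n‖) (theta b t + 1) := by
  have h1 : Summable (fun n : {n : Fin d → ℤ // n ≠ 0} => gau t ‖latVec b n.1‖) :=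
    (summable_gau b t ht).comp_injective
      (Subtype.val_injective (p := fun n : Fin d → ℤ => n ≠ 0))
  have h2 : HasSum (({n : Fin d → ℤ | n ≠ 0}).indicator (fun n => gau t ‖latVec b n‖))
      (theta b t) := hasSum_subtype_iff_indicator.mp h1.hasSum
  have h3 : HasSum (fun n : Fin d → ℤ => if n = 0 then (1 : ℝ) else 0) 1 := hasSum_ite_eq 0 1
  refine (h2.add h3).congr_fun ?_
  intro n
  by_cases hn : n = 0
  · rw [Set.indicator_of_notMem (by simpa using hn), if_pos hn, hn]
    have : latVec b 0 = 0 := by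
      unfold latVec
      simp
    rw [this]
    simp [gau]
  · rw [Set.indicator_of_mem (by simpa using hn), if_neg hn]
    ring

theorem hasSum_disc (t : ℝ) (ht : 0 < t) :
    HasSum (fun x : Fin d → ℤ => ∫ y, gau t ‖lin b (iv x + y)‖ ∂(Measure.pi fun _ : Fin d => autD k))
      (theta b t + 1) := by
  have h1 : ∀ v : Fin d → ℤ, HasSum (fun x : Fin d → ℤ => gau t ‖lin b (iv x + iv v)‖)
      (theta b t + 1) := by
    intro v
    have h := (Equiv.addRight v).hasSum_iff.mpr (hasSum_theta b t ht)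
    refine h.congr_fun ?_
    intro x
    simp only [Function.comp_apply, Equiv.coe_addRight]
    rw [iv_add, latVec_eq]
  have h2 : HasSum (fun x : Fin d → ℤ => ∑ v ∈ bx d k, (∏ i, aut k (v i)) •
      gau t ‖lin b (iv x + iv v)‖) (∑ v ∈ bx d k, (∏ i, aut k (v i)) • (theta b t + 1)) :=
    hasSum_sum fun v _ => (h1 v).const_smul _
  rw [← Finset.sum_smul, sum_bx, one_smul] at h2
  refine h2.congr_fun ?_
  intro x
  rw [integral_pi_autD]

theorem hasSum_cont (t : ℝ) (ht : 0 < t) :
    HasSum (fun x : Fin d → ℤ => ∫ y, gau t ‖lin b (iv x + y)‖ ∂(Measure.pi fun _ : Fin d => autM k))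
      ((Real.pi / t) ^ ((d : ℝ) / 2) / covol b) := by
  have h := tsum_autM k (fun y => ((gau t ‖lin b y‖ : ℝ) : ℂ)) (integrable_gauLin b t ht).ofReal
  rw [integral_complex_ofReal, integral_gauLin b t ht] at h
  have h2 := Complex.hasSum_re h
  rw [Complex.ofReal_re] at h2
  refine h2.congr_fun ?_
  intro x
  rw [integral_complex_ofReal, Complex.ofReal_re]

theorem exists_coord (x : Fin d → ℤ) (hd : 0 < d) (X : ℝ) (hX : X ≤ ‖iv x‖) :
    ∃ i, X ≤ |(x i : ℝ)| := by
  by_contra hc
  push Not at hc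
  have : Nonempty (Fin d) := ⟨⟨0, hd⟩⟩
  have h1 : ‖iv x‖ < X := by
    by_cases hX0 : 0 < X
    · rw [pi_norm_lt_iff hX0]
      intro i
      exact hc i
    · have := hc ⟨0, hd⟩
      have := abs_nonneg ((x ⟨0, hd⟩ : ℤ) : ℝ)
      linarith
  linarith

theorem integrable_of_hasSum {ι : Type} [Countable ι] (μ : Measure ℝ) (F : ι → ℝ → ℝ)
    (G : ℝ → ℝ) (hF : ∀ i, Integrable (F i) μ) (hs : Summable fun i => ∫ a, ‖F i a‖ ∂μ)
    (hG : ∀ᵐ a ∂μ, HasSum (fun i => F i a) (G a)) : Integrable G μ := by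
  refine ⟨?_, ?_⟩
  · refine aestronglyMeasurable_of_tendsto_ae (u := (atTop : Filter (Finset ι)))
      (f := fun s a => ∑ i ∈ s, F i a) ?_ ?_
    · intro s
      exact (integrable_finsetSum s (fun i _ => hF i)).aestronglyMeasurable
    · filter_upwards [hG] with a ha
      exact ha
  · have h1 : ∫⁻ a, ‖G a‖ₑ ∂μ ≤ ∫⁻ a, ∑' i, ‖F i a‖ₑ ∂μ := by
      apply lintegral_mono_ae
      filter_upwards [hG] with a ha
      rw [← ha.tsum_eq]
      exact enorm_tsum_le_tsum_enorm
    have h2 : ∫⁻ a, ∑' i, ‖F i a‖ₑ ∂μ = ∑' i, ∫⁻ a, ‖F i a‖ₑ ∂μ :=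
      lintegral_tsum fun i => (hF i).aestronglyMeasurable.enorm
    have h3 : ∀ i, ∫⁻ a, ‖F i a‖ₑ ∂μ = ENNReal.ofReal (∫ a, ‖F i a‖ ∂μ) := by
      intro i
      rw [ofReal_integral_norm_eq_lintegral_enorm (hF i)]
    have h4 : ∑' i, ∫⁻ a, ‖F i a‖ₑ ∂μ ≠ ⊤ := by
      simp_rw [h3]
      exact hs.tsum_ofReal_ne_top
    rw [h2] at h1
    exact lt_of_le_of_lt h1 (lt_top_iff_ne_top.mpr h4)

end LB14

theorem hasSum_autprod : HasSum (fun x : Fin d → ℤ => ∏ i, aut k (x i)) 1 := by
  rw [← sum_bx (d := d) k]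
  apply hasSum_sum_of_ne_finset_zero
  intro x hx
  unfold bx at hx
  rw [Fintype.mem_piFinset, not_forall] at hx
  obtain ⟨i, hi⟩ := hx
  apply Finset.prod_eq_zero (Finset.mem_univ i)
  apply aut_eq_zero
  rw [Finset.mem_Icc, not_and_or, not_le, not_le] at hi
  rw [le_abs]
  rcases hi with hi | hi
  · right
    have : ((x i : ℤ) : ℝ) + 1 ≤ ((-(k + 1 : ℤ) : ℤ) : ℝ) := by exact_mod_cast hi
    push_cast at this
    linarith
  · left
    have : (((k + 1 : ℤ)) : ℝ) + 1 ≤ ((x i : ℤ) : ℝ) := by exact_mod_cast hi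
    push_cast at this
    linarith

theorem hasSum_GG (hd : 0 < d) (t : ℝ) (ht : 0 < t) :
    HasSum (fun x : Fin d → ℤ => GG b k t x)
      (theta b t + 1 - (Real.pi / t) ^ ((d : ℝ) / 2) / covol b) :=
  (LB14.hasSum_disc b k t ht).sub (LB14.hasSum_cont b k t ht)

/-- the integrand -/
noncomputable def TT (t : ℝ) : ℝ :=
  (theta b t - (Real.pi / t) ^ ((d : ℝ) / 2) / covol b + Real.exp (-t)) / t

theorem zeta_theta (hd : 0 < d) (Z : ℂ → ℂ) (hZ : IsZeta b Z) :
    IntegrableOn (TT b) (Ioi 0) ∧ ∫ t in Ioi (0 : ℝ), TT b t = 2 * (deriv Z 0).re := by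
  have hk : d < 2 * d + 1 := by omega
  set F : (Fin d → ℤ) → ℝ → ℝ :=
    fun x t => (GG b d t x - (1 - Real.exp (-t)) * ∏ i, aut d (x i)) / t with hF
  have hint : ∀ x, Integrable (F x) (volume.restrict (Ioi 0)) := fun x => (Gam_rep b d hd x).1
  have hval : ∀ x, ∫ t in Ioi (0 : ℝ), F x t = 2 * Gam b d x := fun x => (Gam_rep b d hd x).2
  obtain ⟨C, X, hX, hdec⟩ := GG_decay b d
  have hsum : Summable fun x => ∫ t in Ioi (0 : ℝ), ‖F x t‖ := by
    refine Summable.of_norm_bounded_eventually ((summable_decay d hk).mul_left C) ?_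
    have hfin : ({x : Fin d → ℤ | ‖iv x‖ < X}).Finite := by
      apply Set.Finite.subset (Finset.finite_toSet
        (Fintype.piFinset fun _ : Fin d => Finset.Icc (-⌈X⌉) ⌈X⌉))
      intro x hx
      rw [Finset.mem_coe, Fintype.mem_piFinset]
      intro i
      have hx' : ‖iv x‖ < X := hx
      have h1 : |(x i : ℝ)| ≤ ‖iv x‖ := norm_le_pi_norm (iv x) i
      have h2 : |(x i : ℝ)| ≤ (⌈X⌉ : ℝ) := by
        have := Int.le_ceil X
        linarith
      rw [Finset.mem_Icc]
      rw [abs_le] at h2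
      constructor
      · have : ((-⌈X⌉ : ℤ) : ℝ) ≤ (x i : ℝ) := by push_cast; exact h2.1
        exact_mod_cast this
      · exact_mod_cast h2.2
    have hev : ∀ᶠ x : Fin d → ℤ in cofinite, ¬ (‖iv x‖ < X) := by
      rw [Filter.eventually_cofinite]
      simpa using hfin
    filter_upwards [hev] with x hx
    have hx1 : X ≤ ‖iv x‖ := not_lt.mp hx
    have hz : ∏ i, aut d (x i) = 0 := by
      obtain ⟨i, hi⟩ := LB14.exists_coord x hd X hx1
      exact Finset.prod_eq_zero (Finset.mem_univ i) (aut_eq_zero d _ (hX.trans hi))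
    rw [Real.norm_of_nonneg (integral_nonneg fun _ => norm_nonneg _)]
    refine le_trans (le_of_eq ?_) (hdec x hx1)
    apply integral_congr_ae
    apply Filter.Eventually.of_forall
    intro t
    simp only [hF, hz, mul_zero, sub_zero, Real.norm_eq_abs]
  have hae : ∀ᵐ t ∂(volume.restrict (Ioi (0 : ℝ))), HasSum (fun x => F x t) (TT b t) := by
    rw [ae_restrict_iff' measurableSet_Ioi]
    apply Filter.Eventually.of_forall
    intro t ht
    have h1 := hasSum_GG b d hd t ht
    have h2 := (hasSum_autprod (d := d) d).mul_left (1 - Real.exp (-t))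
    have h3 := (h1.sub h2).div_const t
    have h4 : (theta b t + 1 - (Real.pi / t) ^ ((d : ℝ) / 2) / covol b -
        (1 - Real.exp (-t)) * 1) / t = TT b t := by
      unfold TT
      ring
    rw [h4] at h3
    exact h3
  have hI : IntegrableOn (TT b) (Ioi 0) :=
    LB14.integrable_of_hasSum _ F (TT b) hint hsum hae
  refine ⟨hI, ?_⟩
  have h1 := hasSum_integral_of_summable_integral_norm hint hsum
  have h2 : ∫ t in Ioi (0 : ℝ), (∑' x, F x t) = ∫ t in Ioi (0 : ℝ), TT b t := by
    apply integral_congr_ae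
    filter_upwards [hae] with t ht
    exact ht.tsum_eq
  rw [h2] at h1
  simp_rw [hval] at h1
  have h3 := Complex.hasSum_re (hasSum_Gam b d hd hk Z hZ)
  simp only [Complex.ofReal_re] at h3
  exact h1.unique (h3.mul_left 2)

end LB14

end Pool.Agent.Helper78.LE
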