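import Pool.Agent.Helper78.LE.LE3
import Pool.Agent.Helper78.LE.LB1

/-!
Project LB, module LB2 (written by helper46): the constant `V` as an integral of Gaussians.
-/

set_option autoImplicit false

open MeasureTheory Set Filter Topology

namespace Pool.Agent.Helper78.LE

namespace LB2aux

open LE3aux

variable {d : ℕ} (b : Module.Basis (Fin d) ℝ (EV d))

/-- the sphere -/
abbrev Sp (d : ℕ) := Metric.sphere (0 : EV (d + 1)) 1

/-- the product measure -/
noncomputable abbrev pm (d : ℕ) : Measure (Sp d × Sp d) := (sphMeas d).prod (sphMeas d)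

/-- the weight -/
noncomputable def ww (s : Fin d → ℝ) : ENNReal := ENNReal.ofReal (sphArea d * dens b s)

theorem ww_measurable : Measurable (ww b) :=
  (continuous_const.mul (dens_continuous b)).measurable.ennreal_ofReal

theorem sph_lint (hd : 0 < d) {g : Sp d → ENNReal} (hg : Measurable g) :
    ∫⁻ x, g x ∂(sphMeas d) = ∫⁻ s, ww b s * g (stereoS (lin b s)) := by
  have hmc : Measurable (fun y : EV d => ENNReal.ofReal (cfac y ^ d)) :=
    (cfac_continuous.pow d).measurable.ennreal_ofReal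
  have hgs : Measurable (fun y : EV d => g (stereoS y)) := hg.comp stereoS_continuous.measurable
  have hG : Measurable (fun y : EV d => ENNReal.ofReal (cfac y ^ d) * g (stereoS y)) :=
    hmc.mul hgs
  rw [← map_stereo hd, lintegral_map hg stereoS_continuous.measurable,
    lintegral_withDensity_eq_lintegral_mul _ hmc hgs]
  have h1 : ∫⁻ s, ENNReal.ofReal (cfac (lin b s) ^ d) * g (stereoS (lin b s)) =
      (ENNReal.ofReal (covol b))⁻¹ * ∫⁻ y : EV d, ENNReal.ofReal (cfac y ^ d) * g (stereoS y) := by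
    rw [← lintegral_map hG (lin_continuous b).measurable, map_lin, lintegral_smul_measure,
      smul_eq_mul]
  have hc0 : ENNReal.ofReal (covol b) ≠ 0 := (ENNReal.ofReal_pos.mpr (covol_pos b)).ne'
  have h2 : ∫⁻ y : EV d, ENNReal.ofReal (cfac y ^ d) * g (stereoS y) =
      ENNReal.ofReal (covol b) * ∫⁻ s, ENNReal.ofReal (cfac (lin b s) ^ d) *
        g (stereoS (lin b s)) := by
    rw [h1, ← mul_assoc, ENNReal.mul_inv_cancel hc0 ENNReal.ofReal_ne_top, one_mul]
  have h3 : ∀ s, ww b s * g (stereoS (lin b s)) = ENNReal.ofReal (covol b) *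
      (ENNReal.ofReal (cfac (lin b s) ^ d) * g (stereoS (lin b s))) := by
    intro s
    have h4 : sphArea d * (covol b / sphArea d * cfac (lin b s) ^ d) =
        covol b * cfac (lin b s) ^ d := by
      have := (sphArea_pos d).ne'
      field_simp
    unfold ww dens
    rw [h4, ENNReal.ofReal_mul (covol_pos b).le, mul_assoc]
  simp_rw [h3]
  have h5 : Measurable (fun s => ENNReal.ofReal (cfac (lin b s) ^ d) * g (stereoS (lin b s))) :=
    hG.comp (lin_continuous b).measurable
  rw [lintegral_const_mul _ h5]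
  exact h2

/-- the diagonal is a null set -/
theorem ae_ne_prod (hd : 0 < d) : ∀ᵐ z ∂(pm d), z.1 ≠ z.2 := by
  have hms : MeasurableSet {z : Sp d × Sp d | z.1 = z.2} := measurableSet_eq_fun measurable_fst
    measurable_snd
  have h1 : ∀ x : Sp d, sphMeas d {x} = 0 := by
    intro x
    rw [← map_stereo hd, Measure.map_apply stereoS_continuous.measurable
      (measurableSet_singleton x)]
    refine withDensity_absolutelyContinuous _ _ ?_
    have h2 : (stereoS (d := d) ⁻¹' {x}).Subsingleton := by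
      intro y hy y' hy'
      have h3 : stereoS y = stereoS y' := by
        rw [mem_preimage, mem_singleton_iff] at hy hy'
        rw [hy, hy']
      exact LE2.stereo_injective (congrArg Subtype.val h3)
    have : Nontrivial (EV d) := nontriv hd
    exact h2.measure_zero _
  have h2 : pm d {z : Sp d × Sp d | z.1 = z.2} = 0 := by
    rw [Measure.measure_prod_null hms]
    refine Filter.Eventually.of_forall fun x => ?_
    have h3 : Prod.mk x ⁻¹' {z : Sp d × Sp d | z.1 = z.2} = {x} := by
      ext y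
      simp only [mem_preimage, mem_ofPred_eq, mem_singleton_iff]
      exact eq_comm
    change sphMeas d (Prod.mk x ⁻¹' {z : Sp d × Sp d | z.1 = z.2}) = 0
    rw [h3]
    exact h1 x
  have h3 := measure_eq_zero_iff_ae_notMem.mp h2
  filter_upwards [h3] with z hz
  exact hz

/-- absolute value of the logarithmic kernel -/
noncomputable def KK (d : ℕ) (z : Sp d × Sp d) : ENNReal :=
  ‖-Real.log ‖(z.1 : EV (d + 1)) - (z.2 : EV (d + 1))‖‖ₑ

theorem KK_measurable (d : ℕ) : Measurable (KK d) := by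
  unfold KK
  exact sph_kernel_measurable.enorm

theorem KK_eq (s s' : Fin d → ℝ) (h : s ≠ s') :
    KK d (stereoS (lin b s), stereoS (lin b s')) = ‖kern b s s'‖ₑ := by
  rw [kern_eq b h]
  rfl

theorem lint_KK (hd : 0 < d) : ∫⁻ z, KK d z ∂(pm d) = ∫⁻ z : (Fin d → ℝ) × (Fin d → ℝ),
    ‖sphArea d ^ 2 * (kern b z.1 z.2 * (dens b z.1 * dens b z.2))‖ₑ ∂(volume.prod volume) := by
  have hKm := KK_measurable d
  have hk := (kern_integrable b hd).const_mul (sphArea d ^ 2)
  rw [lintegral_prod _ hKm.aemeasurable, lintegral_prod _ hk.1.aemeasurable.enorm]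
  have h1 : ∀ x : Sp d, ∫⁻ y, KK d (x, y) ∂(sphMeas d) =
      ∫⁻ s', ww b s' * KK d (x, stereoS (lin b s')) := by
    intro x
    have h0 : Measurable (fun y : Sp d => KK d (x, y)) :=
      hKm.comp (measurable_prodMk_left (x := x))
    exact sph_lint b hd h0
  have h2 : Measurable (fun x : Sp d => ∫⁻ y, KK d (x, y) ∂(sphMeas d)) :=
    hKm.lintegral_prod_right'
  rw [sph_lint b hd h2]
  refine lintegral_congr fun s => ?_
  rw [h1]
  have h3 : Measurable (fun s' : Fin d → ℝ =>
      ww b s' * KK d (stereoS (lin b s), stereoS (lin b s'))) := by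
    refine (ww_measurable b).mul ?_
    have h4 : Measurable (fun s' : Fin d → ℝ => (stereoS (lin b s), stereoS (lin b s'))) :=
      measurable_const.prodMk ((stereoS_continuous.comp (lin_continuous b)).measurable)
    exact hKm.comp h4
  rw [← lintegral_const_mul _ h3]
  refine lintegral_congr_ae ?_
  filter_upwards [ae_ne hd s] with s' hs'
  rw [KK_eq b s s' hs']
  have h6 := sphArea_pos d
  have h7 := dens_pos b s
  have h8 := dens_pos b s'
  have h9 : sphArea d ^ 2 * (kern b s s' * (dens b s * dens b s')) =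
      (sphArea d * dens b s) * ((sphArea d * dens b s') * kern b s s') := by ring
  rw [h9, enorm_mul (sphArea d * dens b s), enorm_mul (sphArea d * dens b s')]
  unfold ww
  rw [Real.enorm_of_nonneg (mul_pos h6 h7).le, Real.enorm_of_nonneg (mul_pos h6 h8).le]

theorem log_integrable (hd : 0 < d) :
    Integrable (fun z : Sp d × Sp d => -Real.log ‖(z.1 : EV (d + 1)) - (z.2 : EV (d + 1))‖)
      (pm d) := by
  obtain ⟨b⟩ : Nonempty (Module.Basis (Fin d) ℝ (EV d)) :=
    ⟨(EuclideanSpace.basisFun (Fin d) ℝ).toBasis⟩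
  refine ⟨sph_kernel_measurable.aestronglyMeasurable, ?_⟩
  have hkf := ((kern_integrable b hd).const_mul (sphArea d ^ 2)).2
  rw [hasFiniteIntegral_iff_enorm] at hkf ⊢
  rw [← lint_KK b hd] at hkf
  exact hkf

/-- the integrand -/
noncomputable def FF2 (d : ℕ) (p : (Sp d × Sp d) × ℝ) : ℝ :=
  (gau p.2 ‖(p.1.1 : EV (d + 1)) - (p.1.2 : EV (d + 1))‖ - Real.exp (-p.2)) / p.2

theorem FF2_apply (z : Sp d × Sp d) (t : ℝ) : FF2 d (z, t) =
    (gau t ‖(z.1 : EV (d + 1)) - (z.2 : EV (d + 1))‖ - Real.exp (-t)) / t := rfl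

theorem FF2_measurable (d : ℕ) : Measurable (FF2 d) := by
  unfold FF2 gau
  have h1 : Continuous (fun p : (Sp d × Sp d) × ℝ =>
      ‖(p.1.1 : EV (d + 1)) - (p.1.2 : EV (d + 1))‖) := by fun_prop
  have h2 : Measurable (fun p : (Sp d × Sp d) × ℝ =>
      Real.exp (-(p.2 * ‖(p.1.1 : EV (d + 1)) - (p.1.2 : EV (d + 1))‖ ^ 2)) - Real.exp (-p.2)) := by
    have h3 : Continuous (fun p : (Sp d × Sp d) × ℝ =>
      Real.exp (-(p.2 * ‖(p.1.1 : EV (d + 1)) - (p.1.2 : EV (d + 1))‖ ^ 2)) - Real.exp (-p.2)) := by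
      fun_prop
    exact h3.measurable
  exact h2.div measurable_snd

theorem norm_pos_of_ne {z : Sp d × Sp d} (h : z.1 ≠ z.2) :
    0 < ‖(z.1 : EV (d + 1)) - (z.2 : EV (d + 1))‖ := by
  rw [norm_pos_iff, sub_ne_zero]
  exact fun h' => h (Subtype.ext h')

theorem FF2_integrable (hd : 0 < d) :
    Integrable (FF2 d) ((pm d).prod (volume.restrict (Ioi 0))) := by
  rw [integrable_prod_iff (FF2_measurable d).aestronglyMeasurable]
  refine ⟨?_, ?_⟩
  · filter_upwards [ae_ne_prod hd] with z hz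
    have h0 := log_rep_int (norm_pos_of_ne hz)
    simp only [FF2_apply]
    exact h0
  · have h1 := ((log_integrable hd).norm.const_mul 2)
    refine h1.congr ?_
    filter_upwards [ae_ne_prod hd] with z hz
    have h2 := log_rep_abs (norm_pos_of_ne hz)
    simp only [FF2_apply, Real.norm_eq_abs]
    rw [abs_neg, ← h2]

theorem gau_int (d : ℕ) (t : ℝ) (ht : 0 < t) :
    Integrable (fun z : Sp d × Sp d => gau t ‖(z.1 : EV (d + 1)) - (z.2 : EV (d + 1))‖) (pm d) := by
  have h1 : Continuous (fun z : Sp d × Sp d =>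
      gau t ‖(z.1 : EV (d + 1)) - (z.2 : EV (d + 1))‖) := by
    unfold gau
    fun_prop
  refine (integrable_const (1 : ℝ)).mono' h1.aestronglyMeasurable
    (Filter.Eventually.of_forall fun z => ?_)
  unfold gau
  rw [Real.norm_of_nonneg (Real.exp_pos _).le]
  exact Real.exp_le_one_iff.2 (by
    have : 0 ≤ t * ‖(z.1 : EV (d + 1)) - (z.2 : EV (d + 1))‖ ^ 2 := by positivity
    linarith)

theorem pm_univ (d : ℕ) : (pm d).real univ = sphArea d ^ 2 := by
  rw [measureReal_def, ← univ_prod_univ, Measure.prod_prod, ENNReal.toReal_mul]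
  unfold sphArea
  ring

theorem inner_eq (d : ℕ) (t : ℝ) (ht : 0 < t) :
    ∫ z, FF2 d (z, t) ∂(pm d) = sphArea d ^ 2 * ((gS d t - Real.exp (-t)) / t) := by
  simp only [FF2_apply]
  rw [integral_div, integral_sub (gau_int d t ht) (integrable_const _), integral_const,
    smul_eq_mul, pm_univ, integral_prod _ (gau_int d t ht)]
  unfold gS
  have := (sphArea_pos d).ne'
  field_simp

end LB2aux

section LB2
variable {d : ℕ}

open LB2aux LE3aux

theorem gau_nonneg (t r : ℝ) : 0 ≤ gau t r := (Real.exp_pos _).le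

theorem V_rep_int (hd : 0 < d) :
    IntegrableOn (fun t => (gS d t - Real.exp (-t)) / t) (Ioi 0) := by
  have h1 : Integrable (fun t => ∫ z, FF2 d (z, t) ∂(pm d)) (volume.restrict (Ioi 0)) :=
    (FF2_integrable hd).integral_prod_right
  have h2 : IntegrableOn (fun t => (sphArea d ^ 2)⁻¹ * ∫ z, FF2 d (z, t) ∂(pm d)) (Ioi 0) :=
    h1.const_mul _
  refine h2.congr_fun (fun t ht => ?_) measurableSet_Ioi
  change (sphArea d ^ 2)⁻¹ * ∫ z, FF2 d (z, t) ∂(pm d) = _
  rw [inner_eq d t ht, ← mul_assoc, inv_mul_cancel₀ (pow_pos (sphArea_pos d) 2).ne', one_mul]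

theorem V_rep (hd : 0 < d) :
    ∫ t in Ioi (0 : ℝ), (gS d t - Real.exp (-t)) / t = 2 * Vlog d := by
  have h1 : ∫ t in Ioi (0 : ℝ), (gS d t - Real.exp (-t)) / t =
      (sphArea d ^ 2)⁻¹ * ∫ t in Ioi (0 : ℝ), ∫ z, FF2 d (z, t) ∂(pm d) := by
    rw [← integral_const_mul]
    refine setIntegral_congr_fun measurableSet_Ioi fun t ht => ?_
    rw [inner_eq d t ht, ← mul_assoc, inv_mul_cancel₀ (pow_pos (sphArea_pos d) 2).ne', one_mul]
  have h2 : ∫ t in Ioi (0 : ℝ), ∫ z, FF2 d (z, t) ∂(pm d) =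
      ∫ z, (∫ t in Ioi (0 : ℝ), FF2 d (z, t)) ∂(pm d) :=
    (integral_integral_swap (f := fun z t => FF2 d (z, t)) (FF2_integrable hd)).symm
  have h3 : ∫ z, (∫ t in Ioi (0 : ℝ), FF2 d (z, t)) ∂(pm d) =
      ∫ z, 2 * (-Real.log ‖(z.1 : EV (d + 1)) - (z.2 : EV (d + 1))‖) ∂(pm d) := by
    refine integral_congr_ae ?_
    filter_upwards [ae_ne_prod hd] with z hz
    have h4 := log_rep (norm_pos_of_ne hz)
    have h5 : ∫ t in Ioi (0 : ℝ), FF2 d (z, t) =
      -(2 * Real.log ‖(z.1 : EV (d + 1)) - (z.2 : EV (d + 1))‖) := h4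
    rw [h5]
    ring
  rw [h1, h2, h3, integral_const_mul, integral_prod _ (log_integrable hd)]
  unfold Vlog
  have := (sphArea_pos d).ne'
  field_simp

end LB2

end Pool.Agent.Helper78.LE
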