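import Pool.Agent.Helper78.LE.LE9a

/-! The uniform decay estimate for `GamC`. -/

set_option autoImplicit false

open MeasureTheory Set Filter Topology

namespace Pool.Agent.Helper78.LE

variable {d : ℕ} (b : Module.Basis (Fin d) ℝ (EV d)) (k : ℕ)

/-- the holomorphic slice -/
noncomputable def hslice (s : ℂ) (p q : EV d) (z : ℂ) : ℂ :=
  (((‖p‖ ^ 2 : ℝ) : ℂ) + 2 * z * ((inner ℝ p q : ℝ) : ℂ) + z ^ 2 * ((‖q‖ ^ 2 : ℝ) : ℂ)) ^ (-s / 2)

theorem hslice_real (s : ℂ) (p q : EV d) (t : ℝ) (h : 0 < ‖p + t • q‖) :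
    hslice s p q (t : ℂ) = ((‖p + t • q‖ : ℝ) : ℂ) ^ (-s) := by
  have h1 : ‖p + t • q‖ ^ 2 = ‖p‖ ^ 2 + 2 * t * inner ℝ p q + t ^ 2 * ‖q‖ ^ 2 := by
    rw [norm_add_sq_real, inner_smul_right, norm_smul, mul_pow, Real.norm_eq_abs, sq_abs]
    ring
  unfold hslice
  have h2 : (((‖p‖ ^ 2 : ℝ) : ℂ) + 2 * (t : ℂ) * ((inner ℝ p q : ℝ) : ℂ) +
      (t : ℂ) ^ 2 * ((‖q‖ ^ 2 : ℝ) : ℂ)) = ((‖p + t • q‖ : ℝ) : ℂ) ^ (2 : ℂ) := by
    have h3 : ((‖p + t • q‖ : ℝ) : ℂ) ^ (2 : ℂ) = ((‖p + t • q‖ ^ 2 : ℝ) : ℂ) := by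
      push_cast
      exact Complex.cpow_ofNat _ 2
    rw [h3, h1]
    push_cast
    ring
  rw [h2, ← Complex.cpow_mul]
  · congr 1
    ring
  · rw [← Complex.ofReal_log h.le]
    have : ((Real.log ‖p + t • q‖ : ℝ) : ℂ) * 2 = ((Real.log ‖p + t • q‖ * 2 : ℝ) : ℂ) := by
      push_cast
      ring
    rw [this, Complex.ofReal_im]
    linarith [Real.pi_pos]
  · rw [← Complex.ofReal_log h.le]
    have : ((Real.log ‖p + t • q‖ : ℝ) : ℂ) * 2 = ((Real.log ‖p + t • q‖ * 2 : ℝ) : ℂ) := by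
      push_cast
      ring
    rw [this, Complex.ofReal_im]
    exact Real.pi_pos.le

theorem hslice_base (p q : EV d) (ρ : ℝ) (hρ : 0 ≤ ρ) (h : ρ * ‖q‖ ≤ ‖p‖ / 5) (z : ℂ)
    (hz : z ∈ Metric.ball (0 : ℂ) ρ) :
    ‖(((‖p‖ ^ 2 : ℝ) : ℂ) + 2 * z * ((inner ℝ p q : ℝ) : ℂ) + z ^ 2 * ((‖q‖ ^ 2 : ℝ) : ℂ)) -
      ((‖p‖ ^ 2 : ℝ) : ℂ)‖ ≤ ‖p‖ ^ 2 / 2 := by
  rw [Metric.mem_ball, dist_zero_right] at hz
  have e1 : (((‖p‖ ^ 2 : ℝ) : ℂ) + 2 * z * ((inner ℝ p q : ℝ) : ℂ) +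
      z ^ 2 * ((‖q‖ ^ 2 : ℝ) : ℂ)) - ((‖p‖ ^ 2 : ℝ) : ℂ) =
      2 * z * ((inner ℝ p q : ℝ) : ℂ) + z ^ 2 * ((‖q‖ ^ 2 : ℝ) : ℂ) := by ring
  rw [e1]
  have h1 : ‖2 * z * ((inner ℝ p q : ℝ) : ℂ)‖ ≤ 2 * (ρ * ‖q‖) * ‖p‖ := by
    rw [norm_mul, norm_mul, Complex.norm_real, Complex.norm_ofNat]
    have h2 : ‖(inner ℝ p q : ℝ)‖ ≤ ‖p‖ * ‖q‖ := norm_inner_le_norm p q
    have h3 : ‖z‖ * ‖(inner ℝ p q : ℝ)‖ ≤ ρ * (‖p‖ * ‖q‖) :=
      mul_le_mul hz.le h2 (norm_nonneg _) hρ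
    nlinarith
  have h2 : ‖z ^ 2 * ((‖q‖ ^ 2 : ℝ) : ℂ)‖ ≤ (ρ * ‖q‖) ^ 2 := by
    rw [norm_mul, norm_pow, Complex.norm_real, Real.norm_of_nonneg (by positivity), mul_pow]
    have h3 : ‖z‖ ^ 2 ≤ ρ ^ 2 := by
      apply pow_le_pow_left₀ (norm_nonneg _) hz.le
    exact mul_le_mul_of_nonneg_right h3 (by positivity)
  have h3 : 0 ≤ ρ * ‖q‖ := by positivity
  have h4 : 0 ≤ ‖p‖ := norm_nonneg p
  calc ‖2 * z * ((inner ℝ p q : ℝ) : ℂ) + z ^ 2 * ((‖q‖ ^ 2 : ℝ) : ℂ)‖ ≤ _ := norm_add_le _ _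
    _ ≤ 2 * (ρ * ‖q‖) * ‖p‖ + (ρ * ‖q‖) ^ 2 := add_le_add h1 h2
    _ ≤ ‖p‖ ^ 2 / 2 := by nlinarith

theorem hslice_holo (s : ℂ) (p q : EV d) (ρ : ℝ) (hρ : 0 ≤ ρ) (hp : 0 < ‖p‖)
    (h : ρ * ‖q‖ ≤ ‖p‖ / 5) : DifferentiableOn ℂ (hslice s p q) (Metric.ball 0 ρ) := by
  intro z hz
  apply DifferentiableAt.differentiableWithinAt
  have hb := hslice_base p q ρ hρ h z hz
  have hre : 0 < (((‖p‖ ^ 2 : ℝ) : ℂ) + 2 * z * ((inner ℝ p q : ℝ) : ℂ) +
      z ^ 2 * ((‖q‖ ^ 2 : ℝ) : ℂ)).re := by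
    set w := (((‖p‖ ^ 2 : ℝ) : ℂ) + 2 * z * ((inner ℝ p q : ℝ) : ℂ) +
      z ^ 2 * ((‖q‖ ^ 2 : ℝ) : ℂ)) with hw
    have h1 : |(w - ((‖p‖ ^ 2 : ℝ) : ℂ)).re| ≤ ‖w - ((‖p‖ ^ 2 : ℝ) : ℂ)‖ :=
      Complex.abs_re_le_norm _
    rw [Complex.sub_re, Complex.ofReal_re] at h1
    have h2 := neg_abs_le (w.re - ‖p‖ ^ 2)
    have h3 : 0 < ‖p‖ ^ 2 := by positivity
    linarith
  unfold hslice
  apply DifferentiableAt.cpow
  · fun_prop
  · exact differentiableAt_const _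
  · exact Or.inl hre

theorem hslice_bound (s : ℂ) (R : ℝ) (hs : ‖s‖ ≤ R) (hs1 : -1 ≤ s.re) (p q : EV d) (ρ : ℝ)
    (hρ : 0 ≤ ρ) (hp : 2 ≤ ‖p‖) (h : ρ * ‖q‖ ≤ ‖p‖ / 5) (z : ℂ)
    (hz : z ∈ Metric.ball (0 : ℂ) ρ) :
    ‖hslice s p q z‖ ≤ Real.exp (Real.pi * R) * (2 * ‖p‖) := by
  have hb := hslice_base p q ρ hρ h z hz
  unfold hslice
  set w := (((‖p‖ ^ 2 : ℝ) : ℂ) + 2 * z * ((inner ℝ p q : ℝ) : ℂ) +
      z ^ 2 * ((‖q‖ ^ 2 : ℝ) : ℂ)) with hw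
  have hn : ‖((‖p‖ ^ 2 : ℝ) : ℂ)‖ = ‖p‖ ^ 2 := by
    rw [Complex.norm_real, Real.norm_of_nonneg (by positivity)]
  have h1 : ‖p‖ ^ 2 / 2 ≤ ‖w‖ := by
    have := norm_sub_norm_le ((‖p‖ ^ 2 : ℝ) : ℂ) w
    rw [hn, norm_sub_rev] at this
    linarith
  have h2 : ‖w‖ ≤ (2 * ‖p‖) ^ 2 := by
    have := norm_sub_norm_le w ((‖p‖ ^ 2 : ℝ) : ℂ)
    rw [hn] at this
    nlinarith
  have h3 : 1 ≤ ‖w‖ := by nlinarith
  have hw0 : w ≠ 0 := by
    intro h0
    rw [h0, norm_zero] at h3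
    linarith
  rw [Complex.norm_cpow_of_ne_zero hw0]
  have hre : (-s / 2).re ≤ 1 / 2 := by
    have : (-s / 2).re = -s.re / 2 := by simp
    rw [this]
    linarith
  have h4 : ‖w‖ ^ (-s / 2).re ≤ 2 * ‖p‖ := by
    calc ‖w‖ ^ (-s / 2).re ≤ ‖w‖ ^ (1 / 2 : ℝ) := Real.rpow_le_rpow_of_exponent_le h3 hre
      _ ≤ ((2 * ‖p‖) ^ 2) ^ (1 / 2 : ℝ) := Real.rpow_le_rpow (norm_nonneg _) h2 (by norm_num)
      _ = 2 * ‖p‖ := by
          rw [← Real.sqrt_eq_rpow, Real.sqrt_sq (by positivity)]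
  have h5 : -(Real.pi * R) ≤ Complex.arg w * (-s / 2).im := by
    have h6 : |Complex.arg w| ≤ Real.pi := Complex.abs_arg_le_pi w
    have h7 : |(-s / 2).im| ≤ R := by
      have h8 : |(-s / 2).im| ≤ ‖-s / 2‖ := Complex.abs_im_le_norm _
      rw [norm_div, norm_neg, Complex.norm_ofNat] at h8
      have := norm_nonneg s
      linarith
    have h8 : |Complex.arg w * (-s / 2).im| ≤ Real.pi * R := by
      rw [abs_mul]
      exact mul_le_mul h6 h7 (abs_nonneg _) Real.pi_pos.le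
    have := neg_abs_le (Complex.arg w * (-s / 2).im)
    linarith
  rw [div_eq_mul_inv, ← Real.exp_neg, mul_comm]
  apply mul_le_mul _ h4 (by positivity) (by positivity)
  apply Real.exp_le_exp.mpr
  linarith

theorem rpow_neg_odd (t : ℝ) (ht : 0 < t) :
    t ^ (-(2 * (k : ℝ) + 1)) = (t ^ (2 * k + 1))⁻¹ := by
  rw [Real.rpow_neg ht.le]
  congr 1
  have : (2 * (k : ℝ) + 1) = ((2 * k + 1 : ℕ) : ℝ) := by push_cast; ring
  rw [this, Real.rpow_natCast]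

theorem norm_box (y : Fin d → ℝ)
    (hy : y ∈ Set.pi Set.univ (fun _ : Fin d => Set.Icc (-((k : ℝ) + 1)) ((k : ℝ) + 1))) :
    ‖y‖ ≤ (k : ℝ) + 1 := by
  rw [pi_norm_le_iff_of_nonneg (by positivity)]
  intro i
  have := hy i (Set.mem_univ _)
  rw [Real.norm_eq_abs, abs_le]
  exact this

/-- the estimate away from the origin -/
theorem GamC_far (c0 C0 : ℝ) (hc0 : 0 < c0) (hC0 : 0 < C0)
    (hlin : ∀ s : Fin d → ℝ, c0 * ‖s‖ ≤ ‖lin b s‖ ∧ ‖lin b s‖ ≤ C0 * ‖s‖)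
    (R : ℝ) (s : ℂ) (hs : ‖s‖ ≤ R) (hs1 : -1 ≤ s.re) (x : Fin d → ℤ)
    (hx1 : 2 * ((k : ℝ) + 1) ≤ ‖iv x‖) (hx2 : 4 ≤ c0 * ‖iv x‖)
    (hx3 : 20 * ((k : ℝ) + 1) * C0 ≤ c0 * ‖iv x‖) :
    ‖GamC b k s x‖ ≤ d * (4 * (Real.exp (Real.pi * R) * (2 * (2 * C0 * ‖iv x‖))) *
      (((k : ℝ) + 1) / (c0 * ‖iv x‖ / (10 * C0))) ^ (2 * k + 2)) := by
  have hpD := autD_prob k
  have hpM := autM_prob k
  set r0 := ‖iv x‖ with hr0
  set A : ℝ := (k : ℝ) + 1 with hA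
  have hA0 : 0 < A := by positivity
  have hr00 : 0 < r0 := by nlinarith
  set K : Set ℝ := Set.Icc (-A) A with hK
  -- geometry
  have hlow : ∀ y : Fin d → ℝ, ‖y‖ ≤ A → c0 * r0 / 2 ≤ ‖lin b (iv x + y)‖ := by
    intro y hy
    have h1 := (hlin (iv x + y)).1
    have h2 : r0 - ‖y‖ ≤ ‖iv x + y‖ := by
      have := norm_sub_le (iv x + y) y
      rw [add_sub_cancel_right] at this
      linarith
    have h3 : r0 / 2 ≤ ‖iv x + y‖ := by linarith
    calc c0 * r0 / 2 = c0 * (r0 / 2) := by ring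
      _ ≤ c0 * ‖iv x + y‖ := mul_le_mul_of_nonneg_left h3 hc0.le
      _ ≤ _ := h1
  have hup : ∀ y : Fin d → ℝ, ‖y‖ ≤ A → ‖lin b (iv x + y)‖ ≤ 2 * C0 * r0 := by
    intro y hy
    have h1 := (hlin (iv x + y)).2
    have h2 : ‖iv x + y‖ ≤ r0 + ‖y‖ := norm_add_le _ _
    have h3 : ‖iv x + y‖ ≤ 2 * r0 := by linarith
    calc ‖lin b (iv x + y)‖ ≤ C0 * ‖iv x + y‖ := h1
      _ ≤ C0 * (2 * r0) := mul_le_mul_of_nonneg_left h3 hC0.le
      _ = _ := by ring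
  have hq : ∀ i : Fin d, ‖lin b (Pi.single i 1)‖ ≤ C0 := by
    intro i
    have h1 := (hlin (Pi.single i 1)).2
    have h2 : ‖(Pi.single i 1 : Fin d → ℝ)‖ ≤ 1 := by
      rw [pi_norm_le_iff_of_nonneg zero_le_one]
      intro j
      by_cases hj : j = i
      · subst hj
        simp
      · rw [Pi.single_eq_of_ne hj]
        simp
    calc _ ≤ C0 * ‖(Pi.single i 1 : Fin d → ℝ)‖ := h1
      _ ≤ C0 * 1 := mul_le_mul_of_nonneg_left h2 hC0.le
      _ = C0 := mul_one _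
  -- the function
  set f : (Fin d → ℝ) → ℂ := fun y => ((‖lin b (iv x + y)‖ : ℝ) : ℂ) ^ (-s) with hf
  have hfm : Measurable f := by
    apply Measurable.pow_const
    apply Complex.measurable_ofReal.comp
    apply Measurable.norm
    exact (lin_measurable b).comp (measurable_const.add measurable_id)
  have hbd : ∀ y ∈ Set.pi Set.univ (fun _ : Fin d => K), ‖f y‖ ≤ 2 * C0 * r0 := by
    intro y hy
    have hy1 := norm_box k y hy
    have h1 := hlow y hy1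
    have h2 := hup y hy1
    have h3 : 2 ≤ ‖lin b (iv x + y)‖ := by linarith
    have h4 : ‖f y‖ = ‖lin b (iv x + y)‖ ^ (-s.re) := by
      rw [hf]
      simp only
      rw [Complex.norm_cpow_eq_rpow_re_of_pos (by linarith), Complex.neg_re]
    rw [h4]
    calc ‖lin b (iv x + y)‖ ^ (-s.re) ≤ ‖lin b (iv x + y)‖ ^ (1 : ℝ) :=
          Real.rpow_le_rpow_of_exponent_le (by linarith) (by linarith)
      _ = ‖lin b (iv x + y)‖ := Real.rpow_one _
      _ ≤ _ := h2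
  have hD : ∫ y, cF b s (iv x + y) ∂(Measure.pi fun _ : Fin d => autD k) =
      ∫ y, f y ∂(Measure.pi fun _ : Fin d => autD k) := by
    apply integral_congr_ae
    filter_upwards [ae_pi_mem (fun _ : Fin d => autD k) K (fun _ => autD_compl k)] with y hy
    have hy1 := norm_box k y hy
    have h1 := hlow y hy1
    unfold cF
    rw [if_neg]
    intro h0
    rw [h0] at h1
    rw [(lin_eq_zero b 0).mpr rfl, norm_zero] at h1
    linarith
  have hM : ∫ y, cG b s (iv x + y) ∂(Measure.pi fun _ : Fin d => autM k) =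
      ∫ y, f y ∂(Measure.pi fun _ : Fin d => autM k) := by
    apply integral_congr_ae
    filter_upwards [ae_pi_mem (fun _ : Fin d => autM k) K (fun _ => autM_compl k)] with y hy
    have hy1 := norm_box k y hy
    have h1 := hlow y hy1
    unfold cG
    rw [if_neg]
    rw [not_lt]
    linarith
  unfold GamC
  rw [hD, hM]
  apply hybrid (autD k) (autM k) K measurableSet_Icc (autD_compl k) (autM_compl k) f hfm _ hbd
  intro i y hy
  set p := lin b (iv x + Function.update y i 0) with hp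
  set q := lin b (Pi.single i 1) with hqd
  have hupd : ∀ t : ℝ, lin b (iv x + Function.update y i t) = p + t • q := by
    intro t
    rw [hp, hqd, ← lin_smul, ← lin_add]
    congr 1
    funext j
    by_cases hj : j = i
    · subst hj
      simp
    · simp [Function.update_of_ne hj, Pi.single_eq_of_ne hj]
  have hybox : ∀ t ∈ K, ‖Function.update y i t‖ ≤ A := by
    intro t ht
    apply norm_box k
    intro j _
    by_cases hj : j = i
    · subst hj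
      rw [Function.update_self]
      exact ht
    · rw [Function.update_of_ne hj]
      exact hy j (Set.mem_univ _)
  have hsl : ∀ t ∈ K, f (Function.update y i t) = hslice s p q (t : ℂ) := by
    intro t ht
    have h1 := hlow _ (hybox t ht)
    rw [hupd t] at h1
    rw [hslice_real s p q t (by linarith)]
    rw [hf]
    simp only
    rw [hupd t]
  have h0K : (0 : ℝ) ∈ K := ⟨by linarith, hA0.le⟩
  have hp1 : c0 * r0 / 2 ≤ ‖p‖ := hlow _ (hybox 0 h0K)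
  have hp2 : ‖p‖ ≤ 2 * C0 * r0 := hup _ (hybox 0 h0K)
  set Rz := c0 * r0 / (10 * C0) with hRz
  have hRz0 : 0 ≤ Rz := by positivity
  have hRq : Rz * ‖q‖ ≤ ‖p‖ / 5 := by
    calc Rz * ‖q‖ ≤ Rz * C0 := mul_le_mul_of_nonneg_left (hq i) hRz0
      _ = c0 * r0 / 2 / 5 := by
          rw [hRz]
          field_simp
          ring
      _ ≤ ‖p‖ / 5 := by linarith
  have hR2 : 2 * ((k : ℝ) + 1) ≤ Rz := by
    rw [hRz, le_div_iff₀ (by positivity)]
    linarith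
  have hpp : 2 ≤ ‖p‖ := by linarith
  have h1 : ∫ t, f (Function.update y i t) ∂(autD k) =
      ∫ t, hslice s p q ((t : ℝ) : ℂ) ∂(autD k) := by
    apply integral_congr_ae
    have : ∀ᵐ t ∂(autD k), t ∈ K := by
      rw [ae_iff]
      exact autD_compl k
    filter_upwards [this] with t ht
    exact hsl t ht
  have h2 : ∫ t, f (Function.update y i t) ∂(autM k) =
      ∫ t, hslice s p q ((t : ℝ) : ℂ) ∂(autM k) := by
    apply integral_congr_ae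
    have : ∀ᵐ t ∂(autM k), t ∈ K := by
      rw [ae_iff]
      exact autM_compl k
    filter_upwards [this] with t ht
    exact hsl t ht
  rw [h1, h2]
  apply aut_holo k (hslice s p q) Rz _ hR2
  · exact hslice_holo s p q Rz hRz0 (by linarith) hRq
  · intro z hz
    calc ‖hslice s p q z‖ ≤ Real.exp (Real.pi * R) * (2 * ‖p‖) :=
          hslice_bound s R hs hs1 p q Rz hRz0 hpp hRq z hz
      _ ≤ _ := by
          apply mul_le_mul_of_nonneg_left _ (Real.exp_pos _).le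
          linarith

theorem finite_small (X : ℝ) : {x : Fin d → ℤ | ‖iv x‖ < X}.Finite := by
  apply Set.Finite.subset (Set.finite_Icc (fun _ : Fin d => (-⌈X⌉ : ℤ)) (fun _ => ⌈X⌉))
  intro x hx
  rw [Set.mem_ofPred_eq] at hx
  have h : ∀ i, |((x i : ℤ) : ℝ)| < X := by
    intro i
    have := norm_le_pi_norm (iv x) i
    rw [Real.norm_eq_abs] at this
    exact lt_of_le_of_lt this hx
  constructor
  · intro i
    have h1 := (abs_lt.mp (h i)).1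
    have h2 := Int.le_ceil X
    have : ((-⌈X⌉ : ℤ) : ℝ) ≤ (x i : ℝ) := by push_cast; linarith
    exact_mod_cast this
  · intro i
    have h1 := (abs_lt.mp (h i)).2
    have h2 := Int.le_ceil X
    have : (x i : ℝ) ≤ ((⌈X⌉ : ℤ) : ℝ) := by linarith
    exact_mod_cast this

theorem GamC_bound (R : ℝ) : ∃ C : ℝ, ∀ (x : Fin d → ℤ) (s : ℂ), ‖s‖ ≤ R → -1 ≤ s.re →
    ‖GamC b k s x‖ ≤ C * (1 + ‖iv x‖) ^ (-(2 * (k : ℝ) + 1)) := by
  obtain ⟨c0, C0, hc0, hC0, hlin⟩ := lin_bounds b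
  set A : ℝ := (k : ℝ) + 1 with hA
  have hA0 : 0 < A := by positivity
  set X : ℝ := 2 * A + 4 / c0 + 20 * A * C0 / c0 + 1 with hX
  have hX1 : 1 ≤ X := by
    have h1 : 0 ≤ 4 / c0 := by positivity
    have h2 : 0 ≤ 20 * A * C0 / c0 := by positivity
    linarith
  -- the small terms
  have hfin := finite_small (d := d) X
  have hcont : Continuous (fun s : ℂ => ∑ x ∈ hfin.toFinset, ‖GamC b k s x‖) := by
    apply continuous_finsetSum
    intro x _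
    apply Continuous.norm
    rw [continuous_iff_continuousAt]
    intro s
    exact (GamC_hasDerivAt b k s x).continuousAt
  obtain ⟨C4, hC4⟩ := (isCompact_closedBall (0 : ℂ) R).exists_bound_of_continuousOn
    hcont.continuousOn
  set E := Real.exp (Real.pi * R) with hE
  have hE0 : 0 < E := Real.exp_pos _
  set M : ℝ := 10 * A * C0 / c0 with hM
  have hM0 : 0 < M := by positivity
  set C5 : ℝ := d * (16 * E * C0 * M ^ (2 * k + 2)) * 2 ^ (2 * k + 1) with hC5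
  have hC50 : 0 ≤ C5 := by positivity
  refine ⟨|C4| * (1 + X) ^ (2 * k + 1) + C5, ?_⟩
  intro x s hs hs1
  have hr0 : 0 ≤ ‖iv x‖ := norm_nonneg _
  rw [rpow_neg_odd k _ (by linarith)]
  have hpos : 0 < (1 + ‖iv x‖) ^ (2 * k + 1) := by positivity
  rw [← div_eq_mul_inv, le_div_iff₀ hpos]
  by_cases hxs : ‖iv x‖ < X
  · have h1 : ‖GamC b k s x‖ ≤ |C4| := by
      have h2 : x ∈ hfin.toFinset := by
        rw [Set.Finite.mem_toFinset]
        exact hxs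
      have h3 := Finset.single_le_sum (f := fun x => ‖GamC b k s x‖)
        (fun x _ => norm_nonneg _) h2
      have h4 := hC4 s (by rwa [Metric.mem_closedBall, dist_zero_right])
      have h5 := le_abs_self (∑ x ∈ hfin.toFinset, ‖GamC b k s x‖)
      rw [Real.norm_eq_abs] at h4
      have h6 := le_abs_self C4
      exact (h3.trans h5).trans (h4.trans h6)
    have h2 : (1 + ‖iv x‖) ^ (2 * k + 1) ≤ (1 + X) ^ (2 * k + 1) :=
      pow_le_pow_left₀ (by linarith) (by linarith) _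
    have h3 := mul_le_mul h1 h2 hpos.le (abs_nonneg _)
    linarith
  · push Not at hxs
    have hX2 : 0 < 4 / c0 := by positivity
    have hX3 : 0 < 20 * A * C0 / c0 := by positivity
    have hx1 : 2 * ((k : ℝ) + 1) ≤ ‖iv x‖ := by linarith
    have hx2 : 4 ≤ c0 * ‖iv x‖ := by
      have : 4 / c0 ≤ ‖iv x‖ := by linarith
      rw [div_le_iff₀ hc0] at this
      linarith
    have hx3 : 20 * ((k : ℝ) + 1) * C0 ≤ c0 * ‖iv x‖ := by
      have : 20 * A * C0 / c0 ≤ ‖iv x‖ := by linarith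
      rw [div_le_iff₀ hc0] at this
      linarith
    have hmain := GamC_far b k c0 C0 hc0 hC0 hlin R s hs hs1 x hx1 hx2 hx3
    have hrpos : 0 < ‖iv x‖ := by linarith
    have h1 : (((k : ℝ) + 1) / (c0 * ‖iv x‖ / (10 * C0))) = M / ‖iv x‖ := by
      rw [hM, hA]
      field_simp
    rw [h1, div_pow] at hmain
    have h2 : (d : ℝ) * (4 * (Real.exp (Real.pi * R) * (2 * (2 * C0 * ‖iv x‖))) *
        (M ^ (2 * k + 2) / ‖iv x‖ ^ (2 * k + 2))) =
        d * (16 * E * C0 * M ^ (2 * k + 2)) / ‖iv x‖ ^ (2 * k + 1) := by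
      rw [hE, show ‖iv x‖ ^ (2 * k + 2) = ‖iv x‖ ^ (2 * k + 1) * ‖iv x‖ from pow_succ _ _]
      field_simp
      ring
    rw [h2] at hmain
    have h3 : (1 + ‖iv x‖) ^ (2 * k + 1) ≤ 2 ^ (2 * k + 1) * ‖iv x‖ ^ (2 * k + 1) := by
      rw [← mul_pow]
      exact pow_le_pow_left₀ (by linarith) (by linarith) _
    have h4 : 0 ≤ |C4| * (1 + X) ^ (2 * k + 1) := by positivity
    have h5 : 0 < ‖iv x‖ ^ (2 * k + 1) := by positivity
    calc ‖GamC b k s x‖ * (1 + ‖iv x‖) ^ (2 * k + 1) ≤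
        (d * (16 * E * C0 * M ^ (2 * k + 2)) / ‖iv x‖ ^ (2 * k + 1)) *
          (2 ^ (2 * k + 1) * ‖iv x‖ ^ (2 * k + 1)) :=
          mul_le_mul hmain h3 hpos.le (by positivity)
      _ = C5 := by
          rw [hC5]
          field_simp
      _ ≤ _ := by linarith

end Pool.Agent.Helper78.LE
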