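import Pool.Agent.Helper78.LE.Zeta
import Pool.Agent.Helper78.LE.LE9b

/-! Existence of the continuation and the value of `∑ Γ(x)`. -/

set_option autoImplicit false

open MeasureTheory Set Filter Topology

namespace Pool.Agent.Helper78.LE

variable {d : ℕ} (b : Module.Basis (Fin d) ℝ (EV d)) (k : ℕ)

/-- the region near the origin used for the uniform estimate -/
def reg (R : ℝ) : Set ℂ := {s | -1 < s.re} ∩ Metric.ball 0 R

theorem reg_open (R : ℝ) : IsOpen (reg R) :=
  (isOpen_lt continuous_const Complex.continuous_re).inter Metric.isOpen_ball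

noncomputable def Z1 (s : ℂ) : ℂ := ∑' x : Fin d → ℤ, GamC b k s x

theorem Z1_diffOn (hk : d < 2 * k + 1) (R : ℝ) : DifferentiableOn ℂ (Z1 b k) (reg R) := by
  obtain ⟨C, hC⟩ := GamC_bound b k R
  apply Complex.differentiableOn_tsum_of_summable_norm ((summable_decay k hk).mul_left C)
  · intro x s _
    exact (GamC_hasDerivAt b k s x).differentiableWithinAt
  · exact reg_open R
  · intro x s hs
    apply hC x s _ hs.1.le
    have := hs.2
    rw [Metric.mem_ball, dist_zero_right] at this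
    exact this.le

theorem Z1_diffAt (hk : d < 2 * k + 1) (s : ℂ) (hs : -1 < s.re) :
    DifferentiableAt ℂ (Z1 b k) s := by
  apply (Z1_diffOn b k hk (‖s‖ + 1)).differentiableAt
  apply (reg_open _).mem_nhds
  refine ⟨hs, ?_⟩
  rw [Metric.mem_ball, dist_zero_right]
  linarith

theorem Z1_hasSum_deriv (hk : d < 2 * k + 1) :
    HasSum (fun x : Fin d → ℤ => deriv (fun s => GamC b k s x) 0) (deriv (Z1 b k) 0) := by
  obtain ⟨C, hC⟩ := GamC_bound b k 1
  apply Complex.hasSum_deriv_of_summable_norm ((summable_decay k hk).mul_left C)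
    (fun x s _ => (GamC_hasDerivAt b k s x).differentiableWithinAt) (reg_open 1)
  · intro x s hs
    apply hC x s _ hs.1.le
    have := hs.2
    rw [Metric.mem_ball, dist_zero_right] at this
    exact this.le
  · refine ⟨?_, ?_⟩
    · simp
    · simp

theorem Z1_value (hd : 0 < d) (s : ℂ) (hs : (d : ℝ) < s.re) :
    Z1 b k s = (∑' n : {n : Fin d → ℤ // n ≠ 0}, ((‖latVec b n.1‖ : ℝ) : ℂ) ^ (-s)) -
      om b / (s - d) := by
  obtain ⟨h1, h2⟩ := integral_cG b hd s hs
  have h3 := tsum_autM k (cG b s) h1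
  rw [h2] at h3
  exact ((tsum_autD b k s hs).sub h3).tsum_eq

noncomputable def ZW (s : ℂ) : ℂ := Z1 b k s + om b / (s - d)

theorem ZW_isZeta (hd : 0 < d) (hk : d < 2 * k + 1) : IsZeta b (ZW b k) := by
  constructor
  · intro s hs hsd
    apply (Z1_diffAt b k hk s hs).add
    apply (differentiableAt_const _).div (differentiableAt_id.sub_const _)
    exact sub_ne_zero.mpr hsd
  · intro s hs
    unfold ZW
    rw [Z1_value b k hd s hs]
    ring

theorem exists_zeta (hd : 0 < d) : ∃ Z, IsZeta b Z :=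
  ⟨ZW b d, ZW_isZeta b d hd (by omega)⟩

theorem zeta_unique (hd : 0 < d) {Z W : ℂ → ℂ} (hZ : IsZeta b Z) (hW : IsZeta b W) :
    Z =ᶠ[𝓝 0] W := by
  have hd1 : (1 : ℝ) ≤ d := by exact_mod_cast hd
  set R1 : Set ℂ := {s | -1 < s.re} ∩ {s | 0 < s.im} with hR1
  set R2 : Set ℂ := {s | -1 < s.re} ∩ {s | s.re < d} with hR2
  have o1 : IsOpen R1 := (isOpen_lt continuous_const Complex.continuous_re).inter
    (isOpen_lt continuous_const Complex.continuous_im)
  have o2 : IsOpen R2 := (isOpen_lt continuous_const Complex.continuous_re).inter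
    (isOpen_lt Complex.continuous_re continuous_const)
  have c1 : IsPreconnected R1 := ((convex_halfSpace_re_gt (-1)).inter
    (convex_halfSpace_im_gt 0)).isPreconnected
  have c2 : IsPreconnected R2 := ((convex_halfSpace_re_gt (-1)).inter
    (convex_halfSpace_re_lt (d : ℝ))).isPreconnected
  have a1 : ∀ {Y : ℂ → ℂ}, IsZeta b Y → AnalyticOnNhd ℂ Y R1 := by
    intro Y hY
    apply DifferentiableOn.analyticOnNhd _ o1
    intro s hs
    apply (hY.1 s hs.1 _).differentiableWithinAt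
    intro h
    have := hs.2
    rw [h] at this
    simp at this
  have a2 : ∀ {Y : ℂ → ℂ}, IsZeta b Y → AnalyticOnNhd ℂ Y R2 := by
    intro Y hY
    apply DifferentiableOn.analyticOnNhd _ o2
    intro s hs
    apply (hY.1 s hs.1 _).differentiableWithinAt
    intro h
    have := hs.2
    rw [h] at this
    simp at this
  set z0 : ℂ := ⟨(d : ℝ) + 1, 1⟩ with hz0
  have hz0m : z0 ∈ R1 := by
    refine ⟨?_, ?_⟩
    · show (-1 : ℝ) < (d : ℝ) + 1
      linarith
    · show (0 : ℝ) < 1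
      norm_num
  have e0 : Z =ᶠ[𝓝 z0] W := by
    have hU : {s : ℂ | (d : ℝ) < s.re} ∈ 𝓝 z0 := by
      apply (isOpen_lt continuous_const Complex.continuous_re).mem_nhds
      show (d : ℝ) < (d : ℝ) + 1
      linarith
    filter_upwards [hU] with s hs
    rw [hZ.2 s hs, hW.2 s hs]
  have e1 : Set.EqOn Z W R1 := (a1 hZ).eqOn_of_preconnected_of_eventuallyEq (a1 hW) c1 hz0m e0
  set z1 : ℂ := ⟨-1 / 2, 1⟩ with hz1
  have hz1a : z1 ∈ R1 := by
    refine ⟨?_, ?_⟩
    · show (-1 : ℝ) < -1 / 2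
      norm_num
    · show (0 : ℝ) < 1
      norm_num
  have hz1b : z1 ∈ R2 := by
    refine ⟨?_, ?_⟩
    · show (-1 : ℝ) < -1 / 2
      norm_num
    · show (-1 / 2 : ℝ) < d
      linarith
  have e2 : Set.EqOn Z W R2 := by
    apply (a2 hZ).eqOn_of_preconnected_of_eventuallyEq (a2 hW) c2 hz1b
    filter_upwards [o1.mem_nhds hz1a] with s hs
    exact e1 hs
  have h0 : (0 : ℂ) ∈ R2 := by
    refine ⟨?_, ?_⟩
    · show (-1 : ℝ) < (0 : ℂ).re
      simp
    · show (0 : ℂ).re < (d : ℝ)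
      simp
      exact hd
  filter_upwards [o2.mem_nhds h0] with s hs
  exact e2 hs

theorem hasSum_Gam (hd : 0 < d) (hk : d < 2 * k + 1) (Z : ℂ → ℂ) (hZ : IsZeta b Z) :
    HasSum (fun x : Fin d → ℤ => ((Gam b k x : ℝ) : ℂ)) (deriv Z 0) := by
  have hd0 : (d : ℂ) ≠ 0 := by exact_mod_cast hd.ne'
  have h1 : deriv Z 0 = deriv (ZW b k) 0 :=
    (zeta_unique b hd hZ (ZW_isZeta b k hd hk)).deriv_eq
  have h2 : deriv (ZW b k) 0 = deriv (Z1 b k) 0 - om b / (d : ℂ) ^ 2 := by
    have e1 : DifferentiableAt ℂ (Z1 b k) 0 := Z1_diffAt b k hk 0 (by simp)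
    have e2 : HasDerivAt (fun s : ℂ => (om b : ℂ) / (s - d)) (-(om b : ℂ) / (d : ℂ) ^ 2) 0 := by
      have := (((hasDerivAt_id (0 : ℂ)).sub_const (d : ℂ)).fun_inv (by simpa using hd0)).const_mul
        (om b : ℂ)
      have h3 : (om b : ℂ) * (-1 / (id (0 : ℂ) - (d : ℂ)) ^ 2) = -(om b : ℂ) / (d : ℂ) ^ 2 := by
        simp
        ring
      rw [h3] at this
      apply this.congr_of_eventuallyEq
      apply Filter.Eventually.of_forall
      intro s
      simp [div_eq_mul_inv]
    have e3 := (e1.hasDerivAt.add e2).deriv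
    have e4 : (Z1 b k + fun s : ℂ => (om b : ℂ) / (s - d)) = ZW b k := rfl
    rw [e4] at e3
    rw [e3]
    ring
  obtain ⟨i1, i2⟩ := integral_log_ball b hd
  have h3 : HasSum (fun x : Fin d → ℤ =>
      (((∫ y, (if ‖lin b (iv x + y)‖ < 1 then FF b (iv x + y) else 0)
        ∂(Measure.pi fun _ : Fin d => autM k)) : ℝ) : ℂ)) ((om b : ℂ) / (d : ℂ) ^ 2) := by
    have := tsum_autM k (fun y => (((if ‖lin b y‖ < 1 then FF b y else 0 : ℝ)) : ℂ)) i1.ofReal
    rw [integral_complex_ofReal, i2] at this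
    have e5 : (((om b / (d : ℝ) ^ 2 : ℝ)) : ℂ) = (om b : ℂ) / (d : ℂ) ^ 2 := by push_cast; rfl
    rw [e5] at this
    refine this.congr_fun ?_
    intro x
    exact integral_complex_ofReal.symm
  have h4 := Z1_hasSum_deriv b k hk
  have h5 := h4.sub h3
  rw [← h2, ← h1] at h5
  refine h5.congr_fun ?_
  intro x
  rw [GamC_deriv_zero b k hd x]
  push_cast
  ring

end Pool.Agent.Helper78.LE
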