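import Pool.Agent.Helper78.LE.Defs

/-!
Project LE, module LE11: the limit of `BW`.
-/

set_option autoImplicit false

open MeasureTheory Set Filter Topology

namespace Pool.Agent.Helper78.LE

section LE11
variable {d : ℕ} (b : Module.Basis (Fin d) ℝ (EV d)) (k : ℕ)

/-- the difference of two index vectors -/
def le11_dif (m : ℕ) (p : (Fin d → Fin m) × (Fin d → Fin m)) : Fin d → ℤ :=
  fun l => ((p.1 l : ℕ) : ℤ) - ((p.2 l : ℕ) : ℤ)

/-- number of pairs with a given difference -/
def le11_c (m : ℕ) (x : Fin d → ℤ) : ℕ :=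
  (Finset.univ.filter fun p : (Fin d → Fin m) × (Fin d → Fin m) => le11_dif m p = x).card

theorem le11_c_le (m : ℕ) (x : Fin d → ℤ) : le11_c m x ≤ m ^ d := by
  have h1 : le11_c m x ≤ (Finset.univ : Finset (Fin d → Fin m)).card := by
    refine Finset.card_le_card_of_injOn (fun p => p.2) (fun p _ => Finset.mem_univ _) ?_
    intro p hp q hq hpq
    have hp' := (Finset.mem_filter.1 hp).2
    have hq' := (Finset.mem_filter.1 hq).2
    have hpq' : p.2 = q.2 := hpq
    refine Prod.ext ?_ hpq'
    funext l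
    have e1 := congrFun hp' l
    have e2 := congrFun hq' l
    simp only [le11_dif] at e1 e2
    rw [hpq'] at e1
    apply Fin.ext
    omega
  rw [Finset.card_univ, Fintype.card_fun, Fintype.card_fin, Fintype.card_fin] at h1
  exact h1

theorem le11_c_ge (m : ℕ) (x : Fin d → ℤ) (hx : ∀ l, |x l| ≤ m) :
    ∏ l, ((m : ℝ) - |(x l : ℝ)|) ≤ le11_c m x := by
  have h1 : (Fintype.piFinset fun l => Finset.Ico (max 0 (-x l)) (min (m : ℤ) (m - x l))).card ≤
      le11_c m x := by
    refine Finset.card_le_card_of_surjOn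
      (fun p : (Fin d → Fin m) × (Fin d → Fin m) => fun l => ((p.2 l : ℕ) : ℤ)) ?_
    intro z hz
    have hz' : ∀ l, z l ∈ Finset.Ico (max 0 (-x l)) (min (m : ℤ) (m - x l)) :=
      Fintype.mem_piFinset.1 hz
    have hz1 : ∀ l, 0 ≤ z l ∧ -x l ≤ z l ∧ z l < m ∧ z l < m - x l := by
      intro l
      have := Finset.mem_Ico.1 (hz' l)
      exact ⟨(le_max_left _ _).trans this.1, (le_max_right _ _).trans this.1,
        this.2.trans_le (min_le_left _ _), this.2.trans_le (min_le_right _ _)⟩
    refine ⟨(fun l => ⟨(z l + x l).toNat, by have := hz1 l; omega⟩,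
      fun l => ⟨(z l).toNat, by have := hz1 l; omega⟩), ?_, ?_⟩
    · refine Finset.mem_coe.2 (Finset.mem_filter.2 ⟨Finset.mem_univ _, ?_⟩)
      funext l
      have := hz1 l
      simp only [le11_dif]
      omega
    · funext l
      have := hz1 l
      simp only
      omega
  have h2 : ((Fintype.piFinset fun l =>
      Finset.Ico (max 0 (-x l)) (min (m : ℤ) (m - x l))).card : ℝ) =
      ∏ l, ((m : ℝ) - |(x l : ℝ)|) := by
    rw [Fintype.card_piFinset, Nat.cast_prod]
    refine Finset.prod_congr rfl fun l _ => ?_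
    rw [Int.card_Ico]
    have hl := hx l
    have h3 : (((min (m : ℤ) (m - x l) - max 0 (-x l)).toNat : ℕ) : ℤ) = (m : ℤ) - |x l| := by
      rcases abs_cases (x l) with ⟨ha, hb⟩ | ⟨ha, hb⟩
      · rw [ha] at hl ⊢
        omega
      · rw [ha] at hl ⊢
        omega
    have h4 : (((min (m : ℤ) (m - x l) - max 0 (-x l)).toNat : ℕ) : ℝ) =
        (((m : ℤ) - |x l| : ℤ) : ℝ) := by
      rw [← h3]; push_cast; rfl
    rw [h4]
    push_cast
    rfl
  rw [← h2]
  exact_mod_cast h1

theorem le11_BW (m : ℕ) : BW b k m = ∑' x : Fin d → ℤ, (le11_c m x : ℝ) * Gam b k x := by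
  have h1 : BW b k m = ∑ p : (Fin d → Fin m) × (Fin d → Fin m), Gam b k (le11_dif m p) := by
    rw [Fintype.sum_prod_type]
    rfl
  rw [h1, Finset.sum_comp (fun x => Gam b k x) (le11_dif m)]
  rw [tsum_eq_sum (s := Finset.univ.image (le11_dif m))]
  · refine Finset.sum_congr rfl fun x _ => ?_
    rw [nsmul_eq_mul]
    rfl
  · intro x hx
    have : le11_c m x = 0 := by
      unfold le11_c
      rw [Finset.card_eq_zero, Finset.filter_eq_empty_iff]
      intro p _ hp
      exact hx (Finset.mem_image.2 ⟨p, Finset.mem_univ _, hp⟩)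
    rw [this]
    simp

theorem tendsto_BW (hs : Summable (fun x : Fin d → ℤ => Gam b k x)) :
    Tendsto (fun m : ℕ => BW b k m / (m : ℝ) ^ d) atTop (𝓝 (∑' x, Gam b k x)) := by
  have h1 : ∀ m : ℕ, BW b k m / (m : ℝ) ^ d =
      ∑' x : Fin d → ℤ, ((le11_c m x : ℝ) / (m : ℝ) ^ d) * Gam b k x := by
    intro m
    rw [le11_BW, ← tsum_div_const]
    refine tsum_congr fun x => ?_
    ring
  simp only [h1]
  refine tendsto_tsum_of_dominated_convergence (bound := fun x => |Gam b k x|) hs.abs ?_ ?_
  · intro x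
    have hlim : Tendsto (fun m : ℕ => (le11_c m x : ℝ) / (m : ℝ) ^ d) atTop (𝓝 1) := by
      have hlow : Tendsto (fun m : ℕ => ∏ l, (((m : ℝ) - |(x l : ℝ)|) / m)) atTop (𝓝 1) := by
        have : Tendsto (fun m : ℕ => ∏ l : Fin d, (((m : ℝ) - |(x l : ℝ)|) / m)) atTop
            (𝓝 (∏ _l : Fin d, (1 : ℝ))) := by
          refine tendsto_finsetProd _ fun l _ => ?_
          have e1 : Tendsto (fun m : ℕ => 1 - |(x l : ℝ)| / (m : ℝ)) atTop (𝓝 (1 - 0)) :=
            tendsto_const_nhds.sub (tendsto_const_div_atTop_nhds_zero_nat _)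
          rw [sub_zero] at e1
          refine e1.congr' ?_
          filter_upwards [eventually_gt_atTop 0] with m hm
          have : (m : ℝ) ≠ 0 := by exact_mod_cast hm.ne'
          field_simp
        simpa using this
      refine tendsto_of_tendsto_of_tendsto_of_le_of_le' hlow tendsto_const_nhds ?_ ?_
      · have hev : ∀ᶠ m : ℕ in atTop, ∀ l, |x l| ≤ m := by
          rw [eventually_all]
          intro l
          filter_upwards [eventually_ge_atTop (x l).natAbs] with m hm
          rw [Int.abs_eq_natAbs]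
          exact_mod_cast hm
        filter_upwards [hev, eventually_gt_atTop 0] with m hm hm0
        rw [Finset.prod_div_distrib, Finset.prod_const, Finset.card_univ, Fintype.card_fin]
        exact div_le_div_of_nonneg_right (le11_c_ge m x hm) (by positivity)
      · filter_upwards [eventually_gt_atTop 0] with m hm0
        rw [div_le_one (by positivity)]
        exact_mod_cast le11_c_le m x
    have := hlim.mul_const (Gam b k x)
    rwa [one_mul] at this
  · refine Filter.Eventually.of_forall fun m x => ?_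
    rw [norm_mul, Real.norm_eq_abs, Real.norm_eq_abs]
    have h3 : |(le11_c m x : ℝ) / (m : ℝ) ^ d| ≤ 1 := by
      rw [abs_of_nonneg (by positivity)]
      refine div_le_one_of_le₀ ?_ (by positivity)
      exact_mod_cast le11_c_le m x
    calc |(le11_c m x : ℝ) / (m : ℝ) ^ d| * |Gam b k x| ≤ 1 * |Gam b k x| :=
          mul_le_mul_of_nonneg_right h3 (abs_nonneg _)
      _ = |Gam b k x| := one_mul _

end LE11

end Pool.Agent.Helper78.LE
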