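import Pool.Agent.Helper78.LE.Defs
import Pool.Agent.Helper78.LE.LE0
import Pool.Agent.Helper78.LE.LE1
import Pool.Agent.Helper78.LE.LE3
import Pool.Agent.Helper78.LE.LE7b

/-! LE13: choice of the windows. -/

set_option autoImplicit false

open MeasureTheory Set Filter Topology

namespace Pool.Agent.Helper78.LE

/-! ## LE13: choice of the windows -/
section LE13
variable {d : ℕ}

/-- corner of a grid cube -/
noncomputable def cvA (q : ℕ) (z : Fin d → Fin (2 * q ^ 2)) : Fin d → ℝ :=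
  fun i => -(q : ℝ) + ((z i : ℕ) : ℝ) / q

/-- grid cube -/
def cvQ (q : ℕ) (z : Fin d → Fin (2 * q ^ 2)) : Set (Fin d → ℝ) :=
  Set.pi Set.univ fun i => Set.Ico (cvA q z i) (cvA q z i + 1 / q)

theorem cv_meas (q : ℕ) (z : Fin d → Fin (2 * q ^ 2)) : MeasurableSet (cvQ q z) :=
  MeasurableSet.univ_pi fun _ => measurableSet_Ico

theorem cv_vol (q : ℕ) (z : Fin d → Fin (2 * q ^ 2)) :
    (volume (cvQ q z)).toReal = (1 / (q : ℝ)) ^ d := by
  rw [cvQ, Real.volume_pi_Ico]
  simp only [add_sub_cancel_left, Finset.prod_const, Finset.card_univ, Fintype.card_fin]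
  rw [ENNReal.toReal_pow, ENNReal.toReal_ofReal (by positivity)]

theorem cv_vol_lt (q : ℕ) (z : Fin d → Fin (2 * q ^ 2)) : volume (cvQ q z) < ⊤ := by
  rw [cvQ, Real.volume_pi_Ico]
  simp only [add_sub_cancel_left, Finset.prod_const, Finset.card_univ, Fintype.card_fin]
  exact ENNReal.pow_lt_top ENNReal.ofReal_lt_top

theorem cv_unique (q : ℕ) (hq : 0 < q) (z : Fin d → Fin (2 * q ^ 2)) (s : Fin d → ℝ)
    (hs : s ∈ cvQ q z) (i : Fin d) : ⌊(s i + q) * q⌋₊ = (z i : ℕ) := by
  have h := hs i (Set.mem_univ i)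
  obtain ⟨h1, h2⟩ := h
  have hq' : (0 : ℝ) < q := by exact_mod_cast hq
  simp only [cvA] at h1 h2
  have e1 : ((z i : ℕ) : ℝ) / q * q = ((z i : ℕ) : ℝ) := div_mul_cancel₀ _ hq'.ne'
  have e2 : ((z i : ℕ) : ℝ) / q ≤ s i + q := by linarith
  have e3 : s i + q < ((z i : ℕ) : ℝ) / q + 1 / q := by linarith
  have e4 := mul_le_mul_of_nonneg_right e2 hq'.le
  have e5 := mul_lt_mul_of_pos_right e3 hq'
  rw [e1] at e4
  rw [add_mul (((z i : ℕ) : ℝ) / q), e1, one_div_mul_cancel hq'.ne'] at e5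
  rw [Nat.floor_eq_iff ((Nat.cast_nonneg _).trans e4)]
  exact ⟨e4, e5⟩

theorem cv_exists (q : ℕ) (hq : 0 < q) (s : Fin d → ℝ)
    (hs : s ∈ Set.pi Set.univ fun _ : Fin d => Set.Ico (-(q : ℝ)) q) :
    ∃ z, s ∈ cvQ q z := by
  have hq' : (0 : ℝ) < q := by exact_mod_cast hq
  have hlt : ∀ i, ⌊(s i + q) * q⌋₊ < 2 * q ^ 2 := by
    intro i
    have h := hs i (Set.mem_univ i)
    have h0 : 0 ≤ (s i + q) * q := mul_nonneg (by linarith [h.1]) hq'.le
    rw [Nat.floor_lt h0]
    push_cast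
    have : s i + q < 2 * q := by linarith [h.2]
    nlinarith
  refine ⟨fun i => ⟨⌊(s i + q) * q⌋₊, hlt i⟩, fun i _ => ?_⟩
  have h := hs i (Set.mem_univ i)
  have h0 : 0 ≤ (s i + q) * q := mul_nonneg (by linarith [h.1]) hq'.le
  have h1 := Nat.floor_le h0
  have h2 := Nat.lt_floor_add_one ((s i + q) * q)
  simp only [cvA]
  have e1 : ((⌊(s i + q) * q⌋₊ : ℕ) : ℝ) / q ≤ s i + q := by
    rw [div_le_iff₀ hq']; exact h1
  have e2 : s i + q < ((⌊(s i + q) * q⌋₊ : ℕ) : ℝ) / q + 1 / q := by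
    rw [← add_div, lt_div_iff₀ hq']; exact h2
  exact ⟨by linarith, by linarith⟩

theorem cv_near (q : ℕ) (z : Fin d → Fin (2 * q ^ 2)) (s : Fin d → ℝ)
    (hs : ∀ i, cvA q z i ≤ s i ∧ s i ≤ cvA q z i + 1 / q) : ‖s - cvA q z‖ ≤ 1 / q := by
  rw [pi_norm_le_iff_of_nonneg (by positivity)]
  intro i
  rw [Pi.sub_apply, Real.norm_eq_abs, abs_le]
  have := hs i
  have : (0 : ℝ) ≤ 1 / q := by positivity
  constructor <;> linarith [(hs i).1, (hs i).2]

theorem cv_normA (q : ℕ) (z : Fin d → Fin (2 * q ^ 2)) : ‖cvA q z‖ ≤ q := by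
  rw [pi_norm_le_iff_of_nonneg (by positivity)]
  intro i
  rw [Real.norm_eq_abs, abs_le]
  simp only [cvA]
  have h1 : ((z i : ℕ) : ℝ) ≤ 2 * (q : ℝ) ^ 2 := by
    exact_mod_cast (z i).2.le
  have h2 : (0 : ℝ) ≤ ((z i : ℕ) : ℝ) / q := by positivity
  rcases Nat.eq_zero_or_pos q with h | h
  · subst h
    simp
  · have hq' : (0 : ℝ) < q := by exact_mod_cast h
    have h3 : ((z i : ℕ) : ℝ) / q ≤ 2 * q := by
      rw [div_le_iff₀ hq']; nlinarith
    constructor <;> linarith

/-- the step function -/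
noncomputable def cvS (q : ℕ) (v : (Fin d → Fin (2 * q ^ 2)) → ℝ) (s : Fin d → ℝ) : ℝ :=
  ∑ z, (cvQ q z).indicator (fun _ => v z) s

theorem cvS_eq (q : ℕ) (hq : 0 < q) (v : (Fin d → Fin (2 * q ^ 2)) → ℝ) (s : Fin d → ℝ)
    (z : Fin d → Fin (2 * q ^ 2)) (hs : s ∈ cvQ q z) : cvS q v s = v z := by
  rw [cvS, Finset.sum_eq_single z]
  · rw [Set.indicator_of_mem hs]
  · intro z' _ hz'
    apply Set.indicator_of_notMem
    intro hs'
    apply hz'
    funext i
    apply Fin.ext
    rw [← cv_unique q hq z' s hs' i, ← cv_unique q hq z s hs i]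
  · intro h
    exact absurd (Finset.mem_univ z) h

theorem cvS_zero (q : ℕ) (v : (Fin d → Fin (2 * q ^ 2)) → ℝ) (s : Fin d → ℝ)
    (hs : ∀ z, s ∉ cvQ q z) : cvS q v s = 0 := by
  rw [cvS]
  exact Finset.sum_eq_zero fun z _ => Set.indicator_of_notMem (hs z) _

theorem cvS_integrable (q : ℕ) (v : (Fin d → Fin (2 * q ^ 2)) → ℝ) : Integrable (cvS q v) := by
  unfold cvS
  apply integrable_finsetSum
  intro z _
  rw [integrable_indicator_iff (cv_meas q z)]
  exact integrableOn_const (cv_vol_lt q z).ne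

theorem cvS_integral (q : ℕ) (v : (Fin d → Fin (2 * q ^ 2)) → ℝ) :
    ∫ s, cvS q v s = ∑ z, v z * (1 / (q : ℝ)) ^ d := by
  unfold cvS
  rw [integral_finsetSum]
  · refine Finset.sum_congr rfl fun z _ => ?_
    rw [integral_indicator (cv_meas q z), setIntegral_const, smul_eq_mul, Measure.real, cv_vol,
      mul_comm]
  · intro z _
    rw [integrable_indicator_iff (cv_meas q z)]
    exact integrableOn_const (cv_vol_lt q z).ne

theorem cv_dens (b : Module.Basis (Fin d) ℝ (EV d)) (s : Fin d → ℝ) :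
    dens b s = covol b / sphArea d * Real.exp (d * ell b s) := by
  have h : 0 < cfac (lin b s) := by
    unfold cfac; positivity
  rw [dens, ell, mul_comm (d : ℝ), Real.exp_mul, Real.exp_log h, Real.rpow_natCast]

/-- Bernoulli -/
theorem cv_bern (d : ℕ) (T x y : ℝ) (hT : 0 < T) (hxT : x ≤ T) (hy : T - x ≤ y) :
    T ^ d * (1 - d * (x / T)) ≤ y ^ d := by
  have h1 : 0 ≤ T - x := by linarith
  have h2 : (T - x) ^ d ≤ y ^ d := pow_le_pow_left₀ h1 hy d
  refine le_trans ?_ h2
  have h3 : x / T ≤ 1 := (div_le_one hT).2 hxT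
  have h4 : 1 + (d : ℝ) * (-(x / T)) ≤ (1 + -(x / T)) ^ d :=
    one_add_mul_le_pow (by linarith) d
  have h5 : T - x = T * (1 + -(x / T)) := by field_simp; ring
  rw [h5, mul_pow]
  apply mul_le_mul_of_nonneg_left _ (by positivity)
  linarith

theorem cover_aux (b : Module.Basis (Fin d) ℝ (EV d)) (k m : ℕ) (hd : 0 < d) (hm : 0 < m) :
    ∃ C : ℝ, ∃ q₀ : ℕ, 0 < C ∧ ∀ q N : ℕ, q₀ ≤ q → (q : ℝ) ^ (4 * d) ≤ N →
      ∃ (G : ℕ) (a : Fin G → Fin d → ℝ) (ρ l : Fin G → ℝ) (NR : ℕ),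
        N = G * m ^ d + NR ∧ (NR : ℝ) ≤ C / q * N ∧ (∀ j, 0 < ρ j) ∧
        (∀ s, ∑ j, (ρ j ^ d)⁻¹ * Win k m ((ρ j)⁻¹ • (s - a j)) ≤ N * dens b s) ∧
        (∀ j, ∀ p : Fin d → ℝ, (∀ i, 0 ≤ p i ∧ p i ≤ m + k) → ell b (a j + ρ j • p) ≤ l j) ∧
        ∀ j, Real.log (ρ j) + l j ≤
          1 / d * (Real.log (sphArea d / covol b) - Real.log N) + C / q := by
  obtain ⟨C₁, hC₁, hlip⟩ := ell_lip b
  obtain ⟨C₂, hC₂, hlow⟩ := ell_lower b
  obtain ⟨C₃, hC₃, htail⟩ := dens_tail b hd
  have hcov := covol_pos b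
  have hsph := sphArea_pos d
  set K0 := covol b / sphArea d with hK0
  have hK0p : 0 < K0 := div_pos hcov hsph
  set K1 := Real.exp (-(1 / d) * Real.log K0) with hK1
  have hK1p : 0 < K1 := Real.exp_pos _
  set C₄ := 2 * K1 * C₂ * Real.exp C₁ with hC₄
  have hC₄p : 0 < C₄ := by positivity
  have hd' : (0 : ℝ) < d := by exact_mod_cast hd
  have hm' : (0 : ℝ) < m := by exact_mod_cast hm
  set h : ℝ := (k : ℝ) + m with hh
  have hhp : 0 < h := by positivity
  set C := d * h * C₄ + 2 * d * C₁ + C₃ + 2 * C₁ with hC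
  have hCp : 0 < C := by positivity
  refine ⟨C, ⌈C + h * C₄ + 1⌉₊, hCp, fun q N hq hqN => ?_⟩
  have hq1 : C + h * C₄ + 1 ≤ (q : ℝ) := (Nat.le_ceil _).trans (by exact_mod_cast hq)
  have hhC : 0 < h * C₄ := by positivity
  have hqr : (1 : ℝ) ≤ q := by linarith
  have hq0' : (0 : ℝ) < q := by linarith
  have hq0 : 0 < q := by exact_mod_cast hq0'
  have hN0 : (0 : ℝ) < N := lt_of_lt_of_le (by positivity) hqN
  have hNK : 0 < (N : ℝ) * K0 := by positivity
  set rN := Real.exp (-(1 / d) * Real.log (N * K0)) with hrN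
  have hrNp : 0 < rN := Real.exp_pos _
  set A := cvA (d := d) q with hA
  set R : (Fin d → Fin (2 * q ^ 2)) → ℝ := fun z => rN * Real.exp (-ell b (A z) + C₁ / q) with hR
  have hRp : ∀ z, 0 < R z := fun z => by simp only [hR]; positivity
  set T : (Fin d → Fin (2 * q ^ 2)) → ℝ := fun z => 1 / (q * R z) with hT
  have hTp : ∀ z, 0 < T z := fun z => by have := hRp z; simp only [hT]; positivity
  set v : (Fin d → Fin (2 * q ^ 2)) → ℝ := fun z => (R z ^ d)⁻¹ with hv
  have hvp : ∀ z, 0 < v z := fun z => by have := hRp z; simp only [hv]; positivity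
  have hveq : ∀ z, v z = N * K0 * Real.exp (d * ell b (A z) - d * (C₁ / q)) := by
    intro z
    simp only [hv, hR, hrN]
    rw [← Real.exp_add, ← Real.exp_nat_mul, ← Real.exp_neg]
    have : -(↑d * (-(1 / (d : ℝ)) * Real.log (↑N * K0) + (-ell b (A z) + C₁ / ↑q))) =
        Real.log (N * K0) + (d * ell b (A z) - d * (C₁ / q)) := by
      field_simp
      ring
    rw [this, Real.exp_add, Real.exp_log hNK]
  have hTd : ∀ z, T z ^ d = v z * (1 / (q : ℝ)) ^ d := by
    intro z
    simp only [hT, hv]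
    have := hRp z
    rw [one_div, mul_inv, mul_pow, one_div, inv_pow (R z), mul_comm]
  -- comparison with the density
  have hell : ∀ z, ∀ s : Fin d → ℝ, (∀ i, A z i ≤ s i ∧ s i ≤ A z i + 1 / q) →
      |ell b s - ell b (A z)| ≤ C₁ / q := by
    intro z s hs
    refine (hlip s (A z)).trans ?_
    have := cv_near q z s hs
    calc C₁ * ‖s - A z‖ ≤ C₁ * (1 / q) := mul_le_mul_of_nonneg_left this hC₁.le
      _ = C₁ / q := by ring
  have hellQ : ∀ z, ∀ s ∈ cvQ q z, |ell b s - ell b (A z)| ≤ C₁ / q := by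
    intro z s hs
    exact hell z s fun i => ⟨(hs i (Set.mem_univ i)).1, (hs i (Set.mem_univ i)).2.le⟩
  have hi : ∀ z, ∀ s ∈ cvQ q z, v z ≤ N * dens b s := by
    intro z s hs
    rw [hveq, cv_dens, ← hK0, ← mul_assoc]
    apply mul_le_mul_of_nonneg_left _ hNK.le
    apply Real.exp_le_exp.2
    have := (abs_le.1 (hellQ z s hs)).1
    have h2 : (d : ℝ) * (ell b (A z) - C₁ / q) ≤ d * ell b s :=
      mul_le_mul_of_nonneg_left (by linarith) hd'.le
    linarith
  have hii : ∀ z, ∀ s ∈ cvQ q z,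
      N * dens b s * Real.exp (-(2 * d * C₁ / q)) ≤ v z := by
    intro z s hs
    rw [hveq, cv_dens, ← hK0, ← mul_assoc, mul_assoc (N * K0), ← Real.exp_add]
    apply mul_le_mul_of_nonneg_left _ hNK.le
    apply Real.exp_le_exp.2
    have := (abs_le.1 (hellQ z s hs)).2
    have h2 : (d : ℝ) * ell b s ≤ d * (ell b (A z) + C₁ / q) :=
      mul_le_mul_of_nonneg_left (by linarith) hd'.le
    have h3 : 2 * d * C₁ / q = 2 * (d * (C₁ / q)) := by ring
    rw [h3]
    linarith
  have hSle : ∀ s, cvS q v s ≤ N * dens b s := by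
    intro s
    by_cases hs : ∃ z, s ∈ cvQ q z
    · obtain ⟨z, hz⟩ := hs
      rw [cvS_eq q hq0 v s z hz]
      exact hi z s hz
    · push Not at hs
      rw [cvS_zero q v s hs]
      exact mul_nonneg hN0.le (dens_pos b s).le
  have hSge : ∀ s, (Set.pi Set.univ fun _ : Fin d => Set.Ico (-(q : ℝ)) q).indicator
      (fun s => N * dens b s * Real.exp (-(2 * d * C₁ / q))) s ≤ cvS q v s := by
    intro s
    by_cases hs : s ∈ Set.pi Set.univ fun _ : Fin d => Set.Ico (-(q : ℝ)) q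
    · obtain ⟨z, hz⟩ := cv_exists q hq0 s hs
      rw [Set.indicator_of_mem hs, cvS_eq q hq0 v s z hz]
      exact hii z s hz
    · rw [Set.indicator_of_notMem hs, cvS]
      exact Finset.sum_nonneg fun z _ => Set.indicator_nonneg (fun _ _ => (hvp z).le) _
  have hDint := dens_integrable b hd
  have hbm : MeasurableSet (Set.pi Set.univ fun _ : Fin d => Set.Ico (-(q : ℝ)) q) :=
    MeasurableSet.univ_pi fun _ => measurableSet_Ico
  have hSint : ∫ s, cvS q v s = ∑ z, T z ^ d := by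
    rw [cvS_integral]
    exact Finset.sum_congr rfl fun z _ => (hTd z).symm
  have hup : ∑ z, T z ^ d ≤ N := by
    rw [← hSint]
    calc ∫ s, cvS q v s ≤ ∫ s, N * dens b s :=
          integral_mono (cvS_integrable q v) (hDint.const_mul _) hSle
      _ = N := by rw [integral_const_mul, integral_dens b hd, mul_one]
  have hlo : N * Real.exp (-(2 * d * C₁ / q)) * (1 - C₃ / q) ≤ ∑ z, T z ^ d := by
    rw [← hSint]
    have e1 : ∫ s, (Set.pi Set.univ fun _ : Fin d => Set.Ico (-(q : ℝ)) q).indicator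
        (fun s => N * dens b s * Real.exp (-(2 * d * C₁ / q))) s =
        N * Real.exp (-(2 * d * C₁ / q)) *
          ∫ s in Set.pi Set.univ fun _ : Fin d => Set.Ico (-(q : ℝ)) q, dens b s := by
      rw [integral_indicator hbm, integral_mul_const, integral_const_mul]
      ring
    have e2 : ∫ s, (Set.pi Set.univ fun _ : Fin d => Set.Ico (-(q : ℝ)) q).indicator
        (fun s => N * dens b s * Real.exp (-(2 * d * C₁ / q))) s ≤ ∫ s, cvS q v s := by
      apply integral_mono _ (cvS_integrable q v) hSge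
      rw [integrable_indicator_iff hbm]
      exact ((hDint.const_mul _).mul_const _).integrableOn
    rw [e1] at e2
    refine le_trans ?_ e2
    apply mul_le_mul_of_nonneg_left _ (by positivity)
    have e3 := integral_add_compl hbm hDint
    rw [integral_dens b hd] at e3
    have e4 := htail q hqr
    linarith
  -- size of T
  have hTinv : ∀ z, 1 / T z ≤ C₄ / q := by
    intro z
    simp only [hT, one_div_one_div]
    have f1 : rN ≤ ((q : ℝ) ^ 4)⁻¹ * K1 := by
      simp only [hrN, hK1]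
      rw [Real.log_mul hN0.ne' hK0p.ne', mul_add, Real.exp_add]
      apply mul_le_mul_of_nonneg_right _ (Real.exp_pos _).le
      have f2 : 4 * d * Real.log q ≤ Real.log N := by
        have := Real.log_le_log (by positivity) hqN
        rw [Real.log_pow] at this
        push_cast at this
        exact this
      have f3 : -(1 / (d : ℝ)) * Real.log N ≤ -(4 * Real.log q) := by
        have f4 : (1 / (d : ℝ)) * (4 * d * Real.log q) ≤ (1 / (d : ℝ)) * Real.log N :=
          mul_le_mul_of_nonneg_left f2 (by positivity)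
        have f5 : (1 / (d : ℝ)) * (4 * d * Real.log q) = 4 * Real.log q := by field_simp
        linarith
      have f6 : Real.exp (-(4 * Real.log q)) = ((q : ℝ) ^ 4)⁻¹ := by
        rw [Real.exp_neg]
        congr 1
        have : (4 : ℝ) * Real.log q = ((4 : ℕ) : ℝ) * Real.log q := by norm_num
        rw [this, Real.exp_nat_mul, Real.exp_log hq0']
      rw [← f6]
      exact Real.exp_le_exp.2 f3
    have f7 : Real.exp (-ell b (A z) + C₁ / q) ≤ C₂ * (2 * (q : ℝ) ^ 2) * Real.exp C₁ := by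
      rw [Real.exp_add]
      apply mul_le_mul _ _ (Real.exp_pos _).le (by positivity)
      · refine (hlow (A z)).trans ?_
        apply mul_le_mul_of_nonneg_left _ hC₂.le
        have f8 : ‖A z‖ ^ 2 ≤ (q : ℝ) ^ 2 := pow_le_pow_left₀ (norm_nonneg _) (cv_normA q z) 2
        nlinarith
      · apply Real.exp_le_exp.2
        exact div_le_self hC₁.le hqr
    have f9 : R z ≤ (((q : ℝ) ^ 4)⁻¹ * K1) * (C₂ * (2 * (q : ℝ) ^ 2) * Real.exp C₁) := by
      simp only [hR]
      exact mul_le_mul f1 f7 (Real.exp_pos _).le (by positivity)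
    calc (q : ℝ) * R z ≤ q * ((((q : ℝ) ^ 4)⁻¹ * K1) *
          (C₂ * (2 * (q : ℝ) ^ 2) * Real.exp C₁)) := mul_le_mul_of_nonneg_left f9 hq0'.le
      _ = C₄ / q := by rw [hC₄]; field_simp
  have hhT : ∀ z, h ≤ T z := by
    intro z
    have g1 := hTinv z
    rw [div_le_div_iff₀ (hTp z) hq0', one_mul] at g1
    have g2 : h * C₄ ≤ C₄ * T z := by linarith
    nlinarith
  -- windows
  set n : (Fin d → Fin (2 * q ^ 2)) → ℕ := fun z => ⌊(T z - k) / m⌋₊ with hn
  have hn1 : ∀ z, (m : ℝ) * n z + k ≤ T z := by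
    intro z
    have g0 : 0 ≤ (T z - k) / m := div_nonneg (by linarith [hhT z]) hm'.le
    have g1 := Nat.floor_le g0
    rw [le_div_iff₀ hm'] at g1
    simp only [hn]
    linarith
  have hn2 : ∀ z, T z - h ≤ (m : ℝ) * n z := by
    intro z
    have g1 := Nat.lt_floor_add_one ((T z - k) / m)
    rw [div_lt_iff₀ hm'] at g1
    simp only [hn]
    linarith
  let W := Σ z : (Fin d → Fin (2 * q ^ 2)), (Fin d → Fin (n z))
  let e : W ≃ Fin (Fintype.card W) := Fintype.equivFin W
  have hcard : ((Fintype.card W : ℕ) : ℝ) * (m : ℝ) ^ d = ∑ z, ((m : ℝ) * n z) ^ d := by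
    simp only [W, Fintype.card_sigma, Fintype.card_fun, Fintype.card_fin]
    push_cast
    rw [Finset.sum_mul]
    exact Finset.sum_congr rfl fun z _ => by rw [mul_pow, mul_comm]
  have hGle : ((Fintype.card W : ℕ) : ℝ) * (m : ℝ) ^ d ≤ N := by
    rw [hcard]
    refine (Finset.sum_le_sum fun z _ => ?_).trans hup
    apply pow_le_pow_left₀ (by positivity)
    have : (0 : ℝ) ≤ k := Nat.cast_nonneg _
    linarith [hn1 z]
  have hGleN : Fintype.card W * m ^ d ≤ N := by exact_mod_cast hGle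
  have hGge : N * (1 - C / q) ≤ ((Fintype.card W : ℕ) : ℝ) * (m : ℝ) ^ d := by
    rw [hcard]
    set x₁ := d * h * C₄ / q with hx₁
    set x₂ := 2 * d * C₁ / q with hx₂
    set x₃ := C₃ / q with hx₃
    have p1 : 0 ≤ x₁ := by positivity
    have p2 : 0 ≤ x₂ := by positivity
    have p3 : 0 ≤ x₃ := by positivity
    have hdh : 0 < d * h * C₄ := by positivity
    have hdC : 0 < 2 * d * C₁ := by positivity
    have q1 : x₁ ≤ 1 := by rw [hx₁, div_le_one hq0']; linarith
    have q2 : x₂ ≤ 1 := by rw [hx₂, div_le_one hq0']; linarith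
    have q3 : x₃ ≤ 1 := by rw [hx₃, div_le_one hq0']; linarith
    have s1 : (1 - x₁) * ∑ z, T z ^ d ≤ ∑ z, ((m : ℝ) * n z) ^ d := by
      rw [Finset.mul_sum]
      refine Finset.sum_le_sum fun z _ => ?_
      refine le_trans ?_ (cv_bern d (T z) h _ (hTp z) (hhT z) (hn2 z))
      rw [mul_comm]
      apply mul_le_mul_of_nonneg_left _ (by have := hTp z; positivity)
      have : d * (h / T z) ≤ x₁ := by
        have g1 := hTinv z
        calc d * (h / T z) = (d * h) * (1 / T z) := by ring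
          _ ≤ (d * h) * (C₄ / q) := mul_le_mul_of_nonneg_left g1 (by positivity)
          _ = x₁ := by rw [hx₁]; ring
      linarith
    have s2 : 1 - x₂ ≤ Real.exp (-x₂) := by
      have := Real.add_one_le_exp (-x₂)
      linarith
    have s3 : N * (1 - x₂) * (1 - x₃) ≤ ∑ z, T z ^ d := by
      refine le_trans ?_ hlo
      apply mul_le_mul_of_nonneg_right _ (by linarith)
      exact mul_le_mul_of_nonneg_left s2 hN0.le
    have s4 : (1 - x₁) * (N * (1 - x₂) * (1 - x₃)) ≤ ∑ z, ((m : ℝ) * n z) ^ d :=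
      (mul_le_mul_of_nonneg_left s3 (by linarith)).trans s1
    refine le_trans ?_ s4
    have s5 : C / q = x₁ + x₂ + x₃ + 2 * C₁ / q := by
      rw [hC, hx₁, hx₂, hx₃]; ring
    have s6 : (0 : ℝ) ≤ 2 * C₁ / q := by positivity
    have s7 : 1 - (x₁ + x₂ + x₃) ≤ (1 - x₁) * ((1 - x₂) * (1 - x₃)) := by
      have t1 : 1 - (x₂ + x₃) ≤ (1 - x₂) * (1 - x₃) := by nlinarith [mul_nonneg p2 p3]
      have t2 : (1 - x₁) * (1 - (x₂ + x₃)) ≤ (1 - x₁) * ((1 - x₂) * (1 - x₃)) :=
        mul_le_mul_of_nonneg_left t1 (by linarith)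
      nlinarith [mul_nonneg p1 (add_nonneg p2 p3)]
    calc N * (1 - C / q) ≤ N * (1 - (x₁ + x₂ + x₃)) :=
          mul_le_mul_of_nonneg_left (by linarith) hN0.le
      _ ≤ N * ((1 - x₁) * ((1 - x₂) * (1 - x₃))) := mul_le_mul_of_nonneg_left s7 hN0.le
      _ = (1 - x₁) * (N * (1 - x₂) * (1 - x₃)) := by ring
  -- positions
  let pos : W → Fin d → ℝ := fun w => A w.1 + R w.1 • (fun i => (m : ℝ) * ((w.2 i : ℕ) : ℝ))
  refine ⟨Fintype.card W, fun j => pos (e.symm j), fun j => R (e.symm j).1,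
    fun j => ell b (A (e.symm j).1) + C₁ / q, N - Fintype.card W * m ^ d, by omega, ?_, ?_, ?_,
    ?_, ?_⟩
  · rw [Nat.cast_sub hGleN]
    push_cast
    linarith
  · exact fun j => hRp _
  · intro s
    have r1 : ∑ j : Fin (Fintype.card W), (R (e.symm j).1 ^ d)⁻¹ *
        Win k m ((R (e.symm j).1)⁻¹ • (s - pos (e.symm j))) =
        ∑ w : W, (R w.1 ^ d)⁻¹ * Win k m ((R w.1)⁻¹ • (s - pos w)) :=
      e.symm.sum_comp (fun w : W => (R w.1 ^ d)⁻¹ * Win k m ((R w.1)⁻¹ • (s - pos w)))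
    rw [r1, Fintype.sum_sigma]
    refine le_trans (Finset.sum_le_sum fun z _ => ?_) (hSle s)
    change ∑ y : Fin d → Fin (n z), (R z ^ d)⁻¹ * Win k m ((R z)⁻¹ • (s - pos ⟨z, y⟩)) ≤ _
    rw [← Finset.mul_sum]
    have r2 : ∀ y : Fin d → Fin (n z), Win k m ((R z)⁻¹ • (s - pos ⟨z, y⟩)) =
        Win k m (fun i => ((R z)⁻¹ • (s - A z)) i - m * ((y i : ℕ) : ℝ)) := by
      intro y
      congr 1
      funext i
      have := (hRp z).ne'
      simp only [pos, Pi.smul_apply, Pi.sub_apply, Pi.add_apply, smul_eq_mul]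
      field_simp
      ring
    have r3 : ∑ y : Fin d → Fin (n z), Win k m ((R z)⁻¹ • (s - pos ⟨z, y⟩)) =
        Win k (m * n z) ((R z)⁻¹ • (s - A z)) := by
      rw [← sum_Win_shift]
      exact Finset.sum_congr rfl fun y _ => r2 y
    rw [r3]
    by_cases hs : s ∈ cvQ q z
    · rw [Set.indicator_of_mem hs]
      calc (R z ^ d)⁻¹ * Win k (m * n z) ((R z)⁻¹ • (s - A z)) ≤ (R z ^ d)⁻¹ * 1 :=
            mul_le_mul_of_nonneg_left (Win_le_one _ _ _) (hvp z).le
        _ = v z := mul_one _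
    · rw [Set.indicator_of_notMem hs]
      have r4 : Win k (m * n z) ((R z)⁻¹ • (s - A z)) = 0 := by
        apply Win_eq_zero
        by_contra hcon
        push Not at hcon
        apply hs
        intro i _
        obtain ⟨c1, c2⟩ := hcon i
        simp only [Pi.smul_apply, Pi.sub_apply, smul_eq_mul] at c1 c2
        have hRz := hRp z
        rw [inv_mul_eq_div] at c1 c2
        rw [le_div_iff₀ hRz, zero_mul] at c1
        rw [div_lt_iff₀ hRz] at c2
        push_cast at c2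
        have c3 : (m * n z + k) * R z ≤ T z * R z :=
          mul_le_mul_of_nonneg_right (hn1 z) hRz.le
        have c4 : T z * R z = 1 / q := by
          simp only [hT]; field_simp
        constructor
        · linarith
        · have : s i - A z i < 1 / q := by linarith
          linarith
      rw [r4, mul_zero]
  · intro j p hp
    set w := e.symm j with hw
    have hRz := hRp w.1
    have c4 : T w.1 * R w.1 = 1 / q := by
      simp only [hT]; field_simp
    have r5 : |ell b (pos w + R w.1 • p) - ell b (A w.1)| ≤ C₁ / q := by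
      apply hell
      intro i
      simp only [pos, Pi.smul_apply, Pi.add_apply, smul_eq_mul]
      have hpi := hp i
      have j0 : (0 : ℝ) ≤ ((w.2 i : ℕ) : ℝ) := Nat.cast_nonneg _
      have j1 : ((w.2 i : ℕ) : ℝ) + 1 ≤ n w.1 := by exact_mod_cast (w.2 i).2
      have j2 : (m : ℝ) * ((w.2 i : ℕ) : ℝ) + p i ≤ T w.1 := by
        have := hn1 w.1
        have j3 : (m : ℝ) * (((w.2 i : ℕ) : ℝ) + 1) ≤ m * n w.1 :=
          mul_le_mul_of_nonneg_left j1 hm'.le
        linarith
      constructor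
      · have : 0 ≤ R w.1 * (m * ((w.2 i : ℕ) : ℝ)) + R w.1 * p i :=
          add_nonneg (by positivity) (mul_nonneg hRz.le hpi.1)
        linarith
      · have := mul_le_mul_of_nonneg_left j2 hRz.le
        rw [mul_comm (R w.1) (T w.1), c4] at this
        linarith
    have := (abs_le.1 r5).2
    linarith
  · intro j
    set w := e.symm j with hw
    have r6 : Real.log (R w.1) = -(1 / d) * Real.log (N * K0) + (-ell b (A w.1) + C₁ / q) := by
      simp only [hR, hrN]
      rw [← Real.exp_add, Real.log_exp]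
    rw [r6, Real.log_mul hN0.ne' hK0p.ne']
    have r7 : Real.log (sphArea d / covol b) = -Real.log K0 := by
      rw [hK0, ← Real.log_inv, inv_div]
    rw [r7]
    have r8 : 2 * (C₁ / q) ≤ C / q := by
      rw [← mul_div_assoc]
      apply div_le_div_of_nonneg_right _ hq0'.le
      rw [hC]
      have : 0 < d * h * C₄ := by positivity
      have : 0 < 2 * d * C₁ := by positivity
      linarith
    have r9 : -(1 / (d : ℝ)) * (Real.log N + Real.log K0) =
        1 / d * (-Real.log K0 - Real.log N) := by ring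
    linarith

theorem cover (b : Module.Basis (Fin d) ℝ (EV d)) (k m : ℕ) (hd : 0 < d) (hm : 0 < m) :
    ∃ err : ℕ → ℝ, Tendsto (fun N => err N * Real.log N) atTop (𝓝 0) ∧
      ∀ᶠ N : ℕ in atTop, ∃ (G : ℕ) (a : Fin G → Fin d → ℝ) (ρ l : Fin G → ℝ) (NR : ℕ),
        N = G * m ^ d + NR ∧ (NR : ℝ) ≤ err N * N ∧ (∀ j, 0 < ρ j) ∧
        (∀ s, ∑ j, (ρ j ^ d)⁻¹ * Win k m ((ρ j)⁻¹ • (s - a j)) ≤ N * dens b s) ∧
        (∀ j, ∀ p : Fin d → ℝ, (∀ i, 0 ≤ p i ∧ p i ≤ m + k) → ell b (a j + ρ j • p) ≤ l j) ∧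
        ∀ j, Real.log (ρ j) + l j ≤
          1 / d * (Real.log (sphArea d / covol b) - Real.log N) + err N := by
  obtain ⟨C, q₀, hC, hmain⟩ := cover_aux b k m hd hm
  have hd' : (0 : ℝ) < d := by exact_mod_cast hd
  set θ : ℝ := 1 / (4 * d) with hθ
  have hθp : 0 < θ := by positivity
  have hθ4 : θ * (4 * d) = 1 := by rw [hθ]; field_simp
  refine ⟨fun N => 2 * C / (N : ℝ) ^ θ, ?_, ?_⟩
  · have h1 : Tendsto (fun x : ℝ => Real.log x / x ^ θ) atTop (𝓝 0) :=
      (isLittleO_log_rpow_atTop hθp).tendsto_div_nhds_zero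
    have h2 := (h1.comp tendsto_natCast_atTop_atTop).const_mul (2 * C)
    rw [mul_zero] at h2
    refine h2.congr fun N => ?_
    simp only [Function.comp]
    ring
  · have ht : Tendsto (fun N : ℕ => (N : ℝ) ^ θ) atTop atTop :=
      (tendsto_rpow_atTop hθp).comp tendsto_natCast_atTop_atTop
    filter_upwards [ht.eventually_ge_atTop 2, ht.eventually_ge_atTop ((q₀ : ℝ) + 1),
      eventually_gt_atTop 0] with N h2 hq0 hN
    set y := (N : ℝ) ^ θ with hy
    set q := ⌊y⌋₊ with hq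
    have hy0 : 0 ≤ y := by linarith
    have hqy : (q : ℝ) ≤ y := Nat.floor_le hy0
    have hyq : y < q + 1 := Nat.lt_floor_add_one y
    have hq2 : y / 2 ≤ q := by linarith
    have hqp : (0 : ℝ) < q := by linarith
    have hqq : q₀ ≤ q := by
      have : (q₀ : ℝ) < q + 1 := by linarith
      have : q₀ < q + 1 := by exact_mod_cast this
      omega
    have hqN : (q : ℝ) ^ (4 * d) ≤ N := by
      calc (q : ℝ) ^ (4 * d) ≤ y ^ (4 * d) := pow_le_pow_left₀ hqp.le hqy _
        _ = N := by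
          rw [hy, ← Real.rpow_natCast, ← Real.rpow_mul (Nat.cast_nonneg _)]
          push_cast
          rw [hθ4, Real.rpow_one]
    have herr : C / q ≤ 2 * C / y := by
      rw [div_le_div_iff₀ hqp (by linarith)]
      nlinarith
    obtain ⟨G, a, ρ, l, NR, g1, g2, g3, g4, g5, g6⟩ := hmain q N hqq hqN
    refine ⟨G, a, ρ, l, NR, g1, ?_, g3, g4, g5, fun j => ?_⟩
    · exact g2.trans (mul_le_mul_of_nonneg_right herr (Nat.cast_nonneg _))
    · exact (g6 j).trans (by linarith)

end LE13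

end Pool.Agent.Helper78.LE
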