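import Pool.Agent.Helper78.LE.Defs

/-!
Project LE, module LE4: selection.
-/

set_option autoImplicit false

open MeasureTheory Set Filter Topology

namespace Pool.Agent.Helper78.LE

section LE4

/-- the law of two different coordinates -/
theorem map_pair {ι : Type*} [Fintype ι] [DecidableEq ι] {Ω : Type*} [MeasurableSpace Ω]
    (P : ι → Measure Ω) [∀ j, IsProbabilityMeasure (P j)] {j k : ι} (hjk : j ≠ k) :
    MeasurePreserving (fun ω : ι → Ω => (ω j, ω k)) (Measure.pi P) ((P j).prod (P k)) := by
  refine ⟨(measurable_pi_apply j).prodMk (measurable_pi_apply k), ?_⟩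
  have h := (ProbabilityTheory.iIndepFun_pi (μ := P) (X := fun _ x => x)
    (fun i => aemeasurable_id)).indepFun hjk
  have h2 := (ProbabilityTheory.indepFun_iff_map_prod_eq_prod_map_map
    (μ := Measure.pi P) (f := fun ω : ι → Ω => ω j) (g := fun ω : ι → Ω => ω k)
    (measurable_pi_apply j).aemeasurable (measurable_pi_apply k).aemeasurable).1 h
  rw [h2, (measurePreserving_eval P j).map_eq, (measurePreserving_eval P k).map_eq]

theorem select {ι : Type*} [Fintype ι] [DecidableEq ι] {Ω : Type*} [MeasurableSpace Ω]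
    (P : ι → Measure Ω) [∀ j, IsProbabilityMeasure (P j)]
    (f : ι → ι → Ω → Ω → ℝ)
    (hf : ∀ j k, j ≠ k → Integrable (fun z : Ω × Ω => f j k z.1 z.2) ((P j).prod (P k)))
    (g : ι → Ω → ℝ) (hg : ∀ j, Integrable (g j) (P j))
    (bad : ι → ι → Set (Ω × Ω)) (hbad : ∀ j k, j ≠ k → ((P j).prod (P k)) (bad j k) = 0)
    (bad1 : ι → Set Ω) (hbad1 : ∀ j, (P j) (bad1 j) = 0) :
    ∃ ω : ι → Ω, (∀ j k, j ≠ k → (ω j, ω k) ∉ bad j k) ∧ (∀ j, ω j ∉ bad1 j) ∧
      (∑ j, ∑ k, if j = k then 0 else f j k (ω j) (ω k)) + ∑ j, g j (ω j) ≤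
      (∑ j, ∑ k, if j = k then 0 else ∫ z, f j k z.1 z.2 ∂((P j).prod (P k))) +
        ∑ j, ∫ w, g j w ∂(P j) := by
  classical
  -- integrability of the pieces
  have hF : ∀ j k, Integrable (fun ω : ι → Ω => if j = k then (0 : ℝ) else f j k (ω j) (ω k))
      (Measure.pi P) := by
    intro j k
    by_cases h : j = k
    · simp [h]
    · simp only [h, if_false]
      have := ((map_pair P h).integrable_comp (hf j k h).aestronglyMeasurable).2 (hf j k h)
      exact this
  have hG : ∀ j, Integrable (fun ω : ι → Ω => g j (ω j)) (Measure.pi P) := by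
    intro j
    exact ((measurePreserving_eval P j).integrable_comp (hg j).aestronglyMeasurable).2 (hg j)
  have hFi : ∀ j k, ∫ ω, (if j = k then (0 : ℝ) else f j k (ω j) (ω k)) ∂(Measure.pi P) =
      if j = k then 0 else ∫ z, f j k z.1 z.2 ∂((P j).prod (P k)) := by
    intro j k
    by_cases h : j = k
    · simp [h]
    · simp only [h, if_false]
      have hm := (map_pair P h).map_eq
      rw [← hm]
      rw [integral_map (map_pair P h).aemeasurable]
      rw [hm]
      exact (hf j k h).aestronglyMeasurable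
  have hGi : ∀ j, ∫ ω, g j (ω j) ∂(Measure.pi P) = ∫ w, g j w ∂(P j) := by
    intro j
    have hm := (measurePreserving_eval P j).map_eq
    conv_rhs => rw [← hm]
    rw [integral_map (measurePreserving_eval P j).aemeasurable]
    rw [hm]; exact (hg j).aestronglyMeasurable
  set T : (ι → Ω) → ℝ := fun ω => (∑ j, ∑ k, if j = k then 0 else f j k (ω j) (ω k)) +
    ∑ j, g j (ω j) with hT
  have hTi : Integrable T (Measure.pi P) :=
    (integrable_finsetSum _ fun j _ => integrable_finsetSum _ fun k _ => hF j k).add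
      (integrable_finsetSum _ fun j _ => hG j)
  have hTe : ∫ ω, T ω ∂(Measure.pi P) =
      (∑ j, ∑ k, if j = k then 0 else ∫ z, f j k z.1 z.2 ∂((P j).prod (P k))) +
        ∑ j, ∫ w, g j w ∂(P j) := by
    rw [hT, integral_add (integrable_finsetSum _ fun j _ => integrable_finsetSum _ fun k _ =>
      hF j k) (integrable_finsetSum _ fun j _ => hG j),
      integral_finsetSum _ (fun j _ => integrable_finsetSum _ fun k _ => hF j k),
      integral_finsetSum _ (fun j _ => hG j)]
    congr 1
    · refine Finset.sum_congr rfl fun j _ => ?_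
      rw [integral_finsetSum _ (fun k _ => hF j k)]
      exact Finset.sum_congr rfl fun k _ => hFi j k
    · exact Finset.sum_congr rfl fun j _ => hGi j
  set N : Set (ι → Ω) := (⋃ j, ⋃ k, ⋃ (_ : j ≠ k), {ω | (ω j, ω k) ∈ bad j k}) ∪
    ⋃ j, {ω | ω j ∈ bad1 j} with hN
  have hN0 : Measure.pi P N = 0 := by
    rw [hN, measure_union_null_iff]
    constructor
    · rw [measure_iUnion_null_iff]
      intro j
      rw [measure_iUnion_null_iff]
      intro k
      rw [measure_iUnion_null_iff]
      intro h
      exact (map_pair P h).quasiMeasurePreserving.preimage_null (hbad j k h)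
    · rw [measure_iUnion_null_iff]
      intro j
      exact (measurePreserving_eval P j).quasiMeasurePreserving.preimage_null (hbad1 j)
  obtain ⟨ω, hω, hle⟩ := exists_notMem_null_le_integral hTi hN0
  refine ⟨ω, ?_, ?_, ?_⟩
  · intro j k h hmem
    apply hω
    rw [hN]
    left
    simp only [Set.mem_iUnion]
    exact ⟨j, k, h, hmem⟩
  · intro j hmem
    apply hω
    rw [hN]
    right
    simp only [Set.mem_iUnion]
    exact ⟨j, hmem⟩
  · rw [← hTe]
    exact hle

end LE4

end Pool.Agent.Helper78.LE
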