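import Pool.Agent.Helper78.LE.Defs

/-!
Project LE, module LE5: pipage rounding.
-/

set_option autoImplicit false

open MeasureTheory Set Filter Topology

namespace Pool.Agent.Helper78.LE

section LE5

private noncomputable def bil {P : Type*} [Fintype P] (K : P → P → ℝ) (x y : P → ℝ) : ℝ :=
  ∑ p, ∑ q, x p * y q * K p q

private theorem bil_expand {P : Type*} [Fintype P] (K : P → P → ℝ) (x y : P → ℝ) (t : ℝ) :
    bil K (fun r => x r + t * y r) (fun r => x r + t * y r) =
      bil K x x + t * (bil K x y + bil K y x) + t ^ 2 * bil K y y := by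
  simp only [bil, Finset.mul_sum, ← Finset.sum_add_distrib]
  refine Finset.sum_congr rfl fun p _ => Finset.sum_congr rfl fun q _ => ?_
  ring

private theorem quad_expand {P : Type*} [Fintype P] (w : P → ℝ) (x y : P → ℝ) (t : ℝ) :
    ∑ p, w p * ((x p + t * y p) * (1 - (x p + t * y p))) =
      ∑ p, w p * (x p * (1 - x p)) + t * (∑ p, w p * (y p - 2 * (x p * y p))) -
        t ^ 2 * ∑ p, w p * y p ^ 2 := by
  simp only [Finset.mul_sum, ← Finset.sum_add_distrib, ← Finset.sum_sub_distrib]
  refine Finset.sum_congr rfl fun p _ => ?_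
  ring

/-- one step: move along `e_p - e_q` -/
private theorem pip_step {P J : Type*} [Fintype P] [DecidableEq P] [DecidableEq J] (c : P → J)
    (z : P → ℝ) (K : P → P → ℝ) (hKs : ∀ p q, K p q = K q p) (hK0 : ∀ p, K p p = 0) (κ : J → ℝ)
    (p q : P) (hpq : p ≠ q) (hc : c p = c q) (hk : κ (c p) ≤ K p q)
    (a b : ℝ) (ha : 0 < a) (hb : 0 < b) :
    ∃ t : ℝ, (t = a ∨ t = -b) ∧
      (bil K (fun r => z r + t * ((if r = p then 1 else 0) - (if r = q then 1 else 0)))
          (fun r => z r + t * ((if r = p then 1 else 0) - (if r = q then 1 else 0))) -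
        ∑ r, κ (c r) * ((z r + t * ((if r = p then 1 else 0) - (if r = q then 1 else 0))) *
          (1 - (z r + t * ((if r = p then 1 else 0) - (if r = q then 1 else 0)))))) ≤
      bil K z z - ∑ r, κ (c r) * (z r * (1 - z r)) := by
  classical
  set y : P → ℝ := fun r => (if r = p then 1 else 0) - (if r = q then 1 else 0) with hy
  have hyy : bil K y y = -2 * K p q := by
    simp only [bil, hy, sub_mul, mul_sub, Finset.sum_sub_distrib, ite_mul, one_mul, zero_mul,
      mul_ite, mul_one, mul_zero, Finset.sum_ite_eq', Finset.mem_univ, if_true,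
      Finset.sum_ite_eq]
    simp [hK0, hKs q p]
    ring
  have hw : ∑ r, κ (c r) * y r ^ 2 = 2 * κ (c p) := by
    have : ∀ r, κ (c r) * y r ^ 2 = (if r = p then κ (c p) else 0) + (if r = q then κ (c q) else 0) := by
      intro r
      by_cases h1 : r = p
      · subst h1
        simp [hy, hpq]
      · by_cases h2 : r = q
        · subst h2
          simp [hy, h1]
        · simp [hy, h1, h2]
    simp only [this, Finset.sum_add_distrib, Finset.sum_ite_eq', Finset.mem_univ, if_true, hc]
    ring
  set L : ℝ := (bil K z y + bil K y z) - ∑ r, κ (c r) * (y r - 2 * (z r * y r)) with hL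
  have key : ∀ t : ℝ, bil K (fun r => z r + t * y r) (fun r => z r + t * y r) -
      ∑ r, κ (c r) * ((z r + t * y r) * (1 - (z r + t * y r))) =
      bil K z z - ∑ r, κ (c r) * (z r * (1 - z r)) + t * L + t ^ 2 * (2 * κ (c p) - 2 * K p q) := by
    intro t
    rw [bil_expand, quad_expand, hyy, hw, hL]
    ring
  have hneg : 2 * κ (c p) - 2 * K p q ≤ 0 := by linarith
  by_cases hLs : L ≤ 0
  · refine ⟨a, Or.inl rfl, ?_⟩
    have := key a
    have h1 : a * L ≤ 0 := mul_nonpos_of_nonneg_of_nonpos ha.le hLs
    have h2 : a ^ 2 * (2 * κ (c p) - 2 * K p q) ≤ 0 :=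
      mul_nonpos_of_nonneg_of_nonpos (sq_nonneg _) hneg
    linarith
  · refine ⟨-b, Or.inr rfl, ?_⟩
    have := key (-b)
    push_neg at hLs
    have h1 : (-b) * L ≤ 0 := mul_nonpos_of_nonpos_of_nonneg (by linarith) hLs.le
    have h2 : (-b) ^ 2 * (2 * κ (c p) - 2 * K p q) ≤ 0 :=
      mul_nonpos_of_nonneg_of_nonpos (sq_nonneg _) hneg
    linarith

private theorem pip_aux {P J : Type*} [Fintype P] [DecidableEq P] [DecidableEq J] (c : P → J)
    (M : J → ℕ) (K : P → P → ℝ) (hKs : ∀ p q, K p q = K q p) (hK0 : ∀ p, K p p = 0) (κ : J → ℝ) :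
    ∀ (n : ℕ) (z : P → ℝ), (Finset.univ.filter (fun p => 0 < z p ∧ z p < 1)).card ≤ n →
    (∀ p, 0 ≤ z p) → (∀ p, z p ≤ 1) →
    (∀ j, ∑ p with c p = j, z p = M j) →
    (∀ p q, p ≠ q → c p = c q → 0 < z p → 0 < z q → κ (c p) ≤ K p q) →
    ∃ S : Finset P, (∀ j, (S.filter (fun p => c p = j)).card = M j) ∧ (∀ p ∈ S, 0 < z p) ∧
      ∑ p ∈ S, ∑ q ∈ S, K p q ≤ bil K z z - ∑ p, κ (c p) * (z p * (1 - z p)) := by
  intro n
  induction n with
  | zero =>
    intro z hcard hz0 hz1 hM hκ
    have hint : ∀ p, z p = 0 ∨ z p = 1 := by
      intro p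
      by_contra hcon
      push_neg at hcon
      have h1 : p ∈ Finset.univ.filter (fun p => 0 < z p ∧ z p < 1) := by
        simp only [Finset.mem_filter, Finset.mem_univ, true_and]
        exact ⟨lt_of_le_of_ne (hz0 p) (Ne.symm hcon.1), lt_of_le_of_ne (hz1 p) hcon.2⟩
      have h2 := Finset.card_pos.mpr ⟨p, h1⟩
      omega
    have hz : ∀ p, z p = if z p = 1 then 1 else 0 := by
      intro p
      rcases hint p with h | h <;> simp [h]
    refine ⟨Finset.univ.filter (fun p => z p = 1), ?_, ?_, ?_⟩
    · intro j
      have h1 := hM j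
      have h2 : ∑ p with c p = j, z p =
          (((Finset.univ.filter (fun p => z p = 1)).filter (fun p => c p = j)).card : ℝ) := by
        rw [Finset.filter_comm, Finset.card_filter]
        push_cast
        refine Finset.sum_congr rfl fun p _ => ?_
        exact hz p
      rw [h2] at h1
      exact_mod_cast h1
    · intro p hp
      simp only [Finset.mem_filter, Finset.mem_univ, true_and] at hp
      rw [hp]; norm_num
    · have h0 : ∑ p, κ (c p) * (z p * (1 - z p)) = 0 := by
        refine Finset.sum_eq_zero fun p _ => ?_
        rcases hint p with h | h <;> simp [h]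
      rw [h0, sub_zero]
      apply le_of_eq
      unfold bil
      rw [Finset.sum_filter]
      refine Finset.sum_congr rfl fun p _ => ?_
      rcases hint p with h | h
      · simp [h]
      · simp only [h, if_true, one_mul]
        rw [Finset.sum_filter]
        refine Finset.sum_congr rfl fun q _ => ?_
        rcases hint q with h' | h' <;> simp [h']
  | succ n ih =>
    intro z hcard hz0 hz1 hM hκ
    by_cases hfr : ∃ p, 0 < z p ∧ z p < 1
    · obtain ⟨p, hp0, hp1⟩ := hfr
      -- a second fractional point in the group
      obtain ⟨q, hqp, hcq, hq0, hq1⟩ : ∃ q, q ≠ p ∧ c q = c p ∧ 0 < z q ∧ z q < 1 := by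
        by_contra hcon
        push_neg at hcon
        have hint : ∀ q, q ≠ p → c q = c p → z q = if z q = 1 then 1 else 0 := by
          intro q hqp hcq
          by_cases h0 : 0 < z q
          · have := hcon q hqp hcq h0
            have : z q = 1 := le_antisymm (hz1 q) this
            simp [this]
          · have : z q = 0 := le_antisymm (not_lt.mp h0) (hz0 q)
            simp [this]
        have h1 := hM (c p)
        have hmem : p ∈ Finset.univ.filter (fun r => c r = c p) := by simp
        rw [← Finset.add_sum_erase _ _ hmem] at h1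
        have h2 : ∑ x ∈ (Finset.univ.filter (fun r => c r = c p)).erase p, z x =
            ((((Finset.univ.filter (fun r => c r = c p)).erase p).filter
              (fun x => z x = 1)).card : ℝ) := by
          rw [Finset.card_filter]
          push_cast
          refine Finset.sum_congr rfl fun x hx => ?_
          simp only [Finset.mem_erase, Finset.mem_filter, Finset.mem_univ, true_and] at hx
          exact hint x hx.1 hx.2
        rw [h2] at h1
        set m := (((Finset.univ.filter (fun r => c r = c p)).erase p).filter
              (fun x => z x = 1)).card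
        have h3 : z p = ((M (c p) : ℤ) - (m : ℤ) : ℤ) := by push_cast; linarith
        rw [h3] at hp0 hp1
        have h4 : (0 : ℤ) < (M (c p) : ℤ) - (m : ℤ) := by exact_mod_cast hp0
        have h5 : (M (c p) : ℤ) - (m : ℤ) < 1 := by exact_mod_cast hp1
        omega
      have hpq : p ≠ q := fun h => hqp h.symm
      set a : ℝ := min (1 - z p) (z q) with ha
      set b : ℝ := min (z p) (1 - z q) with hb
      have ha0 : 0 < a := lt_min (by linarith) hq0
      have hb0 : 0 < b := lt_min hp0 (by linarith)
      obtain ⟨t, ht, hle⟩ := pip_step c z K hKs hK0 κ p q hpq hcq.symm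
        (hκ p q hpq hcq.symm hp0 hq0) a b ha0 hb0
      set y : P → ℝ := fun r => (if r = p then 1 else 0) - (if r = q then 1 else 0) with hy
      set z' : P → ℝ := fun r => z r + t * y r with hz'
      have hzp : z' p = z p + t := by simp [hz', hy, hpq]
      have hzq : z' q = z q - t := by simp [hz', hy, hqp]; ring
      have hzr : ∀ r, r ≠ p → r ≠ q → z' r = z r := by
        intro r h1 h2; simp [hz', hy, h1, h2]
      have hta : a ≤ 1 - z p := min_le_left _ _
      have htb : a ≤ z q := min_le_right _ _
      have htc : b ≤ z p := min_le_left _ _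
      have htd : b ≤ 1 - z q := min_le_right _ _
      have hp0' : 0 ≤ z' p := by
        rw [hzp]; rcases ht with h | h <;> rw [h] <;> linarith
      have hp1' : z' p ≤ 1 := by
        rw [hzp]; rcases ht with h | h <;> rw [h] <;> linarith
      have hq0' : 0 ≤ z' q := by
        rw [hzq]; rcases ht with h | h <;> rw [h] <;> linarith
      have hq1' : z' q ≤ 1 := by
        rw [hzq]; rcases ht with h | h <;> rw [h] <;> linarith
      have hpos : ∀ r, 0 < z' r → 0 < z r := by
        intro r hr
        by_cases h1 : r = p
        · rw [h1]; exact hp0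
        · by_cases h2 : r = q
          · rw [h2]; exact hq0
          · rwa [hzr r h1 h2] at hr
      have hint : (z' p = 0 ∨ z' p = 1) ∨ (z' q = 0 ∨ z' q = 1) := by
        rw [hzp, hzq]
        rcases ht with h | h
        · rcases min_choice (1 - z p) (z q) with h' | h'
          · left; right; rw [h, ha, h']; ring
          · right; left; rw [h, ha, h']; ring
        · rcases min_choice (z p) (1 - z q) with h' | h'
          · left; left; rw [h, hb, h']; ring
          · right; right; rw [h, hb, h']; ring
      have hcard' : (Finset.univ.filter (fun r => 0 < z' r ∧ z' r < 1)).card ≤ n := by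
        have hss : (Finset.univ.filter (fun r => 0 < z' r ∧ z' r < 1)) ⊂
            (Finset.univ.filter (fun r => 0 < z r ∧ z r < 1)) := by
          rw [Finset.ssubset_iff_of_subset]
          · rcases hint with h | h
            · refine ⟨p, by simp [hp0, hp1], ?_⟩
              simp only [Finset.mem_filter, Finset.mem_univ, true_and, not_and, not_lt]
              intro h0
              rcases h with h | h
              · rw [h] at h0; exact absurd h0 (lt_irrefl _)
              · rw [h]
            · refine ⟨q, by simp [hq0, hq1], ?_⟩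
              simp only [Finset.mem_filter, Finset.mem_univ, true_and, not_and, not_lt]
              intro h0
              rcases h with h | h
              · rw [h] at h0; exact absurd h0 (lt_irrefl _)
              · rw [h]
          · intro r hr
            simp only [Finset.mem_filter, Finset.mem_univ, true_and] at hr ⊢
            by_cases h1 : r = p
            · rw [h1]; exact ⟨hp0, hp1⟩
            · by_cases h2 : r = q
              · rw [h2]; exact ⟨hq0, hq1⟩
              · rwa [hzr r h1 h2] at hr
        have := Finset.card_lt_card hss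
        omega
      have hM' : ∀ j, ∑ r with c r = j, z' r = M j := by
        intro j
        rw [← hM j]
        simp only [hz', Finset.sum_add_distrib, ← Finset.mul_sum]
        have : ∑ i with c i = j, y i = 0 := by
          simp only [hy, Finset.sum_sub_distrib, Finset.sum_ite_eq', Finset.mem_filter,
            Finset.mem_univ, true_and]
          rw [hcq]
          simp
        rw [this]; ring
      obtain ⟨S, hS1, hS2, hS3⟩ := ih z' hcard'
        (fun r => by
          by_cases h1 : r = p
          · rw [h1]; exact hp0'
          · by_cases h2 : r = q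
            · rw [h2]; exact hq0'
            · rw [hzr r h1 h2]; exact hz0 r)
        (fun r => by
          by_cases h1 : r = p
          · rw [h1]; exact hp1'
          · by_cases h2 : r = q
            · rw [h2]; exact hq1'
            · rw [hzr r h1 h2]; exact hz1 r)
        hM' (fun r s hrs hcs hr hs => hκ r s hrs hcs (hpos r hr) (hpos s hs))
      exact ⟨S, hS1, fun r hr => hpos r (hS2 r hr), hS3.trans hle⟩
    · refine ih z ?_ hz0 hz1 hM hκ
      push_neg at hfr
      have : (Finset.univ.filter (fun p => 0 < z p ∧ z p < 1)) = ∅ := by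
        rw [Finset.filter_eq_empty_iff]
        intro p _ h
        exact absurd h.2 (not_lt.mpr (hfr p h.1))
      rw [this]; simp

theorem pipage {P J : Type*} [Fintype P] [DecidableEq P] [DecidableEq J] (c : P → J)
    (z : P → ℝ) (hz0 : ∀ p, 0 ≤ z p) (hz1 : ∀ p, z p ≤ 1) (M : J → ℕ)
    (hM : ∀ j, ∑ p with c p = j, z p = M j)
    (K : P → P → ℝ) (hK : ∀ p q, K p q = K q p) (κ : J → ℝ)
    (hκ : ∀ p q, p ≠ q → c p = c q → 0 < z p → 0 < z q → κ (c p) ≤ K p q) :
    ∃ S : Finset P, (∀ j, (S.filter (fun p => c p = j)).card = M j) ∧ (∀ p ∈ S, 0 < z p) ∧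
      ∑ p ∈ S, ∑ q ∈ S, (if p = q then 0 else K p q) ≤
        ∑ p, ∑ q, (if p = q then 0 else z p * z q * K p q) -
          ∑ p, κ (c p) * (z p * (1 - z p)) := by
  obtain ⟨S, h1, h2, h3⟩ := pip_aux c M (fun p q => if p = q then 0 else K p q)
    (fun p q => by
      by_cases h : p = q
      · simp [h]
      · simp [h, Ne.symm h, hK p q])
    (fun p => by simp) κ _ z le_rfl hz0 hz1 hM
    (fun p q hpq hc hp hq => by
      simp only [hpq, if_false]
      exact hκ p q hpq hc hp hq)
  refine ⟨S, h1, h2, h3.trans (le_of_eq ?_)⟩
  unfold bil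
  congr 1
  refine Finset.sum_congr rfl fun p _ => Finset.sum_congr rfl fun q _ => ?_
  by_cases h : p = q <;> simp [h]

end LE5

end Pool.Agent.Helper78.LE
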