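import Pool.Agent.Helper78.LE.LE14c
import Pool.Agent.Helper78.LE.LE4
import Pool.Agent.Helper78.LE.LE5
import Pool.Agent.Helper78.LE.LE12

/-!
Project LE, module LE14: the finite inequality.
-/

set_option autoImplicit false

open MeasureTheory Set Filter Topology

open scoped ENNReal

namespace Pool.Agent.Helper78.LE

namespace Core

section
variable {d : ℕ} (b : Module.Basis (Fin d) ℝ (EV d)) (k m N : ℕ) {G : ℕ} (NR : ℕ)
  (a : Fin G → Fin d → ℝ) (ρ : Fin G → ℝ)

/-- coincidences are null -/
theorem bad_null (hd : 0 < d) (hρ : ∀ j, 0 < ρ j)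
    [∀ c, IsProbabilityMeasure (PP b k m N NR a ρ c)] (c c' : Fin G ⊕ Fin NR) :
    ((PP b k m N NR a ρ c).prod (PP b k m N NR a ρ c'))
      {z | ∃ n n', ps k m NR a ρ c n z.1 = ps k m NR a ρ c' n' z.2} = 0 := by
  have hset : {z : (Fin d → ℝ) × (Fin d → ℝ) | ∃ n n', ps k m NR a ρ c n z.1 =
      ps k m NR a ρ c' n' z.2} = ⋃ n, ⋃ n', {z : (Fin d → ℝ) × (Fin d → ℝ) |
        ps k m NR a ρ c n z.1 = ps k m NR a ρ c' n' z.2} := by
    ext z
    simp
  rw [hset]
  refine measure_iUnion_null fun n => measure_iUnion_null fun n' => ?_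
  have hm : MeasurableSet {z : (Fin d → ℝ) × (Fin d → ℝ) |
      ps k m NR a ρ c n z.1 = ps k m NR a ρ c' n' z.2} :=
    measurableSet_eq_fun ((ps_meas k m NR a ρ c n).comp measurable_fst)
      ((ps_meas k m NR a ρ c' n').comp measurable_snd)
  rw [Measure.measure_prod_null hm]
  refine Eventually.of_forall fun u => ?_
  show (PP b k m N NR a ρ c') _ = 0
  have hac : PP b k m N NR a ρ c' ≪ (volume : Measure (Fin d → ℝ)) := by
    rcases c' with j | i
    · exact Measure.restrict_le_self.absolutelyContinuous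
    · exact withDensity_absolutelyContinuous _ _
  apply hac
  have hne : Nonempty (Fin d) := ⟨⟨0, hd⟩⟩
  apply Set.Subsingleton.measure_zero
  intro v hv v' hv'
  simp only [mem_preimage, mem_ofPred_eq] at hv hv'
  have h : ps k m NR a ρ c' n' v = ps k m NR a ρ c' n' v' := hv.symm.trans hv'
  rcases c' with j | i
  · simp only [ps, Sum.elim_inl] at h
    have h1 := add_left_cancel h
    have h2 : pt n' v = pt n' v' := by
      have h3 := congrArg (fun w => (ρ j)⁻¹ • w) h1
      simpa [smul_smul, inv_mul_cancel₀ (hρ j).ne'] using h3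
    funext l
    have h3 := congrFun h2 l
    unfold pt at h3
    linarith
  · exact h

/-- the dominating constants of pipage rounding -/
noncomputable def kap (l : Fin G → ℝ) (D : ℝ) : Fin G ⊕ Fin NR → ℝ :=
  Sum.elim (fun j => -(Real.log D + Real.log (ρ j) + l j)) (fun _ => 0)

/-- the internal terms -/
noncomputable def gg (l : Fin G → ℝ) (D : ℝ) (c : Fin G ⊕ Fin NR) (u : Fin d → ℝ) : ℝ :=
  (∑ n, ∑ n', if n = n' then 0 else wt k m NR c n u * wt k m NR c n' u *
    kern b (ps k m NR a ρ c n u) (ps k m NR a ρ c n' u)) -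
    ∑ n, kap NR ρ l D c * (wt k m NR c n u * (1 - wt k m NR c n u))

theorem gg_inl (l : Fin G → ℝ) (D : ℝ) (j : Fin G) (u : Fin d → ℝ) :
    gg b k m NR a ρ l D (Sum.inl j) u = compE b k m (a j) (ρ j) (l j) D u := by
  unfold gg compE
  simp only [wt, ps, kap, Sum.elim_inl]
  rw [← Finset.mul_sum]
  ring

theorem gg_inr (l : Fin G → ℝ) (D : ℝ) (i : Fin NR) (u : Fin d → ℝ) :
    gg b k m NR a ρ l D (Sum.inr i) u = 0 := by
  unfold gg
  simp only [wt, ps, kap, Sum.elim_inr, zero_mul, Finset.sum_const_zero, sub_zero]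
  apply Finset.sum_eq_zero
  intro n _
  apply Finset.sum_eq_zero
  intro n' _
  split_ifs with h1 h2 h3 h4 <;> simp_all

/-- rewriting a double sum over pairs (component, index) -/
theorem sum_split {ι I : Type*} [Fintype ι] [DecidableEq ι] [Fintype I] [DecidableEq I]
    (φ : ι → I → ι → I → ℝ) :
    ∑ p : ι × I, ∑ q : ι × I, (if p = q then 0 else φ p.1 p.2 q.1 q.2) =
      (∑ c, ∑ c', if c = c' then 0 else ∑ n, ∑ n', φ c n c' n') +
        ∑ c, ∑ n, ∑ n', if n = n' then 0 else φ c n c n' := by
  rw [← Finset.sum_add_distrib, Fintype.sum_prod_type]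
  refine Finset.sum_congr rfl fun c _ => ?_
  have h1 : ∀ n : I, ∑ q : ι × I, (if (c, n) = q then 0 else φ c n q.1 q.2) =
      (∑ c', if c = c' then 0 else ∑ n', φ c n c' n') +
        ∑ n', if n = n' then 0 else φ c n c n' := by
    intro n
    rw [Fintype.sum_prod_type, ← Finset.add_sum_erase Finset.univ _ (Finset.mem_univ c),
      ← Finset.add_sum_erase Finset.univ (fun c' => if c = c' then 0 else ∑ n', φ c n c' n')
        (Finset.mem_univ c), add_comm]
    simp only [if_true, zero_add]
    congr 1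
    · apply Finset.sum_congr rfl
      intro c' hc'
      have hne : c ≠ c' := fun h => (Finset.ne_of_mem_erase hc') h.symm
      rw [if_neg hne]
      apply Finset.sum_congr rfl
      intro n' _
      rw [if_neg]
      intro h
      exact hne (Prod.ext_iff.1 h).1
    · apply Finset.sum_congr rfl
      intro n' _
      by_cases h : n = n'
      · subst h; simp
      · rw [if_neg, if_neg h]
        intro h'
        exact h (Prod.ext_iff.1 h').2
  simp only [h1]
  rw [Finset.sum_add_distrib]
  congr 1
  rw [Finset.sum_comm]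
  apply Finset.sum_congr rfl
  intro c' _
  by_cases h : c = c'
  · simp [h]
  · simp [h]

end

end Core

open Pool.Agent.Helper78.LE.Core in
theorem core {d : ℕ} (b : Module.Basis (Fin d) ℝ (EV d)) (k m : ℕ)
    (hd : 0 < d) (hm : 0 < m) (N G NR : ℕ) (a : Fin G → Fin d → ℝ) (ρ l : Fin G → ℝ)
    (hN : N = G * m ^ d + NR) (hρ : ∀ j, 0 < ρ j)
    (hdens : ∀ s, ∑ j, (ρ j ^ d)⁻¹ * Win k m ((ρ j)⁻¹ • (s - a j)) ≤ N * dens b s)
    (hl : ∀ j, ∀ p : Fin d → ℝ, (∀ i, 0 ≤ p i ∧ p i ≤ m + k) → ell b (a j + ρ j • p) ≤ l j)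
    (R0 D : ℝ) (hR0 : ∀ j, Real.log (ρ j) + l j ≤ R0) (hD : 0 < D)
    (hD' : ∀ n n' : IW d k m, ‖lin b (fun i => ((n i : ℕ) : ℝ) - ((n' i : ℕ) : ℝ))‖ ≤ D) :
    minLog d N ≤ (N : ℝ) ^ 2 * Vlog d +
      G * ((m : ℝ) ^ d * R0 + BW b k m +
        Real.log D * ((m : ℝ) ^ d - ∫ p : Fin d → ℝ, Win k m p ^ 2)) + NR * Real.log 2 := by
  classical
  have hprob := prob b k m N NR a ρ hdens hd hρ hN
  -- selection
  have hpair := fun c c' => (unf b k m N NR a ρ hρ c).prod_real (unf b k m N NR a ρ hρ c')
    (wt_meas k m NR c) (ps_meas k m NR a ρ c) (hh_meas b k m N NR a ρ c)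
    (wt_meas k m NR c') (ps_meas k m NR a ρ c') (hh_meas b k m N NR a ρ c')
    (wt_nonneg k m NR c) (hh_nonneg b k m N NR a ρ hdens hρ c)
    (wt_nonneg k m NR c') (hh_nonneg b k m N NR a ρ hdens hρ c') (Kf b) (Kf_meas b)
    (hhK_integrable b k m N NR a ρ hdens hd hρ c c')
  have hgint : ∀ c, Integrable (gg b k m NR a ρ l D c) (PP b k m N NR a ρ c) := by
    intro c
    rcases c with j | i
    · have := comp_integrable b k m (a j) (ρ j) (l j) D (hρ j)
      have e : gg b k m NR a ρ l D (Sum.inl j) = compE b k m (a j) (ρ j) (l j) D := by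
        funext u; exact gg_inl b k m NR a ρ l D j u
      rw [e]
      exact this
    · have e : gg b k m NR a ρ l D (Sum.inr i) = fun _ => 0 := by
        funext u; exact gg_inr b k m NR a ρ l D i u
      rw [e]
      exact integrable_zero _ _ _
  obtain ⟨ω, hω1, hω2, hω3⟩ := select (PP b k m N NR a ρ)
    (fun c c' u u' => ∑ n, ∑ n', wt k m NR c n u * wt k m NR c' n' u' *
      kern b (ps k m NR a ρ c n u) (ps k m NR a ρ c' n' u'))
    (fun c c' _ => (hpair c c').1) (gg b k m NR a ρ l D) hgint
    (fun c c' => {z | ∃ n n', ps k m NR a ρ c n z.1 = ps k m NR a ρ c' n' z.2})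
    (fun c c' _ => bad_null b k m N NR a ρ hd hρ c c')
    (Sum.elim (fun _ => (cube d)ᶜ) (fun _ => ∅)) (by
      intro c
      rcases c with j | i
      · show (volume : Measure (Fin d → ℝ)).restrict (cube d) (cube d)ᶜ = 0
        rw [Measure.restrict_apply cube_meas.compl]
        simp
      · simp)
  -- rounding
  set z : (Fin G ⊕ Fin NR) × IW d k m → ℝ := fun p => wt k m NR p.1 p.2 (ω p.1) with hz
  set X : (Fin G ⊕ Fin NR) × IW d k m → Fin d → ℝ := fun p => ps k m NR a ρ p.1 p.2 (ω p.1)
    with hX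
  have hM : ∀ j : Fin G ⊕ Fin NR, ∑ p with Prod.fst p = j, z p =
      (Sum.elim (fun _ => m ^ d) (fun _ => 1) j : ℕ) := by
    intro j
    rw [Finset.sum_filter, Fintype.sum_prod_type]
    rw [Finset.sum_eq_single j]
    · simp only [if_true]
      rcases j with j | i
      · have hu : ω (Sum.inl j) ∈ cube d := by
          have := hω2 (Sum.inl j)
          simpa using this
        have := sum_Win k m (ω (Sum.inl j)) hu
        simp only [hz, wt, Sum.elim_inl]
        rw [this]
        push_cast
        rfl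
      · simp only [hz, wt, Sum.elim_inr]
        rw [Finset.sum_eq_single (fun _ => 0 : IW d k m)]
        · simp
        · intro n _ hn
          rw [if_neg hn]
        · intro h
          exact absurd (Finset.mem_univ _) h
    · intro c _ hc
      simp [hc]
    · intro h
      exact absurd (Finset.mem_univ _) h
  obtain ⟨S, hS1, hS2, hS3⟩ := pipage (Prod.fst : (Fin G ⊕ Fin NR) × IW d k m → _) z
    (fun p => wt_nonneg k m NR _ _ _) (fun p => wt_le_one k m NR _ _ _)
    (Sum.elim (fun _ => m ^ d) (fun _ => 1)) hM (fun p q => kern b (X p) (X q))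
    (fun p q => kern_symm b _ _) (kap NR ρ l D) (by
      rintro ⟨c, n⟩ ⟨c', n'⟩ hpq hc hp hq
      simp only at hc
      subst hc
      rcases c with j | i
      · -- two points of a window
        have hnn : n ≠ n' := fun h => hpq (by rw [h])
        simp only [hz, wt, Sum.elim_inl] at hp hq
        have hbox : ∀ n : IW d k m, 0 < Win k m (pt n (ω (Sum.inl j))) →
            ∀ i, 0 ≤ pt n (ω (Sum.inl j)) i ∧ pt n (ω (Sum.inl j)) i ≤ m + k := by
          intro n hn i
          by_contra hcon
          have : Win k m (pt n (ω (Sum.inl j))) = 0 := by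
            apply Win_eq_zero
            refine ⟨i, ?_⟩
            by_contra h2
            push Not at h2
            exact hcon ⟨h2.1, h2.2.le⟩
          rw [this] at hn
          exact lt_irrefl _ hn
        have hl1 := hl j _ (hbox n hp)
        have hl2 := hl j _ (hbox n' hq)
        simp only [kap, hX, ps, Sum.elim_inl]
        unfold kern
        have hsub : a j + ρ j • pt n (ω (Sum.inl j)) - (a j + ρ j • pt n' (ω (Sum.inl j))) =
            ρ j • (fun i => ((n i : ℕ) : ℝ) - ((n' i : ℕ) : ℝ)) := by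
          funext i
          simp only [pt, Pi.add_apply, Pi.smul_apply, Pi.sub_apply, smul_eq_mul]
          ring
        rw [hsub, lin_smul, norm_smul, Real.norm_eq_abs, abs_of_pos (hρ j)]
        have hlin0 : 0 < ‖lin b (fun i => ((n i : ℕ) : ℝ) - ((n' i : ℕ) : ℝ))‖ := by
          rw [norm_pos_iff]
          intro h0
          rw [lin_eq_zero] at h0
          apply hnn
          funext i
          have := congrFun h0 i
          simp only [Pi.zero_apply] at this
          apply Fin.ext
          have h1 : ((n i : ℕ) : ℝ) = ((n' i : ℕ) : ℝ) := by linarith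
          exact_mod_cast h1
        rw [Real.log_mul (hρ j).ne' hlin0.ne']
        have hlog := Real.log_le_log hlin0 (hD' n n')
        linarith
      · -- a single point
        exfalso
        simp only [hz, wt, Sum.elim_inr] at hp hq
        split_ifs at hp with h1
        · split_ifs at hq with h2
          · exact hpq (by rw [h1, h2])
          · exact lt_irrefl _ hq
        · exact lt_irrefl _ hp)
  -- number of points
  have hcard : S.card = N := by
    rw [Finset.card_eq_sum_card_fiberwise (f := Prod.fst) (t := Finset.univ)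
      (fun p _ => Finset.mem_univ _)]
    rw [Finset.sum_congr rfl fun c _ => hS1 c, Fintype.sum_sum_type]
    simp only [Sum.elim_inl, Sum.elim_inr, Finset.sum_const, Finset.card_univ, Fintype.card_fin,
      smul_eq_mul, mul_one]
    exact hN.symm
  -- distinct points
  have hinj : ∀ p ∈ S, ∀ q ∈ S, X p = X q → p = q := by
    rintro ⟨c, n⟩ hp ⟨c', n'⟩ hq h
    by_cases hcc : c = c'
    · subst hcc
      have hp0 := hS2 _ hp
      have hq0 := hS2 _ hq
      rcases c with j | i
      · simp only [hX, ps, Sum.elim_inl] at h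
        have h1 := add_left_cancel h
        have h2 : pt n (ω (Sum.inl j)) = pt n' (ω (Sum.inl j)) := by
          have h3 := congrArg (fun w => (ρ j)⁻¹ • w) h1
          simpa [smul_smul, inv_mul_cancel₀ (hρ j).ne'] using h3
        have h4 : n = n' := by
          funext i
          have h3 := congrFun h2 i
          unfold pt at h3
          apply Fin.ext
          have h1 : ((n i : ℕ) : ℝ) = ((n' i : ℕ) : ℝ) := by linarith
          exact_mod_cast h1
        rw [h4]
      · simp only [hz, wt, Sum.elim_inr] at hp0 hq0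
        split_ifs at hp0 with h1
        · split_ifs at hq0 with h2
          · rw [h1, h2]
          · exact absurd hq0 (lt_irrefl _)
        · exact absurd hp0 (lt_irrefl _)
    · exact absurd ⟨n, n', h⟩ (hω1 c c' hcc)
  -- the energy of the chosen points
  have hE : minLog d N ≤ ∑ p ∈ S, ∑ q ∈ S, (if p = q then 0 else kern b (X p) (X q)) := by
    let e : Fin N ≃ S := (S.equivFinOfCardEq hcard).symm
    have h1 := minLog_le b N (fun i => X (e i)) (by
      intro i i' h
      have := hinj _ (e i).2 _ (e i').2 h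
      exact e.injective (Subtype.ext this))
    refine h1.trans (le_of_eq ?_)
    have h2 : ∀ i, ∑ i', (if i = i' then 0 else kern b (X (e i)) (X (e i'))) =
        ∑ q : S, (if e i = q then 0 else kern b (X (e i)) (X q)) := by
      intro i
      rw [← Equiv.sum_comp e (fun q : S => if e i = q then 0 else kern b (X (e i)) (X q))]
      apply Finset.sum_congr rfl
      intro i' _
      by_cases h : i = i'
      · simp [h]
      · rw [if_neg h, if_neg (fun h' => h (e.injective h'))]
    simp_rw [h2]
    rw [Equiv.sum_comp e (fun p : S => ∑ q : S, (if p = q then 0 else kern b (X p) (X q)))]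
    rw [← Finset.sum_coe_sort S (fun p => ∑ q ∈ S, (if p = q then 0 else kern b (X p) (X q)))]
    apply Finset.sum_congr rfl
    intro p _
    rw [← Finset.sum_coe_sort S (fun q => (if (p : _ × _) = q then 0 else kern b (X p) (X q)))]
    apply Finset.sum_congr rfl
    intro q _
    by_cases h : p = q
    · simp [h]
    · rw [if_neg h, if_neg (fun h' => h (Subtype.ext h'))]
  -- rewriting the rounding bound
  have hround : ∑ p, ∑ q, (if p = q then 0 else z p * z q * kern b (X p) (X q)) -
      ∑ p, kap NR ρ l D (Prod.fst p) * (z p * (1 - z p)) =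
      (∑ c, ∑ c', if c = c' then 0 else ∑ n, ∑ n', wt k m NR c n (ω c) *
        wt k m NR c' n' (ω c') * kern b (ps k m NR a ρ c n (ω c)) (ps k m NR a ρ c' n' (ω c'))) +
      ∑ c, gg b k m NR a ρ l D c (ω c) := by
    have h1 := sum_split (fun c n c' n' => wt k m NR c n (ω c) *
        wt k m NR c' n' (ω c') * kern b (ps k m NR a ρ c n (ω c)) (ps k m NR a ρ c' n' (ω c')))
    simp only [hz, hX]
    rw [h1]
    unfold gg
    rw [Finset.sum_sub_distrib, Fintype.sum_prod_type]
    ring
  -- the means
  have hmean : (∑ c, ∑ c', if c = c' then 0 else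
      ∫ y, (fun (u u' : Fin d → ℝ) => ∑ n, ∑ n', wt k m NR c n u * wt k m NR c' n' u' *
        kern b (ps k m NR a ρ c n u) (ps k m NR a ρ c' n' u')) y.1 y.2
          ∂((PP b k m N NR a ρ c).prod (PP b k m N NR a ρ c'))) =
      (N : ℝ) ^ 2 * Vlog d - ∑ c, ∫ z : (Fin d → ℝ) × (Fin d → ℝ),
        hh b k m N NR a ρ c z.1 * hh b k m N NR a ρ c z.2 * Kf b z ∂(volume.prod volume) := by
    rw [← sum_pairs b k m N NR a ρ hdens hd hρ hN, ← Finset.sum_sub_distrib]
    apply Finset.sum_congr rfl
    intro c _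
    rw [← Finset.add_sum_erase Finset.univ _ (Finset.mem_univ c),
      ← Finset.add_sum_erase Finset.univ (fun c' => ∫ z : (Fin d → ℝ) × (Fin d → ℝ),
        hh b k m N NR a ρ c z.1 * hh b k m N NR a ρ c' z.2 * Kf b z ∂(volume.prod volume))
        (Finset.mem_univ c)]
    simp only [if_true, zero_add, add_sub_cancel_left]
    apply Finset.sum_congr rfl
    intro c' hc'
    have hne : c ≠ c' := fun h => (Finset.ne_of_mem_erase hc') h.symm
    rw [if_neg hne]
    exact (hpair c c').2
  have hgmean : ∑ c, ∫ u, gg b k m NR a ρ l D c u ∂(PP b k m N NR a ρ c) =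
      ∑ j, ∫ u in cube d, compE b k m (a j) (ρ j) (l j) D u := by
    rw [Fintype.sum_sum_type]
    have h2 : ∑ i : Fin NR, ∫ u, gg b k m NR a ρ l D (Sum.inr i) u
        ∂(PP b k m N NR a ρ (Sum.inr i)) = 0 := by
      apply Finset.sum_eq_zero
      intro i _
      simp_rw [gg_inr]
      simp
    rw [h2, add_zero]
    apply Finset.sum_congr rfl
    intro j _
    simp_rw [gg_inl]
    rfl
  have hself : ∑ j, selfE b k m (a j) (ρ j) - NR * Real.log 2 ≤
      ∑ c, ∫ z : (Fin d → ℝ) × (Fin d → ℝ),
        hh b k m N NR a ρ c z.1 * hh b k m N NR a ρ c z.2 * Kf b z ∂(volume.prod volume) := by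
    rw [Fintype.sum_sum_type]
    have h1 : ∑ j, ∫ z : (Fin d → ℝ) × (Fin d → ℝ), hh b k m N NR a ρ (Sum.inl j) z.1 *
        hh b k m N NR a ρ (Sum.inl j) z.2 * Kf b z ∂(volume.prod volume) =
        ∑ j, selfE b k m (a j) (ρ j) := by
      apply Finset.sum_congr rfl
      intro j _
      exact self_window b k m a ρ hρ j
        (hhK_integrable b k m N NR a ρ hdens hd hρ (Sum.inl j) (Sum.inl j))
    have h2 : -(NR * Real.log 2) ≤ ∑ i : Fin NR, ∫ z : (Fin d → ℝ) × (Fin d → ℝ),
        hh b k m N NR a ρ (Sum.inr i) z.1 * hh b k m N NR a ρ (Sum.inr i) z.2 * Kf b z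
          ∂(volume.prod volume) := by
      calc -(NR * Real.log 2) = ∑ _i : Fin NR, -Real.log 2 := by
            simp
        _ ≤ _ := Finset.sum_le_sum fun i _ => self_single b k m N NR a ρ i hd hρ hN hdens
    rw [h1]
    linarith
  have hcomp : ∀ j, (∫ u in cube d, compE b k m (a j) (ρ j) (l j) D u) -
      selfE b k m (a j) (ρ j) ≤ (m : ℝ) ^ d * R0 + BW b k m +
        Real.log D * ((m : ℝ) ^ d - ∫ p : Fin d → ℝ, Win k m p ^ 2) := by
    intro j
    have h1 := comp_formula b k m hd (a j) (ρ j) (l j) D (hρ j) hD (hl j)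
    have h2 : (m : ℝ) ^ d * (Real.log (ρ j) + l j) ≤ (m : ℝ) ^ d * R0 :=
      mul_le_mul_of_nonneg_left (hR0 j) (by positivity)
    linarith
  have hcompsum : ∑ j, (∫ u in cube d, compE b k m (a j) (ρ j) (l j) D u) -
      ∑ j, selfE b k m (a j) (ρ j) ≤ G * ((m : ℝ) ^ d * R0 + BW b k m +
        Real.log D * ((m : ℝ) ^ d - ∫ p : Fin d → ℝ, Win k m p ^ 2)) := by
    rw [← Finset.sum_sub_distrib]
    refine (Finset.sum_le_sum fun j _ => hcomp j).trans (le_of_eq ?_)
    rw [Finset.sum_const, Finset.card_univ, Fintype.card_fin, nsmul_eq_mul]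
  rw [hmean, hgmean] at hω3
  rw [hround] at hS3
  linarith

end Pool.Agent.Helper78.LE
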