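import Mathlib

/-!
Project LE, module LE14, part 1: unfolding of products (general measure theory).
-/

set_option autoImplicit false

open MeasureTheory Set Filter Topology

open scoped ENNReal

namespace Pool.Agent.Helper78.LE

/-- Unfolding: the random weighted points `x i` with weights `w i` under `P` have density `h`. -/
def Unf {I E : Type*} [Fintype I] [MeasurableSpace E] (μ P : Measure E) (w : I → E → ℝ)
    (x : I → E → E) (h : E → ℝ) : Prop :=
  ∀ F : E → ℝ≥0∞, Measurable F →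
    ∫⁻ u, ∑ i, ENNReal.ofReal (w i u) * F (x i u) ∂P = ∫⁻ s, ENNReal.ofReal (h s) * F s ∂μ

section
variable {I I' E : Type*} [Fintype I] [Fintype I'] [MeasurableSpace E] {μ P P' : Measure E}
  [SFinite μ] [SFinite P'] {w : I → E → ℝ} {x : I → E → E} {h : E → ℝ}
  {w' : I' → E → ℝ} {x' : I' → E → E} {h' : E → ℝ}

theorem Unf.prod (hU : Unf μ P w x h) (hU' : Unf μ P' w' x' h')
    (hw : ∀ i, Measurable (w i)) (hx : ∀ i, Measurable (x i)) (hh : Measurable h)
    (hw' : ∀ i, Measurable (w' i)) (hx' : ∀ i, Measurable (x' i)) (hh' : Measurable h')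
    (F : E × E → ℝ≥0∞) (hF : Measurable F) :
    ∫⁻ z, ∑ i, ∑ i', ENNReal.ofReal (w i z.1) * ENNReal.ofReal (w' i' z.2) *
      F (x i z.1, x' i' z.2) ∂(P.prod P') =
      ∫⁻ z, ENNReal.ofReal (h z.1) * ENNReal.ofReal (h' z.2) * F z ∂(μ.prod μ) := by
  have hxm : ∀ i i', Measurable (fun z : E × E => (x i z.1, x' i' z.2)) := fun i i' =>
    ((hx i).comp measurable_fst).prodMk ((hx' i').comp measurable_snd)
  have hm1 : Measurable (fun z : E × E => ∑ i, ∑ i', ENNReal.ofReal (w i z.1) *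
      ENNReal.ofReal (w' i' z.2) * F (x i z.1, x' i' z.2)) := by
    refine Finset.measurable_sum _ fun i _ => Finset.measurable_sum _ fun i' _ => ?_
    exact ((((hw i).comp measurable_fst).ennreal_ofReal).mul
      (((hw' i').comp measurable_snd).ennreal_ofReal)).mul (hF.comp (hxm i i'))
  have hm2 : Measurable (fun z : E × E => ENNReal.ofReal (h z.1) * ENNReal.ofReal (h' z.2) *
      F z) :=
    (((hh.comp measurable_fst).ennreal_ofReal).mul
      ((hh'.comp measurable_snd).ennreal_ofReal)).mul hF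
  rw [lintegral_prod _ hm1.aemeasurable, lintegral_prod _ hm2.aemeasurable]
  set Φ : E → ℝ≥0∞ := fun s => ∫⁻ s', ENNReal.ofReal (h' s') * F (s, s') ∂μ with hΦ
  have hΦm : Measurable Φ := by
    have : Measurable (fun z : E × E => ENNReal.ofReal (h' z.2) * F z) :=
      ((hh'.comp measurable_snd).ennreal_ofReal).mul hF
    exact this.lintegral_prod_right'
  have hL : ∀ u, ∫⁻ u', ∑ i, ∑ i', ENNReal.ofReal (w i u) * ENNReal.ofReal (w' i' u') *
      F (x i u, x' i' u') ∂P' = ∑ i, ENNReal.ofReal (w i u) * Φ (x i u) := by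
    intro u
    have hFu : ∀ i i', Measurable (fun u' => ENNReal.ofReal (w' i' u') *
        F (x i u, x' i' u')) := fun i i' =>
      ((hw' i').ennreal_ofReal).mul (hF.comp (measurable_const.prodMk (hx' i')))
    have e1 : ∀ u', ∑ i, ∑ i', ENNReal.ofReal (w i u) * ENNReal.ofReal (w' i' u') *
        F (x i u, x' i' u') = ∑ i, ENNReal.ofReal (w i u) *
          ∑ i', ENNReal.ofReal (w' i' u') * F (x i u, x' i' u') := by
      intro u'
      refine Finset.sum_congr rfl fun i _ => ?_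
      rw [Finset.mul_sum]
      refine Finset.sum_congr rfl fun i' _ => ?_
      rw [mul_assoc]
    simp_rw [e1]
    rw [lintegral_finsetSum _ fun i _ =>
      (Finset.measurable_sum _ fun i' _ => hFu i i').const_mul _]
    refine Finset.sum_congr rfl fun i _ => ?_
    rw [lintegral_const_mul _ (Finset.measurable_sum _ fun i' _ => hFu i i')]
    rw [hU' (fun s' => F (x i u, s')) (hF.comp (measurable_const.prodMk measurable_id))]
  have hR : ∀ s, ∫⁻ s', ENNReal.ofReal (h s) * ENNReal.ofReal (h' s') * F (s, s') ∂μ =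
      ENNReal.ofReal (h s) * Φ s := by
    intro s
    rw [hΦ]
    simp only [mul_assoc]
    rw [lintegral_const_mul]
    exact (hh'.ennreal_ofReal).mul (hF.comp (measurable_const.prodMk measurable_id))
  simp only at hL hR ⊢
  simp_rw [hL, hR]
  exact hU Φ hΦm

theorem Unf.prod_nonneg (hU : Unf μ P w x h) (hU' : Unf μ P' w' x' h')
    (hw : ∀ i, Measurable (w i)) (hx : ∀ i, Measurable (x i)) (hh : Measurable h)
    (hw' : ∀ i, Measurable (w' i)) (hx' : ∀ i, Measurable (x' i)) (hh' : Measurable h')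
    (hw0 : ∀ i u, 0 ≤ w i u) (hh0 : ∀ s, 0 ≤ h s) (hw0' : ∀ i u, 0 ≤ w' i u)
    (hh0' : ∀ s, 0 ≤ h' s)
    (K : E × E → ℝ) (hK : Measurable K) (hK0 : ∀ z, 0 ≤ K z)
    (hint : Integrable (fun z => h z.1 * h' z.2 * K z) (μ.prod μ)) :
    Integrable (fun z => ∑ i, ∑ i', w i z.1 * w' i' z.2 * K (x i z.1, x' i' z.2))
      (P.prod P') ∧
    ∫ z, ∑ i, ∑ i', w i z.1 * w' i' z.2 * K (x i z.1, x' i' z.2) ∂(P.prod P') =
      ∫ z, h z.1 * h' z.2 * K z ∂(μ.prod μ) := by
  have hxm : ∀ i i', Measurable (fun z : E × E => (x i z.1, x' i' z.2)) := fun i i' =>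
    ((hx i).comp measurable_fst).prodMk ((hx' i').comp measurable_snd)
  have hm1 : Measurable (fun z : E × E => ∑ i, ∑ i', w i z.1 * w' i' z.2 *
      K (x i z.1, x' i' z.2)) := by
    refine Finset.measurable_sum _ fun i _ => Finset.measurable_sum _ fun i' _ => ?_
    exact (((hw i).comp measurable_fst).mul ((hw' i').comp measurable_snd)).mul
      (hK.comp (hxm i i'))
  have h1nn : ∀ z : E × E, 0 ≤ ∑ i, ∑ i', w i z.1 * w' i' z.2 * K (x i z.1, x' i' z.2) :=
    fun z => Finset.sum_nonneg fun i _ => Finset.sum_nonneg fun i' _ =>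
      mul_nonneg (mul_nonneg (hw0 i _) (hw0' i' _)) (hK0 _)
  have h2nn : ∀ z : E × E, 0 ≤ h z.1 * h' z.2 * K z := fun z =>
    mul_nonneg (mul_nonneg (hh0 _) (hh0' _)) (hK0 _)
  have hm2 : Measurable (fun z : E × E => h z.1 * h' z.2 * K z) :=
    ((hh.comp measurable_fst).mul (hh'.comp measurable_snd)).mul hK
  have hlin : ∫⁻ z, ENNReal.ofReal (∑ i, ∑ i', w i z.1 * w' i' z.2 * K (x i z.1, x' i' z.2))
      ∂(P.prod P') = ∫⁻ z, ENNReal.ofReal (h z.1 * h' z.2 * K z) ∂(μ.prod μ) := by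
    have hp := hU.prod hU' hw hx hh hw' hx' hh' (fun z => ENNReal.ofReal (K z)) hK.ennreal_ofReal
    have e1 : ∀ z : E × E, ENNReal.ofReal (∑ i, ∑ i', w i z.1 * w' i' z.2 *
        K (x i z.1, x' i' z.2)) = ∑ i, ∑ i', ENNReal.ofReal (w i z.1) *
          ENNReal.ofReal (w' i' z.2) * ENNReal.ofReal (K (x i z.1, x' i' z.2)) := by
      intro z
      rw [ENNReal.ofReal_sum_of_nonneg fun i _ => Finset.sum_nonneg fun i' _ =>
        mul_nonneg (mul_nonneg (hw0 i _) (hw0' i' _)) (hK0 _)]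
      refine Finset.sum_congr rfl fun i _ => ?_
      rw [ENNReal.ofReal_sum_of_nonneg fun i' _ =>
        mul_nonneg (mul_nonneg (hw0 i _) (hw0' i' _)) (hK0 _)]
      refine Finset.sum_congr rfl fun i' _ => ?_
      rw [ENNReal.ofReal_mul (mul_nonneg (hw0 i _) (hw0' i' _)), ENNReal.ofReal_mul (hw0 i _)]
    have e2 : ∀ z : E × E, ENNReal.ofReal (h z.1 * h' z.2 * K z) =
        ENNReal.ofReal (h z.1) * ENNReal.ofReal (h' z.2) * ENNReal.ofReal (K z) := by
      intro z
      rw [ENNReal.ofReal_mul (mul_nonneg (hh0 _) (hh0' _)), ENNReal.ofReal_mul (hh0 _)]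
    simp_rw [e1, e2]
    exact hp
  have hfin : ∫⁻ z, ENNReal.ofReal (h z.1 * h' z.2 * K z) ∂(μ.prod μ) < ∞ := by
    have := hint.hasFiniteIntegral
    rw [hasFiniteIntegral_iff_ofReal (Eventually.of_forall h2nn)] at this
    exact this
  refine ⟨⟨hm1.aestronglyMeasurable, ?_⟩, ?_⟩
  · rw [hasFiniteIntegral_iff_ofReal (Eventually.of_forall h1nn), hlin]
    exact hfin
  · rw [integral_eq_lintegral_of_nonneg_ae (Eventually.of_forall h1nn)
      hm1.aestronglyMeasurable, integral_eq_lintegral_of_nonneg_ae (Eventually.of_forall h2nn)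
      hm2.aestronglyMeasurable, hlin]

theorem Unf.prod_real (hU : Unf μ P w x h) (hU' : Unf μ P' w' x' h')
    (hw : ∀ i, Measurable (w i)) (hx : ∀ i, Measurable (x i)) (hh : Measurable h)
    (hw' : ∀ i, Measurable (w' i)) (hx' : ∀ i, Measurable (x' i)) (hh' : Measurable h')
    (hw0 : ∀ i u, 0 ≤ w i u) (hh0 : ∀ s, 0 ≤ h s) (hw0' : ∀ i u, 0 ≤ w' i u)
    (hh0' : ∀ s, 0 ≤ h' s)
    (K : E × E → ℝ) (hK : Measurable K)
    (hint : Integrable (fun z => h z.1 * h' z.2 * K z) (μ.prod μ)) :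
    Integrable (fun z => ∑ i, ∑ i', w i z.1 * w' i' z.2 * K (x i z.1, x' i' z.2))
      (P.prod P') ∧
    ∫ z, ∑ i, ∑ i', w i z.1 * w' i' z.2 * K (x i z.1, x' i' z.2) ∂(P.prod P') =
      ∫ z, h z.1 * h' z.2 * K z ∂(μ.prod μ) := by
  have hnn : ∀ z : E × E, 0 ≤ h z.1 * h' z.2 := fun z => mul_nonneg (hh0 _) (hh0' _)
  have ep : (fun z : E × E => h z.1 * h' z.2 * max (K z) 0) =
      fun z => max (h z.1 * h' z.2 * K z) 0 := by
    funext z
    rw [mul_max_of_nonneg _ _ (hnn z), mul_zero]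
  have en : (fun z : E × E => h z.1 * h' z.2 * max (-K z) 0) =
      fun z => max (-(h z.1 * h' z.2 * K z)) 0 := by
    funext z
    rw [mul_max_of_nonneg _ _ (hnn z), mul_zero, mul_neg]
  have ip : Integrable (fun z : E × E => h z.1 * h' z.2 * max (K z) 0) (μ.prod μ) := by
    rw [ep]; exact hint.pos_part
  have inn : Integrable (fun z : E × E => h z.1 * h' z.2 * max (-K z) 0) (μ.prod μ) := by
    rw [en]; exact hint.neg_part
  obtain ⟨p1, p2⟩ := hU.prod_nonneg hU' hw hx hh hw' hx' hh' hw0 hh0 hw0' hh0'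
    (fun z => max (K z) 0) (hK.max measurable_const) (fun z => le_max_right _ _) ip
  obtain ⟨n1, n2⟩ := hU.prod_nonneg hU' hw hx hh hw' hx' hh' hw0 hh0 hw0' hh0'
    (fun z => max (-K z) 0) (hK.neg.max measurable_const) (fun z => le_max_right _ _) inn
  have hmm : ∀ r : ℝ, max r 0 - max (-r) 0 = r := by
    intro r
    rcases le_total 0 r with h | h
    · rw [max_eq_left h, max_eq_right (by linarith)]; ring
    · rw [max_eq_right h, max_eq_left (by linarith)]; ring
  have e1 : (fun z : E × E => ∑ i, ∑ i', w i z.1 * w' i' z.2 * K (x i z.1, x' i' z.2)) =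
      fun z => (∑ i, ∑ i', w i z.1 * w' i' z.2 * max (K (x i z.1, x' i' z.2)) 0) -
        ∑ i, ∑ i', w i z.1 * w' i' z.2 * max (-K (x i z.1, x' i' z.2)) 0 := by
    funext z
    rw [← Finset.sum_sub_distrib]
    refine Finset.sum_congr rfl fun i _ => ?_
    rw [← Finset.sum_sub_distrib]
    refine Finset.sum_congr rfl fun i' _ => ?_
    rw [← mul_sub, hmm]
  have e2 : (fun z : E × E => h z.1 * h' z.2 * K z) =
      fun z => h z.1 * h' z.2 * max (K z) 0 - h z.1 * h' z.2 * max (-K z) 0 := by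
    funext z
    rw [← mul_sub, hmm]
  constructor
  · rw [e1]; exact p1.sub n1
  · rw [e1, e2, integral_sub p1 n1, integral_sub ip inn, p2, n2]

end

end Pool.Agent.Helper78.LE
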