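import Pool.Agent.Helper78.LE.LE14a
import Pool.Agent.Helper78.LE.LE7b

/-!
Project LE, module LE14, part 2: unfolding of a window.
-/

set_option autoImplicit false

open MeasureTheory Set Filter Topology

open scoped ENNReal

namespace Pool.Agent.Helper78.LE

section
variable {d : ℕ} (k m : ℕ)

/-- unfolding of the shift, for nonnegative functions -/
theorem unfold_lintegral (G : (Fin d → ℝ) → ℝ≥0∞) (hG : Measurable G)
    (h0 : ∀ p : Fin d → ℝ, (∃ i, p i < 0 ∨ (m : ℝ) + k ≤ p i) → G p = 0) :
    ∫⁻ u in cube d, ∑ n : IW d k m, G (pt n u) = ∫⁻ p, G p := by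
  classical
  have hcube : MeasurableSet (cube d) := MeasurableSet.univ_pi fun _ => measurableSet_Ico
  have hpt : ∀ (n : IW d k m) (u : Fin d → ℝ), pt n u = (fun i => ((n i : ℕ) : ℝ)) + u := by
    intro n u; rfl
  have hptm : ∀ n : IW d k m, Measurable (fun u : Fin d → ℝ => pt n u) := by
    intro n
    simp only [hpt]
    exact measurable_const.add measurable_id
  have hGm : ∀ n : IW d k m, Measurable (fun u : Fin d → ℝ => G (pt n u)) := fun n =>
    hG.comp (hptm n)
  rw [lintegral_finsetSum _ fun n _ => hGm n]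
  set B : IW d k m → Set (Fin d → ℝ) := fun n =>
    Set.pi Set.univ fun i => Set.Ico ((n i : ℕ) : ℝ) (((n i : ℕ) : ℝ) + 1) with hB
  have hBm : ∀ n, MeasurableSet (B n) := fun n => MeasurableSet.univ_pi fun _ => measurableSet_Ico
  have h1 : ∀ n : IW d k m, ∫⁻ u in cube d, G (pt n u) = ∫⁻ p, (B n).indicator G p := by
    intro n
    rw [← lintegral_indicator hcube,
      ← lintegral_add_left_eq_self ((B n).indicator G) (fun i => ((n i : ℕ) : ℝ))]
    apply lintegral_congr
    intro u
    have hiff : u ∈ cube d ↔ (fun i => ((n i : ℕ) : ℝ)) + u ∈ B n := by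
      simp only [cube, hB, Set.mem_pi, Set.mem_univ, forall_true_left, Set.mem_Ico, Pi.add_apply]
      constructor
      · intro h i
        have := h i
        constructor <;> linarith
      · intro h i
        have := h i
        constructor <;> linarith
    by_cases hu : u ∈ cube d
    · rw [indicator_of_mem hu, indicator_of_mem (hiff.1 hu), hpt]
    · rw [indicator_of_notMem hu, indicator_of_notMem (fun h => hu (hiff.2 h))]
  simp_rw [h1]
  rw [← lintegral_finsetSum _ fun n _ => hG.indicator (hBm n)]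
  apply lintegral_congr
  intro p
  by_cases hp : ∃ i, p i < 0 ∨ (m : ℝ) + k ≤ p i
  · rw [h0 p hp]
    apply Finset.sum_eq_zero
    intro n _
    by_cases h : p ∈ B n
    · rw [indicator_of_mem h, h0 p hp]
    · rw [indicator_of_notMem h]
  · push Not at hp
    have hfl : ∀ i, ⌊p i⌋₊ < m + k + 1 := by
      intro i
      rw [Nat.floor_lt (hp i).1]
      push_cast
      have := (hp i).2
      linarith
    rw [Finset.sum_eq_single (fun i => (⟨⌊p i⌋₊, hfl i⟩ : Fin (m + k + 1)))]
    · rw [indicator_of_mem]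
      simp only [hB, Set.mem_pi, Set.mem_univ, forall_true_left, Set.mem_Ico]
      intro i
      exact ⟨Nat.floor_le (hp i).1, Nat.lt_floor_add_one (p i)⟩
    · intro n _ hn
      rw [indicator_of_notMem]
      intro h
      apply hn
      funext i
      simp only [hB, Set.mem_pi, Set.mem_univ, forall_true_left, Set.mem_Ico] at h
      apply Fin.ext
      simp only
      symm
      rw [Nat.floor_eq_iff (hp i).1]
      exact h i
    · intro h
      exact absurd (Finset.mem_univ _) h

/-- affine change of variables for nonnegative functions -/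
theorem lintegral_affine (a : Fin d → ℝ) (ρ : ℝ) (hρ : 0 < ρ) (Ψ : (Fin d → ℝ) → ℝ≥0∞)
    (hΨ : Measurable Ψ) :
    ∫⁻ p, Ψ (a + ρ • p) = ENNReal.ofReal ((ρ ^ d)⁻¹) * ∫⁻ s, Ψ s := by
  have h1 : ∫⁻ p, Ψ (a + ρ • p) =
      ∫⁻ q, Ψ (a + q) ∂(Measure.map (fun p : Fin d → ℝ => ρ • p) volume) := by
    rw [lintegral_map]
    · exact hΨ.comp (measurable_const.add measurable_id)
    · exact measurable_const_smul ρ
  rw [h1, Measure.map_addHaar_smul volume hρ.ne', lintegral_smul_measure,
    lintegral_add_left_eq_self Ψ a, Module.finrank_fin_fun, abs_of_pos (by positivity)]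
  rfl

theorem unf_window (a : Fin d → ℝ) (ρ : ℝ) (hρ : 0 < ρ) :
    Unf volume ((volume : Measure (Fin d → ℝ)).restrict (cube d))
      (fun (n : IW d k m) u => Win k m (pt n u)) (fun n u => a + ρ • pt n u)
      (fun s => (ρ ^ d)⁻¹ * Win k m (ρ⁻¹ • (s - a))) := by
  intro F hF
  have hWm : Measurable (Win k m (d := d)) := Win_measurable k m
  have haff : Measurable (fun p : Fin d → ℝ => a + ρ • p) :=
    measurable_const.add (measurable_const_smul ρ)
  have haff' : Measurable (fun s : Fin d → ℝ => ρ⁻¹ • (s - a)) :=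
    (measurable_id.sub measurable_const).const_smul ρ⁻¹
  have h1 := unfold_lintegral k m (fun p : Fin d → ℝ => ENNReal.ofReal (Win k m p) *
    F (a + ρ • p)) ((hWm.ennreal_ofReal).mul (hF.comp haff)) (by
      intro p hp
      show ENNReal.ofReal (Win k m p) * F (a + ρ • p) = 0
      rw [Win_eq_zero k m p hp]
      simp)
  rw [h1]
  have h2 := lintegral_affine a ρ hρ (fun s => ENNReal.ofReal (Win k m (ρ⁻¹ • (s - a))) * F s)
    (((hWm.comp haff').ennreal_ofReal).mul hF)
  have e1 : ∀ p : Fin d → ℝ, ρ⁻¹ • (a + ρ • p - a) = p := by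
    intro p
    rw [add_sub_cancel_left, smul_smul, inv_mul_cancel₀ hρ.ne', one_smul]
  simp only [e1] at h2
  have hm3 : Measurable (fun s : Fin d → ℝ => ENNReal.ofReal (Win k m (ρ⁻¹ • (s - a))) * F s) :=
    ((hWm.comp haff').ennreal_ofReal).mul hF
  rw [h2, ← lintegral_const_mul _ hm3]
  apply lintegral_congr
  intro s
  rw [ENNReal.ofReal_mul (by positivity), mul_assoc]

end

end Pool.Agent.Helper78.LE
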