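import Pool.Agent.Helper78.LE.LE14a
import Pool.Agent.Helper78.LE.LE14b
import Pool.Agent.Helper78.LE.LE0
import Pool.Agent.Helper78.LE.LE1
import Pool.Agent.Helper78.LE.LE3
import Pool.Agent.Helper78.LE.LE12

/-!
Project LE, module LE14, part 3: the components.
-/

set_option autoImplicit false

open MeasureTheory Set Filter Topology

open scoped ENNReal

namespace Pool.Agent.Helper78.LE

namespace Core

/-! ### The components: windows and single points -/

section
variable {d : ℕ} (b : Module.Basis (Fin d) ℝ (EV d)) (k m N : ℕ) {G : ℕ} (NR : ℕ)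
  (a : Fin G → Fin d → ℝ) (ρ : Fin G → ℝ)

/-- density of a window -/
noncomputable def hj (j : Fin G) (s : Fin d → ℝ) : ℝ :=
  (ρ j ^ d)⁻¹ * Win k m ((ρ j)⁻¹ • (s - a j))

/-- density of the rest -/
noncomputable def nu (s : Fin d → ℝ) : ℝ := N * dens b s - ∑ j, hj k m a ρ j s

/-- weights -/
noncomputable def wt : Fin G ⊕ Fin NR → IW d k m → (Fin d → ℝ) → ℝ :=
  Sum.elim (fun _ n u => Win k m (pt n u)) (fun _ n _ => if n = fun _ => 0 then 1 else 0)

/-- positions -/
noncomputable def ps : Fin G ⊕ Fin NR → IW d k m → (Fin d → ℝ) → (Fin d → ℝ) :=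
  Sum.elim (fun j n u => a j + ρ j • pt n u) (fun _ _ u => u)

/-- densities -/
noncomputable def hh : Fin G ⊕ Fin NR → (Fin d → ℝ) → ℝ :=
  Sum.elim (fun j => hj k m a ρ j) (fun _ s => nu b k m N a ρ s / NR)

/-- probability measures -/
noncomputable def PP : Fin G ⊕ Fin NR → Measure (Fin d → ℝ) :=
  Sum.elim (fun _ => (volume : Measure (Fin d → ℝ)).restrict (cube d))
    (fun _ => (volume : Measure (Fin d → ℝ)).withDensity
      (fun s => ENNReal.ofReal (nu b k m N a ρ s / NR)))

theorem cube_meas : MeasurableSet (cube d) := MeasurableSet.univ_pi fun _ => measurableSet_Ico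

theorem cube_vol : (volume : Measure (Fin d → ℝ)) (cube d) = 1 := by
  unfold cube
  rw [Real.volume_pi_Ico]
  simp

theorem pt_meas (n : IW d k m) : Measurable (fun u : Fin d → ℝ => pt n u) := by
  have : (fun u : Fin d → ℝ => pt n u) = fun u => (fun i => ((n i : ℕ) : ℝ)) + u := by
    funext u; rfl
  rw [this]
  exact measurable_const.add measurable_id

theorem hj_nonneg (hρ : ∀ j, 0 < ρ j) (j : Fin G) (s : Fin d → ℝ) : 0 ≤ hj k m a ρ j s := by
  have := hρ j
  exact mul_nonneg (by positivity) (Win_nonneg k m _)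

theorem hj_meas (j : Fin G) : Measurable (hj k m a ρ j) := by
  have haff' : Measurable (fun s : Fin d → ℝ => (ρ j)⁻¹ • (s - a j)) :=
    (measurable_id.sub measurable_const).const_smul (ρ j)⁻¹
  exact ((Win_measurable k m).comp haff').const_mul _

theorem lintegral_hj (hρ : ∀ j, 0 < ρ j) (j : Fin G) :
    ∫⁻ s, ENNReal.ofReal (hj k m a ρ j s) = ENNReal.ofReal ((m : ℝ) ^ d) := by
  have h := unf_window k m (a j) (ρ j) (hρ j) (fun _ => 1) measurable_const
  simp only [mul_one] at h
  unfold hj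
  rw [← h]
  have h2 : ∀ u ∈ cube d, ∑ n : IW d k m, ENNReal.ofReal (Win k m (pt n u)) =
      ENNReal.ofReal ((m : ℝ) ^ d) := by
    intro u hu
    rw [← ENNReal.ofReal_sum_of_nonneg fun n _ => Win_nonneg k m _, sum_Win k m u hu]
  rw [setLIntegral_congr_fun cube_meas (fun u hu => h2 u hu), setLIntegral_const, cube_vol,
    mul_one]

theorem hj_integrable (hρ : ∀ j, 0 < ρ j) (j : Fin G) : Integrable (hj k m a ρ j) := by
  refine ⟨(hj_meas k m a ρ j).aestronglyMeasurable, ?_⟩
  rw [hasFiniteIntegral_iff_ofReal (Eventually.of_forall (hj_nonneg k m a ρ hρ j)),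
    lintegral_hj k m a ρ hρ j]
  exact ENNReal.ofReal_lt_top

theorem integral_hj (hρ : ∀ j, 0 < ρ j) (j : Fin G) : ∫ s, hj k m a ρ j s = (m : ℝ) ^ d := by
  rw [integral_eq_lintegral_of_nonneg_ae (Eventually.of_forall (hj_nonneg k m a ρ hρ j))
    (hj_meas k m a ρ j).aestronglyMeasurable, lintegral_hj k m a ρ hρ j,
    ENNReal.toReal_ofReal (by positivity)]

theorem nu_meas : Measurable (nu b k m N a ρ) := by
  unfold nu
  exact ((dens_continuous b).measurable.const_mul _).sub
    (Finset.measurable_sum _ fun j _ => hj_meas k m a ρ j)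

variable (hdens : ∀ s, ∑ j, (ρ j ^ d)⁻¹ * Win k m ((ρ j)⁻¹ • (s - a j)) ≤ N * dens b s)

include hdens in
theorem nu_nonneg (s : Fin d → ℝ) : 0 ≤ nu b k m N a ρ s := by
  unfold nu hj
  have := hdens s
  linarith

theorem nu_integrable (hd : 0 < d) (hρ : ∀ j, 0 < ρ j) : Integrable (nu b k m N a ρ) := by
  unfold nu
  exact ((dens_integrable b hd).const_mul _).sub
    (integrable_finsetSum _ fun j _ => hj_integrable k m a ρ hρ j)

theorem integral_nu (hd : 0 < d) (hρ : ∀ j, 0 < ρ j) (hN : N = G * m ^ d + NR) :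
    ∫ s, nu b k m N a ρ s = NR := by
  unfold nu
  rw [integral_sub ((dens_integrable b hd).const_mul _)
    (integrable_finsetSum _ fun j _ => hj_integrable k m a ρ hρ j), integral_const_mul,
    integral_dens b hd, integral_finsetSum _ fun j _ => hj_integrable k m a ρ hρ j]
  simp_rw [integral_hj k m a ρ hρ]
  simp only [Finset.sum_const, Finset.card_univ, Fintype.card_fin, nsmul_eq_mul]
  rw [hN]
  push_cast
  ring

include hdens in
theorem lintegral_nu (hd : 0 < d) (hρ : ∀ j, 0 < ρ j) (hN : N = G * m ^ d + NR) (hNR : 0 < NR) :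
    ∫⁻ s, ENNReal.ofReal (nu b k m N a ρ s / NR) = 1 := by
  have hNR' : (0 : ℝ) < NR := by exact_mod_cast hNR
  rw [← ofReal_integral_eq_lintegral_ofReal ((nu_integrable b k m N a ρ hd hρ).div_const _)
    (Eventually.of_forall fun s => div_nonneg (nu_nonneg b k m N a ρ hdens s) hNR'.le),
    integral_div, integral_nu b k m N NR a ρ hd hρ hN, div_self hNR'.ne', ENNReal.ofReal_one]

theorem wt_nonneg (c : Fin G ⊕ Fin NR) (n : IW d k m) (u : Fin d → ℝ) :
    0 ≤ wt k m NR c n u := by
  rcases c with j | i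
  · exact Win_nonneg k m _
  · simp only [wt, Sum.elim_inr]
    split_ifs <;> norm_num

theorem wt_le_one (c : Fin G ⊕ Fin NR) (n : IW d k m) (u : Fin d → ℝ) :
    wt k m NR c n u ≤ 1 := by
  rcases c with j | i
  · exact Win_le_one k m _
  · simp only [wt, Sum.elim_inr]
    split_ifs <;> norm_num

theorem wt_meas (c : Fin G ⊕ Fin NR) (n : IW d k m) : Measurable (wt k m NR c n) := by
  rcases c with j | i
  · exact (Win_measurable k m).comp (pt_meas k m n)
  · exact measurable_const

theorem ps_meas (c : Fin G ⊕ Fin NR) (n : IW d k m) : Measurable (ps k m NR a ρ c n) := by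
  rcases c with j | i
  · exact measurable_const.add ((measurable_const_smul (ρ j)).comp (pt_meas k m n))
  · exact measurable_id

theorem hh_meas (c : Fin G ⊕ Fin NR) : Measurable (hh b k m N NR a ρ c) := by
  rcases c with j | i
  · exact hj_meas k m a ρ j
  · exact (nu_meas b k m N a ρ).div_const _

include hdens in
theorem hh_nonneg (hρ : ∀ j, 0 < ρ j) (c : Fin G ⊕ Fin NR) (s : Fin d → ℝ) :
    0 ≤ hh b k m N NR a ρ c s := by
  rcases c with j | i
  · exact hj_nonneg k m a ρ hρ j s
  · exact div_nonneg (nu_nonneg b k m N a ρ hdens s) (Nat.cast_nonneg _)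

include hdens in
theorem hh_le (hρ : ∀ j, 0 < ρ j) (c : Fin G ⊕ Fin NR) (s : Fin d → ℝ) :
    hh b k m N NR a ρ c s ≤ N * dens b s := by
  rcases c with j | i
  · refine le_trans ?_ (hdens s)
    exact Finset.single_le_sum (f := fun j => hj k m a ρ j s)
      (fun j _ => hj_nonneg k m a ρ hρ j s) (Finset.mem_univ j)
  · have h1 := nu_nonneg b k m N a ρ hdens s
    have h2 : nu b k m N a ρ s ≤ N * dens b s := by
      unfold nu
      have : 0 ≤ ∑ j, hj k m a ρ j s := Finset.sum_nonneg fun j _ => hj_nonneg k m a ρ hρ j s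
      linarith
    have hNR : (1 : ℝ) ≤ NR := by
      have : 0 < NR := i.pos
      exact_mod_cast this
    exact (div_le_self h1 hNR).trans h2

include hdens in
theorem prob (hd : 0 < d) (hρ : ∀ j, 0 < ρ j) (hN : N = G * m ^ d + NR)
    (c : Fin G ⊕ Fin NR) : IsProbabilityMeasure (PP b k m N NR a ρ c) := by
  rcases c with j | i
  · refine ⟨?_⟩
    show (volume : Measure (Fin d → ℝ)).restrict (cube d) univ = 1
    rw [Measure.restrict_apply_univ, cube_vol]
  · refine ⟨?_⟩
    show (volume : Measure (Fin d → ℝ)).withDensity _ univ = 1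
    rw [withDensity_apply _ MeasurableSet.univ, Measure.restrict_univ]
    exact lintegral_nu b k m N NR a ρ hdens hd hρ hN i.pos

theorem unf (hρ : ∀ j, 0 < ρ j) (c : Fin G ⊕ Fin NR) :
    Unf volume (PP b k m N NR a ρ c) (wt k m NR c) (ps k m NR a ρ c) (hh b k m N NR a ρ c) := by
  rcases c with j | i
  · exact unf_window k m (a j) (ρ j) (hρ j)
  · intro F hF
    show ∫⁻ u, ∑ n : IW d k m, ENNReal.ofReal (if n = fun _ => 0 then 1 else 0) * F u
      ∂((volume : Measure (Fin d → ℝ)).withDensity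
        (fun s => ENNReal.ofReal (nu b k m N a ρ s / NR))) =
      ∫⁻ s, ENNReal.ofReal (nu b k m N a ρ s / NR) * F s
    have e : ∀ u, ∑ n : IW d k m, ENNReal.ofReal (if n = fun _ => 0 then 1 else 0) * F u =
        F u := by
      intro u
      rw [Finset.sum_eq_single (fun _ => 0 : IW d k m)]
      · simp
      · intro n _ hn
        simp [hn]
      · intro h
        exact absurd (Finset.mem_univ _) h
    simp_rw [e]
    rw [lintegral_withDensity_eq_lintegral_mul _
      ((nu_meas b k m N a ρ).div_const _).ennreal_ofReal hF]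
    rfl

/-- the kernel on pairs -/
noncomputable def Kf (z : (Fin d → ℝ) × (Fin d → ℝ)) : ℝ := kern b z.1 z.2

theorem Kf_meas : Measurable (Kf b) := by
  unfold Kf kern
  have h1 : Measurable (fun z : (Fin d → ℝ) × (Fin d → ℝ) => ‖lin b (z.1 - z.2)‖) :=
    ((lin_continuous b).measurable.comp (measurable_fst.sub measurable_snd)).norm
  have h2 : Measurable (ell b) := (ell_continuous b).measurable
  exact ((Real.measurable_log.comp h1).neg.sub ((h2.comp measurable_fst).div_const _)).sub
    ((h2.comp measurable_snd).div_const _)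

include hdens in
theorem hhK_integrable (hd : 0 < d) (hρ : ∀ j, 0 < ρ j) (c c' : Fin G ⊕ Fin NR) :
    Integrable (fun z : (Fin d → ℝ) × (Fin d → ℝ) =>
      hh b k m N NR a ρ c z.1 * hh b k m N NR a ρ c' z.2 * Kf b z) (volume.prod volume) := by
  refine Integrable.mono' ((kern_integrable b hd).norm.const_mul ((N : ℝ) ^ 2)) ?_ ?_
  · exact ((((hh_meas b k m N NR a ρ c).comp measurable_fst).mul
      ((hh_meas b k m N NR a ρ c').comp measurable_snd)).mul (Kf_meas b)).aestronglyMeasurable
  · refine Eventually.of_forall fun z => ?_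
    have h1 := hh_nonneg b k m N NR a ρ hdens hρ c z.1
    have h2 := hh_nonneg b k m N NR a ρ hdens hρ c' z.2
    have h3 := hh_le b k m N NR a ρ hdens hρ c z.1
    have h4 := hh_le b k m N NR a ρ hdens hρ c' z.2
    have h5 := (dens_pos b z.1).le
    have h6 := (dens_pos b z.2).le
    simp only [norm_mul, Real.norm_eq_abs, abs_of_nonneg h1, abs_of_nonneg h2, abs_of_nonneg h5,
      abs_of_nonneg h6, Kf]
    have h7 : hh b k m N NR a ρ c z.1 * hh b k m N NR a ρ c' z.2 ≤
        (N * dens b z.1) * (N * dens b z.2) := mul_le_mul h3 h4 h2 (h1.trans h3)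
    calc _ ≤ (N * dens b z.1) * (N * dens b z.2) * |kern b z.1 z.2| :=
          mul_le_mul_of_nonneg_right h7 (abs_nonneg _)
      _ = _ := by ring

include hdens in
theorem sum_hh (hd : 0 < d) (hρ : ∀ j, 0 < ρ j) (hN : N = G * m ^ d + NR) :
    ∀ᵐ s ∂(volume : Measure (Fin d → ℝ)), ∑ c, hh b k m N NR a ρ c s = N * dens b s := by
  rcases Nat.eq_zero_or_pos NR with h0 | hpos
  · subst h0
    have h1 := integral_nu b k m N 0 a ρ hd hρ hN
    rw [Nat.cast_zero, integral_eq_zero_iff_of_nonneg
      (fun s => nu_nonneg b k m N a ρ hdens s) (nu_integrable b k m N a ρ hd hρ)] at h1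
    filter_upwards [h1] with s hs
    rw [Fintype.sum_sum_type]
    simp only [hh, Sum.elim_inl, Finset.univ_eq_empty, Finset.sum_empty, add_zero]
    unfold nu at hs
    simp only [Pi.zero_apply] at hs
    linarith
  · refine Eventually.of_forall fun s => ?_
    rw [Fintype.sum_sum_type]
    simp only [hh, Sum.elim_inl, Sum.elim_inr, Finset.sum_const, Finset.card_univ,
      Fintype.card_fin, nsmul_eq_mul]
    have hNR' : (NR : ℝ) ≠ 0 := by
      have : (0 : ℝ) < NR := by exact_mod_cast hpos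
      exact this.ne'
    rw [mul_div_cancel₀ _ hNR']
    unfold nu
    ring

theorem ae_fst_snd {g h : (Fin d → ℝ) → ℝ}
    (h1 : ∀ᵐ s ∂(volume : Measure (Fin d → ℝ)), g s = h s) :
    ∀ᵐ z ∂((volume : Measure (Fin d → ℝ)).prod volume), g z.1 = h z.1 ∧ g z.2 = h z.2 :=
  (Measure.quasiMeasurePreserving_fst.ae h1).and (Measure.quasiMeasurePreserving_snd.ae h1)

include hdens in
theorem sum_pairs (hd : 0 < d) (hρ : ∀ j, 0 < ρ j) (hN : N = G * m ^ d + NR) :
    ∑ c, ∑ c', ∫ z : (Fin d → ℝ) × (Fin d → ℝ),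
      hh b k m N NR a ρ c z.1 * hh b k m N NR a ρ c' z.2 * Kf b z ∂(volume.prod volume) =
      (N : ℝ) ^ 2 * Vlog d := by
  have hi := hhK_integrable b k m N NR a ρ hdens hd hρ
  have e1 : ∑ c, ∑ c', ∫ z : (Fin d → ℝ) × (Fin d → ℝ),
      hh b k m N NR a ρ c z.1 * hh b k m N NR a ρ c' z.2 * Kf b z ∂(volume.prod volume) =
      ∫ z : (Fin d → ℝ) × (Fin d → ℝ), ∑ c, ∑ c',
      hh b k m N NR a ρ c z.1 * hh b k m N NR a ρ c' z.2 * Kf b z ∂(volume.prod volume) := by
    rw [integral_finsetSum _ fun c _ => integrable_finsetSum _ fun c' _ => hi c c']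
    refine Finset.sum_congr rfl fun c _ => ?_
    rw [integral_finsetSum _ fun c' _ => hi c c']
  rw [e1, Vlog_eq b hd, ← integral_const_mul]
  apply integral_congr_ae
  have h1 := sum_hh b k m N NR a ρ hdens hd hρ hN
  have hfs := ae_fst_snd (g := fun s => ∑ c, hh b k m N NR a ρ c s)
    (h := fun s => N * dens b s) h1
  filter_upwards [hfs] with z hz
  obtain ⟨hz1, hz2⟩ := hz
  have e2 : ∑ c, ∑ c', hh b k m N NR a ρ c z.1 * hh b k m N NR a ρ c' z.2 * Kf b z =
      (∑ c, hh b k m N NR a ρ c z.1) * (∑ c', hh b k m N NR a ρ c' z.2) * Kf b z := by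
    rw [Finset.sum_mul_sum, Finset.sum_mul]
    refine Finset.sum_congr rfl fun c _ => ?_
    rw [Finset.sum_mul]
  rw [e2, hz1, hz2]
  unfold Kf
  ring

/-- self energy of a window -/
theorem self_window (hρ : ∀ j, 0 < ρ j) (j : Fin G)
    (hint : Integrable (fun z : (Fin d → ℝ) × (Fin d → ℝ) =>
      hj k m a ρ j z.1 * hj k m a ρ j z.2 * Kf b z) (volume.prod volume)) :
    ∫ z : (Fin d → ℝ) × (Fin d → ℝ), hj k m a ρ j z.1 * hj k m a ρ j z.2 * Kf b z
      ∂(volume.prod volume) = selfE b k m (a j) (ρ j) := by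
  have hU : Unf (volume : Measure (Fin d → ℝ)) volume (fun (_ : Unit) p => Win k m p)
      (fun _ p => a j + ρ j • p) (hj k m a ρ j) := by
    intro F hF
    simp only [Finset.univ_unique, Finset.sum_singleton]
    have hWm : Measurable (Win k m (d := d)) := Win_measurable k m
    have haff' : Measurable (fun s : Fin d → ℝ => (ρ j)⁻¹ • (s - a j)) :=
      (measurable_id.sub measurable_const).const_smul (ρ j)⁻¹
    have hm3 : Measurable (fun s : Fin d → ℝ =>
        ENNReal.ofReal (Win k m ((ρ j)⁻¹ • (s - a j))) * F s) :=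
      ((hWm.comp haff').ennreal_ofReal).mul hF
    have h2 := lintegral_affine (a j) (ρ j) (hρ j)
      (fun s => ENNReal.ofReal (Win k m ((ρ j)⁻¹ • (s - a j))) * F s) hm3
    have e1 : ∀ p : Fin d → ℝ, (ρ j)⁻¹ • (a j + ρ j • p - a j) = p := by
      intro p
      rw [add_sub_cancel_left, smul_smul, inv_mul_cancel₀ (hρ j).ne', one_smul]
    simp only [e1] at h2
    rw [h2, ← lintegral_const_mul _ hm3]
    apply lintegral_congr
    intro s
    unfold hj
    rw [ENNReal.ofReal_mul (by have := hρ j; positivity), mul_assoc]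
  have h := (hU.prod_real hU (fun _ => Win_measurable k m)
    (fun _ => measurable_const.add (measurable_const_smul _)) (hj_meas k m a ρ j)
    (fun _ => Win_measurable k m) (fun _ => measurable_const.add (measurable_const_smul _))
    (hj_meas k m a ρ j) (fun _ u => Win_nonneg k m u) (hj_nonneg k m a ρ hρ j)
    (fun _ u => Win_nonneg k m u) (hj_nonneg k m a ρ hρ j) (Kf b) (Kf_meas b) hint).2
  rw [← h]
  unfold selfE
  simp only [Finset.univ_unique, Finset.sum_singleton, Kf]

/-- self energy of a single point -/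
theorem self_single (i : Fin NR) (hd : 0 < d) (hρ : ∀ j, 0 < ρ j) (hN : N = G * m ^ d + NR)
    (hdens : ∀ s, ∑ j, (ρ j ^ d)⁻¹ * Win k m ((ρ j)⁻¹ • (s - a j)) ≤ N * dens b s) :
    -Real.log 2 ≤ ∫ z : (Fin d → ℝ) × (Fin d → ℝ), hh b k m N NR a ρ (Sum.inr i) z.1 *
      hh b k m N NR a ρ (Sum.inr i) z.2 * Kf b z ∂(volume.prod volume) := by
  have hNR' : (0 : ℝ) < NR := by
    have : 0 < NR := i.pos
    exact_mod_cast this
  have hi := hhK_integrable b k m N NR a ρ hdens hd hρ (Sum.inr i) (Sum.inr i)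
  have hint1 : Integrable (hh b k m N NR a ρ (Sum.inr i)) :=
    (nu_integrable b k m N a ρ hd hρ).div_const _
  have hint : ∫ s, hh b k m N NR a ρ (Sum.inr i) s = 1 := by
    show ∫ s, nu b k m N a ρ s / NR = 1
    rw [integral_div, integral_nu b k m N NR a ρ hd hρ hN, div_self hNR'.ne']
  have h1 : ∫ z : (Fin d → ℝ) × (Fin d → ℝ), hh b k m N NR a ρ (Sum.inr i) z.1 *
      hh b k m N NR a ρ (Sum.inr i) z.2 * (-Real.log 2) ∂(volume.prod volume) =
      -Real.log 2 := by
    rw [integral_mul_const, integral_prod_mul, hint]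
    ring
  rw [← h1]
  apply integral_mono _ hi
  · intro z
    apply mul_le_mul_of_nonneg_left (kern_ge b z.1 z.2)
    exact mul_nonneg (hh_nonneg b k m N NR a ρ hdens hρ _ _)
      (hh_nonneg b k m N NR a ρ hdens hρ _ _)
  · exact (hint1.mul_prod hint1).mul_const _

end

end Core

end Pool.Agent.Helper78.LE
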