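import Pool.Agent.Helper78.LE.LE0
import Pool.Agent.Helper78.LE.LE7b
import Pool.Agent.Helper78.LE.LE10
import Pool.Agent.Helper78.LE.LE11
import Pool.Agent.Helper78.LE.LE13
import Pool.Agent.Helper78.LE.LE14

/-!
Project LE, module LE15: the main theorem.
-/

set_option autoImplicit false

open MeasureTheory Set Filter Topology

namespace Pool.Agent.Helper78.LE

section LE15

theorem le15_pow (n : ℕ) (a c : ℝ) (hc : 0 ≤ c) (hca : c ≤ a) :
    a ^ (n + 1) - c ^ (n + 1) ≤ (n + 1) * (a - c) * a ^ n := by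
  induction n with
  | zero => simp
  | succ n ih =>
    have h1 : a ^ (n + 1 + 1) - c ^ (n + 1 + 1) =
        a * (a ^ (n + 1) - c ^ (n + 1)) + (a - c) * c ^ (n + 1) := by ring
    have h2 : a * (a ^ (n + 1) - c ^ (n + 1)) ≤ a * ((n + 1) * (a - c) * a ^ n) :=
      mul_le_mul_of_nonneg_left ih (hc.trans hca)
    have h3 : (a - c) * c ^ (n + 1) ≤ (a - c) * a ^ (n + 1) :=
      mul_le_mul_of_nonneg_left (pow_le_pow_left₀ hc hca _) (by linarith)
    have h4 : a * ((n + 1) * (a - c) * a ^ n) + (a - c) * a ^ (n + 1) =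
        ((n : ℝ) + 1 + 1) * (a - c) * a ^ (n + 1) := by ring
    push_cast
    linarith

theorem le15_log (C : ℝ) (hC : 0 < C) (k : ℕ) :
    Tendsto (fun m : ℕ => Real.log (C * ((m : ℝ) + k + 1)) / m) atTop (𝓝 0) := by
  have t1 : Tendsto (fun m : ℕ => C * ((m : ℝ) + k + 1)) atTop atTop := by
    refine Tendsto.const_mul_atTop hC ?_
    exact tendsto_atTop_add_const_right _ _ (tendsto_atTop_add_const_right _ _
      tendsto_natCast_atTop_atTop)
  have t2 : Tendsto (fun y : ℝ => Real.log y / y) atTop (𝓝 0) :=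
    Real.isLittleO_log_id_atTop.tendsto_div_nhds_zero
  have t3 : Tendsto (fun m : ℕ => C + C * (k + 1) / (m : ℝ)) atTop (𝓝 (C + 0)) :=
    tendsto_const_nhds.add (tendsto_const_div_atTop_nhds_zero_nat _)
  have t4 := (t2.comp t1).mul t3
  rw [zero_mul] at t4
  refine t4.congr' ?_
  filter_upwards [eventually_gt_atTop 0] with m hm
  have hm' : (m : ℝ) ≠ 0 := by exact_mod_cast hm.ne'
  have hy : C * ((m : ℝ) + k + 1) ≠ 0 := by positivity
  simp only [Function.comp]
  field_simp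
  ring

theorem le15_tail (d : ℕ) (hd : 0 < d) (C : ℝ) (hC : 0 < C) (k : ℕ) :
    ∀ ε : ℝ, 0 < ε → ∀ᶠ m : ℕ in atTop,
      Real.log (C * ((m : ℝ) + k + 1)) * (((m : ℝ) + k) ^ d - ((m : ℝ) - k) ^ d) ≤
        ε * (m : ℝ) ^ d := by
  intro ε hε
  obtain ⟨n, rfl⟩ : ∃ n, d = n + 1 := ⟨d - 1, by omega⟩
  have h1 := (le15_log C hC k).mul_const (((n : ℝ) + 1) * (2 * k) * 2 ^ n)
  rw [zero_mul] at h1
  have h2 := h1.eventually (gt_mem_nhds hε)
  have t1 : Tendsto (fun m : ℕ => C * ((m : ℝ) + k + 1)) atTop atTop := by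
    refine Tendsto.const_mul_atTop hC ?_
    exact tendsto_atTop_add_const_right _ _ (tendsto_atTop_add_const_right _ _
      tendsto_natCast_atTop_atTop)
  filter_upwards [h2, eventually_gt_atTop 0, eventually_ge_atTop k, t1.eventually_ge_atTop 1] with
    m hm hm0 hmk hm1
  have hm0' : (0 : ℝ) < m := by exact_mod_cast hm0
  have hmk' : (k : ℝ) ≤ m := by exact_mod_cast hmk
  have hk0 : (0 : ℝ) ≤ k := Nat.cast_nonneg k
  have hlog : 0 ≤ Real.log (C * ((m : ℝ) + k + 1)) := Real.log_nonneg hm1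
  have e1 := le15_pow n ((m : ℝ) + k) ((m : ℝ) - k) (by linarith) (by linarith)
  have e2 : ((m : ℝ) + k) ^ n ≤ (2 * m) ^ n := pow_le_pow_left₀ (by linarith) (by linarith) _
  have e3 : ((m : ℝ) + k) ^ (n + 1) - ((m : ℝ) - k) ^ (n + 1) ≤
      ((n : ℝ) + 1) * (2 * k) * 2 ^ n * (m : ℝ) ^ n := by
    refine e1.trans ?_
    have : ((n : ℝ) + 1) * ((m : ℝ) + k - ((m : ℝ) - k)) * ((m : ℝ) + k) ^ n ≤
        ((n : ℝ) + 1) * ((m : ℝ) + k - ((m : ℝ) - k)) * (2 * m) ^ n := by
      refine mul_le_mul_of_nonneg_left e2 ?_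
      have : (m : ℝ) + k - ((m : ℝ) - k) = 2 * k := by ring
      rw [this]; positivity
    refine this.trans (le_of_eq ?_)
    rw [mul_pow]; ring
  calc Real.log (C * ((m : ℝ) + k + 1)) * (((m : ℝ) + k) ^ (n + 1) - ((m : ℝ) - k) ^ (n + 1))
      ≤ Real.log (C * ((m : ℝ) + k + 1)) * (((n : ℝ) + 1) * (2 * k) * 2 ^ n * (m : ℝ) ^ n) :=
        mul_le_mul_of_nonneg_left e3 hlog
    _ = (Real.log (C * ((m : ℝ) + k + 1)) / m * (((n : ℝ) + 1) * (2 * k) * 2 ^ n)) *
        (m : ℝ) ^ (n + 1) := by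
        field_simp
        ring
    _ ≤ ε * (m : ℝ) ^ (n + 1) := mul_le_mul_of_nonneg_right hm.le (by positivity)

/-- The elementary estimate behind the limit `N → ∞`. -/
theorem le15_final (δ A β ζ ε L N R G M e : ℝ) (hδ : 0 < δ) (hδ1 : δ ≤ 1) (hN : 0 < N)
    (hR0 : 0 ≤ R) (hR : R ≤ e * N) (hG : G * M = N - R) (hL : 0 ≤ L)
    (hβ : β ≤ ζ + ε / 2)
    (he : e + e * |A| + e * L + e * |e| + e * |β| + e ≤ ε / 2) :
    G * M * (δ * (A - L) + e + β) + R * Real.log 2 ≤
      -(δ * (N * L)) + (δ * A + ζ + ε) * N := by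
  have he0 : 0 ≤ e := by
    by_contra hc
    push Not at hc
    have : e * N < 0 := mul_neg_of_neg_of_pos hc hN
    linarith
  have hlog2 : Real.log 2 ≤ 1 := by
    have := Real.log_two_lt_d9
    linarith
  rw [hG]
  -- the correction terms
  have h1 : -(R * (δ * (A - L) + e + β)) ≤ R * (|A| + L + |e| + |β|) := by
    have : -(δ * (A - L) + e + β) ≤ |A| + L + |e| + |β| := by
      have a1 := neg_abs_le A
      have a2 := neg_abs_le e
      have a3 := neg_abs_le β
      have a4 : -(δ * A) ≤ |A| := by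
        have b1 : -(δ * A) ≤ |δ * A| := neg_le_abs _
        rw [abs_mul, abs_of_pos hδ] at b1
        have b2 : δ * |A| ≤ 1 * |A| := mul_le_mul_of_nonneg_right hδ1 (abs_nonneg _)
        linarith
      have a5 : δ * L ≤ L := by
        have := mul_le_mul_of_nonneg_right hδ1 hL
        linarith
      linarith
    have := mul_le_mul_of_nonneg_left this hR0
    linarith
  have h2 : R * (|A| + L + |e| + |β|) ≤ e * N * (|A| + L + |e| + |β|) :=
    mul_le_mul_of_nonneg_right hR (by positivity)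
  have h3 : R * Real.log 2 ≤ e * N := by
    have : R * Real.log 2 ≤ R * 1 := mul_le_mul_of_nonneg_left hlog2 hR0
    linarith
  have h4 : (e + e * |A| + e * L + e * |e| + e * |β| + e) * N ≤ ε / 2 * N :=
    mul_le_mul_of_nonneg_right he hN.le
  have h5 : N * β ≤ N * (ζ + ε / 2) := mul_le_mul_of_nonneg_left hβ hN.le
  nlinarith

theorem main (d : ℕ) (hd : 0 < d) (b : Module.Basis (Fin d) ℝ (EV d)) :
    (∃ Z, IsZeta b Z) ∧ ∀ Z, IsZeta b Z → ∀ ε : ℝ, 0 < ε → ∀ᶠ N : ℕ in atTop,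
      minLog d N ≤ Vlog d * (N : ℝ) ^ 2 - 1 / d * (N * Real.log N) +
        (1 / d * Real.log (sphArea d / covol b) + (deriv Z 0).re + ε) * N := by
  refine ⟨exists_zeta b hd, fun Z hZ ε hε => ?_⟩
  have hsumC := hasSum_Gam b d hd (by omega) Z hZ
  have hsum : HasSum (fun x : Fin d → ℤ => Gam b d x) (deriv Z 0).re := by
    have := Complex.hasSum_re hsumC
    simpa using this
  have hBW := tendsto_BW b d hsum.summable
  rw [hsum.tsum_eq] at hBW
  obtain ⟨c, C, hc, hC, hlin⟩ := lin_bounds b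
  -- choice of m
  have hev1 : ∀ᶠ m : ℕ in atTop, BW b d m / (m : ℝ) ^ d < (deriv Z 0).re + ε / 4 :=
    hBW.eventually (gt_mem_nhds (by linarith))
  have hev2 := le15_tail d hd C hC d (ε / 4) (by linarith)
  have t1 : Tendsto (fun m : ℕ => C * ((m : ℝ) + d + 1)) atTop atTop := by
    refine Tendsto.const_mul_atTop hC ?_
    exact tendsto_atTop_add_const_right _ _ (tendsto_atTop_add_const_right _ _
      tendsto_natCast_atTop_atTop)
  obtain ⟨m, hm1, hm2, hm3, hm4, hm5⟩ := (hev1.and (hev2.and ((eventually_gt_atTop 0).and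
    ((eventually_ge_atTop d).and (t1.eventually_ge_atTop 1))))).exists
  have hm0 : (0 : ℝ) < m := by exact_mod_cast hm3
  have hmd : (0 : ℝ) < (m : ℝ) ^ d := by positivity
  set D : ℝ := C * ((m : ℝ) + d + 1) with hD
  have hDpos : 0 < D := lt_of_lt_of_le one_pos hm5
  have hlogD : 0 ≤ Real.log D := Real.log_nonneg hm5
  set β : ℝ := (BW b d m + Real.log D * ((m : ℝ) ^ d - ∫ p : Fin d → ℝ, Win d m p ^ 2)) /
    (m : ℝ) ^ d with hβ
  have hβle : β ≤ (deriv Z 0).re + ε / 2 := by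
    rw [hβ, add_div]
    have e1 : Real.log D * ((m : ℝ) ^ d - ∫ p : Fin d → ℝ, Win d m p ^ 2) ≤
        ε / 4 * (m : ℝ) ^ d :=
      (mul_le_mul_of_nonneg_left (integral_Win_sq d m hm4) hlogD).trans hm2
    have e2 : Real.log D * ((m : ℝ) ^ d - ∫ p : Fin d → ℝ, Win d m p ^ 2) / (m : ℝ) ^ d ≤
        ε / 4 := by
      rw [div_le_iff₀ hmd]; exact e1
    linarith
  obtain ⟨err, herr, hcov⟩ := cover b d m hd hm3
  -- the error terms tend to zero
  set A : ℝ := Real.log (sphArea d / covol b) with hA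
  have herr0 : Tendsto err atTop (𝓝 0) := by
    have h1 : Tendsto (fun N : ℕ => |err N * Real.log N|) atTop (𝓝 0) := by
      simpa using herr.abs
    rw [tendsto_zero_iff_abs_tendsto_zero]
    refine squeeze_zero' (Filter.Eventually.of_forall fun N => abs_nonneg _) ?_ h1
    have h2 : Tendsto (fun N : ℕ => Real.log (N : ℝ)) atTop atTop :=
      Real.tendsto_log_atTop.comp tendsto_natCast_atTop_atTop
    filter_upwards [h2.eventually_ge_atTop 1] with N hN
    simp only [Function.comp]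
    rw [abs_mul]
    have : 1 ≤ |Real.log (N : ℝ)| := hN.trans (le_abs_self _)
    nlinarith [abs_nonneg (err N)]
  have herrsum : Tendsto (fun N : ℕ => err N + err N * |A| + err N * Real.log N +
      err N * |err N| + err N * |β| + err N) atTop (𝓝 0) := by
    have := ((((herr0.add (herr0.mul_const |A|)).add herr).add (herr0.mul herr0.abs)).add
      (herr0.mul_const |β|)).add herr0
    simpa using this
  have hev3 := herrsum.eventually (ge_mem_nhds (show (0 : ℝ) < ε / 2 by linarith))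
  filter_upwards [hcov, hev3, eventually_gt_atTop 0] with N hN hNe hN0
  obtain ⟨G, a, ρ, l, NR, hNG, hNR, hρ, hdens, hl, hR0⟩ := hN
  have hN0' : (0 : ℝ) < N := by exact_mod_cast hN0
  have hcore := core b d m hd hm3 N G NR a ρ l hNG hρ hdens hl
    (1 / d * (Real.log (sphArea d / covol b) - Real.log N) + err N) D hR0 hDpos (by
      intro n n'
      refine (hlin _).2.trans ?_
      rw [hD]
      refine mul_le_mul_of_nonneg_left ?_ hC.le
      refine (pi_norm_le_iff_of_nonneg (by positivity)).2 fun i => ?_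
      rw [Real.norm_eq_abs, abs_le]
      have h1 : ((n i : ℕ) : ℝ) ≤ m + d + 1 := by
        have := (n i).isLt
        exact_mod_cast this.le
      have h2 : ((n' i : ℕ) : ℝ) ≤ m + d + 1 := by
        have := (n' i).isLt
        exact_mod_cast this.le
      have h3 : (0 : ℝ) ≤ ((n i : ℕ) : ℝ) := Nat.cast_nonneg _
      have h4 : (0 : ℝ) ≤ ((n' i : ℕ) : ℝ) := Nat.cast_nonneg _
      constructor <;> linarith)
  have hlogN : 0 ≤ Real.log (N : ℝ) := Real.log_natCast_nonneg N
  have hd1 : (1 : ℝ) / d ≤ 1 := by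
    rw [div_le_one (by exact_mod_cast hd)]
    exact_mod_cast hd
  have hGm : (G : ℝ) * (m : ℝ) ^ d = N - NR := by
    have : (N : ℝ) = G * (m : ℝ) ^ d + NR := by exact_mod_cast hNG
    linarith
  have hfin := le15_final (1 / d) A β (deriv Z 0).re ε (Real.log N) N NR G ((m : ℝ) ^ d) (err N)
    (by positivity) hd1 hN0' (Nat.cast_nonneg _) hNR hGm hlogN hβle hNe
  have hmid : (G : ℝ) * ((m : ℝ) ^ d * (1 / d * (Real.log (sphArea d / covol b) - Real.log N) +
      err N) + BW b d m + Real.log D * ((m : ℝ) ^ d - ∫ p : Fin d → ℝ, Win d m p ^ 2)) =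
      G * (m : ℝ) ^ d * (1 / d * (A - Real.log N) + err N + β) := by
    rw [hβ, hA]
    field_simp
    ring
  rw [hmid] at hcore
  calc minLog d N ≤ _ := hcore
    _ = (N : ℝ) ^ 2 * Vlog d + (G * (m : ℝ) ^ d * (1 / d * (A - Real.log N) + err N + β) +
        NR * Real.log 2) := by ring
    _ ≤ (N : ℝ) ^ 2 * Vlog d + (-(1 / d * (N * Real.log N)) +
        (1 / d * A + (deriv Z 0).re + ε) * N) := by linarith
    _ = _ := by ring

end LE15

end Pool.Agent.Helper78.LE
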