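import Pool.Agent.Helper78.LE.Defs

/-!
Project LE, module LE6: B-splines.
-/

set_option autoImplicit false

open MeasureTheory Set Filter Topology

namespace Pool.Agent.Helper78.LE

/-- a bounded measurable function vanishing outside `[0,K)` is integrable -/
theorem le6_integrable {f : ℝ → ℝ} {K B : ℝ} (hm : Measurable f) (hB : ∀ x, |f x| ≤ B)
    (h0 : ∀ x, (x < 0 ∨ K ≤ x) → f x = 0) : Integrable f := by
  have h1 : Integrable (Set.indicator (Set.Icc 0 K) (fun _ => B) : ℝ → ℝ) := by
    rw [integrable_indicator_iff measurableSet_Icc]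
    exact integrableOn_const (by simp)
  refine h1.mono' hm.aestronglyMeasurable (Filter.Eventually.of_forall fun x => ?_)
  by_cases hx : x ∈ Set.Icc 0 K
  · rw [Set.indicator_of_mem hx]
    exact hB x
  · rw [Set.indicator_of_notMem hx]
    have : f x = 0 := by
      apply h0
      by_contra h
      push Not at h
      exact hx ⟨h.1, h.2.le⟩
    simp [this]

theorem le6_basic (k : ℕ) : Measurable (spl k) ∧ (∀ x, 0 ≤ spl k x) ∧ (∀ x, spl k x ≤ 1) ∧
    (∀ x : ℝ, (x < 0 ∨ (k : ℝ) + 1 ≤ x) → spl k x = 0) := by
  induction k with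
  | zero =>
    refine ⟨?_, ?_, ?_, ?_⟩
    · unfold spl
      exact measurable_const.indicator measurableSet_Ico
    · intro x
      unfold spl
      exact Set.indicator_nonneg (fun _ _ => zero_le_one) x
    · intro x
      unfold spl
      exact Set.indicator_le_self' (fun _ _ => zero_le_one) x
    · intro x hx
      unfold spl
      apply Set.indicator_of_notMem
      intro h
      rcases hx with hx | hx
      · exact absurd h.1 (not_le.mpr hx)
      · simp at hx
        exact absurd h.2 (not_lt.mpr hx)
  | succ k ih =>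
    obtain ⟨hm, h0, h1, hz⟩ := ih
    have hI : Integrable (spl k) := le6_integrable (K := k + 1) (B := 1) hm
      (fun x => by rw [abs_of_nonneg (h0 x)]; exact h1 x) hz
    refine ⟨?_, ?_, ?_, ?_⟩
    · have hc : Continuous (spl (k + 1)) := by
        have h2 : spl (k + 1) = fun x => (∫ t in (0 : ℝ)..x, spl k t) - ∫ t in (0 : ℝ)..(x - 1), spl k t := by
          funext x
          show (∫ t in (x - 1)..x, spl k t) = _
          rw [intervalIntegral.integral_interval_sub_left hI.intervalIntegrable hI.intervalIntegrable]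
        rw [h2]
        have h3 : Continuous fun x => ∫ t in (0 : ℝ)..x, spl k t :=
          intervalIntegral.continuous_primitive (fun a b => hI.intervalIntegrable) 0
        exact h3.sub (h3.comp (continuous_id.sub continuous_const))
      exact hc.measurable
    · intro x
      show 0 ≤ ∫ t in (x - 1)..x, spl k t
      exact intervalIntegral.integral_nonneg (by linarith) (fun u _ => h0 u)
    · intro x
      show (∫ t in (x - 1)..x, spl k t) ≤ 1
      have := intervalIntegral.norm_integral_le_of_norm_le_const (a := x - 1) (b := x) (f := spl k) (C := 1)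
        (fun t _ => by rw [Real.norm_eq_abs, abs_of_nonneg (h0 t)]; exact h1 t)
      simp at this
      exact (le_abs_self _).trans this
    · intro x hx
      show (∫ t in (x - 1)..x, spl k t) = 0
      have : ∀ t ∈ Set.uIcc (x - 1) x, spl k t = (fun _ => (0 : ℝ)) t := by
        intro t ht
        rw [Set.uIcc_of_le (by linarith)] at ht
        apply hz
        rcases hx with hx | hx
        · left
          exact lt_of_le_of_lt ht.2 hx
        · right
          push_cast at hx
          linarith [ht.1]
      rw [intervalIntegral.integral_congr this]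
      simp

section LE6
variable (k : ℕ)

theorem spl_measurable : Measurable (spl k) := (le6_basic k).1
theorem spl_nonneg (x : ℝ) : 0 ≤ spl k x := (le6_basic k).2.1 x
theorem spl_le_one (x : ℝ) : spl k x ≤ 1 := (le6_basic k).2.2.1 x
theorem spl_eq_zero (x : ℝ) (h : x < 0 ∨ (k : ℝ) + 1 ≤ x) : spl k x = 0 := (le6_basic k).2.2.2 x h
theorem spl_integrable : Integrable (spl k) :=
  le6_integrable (K := k + 1) (B := 1) (spl_measurable k)
    (fun x => by rw [abs_of_nonneg (spl_nonneg k x)]; exact spl_le_one k x) (spl_eq_zero k)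

theorem spl_succ_eq (x : ℝ) : spl (k + 1) x = ∫ r in (0 : ℝ)..1, spl k (x - r) := by
  rw [intervalIntegral.integral_comp_sub_left (fun t => spl k t)]
  simp [spl]

/-- summation over a finite set of integers of the translates of a compactly supported
function -/
theorem le6_finset (K u : ℝ) : ∃ s : Finset ℤ, ∀ n : ℤ, n ∉ s → ∀ r ∈ Set.Icc (0 : ℝ) 1,
    ((n : ℝ) + u - r < 0 ∨ K ≤ (n : ℝ) + u - r) := by
  refine ⟨Finset.Icc ⌊-u⌋ ⌈K + 1 - u⌉, fun n hn r hr => ?_⟩
  rw [Finset.mem_Icc, not_and_or, not_le, not_le] at hn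
  rcases hn with hn | hn
  · left
    have h1 : (n : ℝ) + 1 ≤ (⌊-u⌋ : ℝ) := by exact_mod_cast hn
    have h2 := Int.floor_le (-u)
    linarith [hr.1]
  · right
    have h1 : (⌈K + 1 - u⌉ : ℝ) < n := by exact_mod_cast hn
    have h2 := Int.le_ceil (K + 1 - u)
    linarith [hr.2]

/-- exchange of the sum over the integers and the integral over `[0,1]` -/
theorem le6_exchange {g w : ℝ → ℝ} {K C : ℝ} (hg : ∀ x, (x < 0 ∨ K ≤ x) → g x = 0)
    (hgi : Measurable g) {B : ℝ} (hB : ∀ x, |g x| ≤ B) (hw : Continuous w)
    (hs : ∀ u : ℝ, HasSum (fun n : ℤ => g (n + u)) C) (u : ℝ) :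
    HasSum (fun n : ℤ => ∫ r in (0 : ℝ)..1, w r * g (n + u - r)) ((∫ r in (0 : ℝ)..1, w r) * C) := by
  obtain ⟨s, hsn⟩ := le6_finset K u
  have hint : ∀ n : ℤ, IntervalIntegrable (fun r => w r * g (n + u - r)) volume 0 1 := by
    intro n
    have h1 : Integrable g := le6_integrable hgi hB hg
    have h2 : IntervalIntegrable (fun r => g (n + u - r)) volume 0 1 :=
      (h1.comp_sub_left ((n : ℝ) + u)).intervalIntegrable
    exact h2.continuousOn_mul hw.continuousOn
  have h1 : (∫ r in (0 : ℝ)..1, w r) * C = ∑ n ∈ s, ∫ r in (0 : ℝ)..1, w r * g (n + u - r) := by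
    rw [← intervalIntegral.integral_finsetSum (fun n _ => hint n), ← intervalIntegral.integral_mul_const]
    apply intervalIntegral.integral_congr
    intro r hr
    rw [Set.uIcc_of_le zero_le_one] at hr
    simp only
    rw [← Finset.mul_sum]
    congr 1
    have h2 : HasSum (fun n : ℤ => g (n + u - r)) (∑ n ∈ s, g (n + u - r)) :=
      hasSum_sum_of_ne_finset_zero (fun n hn => hg _ (hsn n hn r hr))
    have h3 : HasSum (fun n : ℤ => g (n + u - r)) C := by
      have := hs (u - r)
      simpa only [add_sub_assoc] using this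
    exact h3.unique h2
  rw [h1]
  apply hasSum_sum_of_ne_finset_zero
  intro n hn
  have : ∀ r ∈ Set.uIcc (0 : ℝ) 1, w r * g (n + u - r) = (fun _ => (0 : ℝ)) r := by
    intro r hr
    rw [Set.uIcc_of_le zero_le_one] at hr
    simp only
    rw [hg _ (hsn n hn r hr), mul_zero]
  rw [intervalIntegral.integral_congr this]
  simp

/-- the sum of the unit integrals is the integral -/
theorem le6_total {g : ℝ → ℝ} (hg : Integrable g) (u : ℝ) :
    HasSum (fun n : ℤ => ∫ r in (0 : ℝ)..1, g (n + u - r)) (∫ x, g x) := by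
  have h := hg.hasSum_intervalIntegral (u - 1)
  have h1 : (fun n : ℤ => ∫ r in (0 : ℝ)..1, g (n + u - r)) =
      fun n : ℤ => ∫ x in (u - 1 + (n : ℝ))..(u - 1 + n + 1), g x := by
    funext n
    rw [intervalIntegral.integral_comp_sub_left (fun t => g t)]
    congr 1 <;> ring
  rw [h1]
  exact h

/-- if the periodisation is constant, the constant is the integral -/
theorem le6_const {g : ℝ → ℝ} {K C : ℝ} (hg : ∀ x, (x < 0 ∨ K ≤ x) → g x = 0)
    (hgi : Measurable g) {B : ℝ} (hB : ∀ x, |g x| ≤ B)
    (hs : ∀ u : ℝ, HasSum (fun n : ℤ => g (n + u)) C) : C = ∫ x, g x := by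
  have h1 := le6_exchange (w := fun _ => 1) hg hgi hB continuous_const hs 0
  have h2 := le6_total (le6_integrable hgi hB hg) 0
  simp only [one_mul] at h1
  have h3 := h1.unique h2
  simpa using h3

/-- the functions `spl k x * x^a` -/
theorem le6_mom_meas (a : ℕ) : Measurable (fun x => spl k x * x ^ a) :=
  (spl_measurable k).mul (measurable_id.pow_const a)

theorem le6_mom_zero (a : ℕ) (x : ℝ) (h : x < 0 ∨ (k : ℝ) + 1 ≤ x) : spl k x * x ^ a = 0 := by
  rw [spl_eq_zero k x h, zero_mul]

theorem le6_mom_bdd (a : ℕ) (x : ℝ) : |spl k x * x ^ a| ≤ ((k : ℝ) + 1) ^ a := by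
  by_cases h : x < 0 ∨ (k : ℝ) + 1 ≤ x
  · rw [le6_mom_zero k a x h, abs_zero]
    positivity
  · push Not at h
    rw [abs_mul, abs_of_nonneg (spl_nonneg k x), abs_pow, abs_of_nonneg h.1]
    calc spl k x * x ^ a ≤ 1 * x ^ a := by
          apply mul_le_mul_of_nonneg_right (spl_le_one k x) (pow_nonneg h.1 a)
      _ = x ^ a := one_mul _
      _ ≤ _ := pow_le_pow_left₀ h.1 h.2.le a

theorem le6_mom_integrable (a : ℕ) : Integrable (fun x => spl k x * x ^ a) :=
  le6_integrable (le6_mom_meas k a) (le6_mom_bdd k a) (le6_mom_zero k a)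

theorem le6_base (u : ℝ) : HasSum (fun n : ℤ => spl 0 (n + u)) 1 := by
  have h : ∀ n : ℤ, n ≠ -⌊u⌋ → spl 0 (n + u) = 0 := by
    intro n hn
    unfold spl
    apply Set.indicator_of_notMem
    intro h
    apply hn
    have h1 : ⌊(n : ℝ) + u⌋ = 0 := by
      rw [Int.floor_eq_zero_iff]
      exact h
    rw [Int.floor_intCast_add] at h1
    omega
  have h2 := hasSum_single (f := fun n : ℤ => spl 0 ((n : ℝ) + u)) (-⌊u⌋) (fun n hn => h n hn)
  convert h2 using 1
  unfold spl
  rw [Set.indicator_of_mem]
  have h3 := Int.floor_le u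
  have h4 := Int.lt_floor_add_one u
  push_cast
  constructor
  · linarith
  · linarith

/-- Strang-Fix -/
theorem hasSum_spl_moment (a : ℕ) (ha : a ≤ k) (u : ℝ) :
    HasSum (fun n : ℤ => spl k (n + u) * ((n : ℝ) + u) ^ a) (∫ s, spl k s * s ^ a) := by
  induction k generalizing a u with
  | zero =>
    obtain rfl : a = 0 := by omega
    have h1 : ∀ u : ℝ, HasSum (fun n : ℤ => (fun x : ℝ => spl 0 x * x ^ 0) (n + u)) 1 := by
      intro u
      simpa using le6_base u
    have h2 := le6_const (le6_mom_zero 0 0) (le6_mom_meas 0 0) (le6_mom_bdd 0 0) h1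
    rw [← h2]
    exact h1 u
  | succ k ih =>
    have key : ∃ C : ℝ, ∀ u : ℝ,
        HasSum (fun n : ℤ => (fun x : ℝ => spl (k + 1) x * x ^ a) (n + u)) C := by
      refine ⟨∑ c ∈ Finset.range (a + 1), (if c = a then ∫ x, spl k x * x ^ a else
        (a.choose c : ℝ) * ((∫ r in (0 : ℝ)..1, r ^ (a - c)) * ∫ x, spl k x * x ^ c)), fun u => ?_⟩
      have h1 : ∀ n : ℤ, spl (k + 1) (n + u) * ((n : ℝ) + u) ^ a =
          ∑ c ∈ Finset.range (a + 1), (a.choose c : ℝ) *
            ∫ r in (0 : ℝ)..1, r ^ (a - c) * (fun x : ℝ => spl k x * x ^ c) (n + u - r) := by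
        intro n
        have hint : ∀ c : ℕ, IntervalIntegrable
            (fun r => r ^ (a - c) * (fun x : ℝ => spl k x * x ^ c) (n + u - r)) volume 0 1 := by
          intro c
          have h2 : IntervalIntegrable (fun r => (fun x : ℝ => spl k x * x ^ c) (n + u - r)) volume 0 1 :=
            ((le6_mom_integrable k c).comp_sub_left ((n : ℝ) + u)).intervalIntegrable
          exact h2.continuousOn_mul (continuous_pow (a - c)).continuousOn
        rw [spl_succ_eq, ← intervalIntegral.integral_mul_const]
        have h3 : ∀ c ∈ Finset.range (a + 1), (a.choose c : ℝ) *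
            (∫ r in (0 : ℝ)..1, r ^ (a - c) * (fun x : ℝ => spl k x * x ^ c) (n + u - r)) =
            ∫ r in (0 : ℝ)..1, (a.choose c : ℝ) *
              (r ^ (a - c) * (fun x : ℝ => spl k x * x ^ c) (n + u - r)) := by
          intro c _
          rw [intervalIntegral.integral_const_mul]
        rw [Finset.sum_congr rfl h3, ← intervalIntegral.integral_finsetSum
          (fun c _ => (hint c).const_mul _)]
        apply intervalIntegral.integral_congr
        intro r _
        simp only
        have h4 : ((n : ℝ) + u) ^ a = (((n : ℝ) + u - r) + r) ^ a := by ring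
        rw [h4, add_pow, Finset.mul_sum]
        apply Finset.sum_congr rfl
        intro c _
        ring
      simp only [h1]
      apply hasSum_sum
      intro c hc
      rw [Finset.mem_range] at hc
      by_cases hca : c = a
      · subst hca
        simp only [if_true, Nat.choose_self, Nat.cast_one, one_mul, Nat.sub_self, pow_zero]
        exact le6_total (le6_mom_integrable k c) u
      · simp only [if_neg hca]
        apply HasSum.mul_left
        exact le6_exchange (le6_mom_zero k c) (le6_mom_meas k c) (le6_mom_bdd k c)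
          (continuous_pow (a - c)) (fun v => ih c (by omega) v) u
    obtain ⟨C, hC⟩ := key
    have h2 := le6_const (le6_mom_zero (k + 1) a) (le6_mom_meas (k + 1) a)
      (le6_mom_bdd (k + 1) a) hC
    rw [← h2]
    exact hC u

theorem integral_spl : ∫ x, spl k x = 1 := by
  induction k with
  | zero =>
    have h1 : ∀ u : ℝ, HasSum (fun n : ℤ => (fun x : ℝ => spl 0 x) (n + u)) 1 := le6_base
    exact (le6_const (K := (0 : ℕ) + 1) (B := 1) (spl_eq_zero 0) (spl_measurable 0)
      (fun x => by rw [abs_of_nonneg (spl_nonneg 0 x)]; exact spl_le_one 0 x) h1).symm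
  | succ k ih =>
    have h1 : ∀ u : ℝ, HasSum (fun n : ℤ => (fun x : ℝ => spl (k + 1) x) (n + u)) 1 := by
      intro u
      have h2 := le6_total (spl_integrable k) u
      rw [ih] at h2
      simpa only [spl_succ_eq] using h2
    exact (le6_const (K := ((k + 1 : ℕ) : ℝ) + 1) (B := 1) (spl_eq_zero (k + 1)) (spl_measurable (k + 1))
      (fun x => by rw [abs_of_nonneg (spl_nonneg (k + 1) x)]; exact spl_le_one (k + 1) x) h1).symm

theorem hasSum_spl (u : ℝ) : HasSum (fun n : ℤ => spl k (n + u)) 1 := by
  have h := hasSum_spl_moment k 0 (Nat.zero_le k) u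
  simpa [integral_spl] using h

end LE6

end Pool.Agent.Helper78.LE
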