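import Pool.Agent.Helper78.LE.Defs

/-!
Project LE, module LE8: hybrid lemma (replacing the factors of a product measure one by one).
-/

set_option autoImplicit false

open MeasureTheory Set Filter Topology

namespace Pool.Agent.Helper78.LE

section LE8

/-- a product measure lives on `K^n` if all factors live on `K` -/
theorem ae_pi_mem {n : ℕ} (m : Fin n → Measure ℝ) [∀ i, IsProbabilityMeasure (m i)] (K : Set ℝ)
    (hm : ∀ i, m i Kᶜ = 0) :
    ∀ᵐ y ∂(Measure.pi m), y ∈ Set.pi Set.univ (fun _ : Fin n => K) := by
  have h : ∀ i, ∀ᵐ y ∂(Measure.pi m), y i ∈ K := by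
    intro i
    have h1 : ∀ᵐ t ∂(m i), t ∈ K := by
      rw [ae_iff]
      exact hm i
    exact (Measure.tendsto_eval_ae_ae (μ := m) (i := i)).eventually h1
  filter_upwards [ae_all_iff.2 h] with y hy i _
  exact hy i

/-- replacing one factor -/
theorem hybrid_step {n : ℕ} (m m' : Fin n → Measure ℝ) [∀ i, IsProbabilityMeasure (m i)]
    [∀ i, IsProbabilityMeasure (m' i)] (i : Fin n) (hmm : ∀ j, j ≠ i → m j = m' j)
    (K : Set ℝ) (hm : ∀ i, m i Kᶜ = 0) (hm' : ∀ i, m' i Kᶜ = 0)
    (f : (Fin n → ℝ) → ℂ) (hf : Measurable f) (C : ℝ)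
    (hC : ∀ y ∈ Set.pi Set.univ (fun _ : Fin n => K), ‖f y‖ ≤ C) (ε : ℝ)
    (h : ∀ y ∈ Set.pi Set.univ (fun _ : Fin n => K),
      ‖(∫ t, f (Function.update y i t) ∂(m i)) - ∫ t, f (Function.update y i t) ∂(m' i)‖ ≤ ε) :
    ‖(∫ y, f y ∂(Measure.pi m)) - ∫ y, f y ∂(Measure.pi m')‖ ≤ ε := by
  obtain ⟨n, rfl⟩ : ∃ k, n = k + 1 := by
    cases n with
    | zero => exact i.elim0
    | succ k => exact ⟨k, rfl⟩
  -- the common remaining factors
  have hrest : (fun j => m (i.succAbove j)) = fun j => m' (i.succAbove j) := by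
    funext j
    exact hmm _ (Fin.succAbove_ne i j)
  have key : ∀ (p : Fin (n + 1) → Measure ℝ) [∀ i, IsProbabilityMeasure (p i)],
      (∀ i, p i Kᶜ = 0) →
      Integrable (fun w => ∫ t, f (i.insertNth t w) ∂(p i))
        (Measure.pi fun j => p (i.succAbove j)) ∧
      ∫ y, f y ∂(Measure.pi p) =
        ∫ w, ∫ t, f (i.insertNth t w) ∂(p i) ∂(Measure.pi fun j => p (i.succAbove j)) := by
    intro p _ hp
    have hmp := measurePreserving_piFinSuccAbove p i
    have hint : Integrable f (Measure.pi p) := by
      refine Integrable.mono' (integrable_const C) hf.aestronglyMeasurable ?_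
      filter_upwards [ae_pi_mem p K hp] with y hy
      exact hC y hy
    have hint2 : Integrable (fun z : ℝ × (Fin n → ℝ) => f (i.insertNth z.1 z.2))
        ((p i).prod (Measure.pi fun j => p (i.succAbove j))) := by
      have h1 := (hmp.symm (MeasurableEquiv.piFinSuccAbove (fun _ => ℝ) i)).integrable_comp_of_integrable hint
      exact h1
    refine ⟨hint2.integral_prod_right, ?_⟩
    have h2 := (hmp.symm (MeasurableEquiv.piFinSuccAbove (fun _ => ℝ) i)).integral_comp'
      (f := (MeasurableEquiv.piFinSuccAbove (fun _ => ℝ) i).symm) f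
    rw [← h2]
    exact integral_prod_symm _ hint2
  obtain ⟨hi1, he1⟩ := key m hm
  obtain ⟨hi2, he2⟩ := key m' hm'
  rw [he1, he2]
  rw [← hrest] at hi2 ⊢
  rw [← integral_sub hi1 hi2]
  have hae := ae_pi_mem (fun j => m (i.succAbove j)) K (fun j => hm _)
  obtain ⟨t0, ht0⟩ : K.Nonempty := by
    by_contra hne
    rw [Set.not_nonempty_iff_eq_empty] at hne
    have := hm i
    rw [hne, Set.compl_empty, measure_univ] at this
    exact one_ne_zero this
  calc ‖∫ w, ((∫ t, f (i.insertNth t w) ∂(m i)) - ∫ t, f (i.insertNth t w) ∂(m' i))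
        ∂(Measure.pi fun j => m (i.succAbove j))‖ ≤
      ε * (Measure.pi fun j => m (i.succAbove j)).real Set.univ := by
        refine norm_integral_le_of_norm_le_const ?_
        filter_upwards [hae] with w hw
        have h3 := h (i.insertNth t0 w) (by
          intro j _
          refine Fin.succAboveCases i ?_ (fun j => ?_) j
          · rw [Fin.insertNth_apply_same]
            exact ht0
          · rw [Fin.insertNth_apply_succAbove]
            exact hw j trivial)
        simpa only [Fin.update_insertNth] using h3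
    _ = ε := by simp

theorem hybrid {n : ℕ} (μ ν : Measure ℝ) [IsProbabilityMeasure μ] [IsProbabilityMeasure ν]
    (K : Set ℝ) (hKm : MeasurableSet K) (hμ : μ Kᶜ = 0) (hν : ν Kᶜ = 0)
    (f : (Fin n → ℝ) → ℂ) (hf : Measurable f) (C : ℝ)
    (hC : ∀ y ∈ Set.pi Set.univ (fun _ : Fin n => K), ‖f y‖ ≤ C) (ε : ℝ)
    (h : ∀ i, ∀ y ∈ Set.pi Set.univ (fun _ : Fin n => K),
      ‖(∫ t, f (Function.update y i t) ∂μ) - ∫ t, f (Function.update y i t) ∂ν‖ ≤ ε) :
    ‖(∫ y, f y ∂(Measure.pi fun _ => μ)) - ∫ y, f y ∂(Measure.pi fun _ => ν)‖ ≤ n * ε := by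
  classical
  have main : ∀ s : Finset (Fin n),
      ‖(∫ y, f y ∂(Measure.pi fun _ => μ)) -
        ∫ y, f y ∂(Measure.pi fun i => if i ∈ s then ν else μ)‖ ≤ s.card * ε := by
    intro s
    induction s using Finset.induction_on with
    | empty => simp
    | insert i s his ih =>
      have hp1 : ∀ j, IsProbabilityMeasure (if j ∈ s then ν else μ) := by
        intro j
        split_ifs <;> infer_instance
      have hp2 : ∀ j, IsProbabilityMeasure (if j ∈ insert i s then ν else μ) := by
        intro j
        split_ifs <;> infer_instance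
      have hstep := hybrid_step (fun j => if j ∈ s then ν else μ)
        (fun j => if j ∈ insert i s then ν else μ) i (by
          intro j hj
          simp [Finset.mem_insert, hj]) K (by
          intro j
          split_ifs
          · exact hν
          · exact hμ) (by
          intro j
          split_ifs
          · exact hν
          · exact hμ) f hf C hC ε (by
          intro y hy
          have := h i y hy
          simpa [his] using this)
      rw [Finset.card_insert_of_notMem his]
      push_cast
      calc _ ≤ _ := norm_sub_le_norm_sub_add_norm_sub _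
            (∫ y, f y ∂(Measure.pi fun i => if i ∈ s then ν else μ)) _
        _ ≤ s.card * ε + ε := add_le_add ih hstep
        _ = (s.card + 1) * ε := by ring
  have := main Finset.univ
  simpa using this

end LE8

end Pool.Agent.Helper78.LE
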