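import Pool.Agent.Helper78.LE.Zeta

/-! Analyticity in `s` of `GamC` and its derivative at `0`; decay summability. -/

set_option autoImplicit false

open MeasureTheory Set Filter Topology

namespace Pool.Agent.Helper78.LE

variable {d : ℕ} (b : Module.Basis (Fin d) ℝ (EV d)) (k : ℕ)

theorem ae_box : ∀ᵐ y ∂(Measure.pi fun _ : Fin d => autM k), ‖y‖ ≤ (k : ℝ) + 1 := by
  have hp := autM_prob k
  have h := ae_pi_mem (fun _ : Fin d => autM k) (Set.Icc (-((k : ℝ) + 1)) (k + 1))
    (fun _ => autM_compl k)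
  filter_upwards [h] with y hy
  rw [pi_norm_le_iff_of_nonneg (by positivity)]
  intro i
  rw [Real.norm_eq_abs, abs_le]
  exact hy i (Set.mem_univ i)

theorem cF_hasDerivAt (s : ℂ) (y : Fin d → ℝ) :
    HasDerivAt (fun s => cF b s y)
      (if y = 0 then 0 else -((Real.log ‖lin b y‖ : ℝ) : ℂ) * ((‖lin b y‖ : ℝ) : ℂ) ^ (-s)) s := by
  unfold cF
  by_cases hy : y = 0
  · simp only [hy, if_true]
    exact hasDerivAt_const _ _
  · simp only [hy, if_false]
    have h0 : 0 < ‖lin b y‖ := by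
      rw [norm_pos_iff, Ne, lin_eq_zero]
      exact hy
    have h1 : ((‖lin b y‖ : ℝ) : ℂ) ≠ 0 := by exact_mod_cast h0.ne'
    have h2 := (hasDerivAt_neg s).const_cpow (c := ((‖lin b y‖ : ℝ) : ℂ)) (Or.inl h1)
    have h3 : ((‖lin b y‖ : ℝ) : ℂ) ^ (-s) * Complex.log ((‖lin b y‖ : ℝ) : ℂ) * -1 =
        -((Real.log ‖lin b y‖ : ℝ) : ℂ) * ((‖lin b y‖ : ℝ) : ℂ) ^ (-s) := by
      rw [Complex.ofReal_log h0.le]
      ring
    rw [h3] at h2
    exact h2

theorem cG_hasDerivAt (s : ℂ) (y : Fin d → ℝ) :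
    HasDerivAt (fun s => cG b s y)
      (if ‖lin b y‖ < 1 then 0 else
        -((Real.log ‖lin b y‖ : ℝ) : ℂ) * ((‖lin b y‖ : ℝ) : ℂ) ^ (-s)) s := by
  unfold cG
  by_cases hy : ‖lin b y‖ < 1
  · simp only [hy, if_true]
    exact hasDerivAt_const _ _
  · simp only [hy, if_false]
    have h0 : 0 < ‖lin b y‖ := by linarith
    have h1 : ((‖lin b y‖ : ℝ) : ℂ) ≠ 0 := by exact_mod_cast h0.ne'
    have h2 := (hasDerivAt_neg s).const_cpow (c := ((‖lin b y‖ : ℝ) : ℂ)) (Or.inl h1)
    have h3 : ((‖lin b y‖ : ℝ) : ℂ) ^ (-s) * Complex.log ((‖lin b y‖ : ℝ) : ℂ) * -1 =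
        -((Real.log ‖lin b y‖ : ℝ) : ℂ) * ((‖lin b y‖ : ℝ) : ℂ) ^ (-s) := by
      rw [Complex.ofReal_log h0.le]
      ring
    rw [h3] at h2
    exact h2

theorem lin_measurable : Measurable (lin b) := (lin_continuous b).measurable

theorem cG_measurable (s : ℂ) : Measurable (cG b s) := by
  unfold cG
  apply Measurable.ite
  · exact measurableSet_lt (lin_measurable b).norm measurable_const
  · exact measurable_const
  · exact (Complex.measurable_ofReal.comp (lin_measurable b).norm).pow_const _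

theorem cG'_measurable (s : ℂ) : Measurable (fun y : Fin d → ℝ => if ‖lin b y‖ < 1 then (0 : ℂ) else
        -((Real.log ‖lin b y‖ : ℝ) : ℂ) * ((‖lin b y‖ : ℝ) : ℂ) ^ (-s)) := by
  apply Measurable.ite
  · exact measurableSet_lt (lin_measurable b).norm measurable_const
  · exact measurable_const
  · exact ((Complex.measurable_ofReal.comp (Real.measurable_log.comp (lin_measurable b).norm)).neg).mul
      ((Complex.measurable_ofReal.comp (lin_measurable b).norm).pow_const _)

/-- norm of `r^(-s)` for `1 ≤ r ≤ M`, `-s.re ≤ A` -/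
theorem norm_cpow_le_of (r M A : ℝ) (s : ℂ) (h1 : 1 ≤ r) (h2 : r ≤ M) (hA : 0 ≤ A)
    (hs : -s.re ≤ A) : ‖((r : ℝ) : ℂ) ^ (-s)‖ ≤ M ^ A := by
  rw [Complex.norm_cpow_eq_rpow_re_of_pos (by linarith), Complex.neg_re]
  calc r ^ (-s.re) ≤ r ^ A := Real.rpow_le_rpow_of_exponent_le h1 hs
    _ ≤ M ^ A := Real.rpow_le_rpow (by linarith) h2 hA

theorem intG_hasDerivAt (s0 : ℂ) (x : Fin d → ℤ) :
    HasDerivAt (fun s => ∫ y, cG b s (iv x + y) ∂(Measure.pi fun _ : Fin d => autM k))
      (∫ y, (if ‖lin b (iv x + y)‖ < 1 then 0 else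
        -((Real.log ‖lin b (iv x + y)‖ : ℝ) : ℂ) * ((‖lin b (iv x + y)‖ : ℝ) : ℂ) ^ (-s0))
        ∂(Measure.pi fun _ : Fin d => autM k)) s0 := by
  have hp := autM_prob k
  obtain ⟨c, C, hc, hC, hb⟩ := lin_bounds b
  set M : ℝ := C * (‖iv x‖ + (k + 1)) + 1 with hM
  have hM1 : 1 ≤ M := by
    rw [hM]
    have : 0 ≤ C * (‖iv x‖ + (k + 1)) := by positivity
    linarith
  have hbox : ∀ᵐ y ∂(Measure.pi fun _ : Fin d => autM k), ‖lin b (iv x + y)‖ ≤ M := by
    filter_upwards [ae_box (d := d) k] with y hy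
    have h1 := (hb (iv x + y)).2
    have h2 := norm_add_le (iv x) y
    have h3 : C * ‖iv x + y‖ ≤ C * (‖iv x‖ + (k + 1)) := by
      apply mul_le_mul_of_nonneg_left _ hC.le
      linarith
    rw [hM]
    linarith
  set A : ℝ := ‖s0‖ + 1 with hA
  have hA0 : 0 ≤ A := by positivity
  have hre : ∀ s ∈ Metric.ball s0 1, -s.re ≤ A := by
    intro s hs
    have h1 : |s.re| ≤ ‖s‖ := Complex.abs_re_le_norm s
    have h2 : ‖s‖ ≤ ‖s0‖ + ‖s - s0‖ := by
      have := norm_add_le s0 (s - s0)
      rwa [add_sub_cancel] at this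
    rw [Metric.mem_ball, dist_eq_norm] at hs
    have h3 := neg_abs_le s.re
    rw [hA]
    linarith
  have hmeas : Measurable (fun y : Fin d → ℝ => iv x + y) := measurable_const_add _
  refine (hasDerivAt_integral_of_dominated_loc_of_deriv_le (μ := Measure.pi fun _ : Fin d => autM k)
    (F := fun s y => cG b s (iv x + y))
    (F' := fun s y => if ‖lin b (iv x + y)‖ < 1 then 0 else
        -((Real.log ‖lin b (iv x + y)‖ : ℝ) : ℂ) * ((‖lin b (iv x + y)‖ : ℝ) : ℂ) ^ (-s))
    (bound := fun _ => Real.log M * M ^ A) (s := Metric.ball s0 1)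
    (Metric.ball_mem_nhds s0 one_pos) ?_ ?_ ?_ ?_ ?_ ?_).2
  · apply Filter.Eventually.of_forall
    intro s
    exact ((cG_measurable b s).comp hmeas).aestronglyMeasurable
  · apply Integrable.of_bound ((cG_measurable b s0).comp hmeas).aestronglyMeasurable (M ^ A)
    filter_upwards [hbox] with y hy
    show ‖(if ‖lin b (iv x + y)‖ < 1 then (0 : ℂ) else
      ((‖lin b (iv x + y)‖ : ℝ) : ℂ) ^ (-s0))‖ ≤ M ^ A
    by_cases h : ‖lin b (iv x + y)‖ < 1
    · rw [if_pos h, norm_zero]
      positivity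
    · rw [if_neg h]
      exact norm_cpow_le_of _ _ _ _ (not_lt.mp h) hy hA0 (hre s0 (Metric.mem_ball_self one_pos))
  · exact ((cG'_measurable b s0).comp hmeas).aestronglyMeasurable
  · filter_upwards [hbox] with y hy
    intro s hs
    by_cases h : ‖lin b (iv x + y)‖ < 1
    · rw [if_pos h, norm_zero]
      have := Real.log_nonneg hM1
      positivity
    · rw [if_neg h]
      rw [norm_mul, norm_neg, Complex.norm_real, Real.norm_eq_abs,
        abs_of_nonneg (Real.log_nonneg (not_lt.mp h))]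
      have h1 : Real.log ‖lin b (iv x + y)‖ ≤ Real.log M :=
        Real.log_le_log (by linarith [not_lt.mp h]) hy
      exact mul_le_mul h1 (norm_cpow_le_of _ _ _ _ (not_lt.mp h) hy hA0 (hre s hs))
        (norm_nonneg _) (Real.log_nonneg hM1)
  · exact integrable_const _
  · apply Filter.Eventually.of_forall
    intro y s _
    exact cG_hasDerivAt b s (iv x + y)

theorem intF_hasDerivAt (s0 : ℂ) (x : Fin d → ℤ) :
    HasDerivAt (fun s => ∫ y, cF b s (iv x + y) ∂(Measure.pi fun _ : Fin d => autD k))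
      (∫ y, (if iv x + y = 0 then 0 else
        -((Real.log ‖lin b (iv x + y)‖ : ℝ) : ℂ) * ((‖lin b (iv x + y)‖ : ℝ) : ℂ) ^ (-s0))
        ∂(Measure.pi fun _ : Fin d => autD k)) s0 := by
  have h0 : (fun s => ∫ y, cF b s (iv x + y) ∂(Measure.pi fun _ : Fin d => autD k)) =
      fun s => ∑ v ∈ bx d k, (∏ i, aut k (v i)) • cF b s (iv x + iv v) := by
    funext s
    rw [integral_pi_autD]
  rw [h0, integral_pi_autD]
  have h1 := HasDerivAt.sum (u := bx d k)
    (A := fun v s => (∏ i, aut k (v i)) • cF b s (iv x + iv v))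
    (A' := fun v => (∏ i, aut k (v i)) • (if iv x + iv v = 0 then 0 else
        -((Real.log ‖lin b (iv x + iv v)‖ : ℝ) : ℂ) *
          ((‖lin b (iv x + iv v)‖ : ℝ) : ℂ) ^ (-s0)))
    (x := s0) (fun v _ => ((cF_hasDerivAt b s0 (iv x + iv v)).const_smul (∏ i, aut k (v i)) :))
  apply h1.congr_of_eventuallyEq
  apply Filter.Eventually.of_forall
  intro s
  simp

theorem GamC_hasDerivAt' (s0 : ℂ) (x : Fin d → ℤ) :
    HasDerivAt (fun s => GamC b k s x)
      ((∫ y, (if iv x + y = 0 then 0 else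
        -((Real.log ‖lin b (iv x + y)‖ : ℝ) : ℂ) * ((‖lin b (iv x + y)‖ : ℝ) : ℂ) ^ (-s0))
        ∂(Measure.pi fun _ : Fin d => autD k)) -
       (∫ y, (if ‖lin b (iv x + y)‖ < 1 then 0 else
        -((Real.log ‖lin b (iv x + y)‖ : ℝ) : ℂ) * ((‖lin b (iv x + y)‖ : ℝ) : ℂ) ^ (-s0))
        ∂(Measure.pi fun _ : Fin d => autM k))) s0 :=
  (intF_hasDerivAt b k s0 x).sub (intG_hasDerivAt b k s0 x)

theorem GamC_hasDerivAt (s : ℂ) (x : Fin d → ℤ) : DifferentiableAt ℂ (fun s => GamC b k s x) s :=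
  (GamC_hasDerivAt' b k s x).differentiableAt

theorem GamC_deriv_zero (hd : 0 < d) (x : Fin d → ℤ) :
    deriv (fun s => GamC b k s x) 0 =
      ((Gam b k x + ∫ y, (if ‖lin b (iv x + y)‖ < 1 then FF b (iv x + y) else 0)
        ∂(Measure.pi fun _ : Fin d => autM k) : ℝ) : ℂ) := by
  have hp := autM_prob k
  rw [(GamC_hasDerivAt' b k 0 x).deriv]
  have hmeas : Measurable (fun y : Fin d → ℝ => iv x + y) := measurable_const_add _
  have e1 : (∫ y, (if iv x + y = 0 then (0 : ℂ) else
        -((Real.log ‖lin b (iv x + y)‖ : ℝ) : ℂ) * ((‖lin b (iv x + y)‖ : ℝ) : ℂ) ^ (-(0 : ℂ)))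
        ∂(Measure.pi fun _ : Fin d => autD k)) =
      ((∫ y, FF b (iv x + y) ∂(Measure.pi fun _ : Fin d => autD k) : ℝ) : ℂ) := by
    rw [← integral_complex_ofReal]
    apply integral_congr_ae
    apply Filter.Eventually.of_forall
    intro y
    dsimp only
    by_cases h : iv x + y = 0
    · rw [if_pos h, h]
      have : lin b (0 : Fin d → ℝ) = 0 := (lin_eq_zero b 0).mpr rfl
      simp [FF, this]
    · rw [if_neg h, neg_zero, Complex.cpow_zero, mul_one]
      simp [FF]
  have e2 : (∫ y, (if ‖lin b (iv x + y)‖ < 1 then (0 : ℂ) else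
        -((Real.log ‖lin b (iv x + y)‖ : ℝ) : ℂ) * ((‖lin b (iv x + y)‖ : ℝ) : ℂ) ^ (-(0 : ℂ)))
        ∂(Measure.pi fun _ : Fin d => autM k)) =
      ((∫ y, (if ‖lin b (iv x + y)‖ < 1 then 0 else FF b (iv x + y))
        ∂(Measure.pi fun _ : Fin d => autM k) : ℝ) : ℂ) := by
    rw [← integral_complex_ofReal]
    apply integral_congr_ae
    apply Filter.Eventually.of_forall
    intro y
    dsimp only
    by_cases h : ‖lin b (iv x + y)‖ < 1
    · simp [h]
    · rw [if_neg h, if_neg h, neg_zero, Complex.cpow_zero, mul_one]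
      simp [FF]
  rw [e1, e2]
  -- split of the continuous integral
  obtain ⟨i1, -⟩ := integral_log_ball b hd
  have j1 : Integrable (fun y => if ‖lin b (iv x + y)‖ < 1 then FF b (iv x + y) else 0)
      (Measure.pi fun _ : Fin d => autM k) := by
    rw [pi_autM_eq]
    have i2 : Integrable (fun y => if ‖lin b (iv x + y)‖ < 1 then FF b (iv x + y) else 0)
        (volume : Measure (Fin d → ℝ)) := i1.comp_add_left (iv x)
    have hm : Measurable (fun y : Fin d → ℝ => ENNReal.ofReal (∏ i, aut k (y i))) :=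
      (prod_aut_measurable k).ennreal_ofReal
    rw [integrable_withDensity_iff_integrable_smul' hm
      (Filter.Eventually.of_forall fun y => ENNReal.ofReal_lt_top)]
    refine i2.bdd_smul (φ := fun y : Fin d → ℝ => (ENNReal.ofReal (∏ i, aut k (y i))).toReal) 1
      hm.ennreal_toReal.aestronglyMeasurable ?_
    apply Filter.Eventually.of_forall
    intro y
    have h0 : 0 ≤ ∏ i, aut k (y i) := Finset.prod_nonneg fun i _ => aut_nonneg k _
    rw [ENNReal.toReal_ofReal h0, Real.norm_of_nonneg h0]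
    exact prod_aut_le_one k y
  have j2 : Integrable (fun y => if ‖lin b (iv x + y)‖ < 1 then 0 else FF b (iv x + y))
      (Measure.pi fun _ : Fin d => autM k) := by
    obtain ⟨c, C, hc, hC, hb⟩ := lin_bounds b
    apply Integrable.of_bound (C := Real.log (C * (‖iv x‖ + (k + 1)) + 1))
    · apply Measurable.aestronglyMeasurable
      apply Measurable.ite
      · exact measurableSet_lt ((lin_measurable b).comp hmeas).norm measurable_const
      · exact measurable_const
      · unfold FF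
        exact (Real.measurable_log.comp ((lin_measurable b).comp hmeas).norm).neg
    · filter_upwards [ae_box (d := d) k] with y hy
      have h1 := (hb (iv x + y)).2
      have h2 := norm_add_le (iv x) y
      have h3 : C * ‖iv x + y‖ ≤ C * (‖iv x‖ + (k + 1)) := by
        apply mul_le_mul_of_nonneg_left _ hC.le
        linarith
      have h4 : 0 ≤ C * (‖iv x‖ + (k + 1)) := by positivity
      by_cases h : ‖lin b (iv x + y)‖ < 1
      · rw [if_pos h, norm_zero]
        apply Real.log_nonneg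
        linarith
      · rw [if_neg h]
        unfold FF
        rw [norm_neg, Real.norm_eq_abs, abs_of_nonneg (Real.log_nonneg (not_lt.mp h))]
        apply Real.log_le_log (by linarith [not_lt.mp h])
        linarith
  have e3 : ∫ y, FF b (iv x + y) ∂(Measure.pi fun _ : Fin d => autM k) =
      (∫ y, (if ‖lin b (iv x + y)‖ < 1 then FF b (iv x + y) else 0)
        ∂(Measure.pi fun _ : Fin d => autM k)) +
      ∫ y, (if ‖lin b (iv x + y)‖ < 1 then 0 else FF b (iv x + y))
        ∂(Measure.pi fun _ : Fin d => autM k) := by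
    rw [← integral_add j1 j2]
    apply integral_congr_ae
    apply Filter.Eventually.of_forall
    intro y
    dsimp only
    by_cases h : ‖lin b (iv x + y)‖ < 1
    · simp [h]
    · simp [h]
  unfold Gam
  rw [e3]
  push_cast
  ring

theorem summable_decay (hk : d < 2 * k + 1) :
    Summable (fun x : Fin d → ℤ => (1 + ‖iv x‖) ^ (-(2 * (k : ℝ) + 1))) := by
  let b0 : Module.Basis (Fin d) ℝ (EV d) := (EuclideanSpace.basisFun (Fin d) ℝ).toBasis
  obtain ⟨c, C, hc, hC, hb⟩ := lin_bounds b0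
  set r : ℝ := 2 * (k : ℝ) + 1 with hr
  have hr0 : 0 < r := by positivity
  have hdr : (d : ℝ) < r := by
    rw [hr]
    exact_mod_cast hk
  have h1 := (summable_latVec b0 r hdr).mul_left (C ^ r)
  apply Summable.of_norm_bounded_eventually h1
  rw [Filter.eventually_cofinite]
  apply (Set.finite_singleton (0 : Fin d → ℤ)).subset
  intro x hx
  by_contra hx0
  apply hx
  have hx1 : iv x ≠ 0 := fun h => hx0 ((iv_eq_zero x).mp h)
  have h2 : 0 < ‖lin b0 (iv x)‖ := by
    rw [norm_pos_iff, Ne, lin_eq_zero]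
    exact hx1
  rw [latVec_eq, Real.norm_of_nonneg (by positivity)]
  have h3 : ‖lin b0 (iv x)‖ ≤ C * (1 + ‖iv x‖) := by
    have := (hb (iv x)).2
    nlinarith
  have h4 : 0 < 1 + ‖iv x‖ := by positivity
  rw [Real.rpow_neg h4.le, Real.rpow_neg h2.le, ← div_eq_mul_inv, inv_eq_one_div,
    div_le_div_iff₀ (by positivity) (by positivity), one_mul, ← Real.mul_rpow hC.le h4.le]
  exact Real.rpow_le_rpow h2.le h3 hr0.le

end Pool.Agent.Helper78.LE
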