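import Pool.Agent.Helper78.LE.LE0
import Pool.Agent.Helper78.LE.LE7
import Pool.Agent.Helper78.LE.LE8

/-! Product measures built from `autD` and `autM`. -/

set_option autoImplicit false

open MeasureTheory Set Filter Topology

namespace Pool.Agent.Helper78.LE

variable {d : ℕ} (k : ℕ)

/-- the finite box supporting the discrete law -/
noncomputable def bx (d k : ℕ) : Finset (Fin d → ℤ) :=
  Fintype.piFinset fun _ : Fin d => Finset.Icc (-(k + 1 : ℤ)) (k + 1)

theorem iv_measurableSet (s : Fin d → Set ℝ) (x : Fin d → ℤ) :
    (Set.pi Set.univ s).indicator (1 : (Fin d → ℝ) → ENNReal) (iv x) =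
      ∏ i, (s i).indicator (1 : ℝ → ENNReal) (x i : ℝ) := by
  classical
  by_cases h : ∀ i, (x i : ℝ) ∈ s i
  · have h1 : iv x ∈ Set.pi Set.univ s := by
      intro i _
      exact h i
    rw [Set.indicator_of_mem h1]
    rw [Finset.prod_eq_one]
    · rfl
    · intro i _
      rw [Set.indicator_of_mem (h i)]
      rfl
  · have h1 : iv x ∉ Set.pi Set.univ s := by
      intro hx
      exact h (fun i => hx i (Set.mem_univ _))
    rw [Set.indicator_of_notMem h1]
    push Not at h
    obtain ⟨i, hi⟩ := h
    rw [Finset.prod_eq_zero (Finset.mem_univ i)]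
    rw [Set.indicator_of_notMem hi]

theorem pi_autD_eq [SigmaFinite (autD k)] : (Measure.pi fun _ : Fin d => autD k) =
    ∑ v ∈ bx d k, (∏ i, ENNReal.ofReal (aut k (v i))) • Measure.dirac (iv v) := by
  apply Measure.pi_eq
  intro s hs
  have hpi : MeasurableSet (Set.pi Set.univ s) := MeasurableSet.univ_pi hs
  have h1 : ∀ i, autD k (s i) = ∑ v ∈ Finset.Icc (-(k + 1 : ℤ)) (k + 1),
      ENNReal.ofReal (aut k v) * (s i).indicator (1 : ℝ → ENNReal) (v : ℝ) := by
    intro i
    unfold autD
    rw [Measure.finsetSum_apply]
    apply Finset.sum_congr rfl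
    intro v _
    rw [Measure.smul_apply, Measure.dirac_apply' _ (hs i), smul_eq_mul]
  simp_rw [h1]
  rw [Finset.prod_univ_sum, Measure.finsetSum_apply]
  apply Finset.sum_congr rfl
  intro v _
  rw [Measure.smul_apply, Measure.dirac_apply' _ hpi, smul_eq_mul, iv_measurableSet,
    Finset.prod_mul_distrib]

theorem integral_pi_autD {E : Type*} [NormedAddCommGroup E] [NormedSpace ℝ E] [CompleteSpace E]
    (F : (Fin d → ℝ) → E) :
    ∫ y, F y ∂(Measure.pi fun _ : Fin d => autD k) =
      ∑ v ∈ bx d k, (∏ i, aut k (v i)) • F (iv v) := by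
  have := autD_prob k
  rw [pi_autD_eq, integral_finsetSum_measure]
  · apply Finset.sum_congr rfl
    intro v _
    rw [integral_smul_measure, integral_dirac]
    congr 1
    rw [ENNReal.toReal_prod]
    apply Finset.prod_congr rfl
    intro i _
    rw [ENNReal.toReal_ofReal (aut_nonneg k _)]
  · intro v _
    apply Integrable.smul_measure
    · exact integrable_dirac (by simp)
    · apply ENNReal.prod_ne_top
      intro i _
      exact ENNReal.ofReal_ne_top

theorem pi_autM_eq : (Measure.pi fun _ : Fin d => autM k) =
    (volume : Measure (Fin d → ℝ)).withDensity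
      (fun y => ENNReal.ofReal (∏ i, aut k (y i))) := by
  have := autM_prob k
  symm
  have hm : Measurable (fun y : Fin d → ℝ => ENNReal.ofReal (∏ i, aut k (y i))) := by
    apply Measurable.ennreal_ofReal
    apply Finset.measurable_prod
    intro i _
    exact (aut_measurable k).comp (measurable_pi_apply i)
  apply (Measure.pi_eq _).symm
  intro s hs
  rw [withDensity_apply _ (MeasurableSet.univ_pi hs)]
  have hai : Integrable (aut k) := aut_integrable k
  have h1 : ∀ i, autM k (s i) = ENNReal.ofReal (∫ y, (s i).indicator (aut k) y) := by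
    intro i
    unfold autM
    rw [withDensity_apply _ (hs i), ofReal_integral_eq_lintegral_ofReal
      (hai.indicator (hs i)) (Filter.Eventually.of_forall fun y =>
        Set.indicator_nonneg (fun z _ => aut_nonneg k z) y), ← lintegral_indicator (hs i)]
    apply lintegral_congr
    intro y
    by_cases h : y ∈ s i
    · rw [Set.indicator_of_mem h, Set.indicator_of_mem h]
    · rw [Set.indicator_of_notMem h, Set.indicator_of_notMem h, ENNReal.ofReal_zero]
  simp_rw [h1]
  rw [← ENNReal.ofReal_prod_of_nonneg (fun i _ => integral_nonneg fun y =>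
    Set.indicator_nonneg (fun z _ => aut_nonneg k z) y)]
  rw [← integral_fintype_prod_volume_eq_prod (fun i => (s i).indicator (aut k))]
  rw [ofReal_integral_eq_lintegral_ofReal]
  · rw [← lintegral_indicator (MeasurableSet.univ_pi hs)]
    apply lintegral_congr
    intro y
    by_cases h : y ∈ Set.pi Set.univ s
    · rw [Set.indicator_of_mem h]
      congr 1
      apply Finset.prod_congr rfl
      intro i _
      rw [Set.indicator_of_mem (h i (Set.mem_univ _))]
    · rw [Set.indicator_of_notMem h]
      have : ∃ i, y i ∉ s i := by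
        by_contra hc
        push Not at hc
        exact h (fun i _ => hc i)
      obtain ⟨i, hi⟩ := this
      rw [Finset.prod_eq_zero (Finset.mem_univ i), ENNReal.ofReal_zero]
      rw [Set.indicator_of_notMem hi]
  · exact Integrable.fintype_prod (fun i => hai.indicator (hs i))
  · apply Filter.Eventually.of_forall
    intro y
    exact Finset.prod_nonneg fun i _ => Set.indicator_nonneg (fun z _ => aut_nonneg k z) _

theorem integral_pi_autM {E : Type*} [NormedAddCommGroup E] [NormedSpace ℝ E]
    (F : (Fin d → ℝ) → E) :
    ∫ y, F y ∂(Measure.pi fun _ : Fin d => autM k) = ∫ y, (∏ i, aut k (y i)) • F y := by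
  rw [pi_autM_eq, integral_withDensity_eq_integral_toReal_smul]
  · apply integral_congr_ae
    apply Filter.Eventually.of_forall
    intro y
    dsimp only
    rw [ENNReal.toReal_ofReal (Finset.prod_nonneg fun i _ => aut_nonneg k _)]
  · apply Measurable.ennreal_ofReal
    apply Finset.measurable_prod
    intro i _
    exact (aut_measurable k).comp (measurable_pi_apply i)
  · apply Filter.Eventually.of_forall
    intro y
    exact ENNReal.ofReal_lt_top

end Pool.Agent.Helper78.LE
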