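import Pool.Agent.Helper78.LE.PiAut

/-! Unfolding against the spline laws. -/

set_option autoImplicit false

open MeasureTheory Set Filter Topology

namespace Pool.Agent.Helper78.LE

variable {d : ℕ} (b : Module.Basis (Fin d) ℝ (EV d)) (k : ℕ)

theorem hasSum_prod_aut (y : Fin d → ℝ) :
    HasSum (fun x : Fin d → ℤ => ∏ i, aut k (y i - x i)) 1 := by
  classical
  set S : Fin d → Finset ℤ := fun i => Finset.Icc ⌊y i - (k + 1)⌋ ⌈y i + (k + 1)⌉ with hS
  have h0 : ∀ i, ∀ v : ℤ, v ∉ S i → aut k (y i - v) = 0 := by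
    intro i v hv
    apply aut_eq_zero
    rw [hS, Finset.mem_Icc, not_and_or, not_le, not_le] at hv
    rcases hv with hv | hv
    · have h1 : (v : ℝ) + 1 ≤ y i - (k + 1) := by
        have h2 : v + 1 ≤ ⌊y i - (k + 1)⌋ := hv
        have h3 : ((v + 1 : ℤ) : ℝ) ≤ (⌊y i - (k + 1)⌋ : ℝ) := by exact_mod_cast h2
        have h4 := Int.floor_le (y i - (k + 1))
        push_cast at h3
        linarith
      rw [abs_of_nonneg (by linarith)]
      linarith
    · have h1 : y i + (k + 1) ≤ (v : ℝ) - 1 := by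
        have h2 : ⌈y i + (k + 1)⌉ ≤ v - 1 := by omega
        have h3 : (⌈y i + (k + 1)⌉ : ℝ) ≤ ((v - 1 : ℤ) : ℝ) := by exact_mod_cast h2
        have h4 := Int.le_ceil (y i + (k + 1))
        push_cast at h3
        linarith
      rw [abs_of_nonpos (by linarith)]
      linarith
  have h1 : ∀ i, ∑ v ∈ S i, aut k (y i - v) = 1 := by
    intro i
    have : HasSum (fun v : ℤ => aut k (y i - v)) (∑ v ∈ S i, aut k (y i - v)) :=
      hasSum_sum_of_ne_finset_zero (fun v hv => h0 i v hv)
    exact this.unique (hasSum_aut k (y i))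
  have h2 : ∑ x ∈ Fintype.piFinset S, ∏ i, aut k (y i - x i) = 1 := by
    rw [← Finset.prod_univ_sum (f := fun i v => aut k (y i - (v : ℤ)))]
    exact Finset.prod_eq_one fun i _ => h1 i
  rw [← h2]
  apply hasSum_sum_of_ne_finset_zero
  intro x hx
  rw [Fintype.mem_piFinset, not_forall] at hx
  obtain ⟨i, hi⟩ := hx
  exact Finset.prod_eq_zero (Finset.mem_univ i) (h0 i _ hi)

theorem prod_aut_le_one (y : Fin d → ℝ) : ∏ i, aut k (y i) ≤ 1 :=
  Finset.prod_le_one (fun i _ => aut_nonneg k _) (fun i _ => aut_le_one k _)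

theorem prod_aut_measurable : Measurable (fun y : Fin d → ℝ => ∏ i, aut k (y i)) :=
  Finset.measurable_prod _ fun i _ => (aut_measurable k).comp (measurable_pi_apply i)

theorem shift_autM {E : Type*} [NormedAddCommGroup E] [NormedSpace ℝ E]
    (f : (Fin d → ℝ) → E) (x : Fin d → ℤ) :
    ∫ y, f (iv x + y) ∂(Measure.pi fun _ : Fin d => autM k) =
      ∫ y, (∏ i, aut k (y i - x i)) • f y := by
  rw [integral_pi_autM, ← integral_add_left_eq_self
    (fun y : Fin d → ℝ => (∏ i, aut k (y i - x i)) • f y) (iv x)]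
  apply integral_congr_ae
  apply Filter.Eventually.of_forall
  intro y
  have : ∀ i, (iv x + y) i - (x i : ℝ) = y i := by
    intro i
    simp [iv]
  simp only [this]

theorem tsum_autM (f : (Fin d → ℝ) → ℂ) (hf : Integrable f) :
    HasSum (fun x : Fin d → ℤ => ∫ y, f (iv x + y) ∂(Measure.pi fun _ : Fin d => autM k))
      (∫ y, f y) := by
  simp_rw [shift_autM]
  have hint : ∀ x : Fin d → ℤ, Integrable (fun y : Fin d → ℝ =>
      (∏ i, aut k (y i - x i)) • f y) := by
    intro x
    refine hf.bdd_smul (φ := fun y : Fin d → ℝ => ∏ i, aut k (y i - x i)) 1 ?_ ?_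
    · exact ((Finset.measurable_prod _ fun i _ => (aut_measurable k).comp
        ((measurable_pi_apply i).sub_const _))).aestronglyMeasurable
    · apply Filter.Eventually.of_forall
      intro y
      rw [Real.norm_of_nonneg (Finset.prod_nonneg fun i _ => aut_nonneg k _)]
      exact Finset.prod_le_one (fun i _ => aut_nonneg k _) (fun i _ => aut_le_one k _)
  have hs : Summable (fun x : Fin d → ℤ => ∫ y, ‖(∏ i, aut k (y i - x i)) • f y‖) := by
    apply summable_of_sum_le (c := ∫ y, ‖f y‖)
    · intro x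
      exact integral_nonneg fun y => norm_nonneg _
    · intro u
      rw [← integral_finsetSum u (fun x _ => (hint x).norm)]
      apply integral_mono (integrable_finsetSum u (fun x _ => (hint x).norm)) hf.norm
      intro y
      dsimp only
      have h1 : ∀ x : Fin d → ℤ, ‖(∏ i, aut k (y i - x i)) • f y‖ =
          (∏ i, aut k (y i - x i)) * ‖f y‖ := by
        intro x
        rw [norm_smul, Real.norm_of_nonneg (Finset.prod_nonneg fun i _ => aut_nonneg k _)]
      simp_rw [h1]
      rw [← Finset.sum_mul]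
      have h2 : ∑ x ∈ u, ∏ i, aut k (y i - x i) ≤ 1 :=
        sum_le_hasSum u (fun x _ => Finset.prod_nonneg fun i _ => aut_nonneg k _)
          (hasSum_prod_aut k y)
      calc (∑ x ∈ u, ∏ i, aut k (y i - x i)) * ‖f y‖ ≤ 1 * ‖f y‖ :=
            mul_le_mul_of_nonneg_right h2 (norm_nonneg _)
        _ = ‖f y‖ := one_mul _
  have h := hasSum_integral_of_summable_integral_norm hint hs
  have h3 : (fun y : Fin d → ℝ => ∑' x : Fin d → ℤ, (∏ i, aut k (y i - x i)) • f y) = f := by
    funext y
    rw [((hasSum_prod_aut k y).smul_const (f y)).tsum_eq, one_smul]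
  rw [h3] at h
  exact h

end Pool.Agent.Helper78.LE
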