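import Pool.Agent.Helper78.LE.Values

/-! Analytic continuation of the lattice zeta function and its derivative at `0`. -/

set_option autoImplicit false

open MeasureTheory Set Filter Topology

namespace Pool.Agent.Helper78.LE

variable {d : ℕ} (b : Module.Basis (Fin d) ℝ (EV d)) (k : ℕ)

theorem sum_bx : ∑ v ∈ bx d k, ∏ i, aut k (v i) = 1 := by
  have h := integral_pi_autD (d := d) k (fun _ => (1 : ℝ))
  have hp := autD_prob k
  rw [integral_const, probReal_univ, one_smul] at h
  simp only [smul_eq_mul, mul_one] at h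
  exact h.symm

theorem iv_add (x v : Fin d → ℤ) : iv x + iv v = iv (x + v) := by
  funext i
  simp [iv]

theorem iv_eq_zero (x : Fin d → ℤ) : iv x = 0 ↔ x = 0 := by
  constructor
  · intro h
    funext i
    have := congrFun h i
    simpa [iv] using this
  · rintro rfl
    funext i
    simp [iv]

theorem hasSum_cF (s : ℂ) (hs : (d : ℝ) < s.re) :
    HasSum (fun x : Fin d → ℤ => cF b s (iv x))
      (∑' n : {n : Fin d → ℤ // n ≠ 0}, ((‖latVec b n.1‖ : ℝ) : ℂ) ^ (-s)) := by
  have h0 : (fun x : Fin d → ℤ => cF b s (iv x)) =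
      ({n : Fin d → ℤ | n ≠ 0}).indicator (fun n => ((‖latVec b n‖ : ℝ) : ℂ) ^ (-s)) := by
    funext x
    unfold cF
    by_cases hx : x = 0
    · rw [if_pos ((iv_eq_zero x).mpr hx), Set.indicator_of_notMem (by simpa using hx)]
    · rw [if_neg (fun h => hx ((iv_eq_zero x).mp h)), Set.indicator_of_mem (by simpa using hx),
        latVec_eq]
  have h1 : Summable (fun n : {n : Fin d → ℤ // n ≠ 0} =>
      ((‖latVec b n.1‖ : ℝ) : ℂ) ^ (-s)) := by
    apply Summable.of_norm
    have h2 := (summable_latVec b s.re hs).comp_injective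
      (Subtype.val_injective (p := fun n : Fin d → ℤ => n ≠ 0))
    refine h2.congr ?_
    intro n
    have h3 : 0 < ‖latVec b n.1‖ := by
      rw [latVec_eq, norm_pos_iff, Ne, lin_eq_zero, iv_eq_zero]
      exact n.2
    rw [Function.comp_apply, Complex.norm_cpow_eq_rpow_re_of_pos h3, Complex.neg_re]
  rw [h0]
  exact hasSum_subtype_iff_indicator.mp h1.hasSum

theorem tsum_autD (s : ℂ) (hs : (d : ℝ) < s.re) :
    HasSum (fun x : Fin d → ℤ => ∫ y, cF b s (iv x + y) ∂(Measure.pi fun _ : Fin d => autD k))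
      (∑' n : {n : Fin d → ℤ // n ≠ 0}, ((‖latVec b n.1‖ : ℝ) : ℂ) ^ (-s)) := by
  set ζ := ∑' n : {n : Fin d → ℤ // n ≠ 0}, ((‖latVec b n.1‖ : ℝ) : ℂ) ^ (-s) with hζ
  have h1 : ∀ v : Fin d → ℤ, HasSum (fun x : Fin d → ℤ => cF b s (iv x + iv v)) ζ := by
    intro v
    have h := (Equiv.addRight v).hasSum_iff.mpr (hasSum_cF b s hs)
    refine h.congr_fun ?_
    intro x
    simp only [Function.comp_apply, Equiv.coe_addRight]
    rw [iv_add]
  have h2 : HasSum (fun x : Fin d → ℤ => ∑ v ∈ bx d k, (∏ i, aut k (v i)) • cF b s (iv x + iv v))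
      (∑ v ∈ bx d k, (∏ i, aut k (v i)) • ζ) :=
    hasSum_sum fun v _ => (h1 v).const_smul _
  rw [← Finset.sum_smul, sum_bx, one_smul] at h2
  refine h2.congr_fun ?_
  intro x
  rw [integral_pi_autD]

end Pool.Agent.Helper78.LE
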